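import Pool.Agent.MP_41f2d3_co.Omega

/-! Large cliques, first part. -/

namespace Pool.Agent.MP_41f2d3_co

open Finset Classical

noncomputable section

variable {V : Type}

lemma F5_of_big {G : SimpleGraph V} (hP : PF G) {S K : Finset V} (h : MC G S K)
    (hc : 6 ≤ K.card) : F5 G (S \ K) := by
  intro a ha b hb c hc' d hd e he h1 h2 h3 h4 n1 n2 n3 n4 n5 n6
  rw [mem_sdiff] at ha hb hc' hd he
  obtain ⟨z, _, p⟩ := h.avoid {a, b, c, d, e} (by
    intro z hz; simp only [mem_insert, mem_singleton] at hz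
    rcases hz with rfl | rfl | rfl | rfl | rfl; exacts [ha.1, hb.1, hc'.1, hd.1, he.1])
    (lt_of_le_of_lt card_le_five hc)
  exact hP a b c d e z h1 h2 h3 h4 n1 n2 n3 n4 n5 n6 (ns ((p a (by simp)).2 ha.2))
    (ns ((p b (by simp)).2 hb.2)) (ns ((p c (by simp)).2 hc'.2)) (ns ((p d (by simp)).2 hd.2))
    (ns ((p e (by simp)).2 he.2))

lemma W_nobi {G : SimpleGraph V} (hD : DF G) {S K : Finset V} (h : MC G S K)
    (hb : ∀ u ∈ S \ K, ∀ w ∈ S \ K, ∀ x ∈ K, G.Adj u w → G.Adj u x → G.Adj w x) :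
    W G 2 (S.filter (fun v => v ∈ K ∨ ∃ x ∈ K, G.Adj v x)) ∧
    ∀ u ∈ S.filter (fun v => v ∈ K ∨ ∃ x ∈ K, G.Adj v x), ∀ w ∈ S, G.Adj u w →
      w ∈ S.filter (fun v => v ∈ K ∨ ∃ x ∈ K, G.Adj v x) := by
  constructor
  · refine W_of_prime le_rfl _ (fun S' hS' hne _ ht hp => ?_)
    exfalso
    have hS : ∀ v ∈ S', v ∈ S := fun v hv => (mem_filter.1 (hS' hv)).1
    by_cases hu : ∃ u ∈ S', u ∉ K
    · obtain ⟨u, hu, huK⟩ := hu
      obtain ⟨x, hx, ux⟩ := (mem_filter.1 (hS' hu)).2.resolve_left huK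
      obtain ⟨u', hu', hu'K, uu'⟩ : ∃ u' ∈ S', u' ∉ K ∧ G.Adj u u' := by
        obtain ⟨y, hy, z, hz, yz, uy, uz⟩ := hp u hu
        by_cases e : y ∈ K
        · exact ⟨z, hz, fun e' => yz (h.one u (hS u hu) huK y e z e' uy uz), uz⟩
        · exact ⟨y, hy, e, uy⟩
      have key : ∀ u ∈ S', ∀ u' ∈ S', u ∉ K → u' ∉ K → G.Adj u u' → G.Adj u x → G.Adj u' x →
          ∀ z ∈ S', z ≠ u' → G.Adj u z → G.Adj u' z := by
        intro u hu u' hu' huK _ uu' ux u'x z hz zu' uz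
        by_cases e : z ∈ K
        · exact h.one u (hS u hu) huK x hx z e ux uz ▸ u'x
        · have zx := hb u (mem_sdiff.2 ⟨hS u hu, huK⟩) z (mem_sdiff.2 ⟨hS z hz, e⟩) x hx uz ux
          exact hD u x u' z ux uu' uz u'x.symm zx.symm zu'.symm
      have u'x := hb u (mem_sdiff.2 ⟨hS u hu, huK⟩) u' (mem_sdiff.2 ⟨hS u' hu', hu'K⟩) x hx uu' ux
      exact uu'.ne (ht u hu u' hu' (fun z hz z1 z2 =>
        ⟨key u hu u' hu' huK hu'K uu' ux u'x z hz z2,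
          key u' hu' u hu hu'K huK uu'.symm u'x ux z hz z1⟩))
    · push Not at hu
      obtain ⟨x, hx⟩ := hne
      obtain ⟨y, hy, _, _, _, xy, _⟩ := hp x hx
      exact xy.ne (ht x hx y hy (fun z hz z1 z2 =>
        ⟨fun _ => h.cl y (hu y hy) z (hu z hz) z2.symm,
          fun _ => h.cl x (hu x hx) z (hu z hz) z1.symm⟩))
  · intro u hu w hw uw
    obtain ⟨huS, hu⟩ := mem_filter.1 hu
    refine mem_filter.2 ⟨hw, ?_⟩
    by_cases wK : w ∈ K
    · exact Or.inl wK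
    by_cases uK : u ∈ K
    · exact Or.inr ⟨u, uK, uw.symm⟩
    obtain ⟨x, hx, ux⟩ := hu.resolve_left uK
    exact Or.inr ⟨x, hx, hb u (mem_sdiff.2 ⟨huS, uK⟩) w (mem_sdiff.2 ⟨hw, wK⟩) x hx uw ux⟩

lemma pick5 (P1 P2 P3 P4 : Fin 5 → Prop) (h1 : ∀ i j, P1 i → P1 j → i = j)
    (h2 : ∀ i j, P2 i → P2 j → i = j) (h3 : ∀ i j, P3 i → P3 j → i = j)
    (h4 : ∀ i j, P4 i → P4 j → i = j) : ∃ i, ¬ P1 i ∧ ¬ P2 i ∧ ¬ P3 i ∧ ¬ P4 i := by
  by_contra hh
  push Not at hh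
  have c : ∀ P : Fin 5 → Prop, (∀ i j, P i → P j → i = j) → (univ.filter P).card ≤ 1 := by
    intro P h
    rw [card_le_one]
    intro a ha b hb
    exact h a b (mem_filter.1 ha).2 (mem_filter.1 hb).2
  have hs : (univ : Finset (Fin 5)) ⊆
      univ.filter P1 ∪ (univ.filter P2 ∪ (univ.filter P3 ∪ univ.filter P4)) := by
    intro i _
    have := hh i
    simp only [mem_union, mem_filter, mem_univ, true_and]
    tauto
  have e1 := card_le_card hs
  have e2 := card_union_le (univ.filter P1) (univ.filter P2 ∪ (univ.filter P3 ∪ univ.filter P4))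
  have e3 := card_union_le (univ.filter P2) (univ.filter P3 ∪ univ.filter P4)
  have e4 := card_union_le (univ.filter P3) (univ.filter P4)
  have := c P1 h1
  have := c P2 h2
  have := c P3 h3
  have := c P4 h4
  simp only [card_univ, Fintype.card_fin] at e1
  omega

/-- two disjoint maximal cliques joined by a matching with five edges -/
structure Mt (G : SimpleGraph V) (S K Q : Finset V) (m n : Fin 5 → V) : Prop where
  hK : MC G S K
  hQ : MC G S Q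
  disj : ∀ x ∈ K, x ∉ Q
  hm : ∀ i, m i ∈ K
  hn : ∀ i, n i ∈ Q
  im : Function.Injective m
  inj : Function.Injective n
  adj : ∀ i, G.Adj (m i) (n i)

lemma Mt.symm {G : SimpleGraph V} {S K Q : Finset V} {m n : Fin 5 → V} (h : Mt G S K Q m n) :
    Mt G S Q K n m :=
  ⟨h.hQ, h.hK, fun x hx hx' => h.disj x hx' hx, h.hn, h.hm, h.inj, h.im, fun i => (h.adj i).symm⟩

lemma Mt.path {G : SimpleGraph V} {S K Q : Finset V} {m n : Fin 5 → V} (h : Mt G S K Q m n)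
    {c b' z : V} (hc : c ∈ S) (cK : c ∉ K) (cQ : c ∉ Q) (hb' : b' ∈ Q) (cb' : G.Adj c b')
    (hz : z ∈ S) (zK : z ∉ K) (zQ : z ∉ Q) :
    ∃ a ∈ S, ∃ a' ∈ S, ∃ b ∈ S, G.Adj a a' ∧ G.Adj a' b ∧ G.Adj b b' ∧ ¬ G.Adj a b ∧
      ¬ G.Adj a b' ∧ ¬ G.Adj a c ∧ ¬ G.Adj a' b' ∧ ¬ G.Adj a' c ∧ ¬ G.Adj b c ∧
      ¬ G.Adj z a ∧ ¬ G.Adj z a' ∧ ¬ G.Adj z b := by
  obtain ⟨i, p1, p2, p3, p4⟩ := pick5 (fun i => n i = b') (fun i => G.Adj c (m i))
    (fun i => G.Adj z (m i)) (fun i => G.Adj z (n i))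
    (fun i j e1 e2 => h.inj (e1.trans e2.symm))
    (fun i j e1 e2 => h.im (h.hK.one c hc cK _ (h.hm i) _ (h.hm j) e1 e2))
    (fun i j e1 e2 => h.im (h.hK.one z hz zK _ (h.hm i) _ (h.hm j) e1 e2))
    (fun i j e1 e2 => h.inj (h.hQ.one z hz zQ _ (h.hn i) _ (h.hn j) e1 e2))
  have hKc : 5 ≤ K.card := by
    have : univ.image m ⊆ K := by
      intro x hx
      obtain ⟨i, _, rfl⟩ := mem_image.1 hx
      exact h.hm i
    have := card_le_card this
    rwa [card_image_of_injective _ h.im, card_univ, Fintype.card_fin] at this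
  have b'K : b' ∉ K := fun e => h.disj _ e hb'
  have nK : n i ∉ K := fun e => h.disj _ e (h.hn i)
  obtain ⟨a, ha, p⟩ := h.hK.avoid {m i, b', c, z} (by
    intro z hz; simp only [mem_insert, mem_singleton] at hz
    rcases hz with rfl | rfl | rfl | rfl
    exacts [h.hK.sub (h.hm i), h.hQ.sub hb', hc, hz]) (lt_of_le_of_lt card_le_four hKc)
  have am : a ≠ m i := (p (m i) (by simp)).1 (h.hm i)
  refine ⟨a, h.hK.sub ha, m i, h.hK.sub (h.hm i), n i, h.hQ.sub (h.hn i),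
    h.hK.cl _ ha _ (h.hm i) am, h.adj i, h.hQ.cl _ (h.hn i) _ hb' p1, ?_,
    ns ((p b' (by simp)).2 b'K), ns ((p c (by simp)).2 cK), ?_, ns p2, ?_,
    (p z (by simp)).2 zK, p3, p4⟩
  · intro e
    exact am (h.hK.one _ (h.hQ.sub (h.hn i)) nK _ ha _ (h.hm i) e.symm (h.adj i).symm)
  · intro e
    exact p1 (h.hQ.one _ (h.hK.sub (h.hm i)) (h.disj _ (h.hm i)) _ (h.hn i) _ hb' (h.adj i) e)
  · intro e
    exact p1 (h.hQ.one _ hc cQ _ (h.hn i) _ hb' e.symm cb')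

lemma W_two_cl {G : SimpleGraph V} (hD : DF G) {S K Q A : Finset V} (hK : MC G S K)
    (hQ : MC G S Q) (hA : A ⊆ K ∪ Q) : W G c3Cl A := by
  refine W_three_cl hD (fun x => if x ∈ K then 0 else 1) ?_
  intro x hx y hy e hne
  by_cases e1 : x ∈ K <;> by_cases e2 : y ∈ K
  · exact hK.cl x e1 y e2 hne
  · simp [e1, e2] at e
  · simp [e1, e2] at e
  · exact hQ.cl x ((mem_union.1 (hA hx)).resolve_left e1) y
      ((mem_union.1 (hA hy)).resolve_left e2) hne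

lemma W_match_P5 {G : SimpleGraph V} (hD : DF G) {S K Q : Finset V} {m n : Fin 5 → V}
    (h : Mt G S K Q m n) (h5 : F5 G S) (hc : Conn G S) : W G c3Cl S := by
  refine W_two_cl hD h.hK h.hQ (hc _ (union_subset h.hK.sub h.hQ.sub)
    ⟨m 0, mem_union_left _ (h.hm 0)⟩ ?_)
  intro x hx y hy xy
  by_contra hn
  rw [mem_union, not_or] at hn
  rcases mem_union.1 hx with hx | hx
  · obtain ⟨a, ha, a', ha', b, hb, e1, e2, e3, n1, n2, n3, n4, n5, n6, _⟩ :=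
      h.symm.path hy hn.2 hn.1 hx xy.symm hy hn.2 hn.1
    exact h5 a ha a' ha' b hb x (h.hK.sub hx) y hy e1 e2 e3 xy n1 n2 n3 n4 n5 n6
  · obtain ⟨a, ha, a', ha', b, hb, e1, e2, e3, n1, n2, n3, n4, n5, n6, _⟩ :=
      h.path hy hn.1 hn.2 hx xy.symm hy hn.1 hn.2
    exact h5 a ha a' ha' b hb x (h.hQ.sub hx) y hy e1 e2 e3 xy n1 n2 n3 n4 n5 n6

lemma Mt.clique {G : SimpleGraph V} (hD : DF G) (hP : PF G) {S K Q : Finset V} {m n : Fin 5 → V}
    (h : Mt G S K Q m n)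
    (h3 : 2 < (Q.filter (fun b => ∃ c ∈ S, c ∉ K ∧ c ∉ Q ∧ G.Adj c b)).card) :
    ∀ z ∈ S, z ∉ K → z ∉ Q → ∀ w ∈ S, w ∉ K → w ∉ Q → z ≠ w → G.Adj z w := by
  have key : ∀ c ∈ S, c ∉ K → c ∉ Q → ∀ b' ∈ Q, G.Adj c b' → ∀ z ∈ S, z ∉ K → z ∉ Q →
      ¬ G.Adj z b' → G.Adj z c := by
    intro c hc cK cQ b' hb' cb' z hz zK zQ zb'
    by_contra zc
    obtain ⟨a, _, a', _, b, _, e1, e2, e3, n1, n2, n3, n4, n5, n6, n7, n8, n9⟩ :=
      h.path hc cK cQ hb' cb' hz zK zQ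
    exact hP a a' b b' c z e1 e2 e3 cb'.symm n1 n2 n3 n4 n5 n6 n7 n8 n9 zb' zc
  obtain ⟨b1, hb1, b2, hb2, b3, hb3, d12, d13, d23⟩ := two_lt_card.1 h3
  obtain ⟨q1, c1, s1, k1, r1, a1⟩ := mem_filter.1 hb1
  obtain ⟨q2, c2, s2, k2, r2, a2⟩ := mem_filter.1 hb2
  obtain ⟨q3, c3, s3, k3, r3, a3⟩ := mem_filter.1 hb3
  have one := h.hQ.one
  have c12 : G.Adj c1 c2 := key c2 s2 k2 r2 b2 q2 a2 c1 s1 k1 r1
    (fun e => d12 (one c1 s1 r1 b1 q1 b2 q2 a1 e))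
  have c13 : G.Adj c1 c3 := key c3 s3 k3 r3 b3 q3 a3 c1 s1 k1 r1
    (fun e => d13 (one c1 s1 r1 b1 q1 b3 q3 a1 e))
  have c23 : G.Adj c2 c3 := key c3 s3 k3 r3 b3 q3 a3 c2 s2 k2 r2
    (fun e => d23 (one c2 s2 r2 b2 q2 b3 q3 a2 e))
  have all : ∀ z ∈ S, z ∉ K → z ∉ Q → (z = c1 ∨ G.Adj z c1) ∧ (z = c2 ∨ G.Adj z c2) := by
    intro z hz zK zQ
    have t1 := key c1 s1 k1 r1 b1 q1 a1 z hz zK zQ
    have t2 := key c2 s2 k2 r2 b2 q2 a2 z hz zK zQ
    have t3 := key c3 s3 k3 r3 b3 q3 a3 z hz zK zQ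
    by_cases e1 : G.Adj z b1
    · have u2 := t2 (fun e => d12 (one z hz zQ b1 q1 b2 q2 e1 e))
      have u3 := t3 (fun e => d13 (one z hz zQ b1 q1 b3 q3 e1 e))
      refine ⟨?_, Or.inr u2⟩
      by_cases e : z = c1
      · exact Or.inl e
      · exact Or.inr (hD c2 c3 z c1 c23 u2.symm c12.symm u3.symm c13.symm e)
    by_cases e2 : G.Adj z b2
    · have u1 := t1 e1
      have u3 := t3 (fun e => d23 (one z hz zQ b2 q2 b3 q3 e2 e))
      refine ⟨Or.inr u1, ?_⟩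
      by_cases e : z = c2
      · exact Or.inl e
      · exact Or.inr (hD c1 c3 z c2 c13 u1.symm c12 u3.symm c23.symm e)
    · exact ⟨Or.inr (t1 e1), Or.inr (t2 e2)⟩
  intro z hz zK zQ w hw wK wQ zw
  obtain ⟨z1, z2⟩ := all z hz zK zQ
  obtain ⟨w1, w2⟩ := all w hw wK wQ
  rcases z1 with rfl | z1
  · exact (w1.resolve_left zw.symm).symm
  rcases z2 with rfl | z2
  · exact (w2.resolve_left zw.symm).symm
  rcases w1 with rfl | w1
  · exact z1
  rcases w2 with rfl | w2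
  · exact z2
  exact hD c1 c2 z w c12 z1.symm w1.symm z2.symm w2.symm zw

lemma W_match {G : SimpleGraph V} (hD : DF G) (hP : PF G) {S K Q : Finset V} {m n : Fin 5 → V}
    (h : Mt G S K Q m n) {k : ℕ} (hR : ∀ S' ⊆ S \ K, W G k S') :
    W G (c3Cl + J 4 (k + c3Cl)) S := by
  have hcl : (∀ z ∈ S, z ∉ K → z ∉ Q → ∀ w ∈ S, w ∉ K → w ∉ Q → z ≠ w → G.Adj z w) →
      W G (c3Cl + J 4 (k + c3Cl)) S := by
    intro hc
    refine (W_three_cl hD (fun x => if x ∈ K then 0 else if x ∈ Q then 1 else 2) ?_).mono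
      (by omega)
    intro x hx y hy e hne
    by_cases e1 : x ∈ K <;> by_cases e2 : y ∈ K <;> by_cases e3 : x ∈ Q <;>
      by_cases e4 : y ∈ Q <;> simp [e1, e2, e3, e4] at e
    · exact h.hK.cl x e1 y e2 hne
    · exact h.hK.cl x e1 y e2 hne
    · exact h.hK.cl x e1 y e2 hne
    · exact h.hK.cl x e1 y e2 hne
    · exact h.hQ.cl x e3 y e4 hne
    · exact hc x hx e1 e3 y hy e2 e4 hne
  by_cases c1 : 2 < (Q.filter (fun b => ∃ c ∈ S, c ∉ K ∧ c ∉ Q ∧ G.Adj c b)).card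
  · exact hcl (h.clique hD hP c1)
  by_cases c2 : 2 < (K.filter (fun b => ∃ c ∈ S, c ∉ Q ∧ c ∉ K ∧ G.Adj c b)).card
  · exact hcl (fun z hz a b w hw c d => h.symm.clique hD hP c2 z hz b a w hw d c)
  refine (W_join (A := K ∪ Q) (t := 4) (k := k + c3Cl) (union_subset h.hK.sub h.hQ.sub) ?_
    ((W_two_cl hD h.hK h.hQ Subset.rfl).mono (by omega)) ((hR _ ?_).mono (by omega))).mono
    (by omega)
  · refine Ty_of_reps ((Q.filter (fun b => ∃ c ∈ S, c ∉ K ∧ c ∉ Q ∧ G.Adj c b)) ∪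
      (K.filter (fun b => ∃ c ∈ S, c ∉ Q ∧ c ∉ K ∧ G.Adj c b)))
      ((card_union_le _ _).trans (by omega)) ?_
    intro x hx
    by_cases e : ∀ z ∈ S, z ∉ K ∪ Q → ¬ G.Adj x z
    · exact Or.inl e
    · right
      push Not at e
      obtain ⟨z, hz, hn, xz⟩ := e
      rw [mem_union, not_or] at hn
      refine ⟨x, ?_, fun _ _ _ => Iff.rfl⟩
      rcases mem_union.1 hx with hx | hx
      · exact mem_union_right _ (mem_filter.2 ⟨hx, z, hz, hn.2, hn.1, xz.symm⟩)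
      · exact mem_union_left _ (mem_filter.2 ⟨hx, z, hz, hn.1, hn.2, xz.symm⟩)
  · exact sdiff_subset_sdiff Subset.rfl subset_union_left

/-- a rainbow clique with five colours -/
def RB (G : SimpleGraph V) (S K : Finset V) : Prop :=
  ∃ m n : Fin 5 → V, Function.Injective m ∧ (∀ i, m i ∈ K) ∧ (∀ i, n i ∈ S \ K) ∧
    (∀ i, G.Adj (m i) (n i)) ∧ ∀ i j, i ≠ j → G.Adj (n i) (n j)

lemma RB.mt {G : SimpleGraph V} (hD : DF G) {S K : Finset V} (hK : MC G S K) (h : RB G S K) :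
    ∃ Q m n, Mt G S K Q m n := by
  obtain ⟨m, n, im, hm, hn, adj, cl⟩ := h
  obtain ⟨Q, hQ, hQm⟩ := exists_MC hD (S := S) (Q := univ.image n) (by
    intro x hx
    obtain ⟨i, _, rfl⟩ := mem_image.1 hx
    exact (mem_sdiff.1 (hn i)).1) (by
    intro x hx y hy hne
    obtain ⟨i, _, rfl⟩ := mem_image.1 hx
    obtain ⟨j, _, rfl⟩ := mem_image.1 hy
    exact cl i j (fun e => hne (e ▸ rfl)))
  have hnQ : ∀ i, n i ∈ Q := fun i => hQ (mem_image_of_mem _ (mem_univ _))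
  refine ⟨Q, m, n, hK, hQm, ?_, hm, hnQ, im, ?_, adj⟩
  · intro x hx hxQ
    have e : ∀ i, x = m i := by
      intro i
      have hi := mem_sdiff.1 (hn i)
      exact hK.one (n i) hi.1 hi.2 x hx (m i) (hm i)
        (hQm.cl _ (hnQ i) _ hxQ (fun e => hi.2 (e ▸ hx))) (adj i).symm
    exact absurd (im ((e 0).symm.trans (e 1))) (by decide)
  · intro i j e
    by_contra hne
    exact (cl i j hne).ne e

lemma rb_of_colours {G : SimpleGraph V} {S K : Finset V} (C : Finset V) (hC : C ⊆ K)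
    (hc : 5 ≤ C.card) (U : V → Prop) (h1 : ∀ x ∈ C, ∃ u ∈ S \ K, U u ∧ G.Adj u x)
    (h2 : ∀ x ∈ C, ∀ y ∈ C, x ≠ y → ∀ u ∈ S \ K, ∀ u' ∈ S \ K, U u → U u' → G.Adj u x →
      G.Adj u' y → G.Adj u u') : RB G S K := by
  obtain ⟨m, hm⟩ := Function.Embedding.exists_of_card_le_finset (α := Fin 5) (s := C)
    (by simpa using hc)
  have hm' : ∀ i, m i ∈ C := fun i => hm ⟨i, rfl⟩
  choose n hn using fun i => h1 (m i) (hm' i)
  exact ⟨m, n, m.injective, fun i => hC (hm' i), fun i => (hn i).1, fun i => (hn i).2.2.symm,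
    fun i j hij => h2 _ (hm' i) _ (hm' j) (fun e => hij (m.injective e)) _ (hn i).1 _ (hn j).1
      (hn i).2.1 (hn j).2.1 (hn i).2.2 (hn j).2.2⟩

lemma exists_big {G : SimpleGraph V} (hD : DF G) {S : Finset V} {s : ℕ} (h : ¬ NoCl G S s) :
    ∃ K, MC G S K ∧ s ≤ K.card := by
  unfold NoCl at h
  push Not at h
  obtain ⟨c, hc⟩ := h
  obtain ⟨K, hK, hKm⟩ := exists_MC hD (S := S) (Q := univ.image c) (by
    intro x hx
    obtain ⟨i, _, rfl⟩ := mem_image.1 hx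
    exact hc.1 i) (by
    intro x hx y hy hne
    obtain ⟨i, _, rfl⟩ := mem_image.1 hx
    obtain ⟨j, _, rfl⟩ := mem_image.1 hy
    exact hc.2 i j (fun e => hne (e ▸ rfl)))
  refine ⟨K, hKm, ?_⟩
  have := card_le_card hK
  rwa [card_image_of_injective _ (fun i j e => by
    by_contra hne
    exact (hc.2 i j hne).ne e), card_univ, Fintype.card_fin] at this

lemma card_filter_two {G : SimpleGraph V} {S K C : Finset V} (hK : MC G S K) (hC : C ⊆ K)
    (x' : V) {w : V} (hw : w ∈ S \ K) :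
    C.card ≤ (C.filter (fun x => x ≠ x' ∧ ¬ G.Adj w x)).card + 2 := by
  have h1 : C ⊆ C.filter (fun x => x ≠ x' ∧ ¬ G.Adj w x) ∪ ({x'} ∪ K.filter (G.Adj w)) := by
    intro x hx
    simp only [mem_union, mem_filter, mem_singleton]
    have := hC hx
    tauto
  have h2 : (K.filter (G.Adj w)).card ≤ 1 := by
    rw [card_le_one]
    intro a ha b hb
    rw [mem_filter] at ha hb
    exact hK.one w (mem_sdiff.1 hw).1 (mem_sdiff.1 hw).2 a ha.1 b hb.1 ha.2 hb.2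
  have h3 := card_le_card h1
  have h4 := card_union_le (C.filter (fun x => x ≠ x' ∧ ¬ G.Adj w x)) ({x'} ∪ K.filter (G.Adj w))
  have h5 := card_union_le ({x'} : Finset V) (K.filter (G.Adj w))
  rw [card_singleton] at h5
  omega

theorem W_P5 : ∃ k, ∀ (V : Type) (G : SimpleGraph V) (S : Finset V), DF G → PF G →
    F5 G S → W G k S := by
  obtain ⟨k, hk⟩ := W_omega 5
  refine ⟨k + c3Cl + 2, fun V G S0 hD hP h50 => ?_⟩
  refine W_of_prime (by omega) S0 (fun S hS _ hc ht _ => ?_)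
  have h5 := h50.mono hS
  by_cases hn : NoCl G S (5 + 3)
  · exact (hk V G S hD hP hn).mono (by omega)
  obtain ⟨K, hK, hKc⟩ := exists_big hD hn
  by_cases hb : ∀ u ∈ S \ K, ∀ w ∈ S \ K, ∀ x ∈ K, G.Adj u w → G.Adj u x → G.Adj w x
  · obtain ⟨h1, h2⟩ := W_nobi hD hK hb
    obtain ⟨x, hx⟩ : K.Nonempty := card_pos.1 (by omega)
    have := hc _ (filter_subset _ _) ⟨x, mem_filter.2 ⟨hK.sub hx, Or.inl hx⟩⟩ h2
    rw [Subset.antisymm (filter_subset _ _) this] at h1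
    exact h1.mono (by omega)
  push Not at hb
  obtain ⟨u2, hu2, u3, hu3, x', hx', a23, a2x, n3x⟩ := hb
  have hu2' := mem_sdiff.1 hu2
  have hu3' := mem_sdiff.1 hu3
  let C0 := K.filter (fun x => ∃ u ∈ S \ K, G.Adj u x)
  have hC0 : K.card ≤ C0.card + 1 := by
    have h1 : (K.filter (fun x => ¬ ∃ u ∈ S \ K, G.Adj u x)).card ≤ 1 := by
      rw [card_le_one]
      intro a ha b hb
      rw [mem_filter] at ha hb
      refine ht a (hK.sub ha.1) b (hK.sub hb.1) (fun z hz za zb => ?_)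
      by_cases e : z ∈ K
      · exact ⟨fun _ => hK.cl b hb.1 z e zb.symm, fun _ => hK.cl a ha.1 z e za.symm⟩
      · exact ⟨fun h => absurd ⟨z, mem_sdiff.2 ⟨hz, e⟩, h.symm⟩ ha.2,
          fun h => absurd ⟨z, mem_sdiff.2 ⟨hz, e⟩, h.symm⟩ hb.2⟩
    have h2 := card_filter_add_card_filter_not (s := K) (fun x => ∃ u ∈ S \ K, G.Adj u x)
    simp only [C0]
    omega
  have hC := card_filter_two hK (C := C0) (filter_subset _ _) x' hu3
  have both : ∀ x ∈ C0.filter (fun x => x ≠ x' ∧ ¬ G.Adj u3 x), ∀ u ∈ S \ K, G.Adj u x →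
      G.Adj u u2 ∧ G.Adj u u3 := by
    intro x hx u hu ux
    obtain ⟨hx0, xx', n3⟩ := mem_filter.1 hx
    have hxK := (mem_filter.1 hx0).1
    have hu' := mem_sdiff.1 hu
    have ux' : ¬ G.Adj u x' := fun e => xx' (hK.one u hu'.1 hu'.2 x hxK x' hx' ux e)
    have u2x : ¬ G.Adj u2 x := fun e => xx' (hK.one u2 hu2'.1 hu2'.2 x hxK x' hx' e a2x)
    by_cases e2 : G.Adj u u2 <;> by_cases e3 : G.Adj u u3
    · exact ⟨e2, e3⟩
    · exfalso
      obtain ⟨y, hy, p⟩ := hK.avoid {x, u, u2, u3} (by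
        intro z hz; simp only [mem_insert, mem_singleton] at hz
        rcases hz with rfl | rfl | rfl | rfl
        exacts [hK.sub hxK, hu'.1, hu2'.1, hu3'.1]) (lt_of_le_of_lt card_le_four (by omega))
      exact h5 y (hK.sub hy) x (hK.sub hxK) u hu'.1 u2 hu2'.1 u3 hu3'.1
        (hK.cl _ hy _ hxK ((p x (by simp)).1 hxK)) ux.symm e2 a23 (ns ((p u (by simp)).2 hu'.2))
        (ns ((p u2 (by simp)).2 hu2'.2)) (ns ((p u3 (by simp)).2 hu3'.2)) (ns u2x) (ns n3) e3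
    · exfalso
      obtain ⟨y, hy, p⟩ := hK.avoid {x', u, u2, u3} (by
        intro z hz; simp only [mem_insert, mem_singleton] at hz
        rcases hz with rfl | rfl | rfl | rfl
        exacts [hK.sub hx', hu'.1, hu2'.1, hu3'.1]) (lt_of_le_of_lt card_le_four (by omega))
      exact h5 y (hK.sub hy) x' (hK.sub hx') u2 hu2'.1 u3 hu3'.1 u hu'.1
        (hK.cl _ hy _ hx' ((p x' (by simp)).1 hx')) a2x.symm a23 e3.symm
        (ns ((p u2 (by simp)).2 hu2'.2)) (ns ((p u3 (by simp)).2 hu3'.2))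
        (ns ((p u (by simp)).2 hu'.2)) (ns n3x) (ns ux') (ns e2)
    · exfalso
      exact h5 u hu'.1 x (hK.sub hxK) x' (hK.sub hx') u2 hu2'.1 u3 hu3'.1 ux
        (hK.cl _ hxK _ hx' xx') a2x.symm a23 ux' e2 e3 (ns u2x) (ns n3) (ns n3x)
  have hrb : RB G S K := by
    refine rb_of_colours (C0.filter (fun x => x ≠ x' ∧ ¬ G.Adj u3 x))
      ((filter_subset _ _).trans (filter_subset _ _)) (by omega) (fun _ => True) ?_ ?_
    · intro x hx
      obtain ⟨u, hu, ux⟩ := (mem_filter.1 (mem_filter.1 hx).1).2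
      exact ⟨u, hu, trivial, ux⟩
    · intro x hx y hy xy u hu u' hu' _ _ ux u'y
      have b1 := both x hx u hu ux
      have b2 := both y hy u' hu' u'y
      refine hD u2 u3 u u' a23 b1.1.symm b2.1.symm b1.2.symm b2.2.symm ?_
      rintro rfl
      exact xy (hK.one u (mem_sdiff.1 hu).1 (mem_sdiff.1 hu).2 x
        (mem_filter.1 (mem_filter.1 hx).1).1 y (mem_filter.1 (mem_filter.1 hy).1).1 ux u'y)
  obtain ⟨Q, m, n, h⟩ := hrb.mt hD hK
  exact (W_match_P5 hD h h5 hc).mono (by omega)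

end

end Pool.Agent.MP_41f2d3_co
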