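import Pool.Agent.MP_41f2d3_co.Big1

/-! Large cliques, second part. -/

namespace Pool.Agent.MP_41f2d3_co

open Finset Classical

noncomputable section

variable {V : Type}

/-- the vertices of `K` with a neighbour in `U` outside `K` -/
def cols (G : SimpleGraph V) (S K : Finset V) (U : V → Prop) : Finset V :=
  K.filter (fun x => ∃ u ∈ S \ K, U u ∧ G.Adj u x)

lemma mem_cols {G : SimpleGraph V} {S K : Finset V} {U : V → Prop} {x : V} :
    x ∈ cols G S K U ↔ x ∈ K ∧ ∃ u ∈ S \ K, U u ∧ G.Adj u x := mem_filter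

lemma cols_subset {G : SimpleGraph V} {S K : Finset V} {U : V → Prop} : cols G S K U ⊆ K :=
  fun _ h => (mem_cols.1 h).1

lemma MC.one' {G : SimpleGraph V} {S K : Finset V} (h : MC G S K) {v x y : V} (hv : v ∈ S \ K)
    (hx : x ∈ K) (hy : y ∈ K) (vx : G.Adj v x) (vy : G.Adj v y) : x = y :=
  h.one v (mem_sdiff.1 hv).1 (mem_sdiff.1 hv).2 x hx y hy vx vy

lemma cols_far {G : SimpleGraph V} (hP : PF G) {S K : Finset V} (hK : MC G S K)
    (hrb : ¬ RB G S K) {u w x' : V} (hu : u ∈ S \ K) (hw : w ∈ S \ K) (hx' : x' ∈ K)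
    (uw : G.Adj u w) (ux : G.Adj u x') (wx : ¬ G.Adj w x') :
    (cols G S K (fun p => ¬ G.Adj p u ∧ ¬ G.Adj p w)).card ≤ 6 := by
  by_contra hh
  have hC := card_filter_two hK (C := cols G S K (fun p => ¬ G.Adj p u ∧ ¬ G.Adj p w))
    cols_subset x' hw
  refine hrb (rb_of_colours ((cols G S K (fun p => ¬ G.Adj p u ∧ ¬ G.Adj p w)).filter
    (fun x => x ≠ x' ∧ ¬ G.Adj w x)) ((filter_subset _ _).trans cols_subset) (by omega)
    (fun p => ¬ G.Adj p u ∧ ¬ G.Adj p w) ?_ ?_)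
  · intro x hx
    exact (mem_cols.1 (mem_filter.1 hx).1).2
  · intro x hx y hy xy p hp z hz up uz px zy
    obtain ⟨hx1, xx', wx2⟩ := mem_filter.1 hx
    obtain ⟨hy1, yx', _⟩ := mem_filter.1 hy
    have hxK := (mem_cols.1 hx1).1
    have hyK := (mem_cols.1 hy1).1
    by_contra pz
    exact hP p x x' u w z px (hK.cl _ hxK _ hx' xx') ux.symm uw
      (fun e => xx' (hK.one' hp hxK hx' px e)) up.1 up.2
      (fun e => xx' (hK.one' hu hxK hx' e.symm ux)) (ns wx2) (ns wx) (ns pz)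
      (fun e => xy (hK.one' hz hxK hyK e zy)) (fun e => yx' (hK.one' hz hyK hx' zy e)) uz.1 uz.2

lemma cols_common {G : SimpleGraph V} (hD : DF G) {S K : Finset V} (hK : MC G S K)
    (hrb : ¬ RB G S K) {a y : V} (ay : G.Adj a y) :
    (cols G S K (fun p => G.Adj p a ∧ G.Adj p y)).card ≤ 4 := by
  by_contra hh
  refine hrb (rb_of_colours (cols G S K (fun p => G.Adj p a ∧ G.Adj p y)) cols_subset
    (by omega) (fun p => G.Adj p a ∧ G.Adj p y) (fun x hx => (mem_cols.1 hx).2) ?_)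
  intro x hx x' hx' xx' p hp z hz up uz px zx
  refine hD a y p z ay up.1.symm uz.1.symm up.2.symm uz.2.symm ?_
  rintro rfl
  exact xx' (hK.one' hp (mem_cols.1 hx).1 (mem_cols.1 hx').1 px zx)

/-- has a neighbour in `K` outside `F` -/
def good (G : SimpleGraph V) (K F : Finset V) (p : V) : Prop := ∃ x ∈ K, x ∉ F ∧ G.Adj p x

lemma good.mono {G : SimpleGraph V} {K F F' : Finset V} {p : V} (h : good G K F p)
    (hF : F' ⊆ F) : good G K F' p := by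
  obtain ⟨x, a, b, c⟩ := h
  exact ⟨x, a, fun e => b (hF e), c⟩

/-- good neighbours of `a` are isolated in the neighbourhood of `a` -/
def Iso (G : SimpleGraph V) (S K F : Finset V) (a : V) : Prop :=
  ∀ p ∈ S \ K, G.Adj p a → good G K F p → ∀ y ∈ S \ K, G.Adj y a → ¬ G.Adj y p

lemma Iso.mono {G : SimpleGraph V} {S K F F' : Finset V} {a : V} (h : Iso G S K F a)
    (hF : F ⊆ F') : Iso G S K F' a :=
  fun p hp pa hg => h p hp pa (hg.mono hF)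

lemma side {G : SimpleGraph V} (hD : DF G) (hP : PF G) {S K : Finset V} (hK : MC G S K)
    (hrb : ¬ RB G S K) {a : V} (ha : a ∈ S \ K) : ∃ F : Finset V, F.card ≤ 14 ∧ Iso G S K F a := by
  by_cases h : Iso G S K (K.filter (G.Adj a)) a
  · refine ⟨_, ?_, h⟩
    have : (K.filter (G.Adj a)).card ≤ 1 := by
      rw [card_le_one]
      intro x hx y hy
      rw [mem_filter] at hx hy
      exact hK.one' ha hx.1 hy.1 hx.2 hy.2
    omega
  unfold Iso at h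
  push Not at h
  obtain ⟨p, hp, pa, ⟨x, hx, xF, px⟩, y, hy, ya, yp⟩ := h
  have ax : ¬ G.Adj a x := fun e => xF (mem_filter.2 ⟨hx, e⟩)
  have yx : ¬ G.Adj y x := fun e => ax (hD p y a x yp.symm pa px ya e
    (fun e' => (mem_sdiff.1 ha).2 (e' ▸ hx)))
  have c1 := cols_far hP hK hrb hp hy hx yp.symm px yx
  have c2 := cols_common hD hK hrb pa.symm
  have c3 := cols_common hD hK hrb ya.symm
  refine ⟨cols G S K (fun q => ¬ G.Adj q p ∧ ¬ G.Adj q y) ∪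
    (cols G S K (fun q => G.Adj q a ∧ G.Adj q p) ∪ cols G S K (fun q => G.Adj q a ∧ G.Adj q y)),
    ?_, ?_⟩
  · have e1 := card_union_le (cols G S K (fun q => ¬ G.Adj q p ∧ ¬ G.Adj q y))
      (cols G S K (fun q => G.Adj q a ∧ G.Adj q p) ∪ cols G S K (fun q => G.Adj q a ∧ G.Adj q y))
    have e2 := card_union_le (cols G S K (fun q => G.Adj q a ∧ G.Adj q p))
      (cols G S K (fun q => G.Adj q a ∧ G.Adj q y))
    omega
  · rintro q hq qa ⟨z, hz, zF, qz⟩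
    exfalso
    apply zF
    simp only [mem_union, mem_cols]
    by_cases e1 : G.Adj q p
    · exact Or.inr (Or.inl ⟨hz, q, hq, ⟨qa, e1⟩, qz⟩)
    by_cases e2 : G.Adj q y
    · exact Or.inr (Or.inr ⟨hz, q, hq, ⟨qa, e2⟩, qz⟩)
    · exact Or.inl ⟨hz, q, hq, ⟨e1, e2⟩, qz⟩

lemma twins {G : SimpleGraph V} (hD : DF G) (hP : PF G) {S K : Finset V} (hK : MC G S K)
    (hrb : ¬ RB G S K) (h5 : F5 G (S \ K)) {a b : V} (ha : a ∈ S \ K) {F1 : Finset V}
    (hcov : ∀ p ∈ S \ K, good G K F1 p → G.Adj p a ∨ G.Adj p b)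
    (ia : Iso G S K F1 a) (ib : Iso G S K F1 b) :
    ∃ F2 : Finset V, F2.card ≤ 13 ∧ ∀ p ∈ S \ K, ∀ q ∈ S \ K, G.Adj p a → G.Adj q a →
      good G K (F1 ∪ F2) p → good G K (F1 ∪ F2) q → ∀ y ∈ S \ K, G.Adj p y → G.Adj q y := by
  let PP : V → Prop := fun p => G.Adj p a ∧ good G K F1 p
  by_cases hc : (cols G S K PP).card ≤ 13
  · refine ⟨_, hc, ?_⟩
    rintro p hp q _ pa _ ⟨x, hx, xF, px⟩
    exfalso
    rw [mem_union, not_or] at xF
    exact xF.2 (mem_cols.2 ⟨hx, p, hp, ⟨pa, x, hx, xF.1, px⟩, px⟩)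
  have pp : ∀ p ∈ S \ K, ∀ q ∈ S \ K, PP p → PP q → ¬ G.Adj p q :=
    fun p hp q hq h1 h2 => ia q hq h2.1 h2.2 p hp h1.1
  let Y1 : V → Prop := fun y => ∃ q ∈ S \ K, PP q ∧ G.Adj q y ∧ ∃ x ∈ K, G.Adj q x ∧ ¬ G.Adj y x
  have miss : ∀ y ∈ S \ K, Y1 y → (cols G S K (fun p => PP p ∧ ¬ G.Adj p y)).card ≤ 6 := by
    rintro y hy ⟨q, hq, pq, qy, x, hx, qx, yx⟩
    refine le_trans (card_le_card ?_) (cols_far hP hK hrb hq hy hx qy qx yx)
    intro z hz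
    obtain ⟨hz, p, hp, ⟨h1, h2⟩, pz⟩ := mem_cols.1 hz
    exact mem_cols.2 ⟨hz, p, hp, ⟨pp p hp q hq h1 pq, h2⟩, pz⟩
  have nadj : ∀ y ∈ S \ K, ∀ y' ∈ S \ K, Y1 y → Y1 y' → ¬ G.Adj y y' := by
    intro y hy y' hy' h1 h2 yy'
    have m1 := miss y hy h1
    have m2 := miss y' hy' h2
    have e1 := card_union_le (cols G S K (fun p => PP p ∧ ¬ G.Adj p y))
      (cols G S K (fun p => PP p ∧ ¬ G.Adj p y'))
    have e2 := le_card_sdiff (cols G S K (fun p => PP p ∧ ¬ G.Adj p y) ∪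
      cols G S K (fun p => PP p ∧ ¬ G.Adj p y')) (cols G S K PP)
    obtain ⟨x1, hx1, x2, hx2, hne⟩ := one_lt_card.1 (lt_of_lt_of_le (by omega) e2)
    rw [mem_sdiff, mem_union, not_or] at hx1 hx2
    obtain ⟨k1, p1, hp1, pp1, a1⟩ := mem_cols.1 hx1.1
    obtain ⟨k2, p2, hp2, pp2, a2⟩ := mem_cols.1 hx2.1
    have t : ∀ x ∈ K, ∀ p ∈ S \ K, PP p → G.Adj p x → ∀ y,
        x ∉ cols G S K (fun p => PP p ∧ ¬ G.Adj p y) → G.Adj p y := by
      intro x hx p hp h px y hn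
      by_contra e
      exact hn (mem_cols.2 ⟨hx, p, hp, ⟨h, e⟩, px⟩)
    refine pp p1 hp1 p2 hp2 pp1 pp2 (hD y y' p1 p2 yy' (t _ k1 _ hp1 pp1 a1 _ hx1.2.1).symm
      (t _ k2 _ hp2 pp2 a2 _ hx2.2.1).symm (t _ k1 _ hp1 pp1 a1 _ hx1.2.2).symm
      (t _ k2 _ hp2 pp2 a2 _ hx2.2.2).symm ?_)
    rintro rfl
    exact hne (hK.one' hp1 k1 k2 a1 a2)
  have path : ∀ y ∈ S \ K, ∀ y' ∈ S \ K, ∀ q ∈ S \ K, ∀ q' ∈ S \ K, PP q → PP q' → G.Adj q y →
      G.Adj q' y' → ¬ G.Adj q y' → ¬ G.Adj q' y → ¬ G.Adj y y' → False := by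
    intro y hy y' hy' q hq q' hq' h1 h2 qy q'y' qy' q'y yy'
    exact h5 y hy q hq a ha q' hq' y' hy' qy.symm h1.1 h2.1.symm q'y'
      (fun e => ia q hq h1.1 h1.2 y hy e qy.symm) (ns q'y) yy' (pp q hq q' hq' h1 h2) qy'
      (fun e => ia q' hq' h2.1 h2.2 y' hy' e.symm q'y'.symm)
  have hM : ∃ M : Finset V, M.card ≤ 6 ∧ ∀ y ∈ S \ K, Y1 y → ∀ p ∈ S \ K, PP p → ¬ G.Adj p y →
      ∀ x ∈ K, G.Adj p x → x ∈ M := by
    rcases ((S \ K).filter Y1).eq_empty_or_nonempty with he | hne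
    · refine ⟨∅, by simp, fun y hy h => ?_⟩
      have : y ∈ (S \ K).filter Y1 := mem_filter.2 ⟨hy, h⟩
      rw [he] at this
      simp at this
    obtain ⟨y0, hy0, hmax⟩ := exists_max_image _
      (fun y => ((S \ K).filter (fun p => PP p ∧ ¬ G.Adj p y)).card) hne
    rw [mem_filter] at hy0
    refine ⟨_, miss y0 hy0.1 hy0.2, fun y hy h p hp h1 py x hx px => ?_⟩
    refine mem_cols.2 ⟨hx, p, hp, ⟨h1, fun py0 => ?_⟩, px⟩
    have hlt : ((S \ K).filter (fun p => PP p ∧ ¬ G.Adj p y0)).card <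
        ((S \ K).filter (fun p => PP p ∧ ¬ G.Adj p y)).card := by
      refine card_lt_card ⟨?_, ?_⟩
      · intro q hq
        rw [mem_filter] at hq ⊢
        exact ⟨hq.1, hq.2.1, fun qy => path y hy y0 hy0.1 q hq.1 p hp hq.2.1 h1 qy py0 hq.2.2 py
          (nadj y hy y0 hy0.1 h hy0.2)⟩
      · intro hs
        exact (mem_filter.1 (hs (mem_filter.2 ⟨hp, h1, py⟩))).2.2 py0
    have := hmax y (mem_filter.2 ⟨hy, h⟩)
    omega
  obtain ⟨M, hMc, hM⟩ := hM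
  let M2 := K.filter (fun x => x ∉ F1 ∧ ∃ y ∈ S \ K, ¬ Y1 y ∧ ∃ q ∈ S \ K, G.Adj q a ∧
    G.Adj q y ∧ G.Adj q x)
  have hM2 : M2.card ≤ 1 := by
    rw [card_le_one]
    intro x hx x' hx'
    obtain ⟨k1, f1, y, hy, n1, q, hq, qa, qy, qx⟩ := mem_filter.1 hx
    obtain ⟨k2, f2, y', hy', n2, q', hq', q'a, q'y', q'x⟩ := mem_filter.1 hx'
    by_contra hne
    have p1 : PP q := ⟨qa, x, k1, f1, qx⟩
    have p2 : PP q' := ⟨q'a, x', k2, f2, q'x⟩
    have t : ∀ y, ¬ Y1 y → ∀ q ∈ S \ K, PP q → G.Adj q y → ∀ x ∈ K, G.Adj q x → G.Adj y x := by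
      intro y n q hq p qy x hx qx
      by_contra e
      exact n ⟨q, hq, p, qy, x, hx, qx, e⟩
    have yx := t y n1 q hq p1 qy x k1 qx
    have y'x := t y' n2 q' hq' p2 q'y' x' k2 q'x
    have yb : G.Adj y b := (hcov y hy ⟨x, k1, f1, yx⟩).resolve_left
      (fun e => ia q hq p1.1 p1.2 y hy e qy.symm)
    have y'b : G.Adj y' b := (hcov y' hy' ⟨x', k2, f2, y'x⟩).resolve_left
      (fun e => ia q' hq' p2.1 p2.2 y' hy' e q'y'.symm)
    exact path y hy y' hy' q hq q' hq' p1 p2 qy q'y'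
      (fun e => hne (hK.one' hy' k1 k2 (t y' n2 q hq p1 e x k1 qx) y'x))
      (fun e => hne (hK.one' hy k1 k2 yx (t y n1 q' hq' p2 e x' k2 q'x)))
      (ib y' hy' y'b ⟨x', k2, f2, y'x⟩ y hy yb)
  refine ⟨M ∪ M2, (card_union_le _ _).trans (by omega), ?_⟩
  rintro p hp q hq pa qa ⟨x, hx, xF, px⟩ ⟨x', hx', x'F, qx'⟩ y hy py
  simp only [mem_union, not_or] at xF x'F
  by_cases e : Y1 y
  · by_contra qy
    exact x'F.2.1 (hM y hy e q hq ⟨qa, x', hx', x'F.1, qx'⟩ qy x' hx' qx')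
  · exact absurd (mem_filter.2 ⟨hx, xF.1, y, hy, e, p, hp, pa, py, px⟩) xF.2.2

lemma W_fin {G : SimpleGraph V} {S K F : Finset V} (hK : MC G S K) {k t : ℕ} (hF : F.card ≤ t)
    (hR : ∀ S' ⊆ S \ K, W G k S') (a : V)
    (h : ∀ p ∈ S \ K, ∀ q ∈ S \ K, (G.Adj p a ↔ G.Adj q a) → good G K F p → good G K F q →
      ∀ y ∈ S \ K, G.Adj p y → G.Adj q y) : W G (J t (J 4 (k + 12) + t)) S := by
  refine W_del hF ?_
  let X := (S \ F).filter (fun v => v ∈ K ∨ good G K F v)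
  have hX : ∀ x ∈ X, x ∈ S ∧ x ∉ F ∧ (x ∉ K → good G K F x) := by
    intro x hx
    obtain ⟨h1, h2⟩ := mem_filter.1 hx
    exact ⟨(mem_sdiff.1 h1).1, (mem_sdiff.1 h1).2, h2.resolve_left⟩
  have htw : ∀ x ∈ X, ∀ y ∈ X, x ∉ K → y ∉ K → (G.Adj x a ↔ G.Adj y a) → ∀ z ∈ S, z ∉ K →
      (G.Adj x z ↔ G.Adj y z) := by
    intro x hx y hy xK yK e z hz zK
    have h1 := hX x hx
    have h2 := hX y hy
    exact ⟨h x (mem_sdiff.2 ⟨h1.1, xK⟩) y (mem_sdiff.2 ⟨h2.1, yK⟩) e (h1.2.2 xK) (h2.2.2 yK) z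
      (mem_sdiff.2 ⟨hz, zK⟩), h y (mem_sdiff.2 ⟨h2.1, yK⟩) x (mem_sdiff.2 ⟨h1.1, xK⟩) e.symm
      (h2.2.2 yK) (h1.2.2 xK) z (mem_sdiff.2 ⟨hz, zK⟩)⟩
  refine W_join (A := X) (filter_subset _ _) ?_ ?_ ((hR _ ?_).mono (by omega))
  · refine Ty_of_labels (fun v => (v ∈ K, G.Adj v a)) univ (by simp)
      (fun _ _ => Or.inr (mem_univ _)) ?_
    intro x hx y hy e z hz hzX
    simp only [Prod.mk.injEq, eq_iff_iff] at e
    have hz' : ¬ (z ∈ K ∨ good G K F z) := fun h => hzX (mem_filter.2 ⟨hz, h⟩)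
    rw [not_or] at hz'
    by_cases xK : x ∈ K
    · exact ⟨fun e' => absurd ⟨x, xK, (hX x hx).2.1, e'.symm⟩ hz'.2,
        fun e' => absurd ⟨y, e.1.1 xK, (hX y hy).2.1, e'.symm⟩ hz'.2⟩
    · exact htw x hx y hy xK (fun h => xK (e.1.2 h)) e.2 z (mem_sdiff.1 hz).1 hz'.1
  · let G' : SimpleGraph V :=
      { Adj := fun x y => G.Adj x y ∧ (x ∈ K ↔ y ∉ K)
        symm := ⟨fun x y h => ⟨h.1.symm, by have := h.2; tauto⟩⟩
        loopless := ⟨fun x h => h.1.ne rfl⟩ }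
    have hG' : ∀ x y, G'.Adj x y ↔ G.Adj x y ∧ (x ∈ K ↔ y ∉ K) := fun _ _ => Iff.rfl
    have hW : W G' 2 X := by
      refine W_of_prime le_rfl X (fun S' hS' ⟨x, hx⟩ _ _ hp => ?_)
      exfalso
      obtain ⟨u, hu, uK⟩ : ∃ u ∈ S', u ∉ K := by
        by_cases e : x ∈ K
        · obtain ⟨y, hy, _, _, _, xy, _⟩ := hp x hx
          exact ⟨y, hy, xy.2.1 e⟩
        · exact ⟨x, hx, e⟩
      obtain ⟨y, _, z, _, yz, uy, uz⟩ := hp u hu
      refine yz (hK.one u (hX u (hS' hu)).1 uK y ?_ z ?_ uy.1 uz.1)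
      · by_contra e; exact uK (uy.2.2 e)
      · by_contra e; exact uK (uz.2.2 e)
    refine (W.relabel (r := 4) (fun v => (v ∈ K, G.Adj v a)) univ (by simp)
      (fun _ _ => mem_univ _) ?_ hW).mono (by omega)
    intro x hx y hy z hz e zx zy hh
    simp only [Prod.mk.injEq, eq_iff_iff] at e
    rw [hG', hG'] at hh
    by_cases xK : x ∈ K <;> by_cases zK : z ∈ K
    · exact ⟨fun _ => hK.cl y (e.1.1 xK) z zK zy.symm, fun _ => hK.cl x xK z zK zx.symm⟩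
    · simpa [xK, zK, e.1.1 xK] using hh
    · have yK : y ∉ K := fun h => xK (e.1.2 h)
      simpa [xK, zK, yK] using hh
    · exact htw x hx y hy xK (fun h => xK (e.1.2 h)) e.2 z (hX z hz).1 zK
  · intro z hz
    rw [mem_sdiff] at hz ⊢
    exact ⟨(mem_sdiff.1 hz.1).1, fun h => hz.2 (mem_filter.2 ⟨hz.1, Or.inl h⟩)⟩

theorem W_main : ∃ k, ∀ (V : Type) (G : SimpleGraph V) (S : Finset V), DF G → PF G →
    W G k S := by
  obtain ⟨k1, hk1⟩ := W_omega 3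
  obtain ⟨k, hk⟩ := W_P5
  refine ⟨k1 + (c3Cl + J 4 (k + c3Cl)) + (k + 2) + J 60 (J 4 (k + 12) + 60),
    fun V G S hD hP => ?_⟩
  by_cases hn : NoCl G S (3 + 3)
  · exact (hk1 V G S hD hP hn).mono (by omega)
  obtain ⟨K, hK, hKc⟩ := exists_big hD hn
  have h5 := F5_of_big hP hK hKc
  have hR : ∀ S' ⊆ S \ K, W G k S' := fun S' hS' => hk V G S' hD hP (h5.mono hS')
  by_cases hrb : RB G S K
  · obtain ⟨Q, m, n, h⟩ := hrb.mt hD hK
    exact (W_match hD hP h hR).mono (by omega)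
  by_cases hb : ∀ u ∈ S \ K, ∀ w ∈ S \ K, ∀ x ∈ K, G.Adj u w → G.Adj u x → G.Adj w x
  · obtain ⟨h1, h2⟩ := W_nobi hD hK hb
    refine (W_union (k := k + 2) (filter_subset _ _) (fun x hx y hy hn e => hn (h2 x hx y hy e))
      (h1.mono (by omega)) ((hR _ ?_).mono (by omega))).mono (by omega)
    intro z hz
    rw [mem_sdiff] at hz ⊢
    exact ⟨hz.1, fun h => hz.2 (mem_filter.2 ⟨hz.1, Or.inl h⟩)⟩
  push Not at hb
  obtain ⟨a, ha, b, hb, x', hx', ab, ax, bx⟩ := hb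
  have c0 := cols_far hP hK hrb ha hb hx' ab ax bx
  obtain ⟨Fa, ca, ia⟩ := side hD hP hK hrb ha
  obtain ⟨Fb, cb, ib⟩ := side hD hP hK hrb hb
  let F1 := cols G S K (fun p => ¬ G.Adj p a ∧ ¬ G.Adj p b) ∪ (Fa ∪ Fb)
  have c1 : F1.card ≤ 34 := by
    have e1 := card_union_le (cols G S K (fun p => ¬ G.Adj p a ∧ ¬ G.Adj p b)) (Fa ∪ Fb)
    have e2 := card_union_le Fa Fb
    simp only [F1]
    omega
  have ia' : Iso G S K F1 a := ia.mono (subset_union_left.trans subset_union_right)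
  have ib' : Iso G S K F1 b := ib.mono (subset_union_right.trans subset_union_right)
  have hcov : ∀ p ∈ S \ K, good G K F1 p → G.Adj p a ∨ G.Adj p b := by
    rintro p hp ⟨x, hx, xF, px⟩
    by_contra hh
    rw [not_or] at hh
    exact xF (mem_union_left _ (mem_cols.2 ⟨hx, p, hp, hh, px⟩))
  obtain ⟨F2, c2, t2⟩ := twins hD hP hK hrb h5 ha hcov ia' ib'
  obtain ⟨F3, c3, t3⟩ := twins hD hP hK hrb h5 hb (fun p hp h => (hcov p hp h).symm) ib' ia'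
  have c4 : (F1 ∪ F2 ∪ (F1 ∪ F3)).card ≤ 60 := by
    have : F1 ∪ F2 ∪ (F1 ∪ F3) ⊆ F1 ∪ (F2 ∪ F3) := by
      intro x; simp only [mem_union]; tauto
    have e0 := card_le_card this
    have e1 := card_union_le F1 (F2 ∪ F3)
    have e2 := card_union_le F2 F3
    omega
  refine (W_fin hK c4 hR a ?_).mono (by omega)
  intro p hp q hq e gp gq
  by_cases pa : G.Adj p a
  · exact t2 p hp q hq pa (e.1 pa) (gp.mono subset_union_left) (gq.mono subset_union_left)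
  · have g1 : F1 ⊆ F1 ∪ F2 ∪ (F1 ∪ F3) := subset_union_left.trans subset_union_left
    exact t3 p hp q hq ((hcov p hp (gp.mono g1)).resolve_left pa)
      ((hcov q hq (gq.mono g1)).resolve_left (fun h => pa (e.2 h)))
      (gp.mono subset_union_right) (gq.mono subset_union_right)

end

end Pool.Agent.MP_41f2d3_co
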