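import Pool.Agent.MP_41f2d3_co.Frame

/-! Bipartite graphs without induced P1 + P5. -/

namespace Pool.Agent.MP_41f2d3_co

open Finset Classical

noncomputable section

variable {V : Type}

/-- diamond-free -/
def DF (G : SimpleGraph V) : Prop :=
  ∀ a b c d, G.Adj a b → G.Adj a c → G.Adj a d → G.Adj b c → G.Adj b d → c ≠ d → G.Adj c d

/-- P1 + P5 free -/
def PF (G : SimpleGraph V) : Prop :=
  ∀ a b c d e z, G.Adj a b → G.Adj b c → G.Adj c d → G.Adj d e →
    ¬ G.Adj a c → ¬ G.Adj a d → ¬ G.Adj a e → ¬ G.Adj b d → ¬ G.Adj b e → ¬ G.Adj c e →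
    ¬ G.Adj z a → ¬ G.Adj z b → ¬ G.Adj z c → ¬ G.Adj z d → ¬ G.Adj z e → False

lemma W_laminar {G : SimpleGraph V} {S : Finset V} (sd : V → Prop)
    (hb : ∀ a ∈ S, ∀ b ∈ S, G.Adj a b → (sd a ↔ ¬ sd b))
    (hl : ∀ y ∈ S, ∀ y' ∈ S, ∀ a ∈ S, ∀ b ∈ S, ∀ c ∈ S, ¬ sd y → ¬ sd y' → G.Adj y a →
      ¬ G.Adj y' a → G.Adj y b → G.Adj y' b → G.Adj y' c → G.Adj y c) :
    W G 2 S := by
  refine W_of_prime le_rfl S (fun S' hS' ⟨x, hx⟩ _ ht hp => ?_)
  exfalso
  have hne : (S'.filter (fun y => ¬ sd y)).Nonempty := by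
    by_cases h : sd x
    · obtain ⟨y, hy, _, _, _, hxy, _⟩ := hp x hx
      exact ⟨y, mem_filter.2 ⟨hy, (hb x (hS' hx) y (hS' hy) hxy).1 h⟩⟩
    · exact ⟨x, mem_filter.2 ⟨hx, h⟩⟩
  obtain ⟨y, hy, hmin⟩ := exists_min_image _ (fun y => (S'.filter (G.Adj y)).card) hne
  rw [mem_filter] at hy
  have key : ∀ a ∈ S', ∀ b ∈ S', G.Adj y a → G.Adj y b → ∀ z ∈ S', G.Adj a z → G.Adj b z := by
    intro a ha b hb' hya hyb z hz haz
    by_contra hbz
    have hsa : sd a := by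
      have := hb y (hS' hy.1) a (hS' ha) hya
      tauto
    have hsz : ¬ sd z := (hb a (hS' ha) z (hS' hz) haz).1 hsa
    have hlt : (S'.filter (G.Adj z)).card < (S'.filter (G.Adj y)).card := by
      refine card_lt_card ⟨?_, ?_⟩
      · intro c hc
        rw [mem_filter] at hc ⊢
        exact ⟨hc.1, hl y (hS' hy.1) z (hS' hz) b (hS' hb') a (hS' ha) c (hS' hc.1) hy.2 hsz hyb
          (fun h => hbz h.symm) hya haz.symm hc.2⟩
      · intro h
        have := h (mem_filter.2 ⟨hb', hyb⟩)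
        exact hbz (mem_filter.1 this).2.symm
    have := hmin z (mem_filter.2 ⟨hz, hsz⟩)
    omega
  obtain ⟨a, ha, b, hb', hab, hya, hyb⟩ := hp y hy.1
  exact hab (ht a ha b hb' (fun z hz _ _ =>
    ⟨key a ha b hb' hya hyb z hz, key b hb' a ha hyb hya z hz⟩))

lemma W_bip {G : SimpleGraph V} (hP : PF G) {S : Finset V} (sd : V → Prop)
    (hb : ∀ a ∈ S, ∀ b ∈ S, G.Adj a b → (sd a ↔ ¬ sd b)) : W G 12 S := by
  by_cases h0 : ∃ x0 ∈ S, sd x0
  swap
  · push Not at h0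
    refine (W_indep (fun x hx y hy hxy => ?_)).mono (by norm_num)
    have := hb x hx y hy hxy
    have := h0 x hx
    have := h0 y hy
    tauto
  obtain ⟨x0, hx0, hs0⟩ := h0
  have hnn : ∀ a ∈ S, ∀ b ∈ S, (sd a ↔ sd b) → ¬ G.Adj a b := by
    intro a ha b hb' h hab
    have := hb a ha b hb' hab
    tauto
  have cross : ∀ y ∈ S, ∀ y' ∈ S, ∀ a ∈ S, ∀ b ∈ S, ∀ c ∈ S, ∀ d ∈ S, ¬ sd y → ¬ sd y' →
      sd a → sd b → sd c → sd d → G.Adj y a → ¬ G.Adj y' a → G.Adj y b → G.Adj y' b →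
      ¬ G.Adj y c → G.Adj y' c → ¬ G.Adj y d → ¬ G.Adj y' d → False := by
    intro y hy y' hy' a ha b hb' c hc d hd sy sy' sa sb sc sd' h1 h2 h3 h4 h5 h6 h7 h8
    exact hP a y b y' c d h1.symm h3 h4.symm h6 (hnn a ha b hb' (by grind))
      (fun h => h2 h.symm) (hnn a ha c hc (by grind)) (hnn y hy y' hy' (by grind)) h5
      (hnn b hb' c hc (by grind)) (hnn d hd a ha (by grind)) (fun h => h7 h.symm)
      (hnn d hd b hb' (by grind)) (fun h => h8 h.symm) (hnn d hd c hc (by grind))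
  let G' : SimpleGraph V :=
    { Adj := fun a b => (sd a ∧ ¬ sd b ∧ (G.Adj b a ↔ ¬ G.Adj b x0)) ∨
        (sd b ∧ ¬ sd a ∧ (G.Adj a b ↔ ¬ G.Adj a x0))
      symm := ⟨fun a b h => h.symm⟩
      loopless := ⟨fun a h => by tauto⟩ }
  have hG' : ∀ a b, G'.Adj a b ↔ (sd a ∧ ¬ sd b ∧ (G.Adj b a ↔ ¬ G.Adj b x0)) ∨
        (sd b ∧ ¬ sd a ∧ (G.Adj a b ↔ ¬ G.Adj a x0)) := fun _ _ => Iff.rfl
  have hW : W G' 2 S := by
    refine W_laminar sd ?_ ?_
    · intro a _ b _ h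
      rw [hG'] at h
      tauto
    · intro y hy y' hy' a ha b hb' c hc sy sy' h1 h2 h3 h4 h5
      by_contra h6
      simp only [hG', sy, sy', false_and, false_or, not_false_eq_true, true_and] at h1 h2 h3 h4 h5 h6
      have sa := h1.1
      have sb := h3.1
      have sc := h5.1
      simp only [sa, sb, sc, true_and] at h1 h2 h3 h4 h5 h6
      by_cases e1 : G.Adj y x0 <;> by_cases e2 : G.Adj y' x0
      · exact cross y hy y' hy' c hc x0 hx0 a ha b hb' sy sy' sc hs0 sa sb (by grind) (by grind)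
          e1 e2 (by grind) (by grind) (by grind) (by grind)
      · exact cross y hy y' hy' x0 hx0 c hc b hb' a ha sy sy' hs0 sc sb sa e1 e2 (by grind)
          (by grind) (by grind) (by grind) (by grind) (by grind)
      · exact cross y hy y' hy' b hb' a ha x0 hx0 c hc sy sy' sb sa hs0 sc (by grind) (by grind)
          (by grind) (by grind) e1 e2 (by grind) (by grind)
      · exact cross y hy y' hy' a ha b hb' c hc x0 hx0 sy sy' sa sb sc hs0 (by grind) (by grind)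
          (by grind) (by grind) (by grind) (by grind) e1 e2
  refine W.relabel (r := 4) (fun v => (sd v, G.Adj v x0)) univ (by simp) (fun _ _ => mem_univ _)
    ?_ hW
  intro x hx y hy z hz hxy _ _ h
  simp only [Prod.mk.injEq, eq_iff_iff] at hxy
  simp only [hG'] at h
  have n1 := hnn x hx z hz
  have n2 := hnn y hy z hz
  rw [G.adj_comm z x, G.adj_comm z y] at h
  clear hW hG' cross hnn hP hb
  grind

end

end Pool.Agent.MP_41f2d3_co
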