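import Pool.Agent.MP_41f2d3_co.K3

/-! Maximal cliques in diamond-free graphs. -/

namespace Pool.Agent.MP_41f2d3_co

open Finset Classical

noncomputable section

variable {V : Type}

/-- a clique of `S` such that every other vertex of `S` has at most one neighbour in it -/
structure MC (G : SimpleGraph V) (S K : Finset V) : Prop where
  sub : K ⊆ S
  cl : ∀ x ∈ K, ∀ y ∈ K, x ≠ y → G.Adj x y
  one : ∀ v ∈ S, v ∉ K → ∀ x ∈ K, ∀ y ∈ K, G.Adj v x → G.Adj v y → x = y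

lemma MC.avoid {G : SimpleGraph V} {S K : Finset V} (h : MC G S K) (B : Finset V) (hB : B ⊆ S)
    (hc : B.card < K.card) :
    ∃ x ∈ K, ∀ p ∈ B, (p ∈ K → x ≠ p) ∧ (p ∉ K → ¬ G.Adj p x) := by
  by_contra hh
  push Not at hh
  let bad : V → Finset V := fun p => if p ∈ K then {p} else K.filter (G.Adj p)
  have h1 : K ⊆ B.biUnion bad := by
    intro x hx
    obtain ⟨p, hp, h⟩ := hh x hx
    refine mem_biUnion.2 ⟨p, hp, ?_⟩
    by_cases e : p ∈ K
    · simp only [bad, if_pos e, mem_singleton]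
      by_contra hne
      exact (h (fun _ => hne)).1 e
    · simp only [bad, if_neg e, mem_filter]
      exact ⟨hx, (h (fun h => absurd h e)).2⟩
  have h2 : ∀ p ∈ B, (bad p).card ≤ 1 := by
    intro p hp
    by_cases e : p ∈ K
    · simp [bad, e]
    · simp only [bad, if_neg e]
      rw [card_le_one]
      intro a ha b hb
      rw [mem_filter] at ha hb
      exact h.one p (hB hp) e a ha.1 b hb.1 ha.2 hb.2
  have h3 := (card_le_card h1).trans (card_biUnion_le_card_mul B bad 1 h2)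
  omega

lemma exists_MC {G : SimpleGraph V} (hD : DF G) {S Q : Finset V} (hQ : Q ⊆ S)
    (hcl : ∀ x ∈ Q, ∀ y ∈ Q, x ≠ y → G.Adj x y) : ∃ K, Q ⊆ K ∧ MC G S K := by
  let F := S.powerset.filter (fun K => Q ⊆ K ∧ ∀ x ∈ K, ∀ y ∈ K, x ≠ y → G.Adj x y)
  have hne : F.Nonempty := ⟨Q, mem_filter.2 ⟨mem_powerset.2 hQ, Subset.rfl, hcl⟩⟩
  obtain ⟨K, hK, hmax⟩ := exists_max_image F card hne
  obtain ⟨hKS, hQK, hKc⟩ := mem_filter.1 hK
  rw [mem_powerset] at hKS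
  refine ⟨K, hQK, hKS, hKc, ?_⟩
  intro v hv hvK x hx y hy vx vy
  by_contra hne
  have hall : ∀ z ∈ K, G.Adj v z := by
    intro z hz
    by_cases e1 : z = x
    · exact e1 ▸ vx
    by_cases e2 : z = y
    · exact e2 ▸ vy
    exact hD x y v z (hKc x hx y hy hne) vx.symm (hKc x hx z hz (Ne.symm e1)) vy.symm
      (hKc y hy z hz (Ne.symm e2)) (fun e => hvK (e ▸ hz))
  have hin : insert v K ∈ F := by
    refine mem_filter.2 ⟨mem_powerset.2 (insert_subset hv hKS), hQK.trans (subset_insert _ _), ?_⟩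
    intro a ha b hb hab
    rcases mem_insert.1 ha with rfl | ha' <;> rcases mem_insert.1 hb with rfl | hb'
    · exact absurd rfl hab
    · exact hall b hb'
    · exact (hall a ha').symm
    · exact hKc a ha' b hb' hab
  have := hmax _ hin
  rw [card_insert_of_notMem hvK] at this
  omega

lemma two_cliques_nbr {G : SimpleGraph V} (hP : PF G) {S K1 K2 K3 : Finset V}
    (h1 : MC G S K1) (h2 : MC G S K2) (h3 : MC G S K3) (c1 : 3 ≤ K1.card) (c2 : 3 ≤ K2.card)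
    (c3 : 3 ≤ K3.card) (a12 : ∀ x ∈ K1, ∀ y ∈ K2, ¬ G.Adj x y)
    (a13 : ∀ x ∈ K1, ∀ y ∈ K3, ¬ G.Adj x y) (a23 : ∀ x ∈ K2, ∀ y ∈ K3, ¬ G.Adj x y)
    {v x y : V} (hv : v ∈ S) (hx : x ∈ K1) (hy : y ∈ K2) (vx : G.Adj v x) (vy : G.Adj v y) :
    False := by
  have v1 : v ∉ K1 := fun h => a12 v h y hy vy
  have v2 : v ∉ K2 := fun h => a12 x hx v h vx.symm
  have v3 : v ∉ K3 := fun h => a13 x hx v h vx.symm
  obtain ⟨x', hx', p1⟩ := h1.avoid {x, v} (by
    intro z hz; simp only [mem_insert, mem_singleton] at hz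
    rcases hz with rfl | rfl; exacts [h1.sub hx, hv]) (lt_of_le_of_lt card_le_two c1)
  obtain ⟨y', hy', p2⟩ := h2.avoid {y, v} (by
    intro z hz; simp only [mem_insert, mem_singleton] at hz
    rcases hz with rfl | rfl; exacts [h2.sub hy, hv]) (lt_of_le_of_lt card_le_two c2)
  obtain ⟨z, hz, p3⟩ := h3.avoid {v} (by simpa using hv) (by simp; omega)
  exact hP x' x v y y' z (h1.cl _ hx' _ hx ((p1 x (by simp)).1 hx)) vx.symm vy
    (h2.cl _ hy _ hy' ((p2 y (by simp)).1 hy).symm) (ns ((p1 v (by simp)).2 v1))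
    (a12 _ hx' _ hy) (a12 _ hx' _ hy') (a12 _ hx _ hy) (a12 _ hx _ hy') ((p2 v (by simp)).2 v2)
    (ns (a13 _ hx' _ hz)) (ns (a13 _ hx _ hz)) (ns ((p3 v (by simp)).2 v3))
    (ns (a23 _ hy _ hz)) (ns (a23 _ hy' _ hz))

lemma three_cliques {G : SimpleGraph V} (hP : PF G) {S K1 K2 K3 : Finset V}
    (h1 : MC G S K1) (h2 : MC G S K2) (h3 : MC G S K3) (c1 : 3 ≤ K1.card) (c2 : 3 ≤ K2.card)
    (c3 : 3 ≤ K3.card) (a12 : ∀ x ∈ K1, ∀ y ∈ K2, ¬ G.Adj x y)
    (a13 : ∀ x ∈ K1, ∀ y ∈ K3, ¬ G.Adj x y) (a23 : ∀ x ∈ K2, ∀ y ∈ K3, ¬ G.Adj x y)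
    (hc : Conn G S) : False := by
  have n12 : ∀ v ∈ S, ∀ x ∈ K1, ∀ y ∈ K2, G.Adj v x → ¬ G.Adj v y :=
    fun v hv x hx y hy vx vy => two_cliques_nbr hP h1 h2 h3 c1 c2 c3 a12 a13 a23 hv hx hy vx vy
  have n13 : ∀ v ∈ S, ∀ x ∈ K1, ∀ y ∈ K3, G.Adj v x → ¬ G.Adj v y :=
    fun v hv x hx y hy vx vy => two_cliques_nbr hP h1 h3 h2 c1 c3 c2 a13 a12
      (fun x hx y hy => ns (a23 y hy x hx)) hv hx hy vx vy
  let A := S.filter (fun u => ∃ x ∈ K1, u = x ∨ G.Adj u x ∨ ∃ v ∈ S, G.Adj v x ∧ G.Adj u v)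
  obtain ⟨x0, hx0⟩ : K1.Nonempty := card_pos.1 (by omega)
  obtain ⟨y0, hy0⟩ : K2.Nonempty := card_pos.1 (by omega)
  have hsub : S ⊆ A := by
    refine hc A (filter_subset _ _) ⟨x0, mem_filter.2 ⟨h1.sub hx0, x0, hx0, Or.inl rfl⟩⟩ ?_
    intro u hu w hw uw
    by_contra hn
    have w1 : ∀ x ∈ K1, ¬ G.Adj w x := fun x hx h =>
      hn (mem_filter.2 ⟨hw, x, hx, Or.inr (Or.inl h)⟩)
    have w2 : ∀ x ∈ K1, ∀ v ∈ S, G.Adj v x → ¬ G.Adj w v := fun x hx v hv h h' =>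
      hn (mem_filter.2 ⟨hw, x, hx, Or.inr (Or.inr ⟨v, hv, h, h'⟩)⟩)
    obtain ⟨huS, x, hx, h⟩ := mem_filter.1 hu
    have u1 : ∀ x ∈ K1, ¬ G.Adj u x := fun x hx h => w2 x hx u huS h uw.symm
    rcases h with rfl | h | ⟨v, hv, vx, uv⟩
    · exact w1 u hx uw.symm
    · exact u1 x hx h
    have v1 : v ∉ K1 := fun h => u1 v h uv
    obtain ⟨x', hx', p1⟩ := h1.avoid {x, v} (by
      intro z hz; simp only [mem_insert, mem_singleton] at hz
      rcases hz with rfl | rfl; exacts [h1.sub hx, hv]) (lt_of_le_of_lt card_le_two c1)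
    have fin : ∀ z, ¬ G.Adj z x' → ¬ G.Adj z x → ¬ G.Adj z v → ¬ G.Adj z u → ¬ G.Adj z w →
        False := fun z => hP x' x v u w z (h1.cl _ hx' _ hx ((p1 x (by simp)).1 hx)) vx.symm
      uv.symm uw (ns ((p1 v (by simp)).2 v1)) (ns (u1 _ hx')) (ns (w1 _ hx')) (ns (u1 _ hx))
      (ns (w1 _ hx)) (ns (w2 x hx v hv vx))
    have u2 : u ∉ K2 := fun h => n12 v hv x hx u h vx uv.symm
    have u3 : u ∉ K3 := fun h => n13 v hv x hx u h vx uv.symm
    by_cases wK : w ∈ K2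
    · obtain ⟨z, hz, p3⟩ := h3.avoid {u} (by simpa using huS) (by simp; omega)
      exact fin z (ns (a13 _ hx' _ hz)) (ns (a13 _ hx _ hz)) (ns (n13 v hv x hx z hz vx))
        (ns ((p3 u (by simp)).2 u3)) (ns (a23 _ wK _ hz))
    · obtain ⟨z, hz, p2⟩ := h2.avoid {u, w} (by
        intro z hz; simp only [mem_insert, mem_singleton] at hz
        rcases hz with rfl | rfl; exacts [huS, hw]) (lt_of_le_of_lt card_le_two c2)
      exact fin z (ns (a12 _ hx' _ hz)) (ns (a12 _ hx _ hz)) (ns (n12 v hv x hx z hz vx))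
        (ns ((p2 u (by simp)).2 u2)) (ns ((p2 w (by simp)).2 wK))
  obtain ⟨_, x, hx, h⟩ := mem_filter.1 (hsub (h2.sub hy0))
  rcases h with rfl | h | ⟨v, hv, vx, uv⟩
  · obtain ⟨y, hy, hne⟩ := exists_mem_ne (by omega : 1 < K2.card) y0
    exact a12 y0 hx y hy (h2.cl _ hy0 _ hy hne.symm)
  · exact a12 x hx y0 hy0 h.symm
  · exact n12 v hv x hx y0 hy0 vx uv.symm

/-- bound for unions of three cliques -/
def c3Cl : ℕ := 24 * (J 1 3 + 1)

lemma W_three_cl {G : SimpleGraph V} (hD : DF G) {S : Finset V} (col : V → Fin 3)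
    (hcl : ∀ x ∈ S, ∀ y ∈ S, col x = col y → x ≠ y → G.Adj x y) : W G c3Cl S := by
  let comp : V → Fin 3 → Prop := fun x i => ∀ z ∈ S, col z = i → z ≠ x → G.Adj x z
  let G' : SimpleGraph V :=
    { Adj := fun a b => G.Adj a b ∧ ¬ comp a (col b) ∧ ¬ comp b (col a)
      symm := ⟨fun a b h => ⟨h.1.symm, h.2.2, h.2.1⟩⟩
      loopless := ⟨fun a h => h.1.ne rfl⟩ }
  have hG' : ∀ a b, G'.Adj a b ↔ G.Adj a b ∧ ¬ comp a (col b) ∧ ¬ comp b (col a) :=
    fun _ _ => Iff.rfl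
  have hself : ∀ x ∈ S, comp x (col x) := fun x hx z hz e hne => hcl x hx z hz e.symm hne.symm
  have htwo : ∀ x ∈ S, ∀ a ∈ S, ∀ b ∈ S, G'.Adj x a → G'.Adj x b → col a = col b → a = b := by
    intro x _ a ha b hb xa xb e
    by_contra hne
    refine xa.2.1 (fun z hz cz zx => ?_)
    by_cases e1 : z = a
    · exact e1 ▸ xa.1
    by_cases e2 : z = b
    · exact e2 ▸ xb.1
    exact hD a b x z (hcl a ha b hb e hne) xa.1.symm (hcl a ha z hz cz.symm (Ne.symm e1))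
      xb.1.symm (hcl b hb z hz (e.symm.trans cz.symm) (Ne.symm e2)) zx.symm
  have hW : W G' (J 1 3) S := by
    refine W_deg2 ?_
    intro x hx a ha b hb c hc xa xb xc
    have na : col a ≠ col x := fun e => xa.2.1 (e ▸ hself x hx)
    have nb : col b ≠ col x := fun e => xb.2.1 (e ▸ hself x hx)
    have nc : col c ≠ col x := fun e => xc.2.1 (e ▸ hself x hx)
    have : col a = col b ∨ col a = col c ∨ col b = col c := by omega
    rcases this with e | e | e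
    · exact Or.inl (htwo x hx a ha b hb xa xb e)
    · exact Or.inr (Or.inl (htwo x hx a ha c hc xa xc e))
    · exact Or.inr (Or.inr (htwo x hx b hb c hc xb xc e))
  refine W.relabel (r := 24) (fun x => (col x, comp x)) univ (by simp) (fun _ _ => mem_univ _)
    ?_ hW
  intro x hx y hy z hz e zx zy h
  simp only [Prod.mk.injEq] at e
  obtain ⟨e1, e2⟩ := e
  by_cases t1 : comp x (col z)
  · exact ⟨fun _ => (e2 ▸ t1 : comp y (col z)) z hz rfl zy, fun _ => t1 z hz rfl zx⟩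
  by_cases t2 : comp z (col x)
  · exact ⟨fun _ => (t2 y hy e1.symm zy.symm).symm, fun _ => (t2 x hx rfl zx.symm).symm⟩
  have t1' : ¬ comp y (col z) := e2 ▸ t1
  have t2' : ¬ comp z (col y) := e1 ▸ t2
  rw [hG', hG'] at h
  exact ⟨fun a => (h.1 ⟨a, t1, t2⟩).1, fun a => (h.2 ⟨a, t1', t2'⟩).1⟩

end

end Pool.Agent.MP_41f2d3_co
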