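import Mathlib

namespace Pool.Agent.MP_41f2d3_co

/-- `Built k S l H`: the labelled graph with vertex set `S`, edge set that of `H` and label
`l v` on each `v ∈ S` can be built by the four clique-width operations with labels in `Fin k`. -/
inductive Built {V : Type} (k : ℕ) : Set V → (V → Fin k) → SimpleGraph V → Prop
  | vertex (v : V) (l : V → Fin k) : Built k {v} l ⊥
  | union (S₁ S₂ : Set V) (l₁ l₂ l : V → Fin k) (H₁ H₂ : SimpleGraph V) :
      Built k S₁ l₁ H₁ → Built k S₂ l₂ H₂ → Disjoint S₁ S₂ →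
      (∀ u ∈ S₁, l u = l₁ u) → (∀ u ∈ S₂, l u = l₂ u) → Built k (S₁ ∪ S₂) l (H₁ ⊔ H₂)
  | join (S : Set V) (l : V → Fin k) (H H' : SimpleGraph V) (i j : Fin k) :
      Built k S l H → i ≠ j →
      (∀ u v : V, H'.Adj u v ↔
        (H.Adj u v ∨ (u ∈ S ∧ v ∈ S ∧ ((l u = i ∧ l v = j) ∨ (l u = j ∧ l v = i))))) →
      Built k S l H'
  | relabel (S : Set V) (l l' : V → Fin k) (H : SimpleGraph V) (i j : Fin k) :
      Built k S l H → (∀ u ∈ S, l' u = if l u = i then j else l u) → Built k S l' H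

/-- `G` has clique-width at most `k`. -/
def CliqueWidthLE {V : Type} (G : SimpleGraph V) (k : ℕ) : Prop :=
  ∃ l : V → Fin k, Built k Set.univ l G

/-- The diamond: `K₄` with one edge removed. -/
def diamond : SimpleGraph (Fin 4) := (⊤ : SimpleGraph (Fin 4)).deleteEdges {s(2, 3)}

end Pool.Agent.MP_41f2d3_co
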