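import Mathlib

/-! Module-width style decompositions. -/

namespace Pool.Agent.MP_41f2d3_co

open Finset Classical

noncomputable section

variable {V : Type}

/-- neighbours of `x` in `S` outside `X` -/
def out (G : SimpleGraph V) (S X : Finset V) (x : V) : Finset V :=
  S.filter (fun z => z ∉ X ∧ G.Adj x z)

lemma mem_out {G : SimpleGraph V} {S X : Finset V} {x z : V} :
    z ∈ out G S X x ↔ z ∈ S ∧ z ∉ X ∧ G.Adj x z := by
  simp [out]

lemma out_eq_iff {G : SimpleGraph V} {S X : Finset V} {x y : V} :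
    out G S X x = out G S X y ↔ ∀ z ∈ S, z ∉ X → (G.Adj x z ↔ G.Adj y z) := by
  constructor
  · intro h z hz hzX
    have := Finset.ext_iff.1 h z
    simp only [mem_out] at this
    tauto
  · intro h
    ext z
    simp only [mem_out]
    constructor
    · rintro ⟨a, b, c⟩; exact ⟨a, b, (h z a b).1 c⟩
    · rintro ⟨a, b, c⟩; exact ⟨a, b, (h z a b).2 c⟩

lemma out_eq_empty_iff {G : SimpleGraph V} {S X : Finset V} {x : V} :
    out G S X x = ∅ ↔ ∀ z ∈ S, z ∉ X → ¬ G.Adj x z := by
  rw [Finset.eq_empty_iff_forall_notMem]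
  simp only [mem_out]
  constructor
  · intro h z a b c; exact h z ⟨a, b, c⟩
  · rintro h z ⟨a, b, c⟩; exact h z a b c

/-- at most `k` nonempty outside neighbourhoods -/
def Ty (G : SimpleGraph V) (k : ℕ) (S X : Finset V) : Prop :=
  ∃ T : Finset (Finset V), T.card ≤ k ∧ ∀ x ∈ X, out G S X x = ∅ ∨ out G S X x ∈ T

lemma Ty.mono {G : SimpleGraph V} {k k' : ℕ} {S X : Finset V} (h : Ty G k S X) (hk : k ≤ k') :
    Ty G k' S X := by
  obtain ⟨T, hT, h⟩ := h
  exact ⟨T, hT.trans hk, h⟩

lemma Ty_of_labels {G : SimpleGraph V} {k : ℕ} {S X : Finset V} {L : Type} (lab : V → L)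
    (R : Finset L) (hR : R.card ≤ k)
    (h1 : ∀ x ∈ X, (∀ z ∈ S, z ∉ X → ¬ G.Adj x z) ∨ lab x ∈ R)
    (h2 : ∀ x ∈ X, ∀ y ∈ X, lab x = lab y → ∀ z ∈ S, z ∉ X → (G.Adj x z ↔ G.Adj y z)) :
    Ty G k S X := by
  refine ⟨R.image (fun l => if h : ∃ x ∈ X, lab x = l then out G S X h.choose else ∅),
    card_image_le.trans hR, ?_⟩
  intro x hx
  rcases h1 x hx with h | h
  · left; exact out_eq_empty_iff.2 h
  · right
    rw [mem_image]
    have hex : ∃ y ∈ X, lab y = lab x := ⟨x, hx, rfl⟩
    refine ⟨lab x, h, ?_⟩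
    rw [dif_pos hex]
    exact out_eq_iff.2 (h2 _ hex.choose_spec.1 _ hx hex.choose_spec.2)

lemma Ty_of_reps {G : SimpleGraph V} {k : ℕ} {S X : Finset V}
    (R : Finset V) (hR : R.card ≤ k)
    (h1 : ∀ x ∈ X, (∀ z ∈ S, z ∉ X → ¬ G.Adj x z) ∨
      ∃ r ∈ R, ∀ z ∈ S, z ∉ X → (G.Adj x z ↔ G.Adj r z)) :
    Ty G k S X := by
  refine ⟨R.image (out G S X), card_image_le.trans hR, ?_⟩
  intro x hx
  rcases h1 x hx with h | ⟨r, hr, h⟩
  · left; exact out_eq_empty_iff.2 h
  · right
    rw [mem_image]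
    exact ⟨r, hr, (out_eq_iff.2 h).symm⟩

lemma Ty_card (G : SimpleGraph V) (S X : Finset V) : Ty G X.card S X :=
  Ty_of_reps X le_rfl (fun x hx => Or.inr ⟨x, hx, fun _ _ _ => Iff.rfl⟩)

lemma Ty_self (G : SimpleGraph V) (k : ℕ) (S : Finset V) : Ty G k S S :=
  Ty_of_reps ∅ (by simp) (fun x _ => Or.inl (fun z hz hz' => absurd hz hz'))

lemma Ty_transfer {G G' : SimpleGraph V} {k r : ℕ} {S S' X : Finset V} {L : Type} (lab : V → L)
    (R : Finset L) (hR : R.card ≤ r) (h1 : ∀ x ∈ X, lab x ∈ R)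
    (h2 : ∀ x ∈ X, ∀ y ∈ X, lab x = lab y → (∀ z ∈ S, z ∉ X → (G.Adj x z ↔ G.Adj y z)) →
      ∀ z ∈ S', z ∉ X → (G'.Adj x z ↔ G'.Adj y z))
    (h : Ty G k S X) : Ty G' (r * (k + 1)) S' X := by
  obtain ⟨T, hT, h⟩ := h
  refine Ty_of_labels (fun x => (lab x, out G S X x)) (R ×ˢ insert ∅ T) ?_ ?_ ?_
  · rw [card_product]
    exact Nat.mul_le_mul hR ((card_insert_le _ _).trans (by omega))
  · intro x hx
    right
    rw [mem_product]
    refine ⟨h1 x hx, ?_⟩
    rcases h x hx with h | h
    · simp [h]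
    · simp [h]
  · intro x hx y hy hxy
    simp only [Prod.mk.injEq] at hxy
    exact h2 x hx y hy hxy.1 (out_eq_iff.1 hxy.2)

/-- binary decompositions all of whose parts have few outside neighbourhoods -/
inductive Dec (G : SimpleGraph V) (k : ℕ) (S : Finset V) : Finset V → Prop
  | empty : Dec G k S ∅
  | single (v : V) : Dec G k S {v}
  | union (X Y : Finset V) : Dec G k S X → Dec G k S Y → Disjoint X Y → Ty G k S (X ∪ Y) →
      Dec G k S (X ∪ Y)

/-- width at most `k` -/
def W (G : SimpleGraph V) (k : ℕ) (S : Finset V) : Prop := Dec G k S S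

lemma Dec.transfer {G G' : SimpleGraph V} {k k' : ℕ} {S S' X : Finset V} (h : Dec G k S X)
    (ht : ∀ Z ⊆ X, Ty G k S Z → Ty G' k' S' Z) : Dec G' k' S' X := by
  induction h with
  | empty => exact Dec.empty
  | single v => exact Dec.single v
  | union X Y _ _ hd hT ihX ihY =>
    exact Dec.union X Y (ihX (fun Z hZ => ht Z (hZ.trans subset_union_left)))
      (ihY (fun Z hZ => ht Z (hZ.trans subset_union_right))) hd (ht _ Subset.rfl hT)

lemma W.mono {G : SimpleGraph V} {k k' : ℕ} {S : Finset V} (h : W G k S) (hk : k ≤ k') :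
    W G k' S :=
  Dec.transfer h (fun _ _ hZ => hZ.mono hk)

lemma Dec_card (G : SimpleGraph V) (S : Finset V) (k : ℕ) (X : Finset V) (hX : X.card ≤ k) :
    Dec G k S X := by
  induction X using Finset.induction_on with
  | empty => exact Dec.empty
  | insert a X ha ih =>
    have h1 : insert a X = {a} ∪ X := by simp
    rw [h1]
    refine Dec.union _ _ (Dec.single a) (ih ?_) (by simpa using ha) ?_
    · rw [card_insert_of_notMem ha] at hX; omega
    · rw [← h1]; exact (Ty_card G S _).mono hX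

lemma W_card (G : SimpleGraph V) {k : ℕ} {X : Finset V} (hX : X.card ≤ k) : W G k X :=
  Dec_card G X k X hX

lemma W.relabel {G G' : SimpleGraph V} {k r : ℕ} {S : Finset V} {L : Type} (lab : V → L)
    (R : Finset L) (hR : R.card ≤ r) (h1 : ∀ x ∈ S, lab x ∈ R)
    (h2 : ∀ x ∈ S, ∀ y ∈ S, ∀ z ∈ S, lab x = lab y → z ≠ x → z ≠ y →
      (G.Adj x z ↔ G.Adj y z) → (G'.Adj x z ↔ G'.Adj y z))
    (h : W G k S) : W G' (r * (k + 1)) S := by
  refine Dec.transfer h (fun Z hZ hT => Ty_transfer lab R hR (fun x hx => h1 x (hZ hx)) ?_ hT)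
  intro x hx y hy hxy hh z hz hzZ
  exact h2 x (hZ hx) y (hZ hy) z hz hxy (fun e => hzZ (e ▸ hx)) (fun e => hzZ (e ▸ hy))
    (hh z hz hzZ)

lemma Dec_ext_anti {G : SimpleGraph V} {k : ℕ} {A S : Finset V} (hA : A ⊆ S)
    (hanti : ∀ x ∈ A, ∀ y ∈ S, y ∉ A → ¬ G.Adj x y) (h : W G k A) : Dec G k S A := by
  refine Dec.transfer h (fun Z hZ hT => ?_)
  obtain ⟨T, hT, h⟩ := hT
  refine ⟨T, hT, fun x hx => ?_⟩
  have : out G S Z x = out G A Z x := by
    ext z
    simp only [mem_out]
    constructor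
    · rintro ⟨a, b, c⟩
      refine ⟨?_, b, c⟩
      by_contra hz
      exact hanti x (hZ hx) z a hz c
    · rintro ⟨a, b, c⟩; exact ⟨hA a, b, c⟩
  rw [this]
  exact h x hx

lemma W_union {G : SimpleGraph V} {k : ℕ} {A S : Finset V} (hA : A ⊆ S)
    (hanti : ∀ x ∈ A, ∀ y ∈ S, y ∉ A → ¬ G.Adj x y) (h1 : W G k A) (h2 : W G k (S \ A)) :
    W G k S := by
  have e : A ∪ (S \ A) = S := union_sdiff_of_subset hA
  have h3 : Dec G k S (S \ A) := by
    refine Dec_ext_anti sdiff_subset ?_ h2
    intro x hx y hy hy' hxy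
    have hyA : y ∈ A := by
      by_contra hh
      exact hy' (mem_sdiff.2 ⟨hy, hh⟩)
    exact hanti y hyA x (mem_sdiff.1 hx).1 (mem_sdiff.1 hx).2 hxy.symm
  have := Dec.union A (S \ A) (Dec_ext_anti hA hanti h1) h3 disjoint_sdiff
    (by rw [e]; exact Ty_self G k S)
  rw [e] at this
  exact this

/-- the bound of the join lemma -/
def J (t k : ℕ) : ℕ := 2 ^ t * (k + 1)

lemma W_join {G : SimpleGraph V} {k t : ℕ} {A S : Finset V} (hA : A ⊆ S)
    (hT : Ty G t S A) (h1 : W G k A) (h2 : W G k (S \ A)) : W G (J t k) S := by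
  have e : A ∪ (S \ A) = S := union_sdiff_of_subset hA
  obtain ⟨T, hTc, hT⟩ := hT
  have d1 : Dec G (J t k) S A := by
    refine Dec.transfer h1 (fun Z hZ hZT => ?_)
    refine Ty_transfer (out G S A) (insert ∅ T) ?_ ?_ ?_ hZT
    · refine (card_insert_le _ _).trans ?_
      have := @Nat.lt_two_pow_self t
      omega
    · intro x hx
      rcases hT x (hZ hx) with h | h <;> simp [h]
    · intro x _ y _ hxy hh z hz hzZ
      by_cases hzA : z ∈ A
      · exact hh z hzA hzZ
      · exact out_eq_iff.1 hxy z hz hzA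
  have d2 : Dec G (J t k) S (S \ A) := by
    refine Dec.transfer h2 (fun Z hZ hZT => ?_)
    refine Ty_transfer (fun y => T.filter (fun O => y ∈ O)) T.powerset ?_ ?_ ?_ hZT
    · rw [card_powerset]; exact Nat.pow_le_pow_right (by norm_num) hTc
    · intro x _; simp
    · intro x hx y hy hxy hh z hz hzZ
      have hx' := mem_sdiff.1 (hZ hx)
      have hy' := mem_sdiff.1 (hZ hy)
      by_cases hzA : z ∈ A
      · rcases hT z hzA with h | h
        · have h' := out_eq_empty_iff.1 h
          constructor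
          · intro a; exact absurd a.symm (h' x hx'.1 hx'.2)
          · intro a; exact absurd a.symm (h' y hy'.1 hy'.2)
        · have := Finset.ext_iff.1 hxy (out G S A z)
          simp only [mem_filter, h, true_and, mem_out, hx'.1, hx'.2, hy'.1, hy'.2,
            not_false_eq_true] at this
          rw [G.adj_comm x z, G.adj_comm y z]
          exact this
      · exact hh z (mem_sdiff.2 ⟨hz, hzA⟩) hzZ
  have := Dec.union A (S \ A) d1 d2 disjoint_sdiff (by rw [e]; exact Ty_self G _ S)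
  rw [e] at this
  exact this

lemma W_del {G : SimpleGraph V} {k t : ℕ} {F S : Finset V} (hF : F.card ≤ t)
    (h : W G k (S \ F)) : W G (J t (k + t)) S := by
  have hc : (F ∩ S).card ≤ t := (card_le_card inter_subset_left).trans hF
  refine W_join (A := F ∩ S) inter_subset_right ((Ty_card G S _).mono hc)
    (W_card G (hc.trans (by omega))) ?_
  have : S \ (F ∩ S) = S \ F := by ext; simp
  rw [this]
  exact h.mono (by omega)

lemma W_attach {G : SimpleGraph V} {k : ℕ} {S : Finset V} {u u' : V} (hu : u ∈ S) (hu' : u' ∈ S)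
    (hne : u ≠ u') (hk : 2 ≤ k)
    (h1 : ∀ Z ⊆ S.erase u', u ∉ Z → Ty G k (S.erase u') Z → Ty G k S Z)
    (h2 : ∀ Z ⊆ S.erase u', u ∈ Z → Ty G k (S.erase u') Z → Ty G k S (insert u' Z))
    (h : W G k (S.erase u')) : W G k S := by
  have key : ∀ X, Dec G k (S.erase u') X → X ⊆ S.erase u' →
      (u ∉ X → Dec G k S X) ∧ (u ∈ X → Dec G k S (insert u' X)) := by
    intro X hX
    induction hX with
    | empty => intro _; exact ⟨fun _ => Dec.empty, fun h => by simp at h⟩
    | single v =>
      intro _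
      refine ⟨fun _ => Dec.single v, fun _ => Dec_card G S k _ ?_⟩
      exact (card_insert_le _ _).trans (by simpa using hk)
    | union X Y _ _ hd hT ihX ihY =>
      intro hsub
      have hX := ihX (subset_union_left.trans hsub)
      have hY := ihY (subset_union_right.trans hsub)
      have hu'n : u' ∉ X ∪ Y := fun h => by simpa using hsub h
      constructor
      · intro hn
        exact Dec.union X Y (hX.1 (fun h => hn (mem_union_left _ h)))
          (hY.1 (fun h => hn (mem_union_right _ h))) hd (h1 _ hsub hn hT)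
      · intro hm
        have hT' := h2 _ hsub hm hT
        rcases mem_union.1 hm with hm | hm
        · have hnY : u ∉ Y := fun h => disjoint_left.1 hd hm h
          have e : insert u' (X ∪ Y) = insert u' X ∪ Y := by rw [insert_union]
          rw [e] at hT' ⊢
          refine Dec.union _ _ (hX.2 hm) (hY.1 hnY) ?_ hT'
          rw [disjoint_insert_left]
          exact ⟨fun h => hu'n (mem_union_right _ h), hd⟩
        · have hnX : u ∉ X := fun h => disjoint_left.1 hd h hm
          have e : insert u' (X ∪ Y) = X ∪ insert u' Y := by rw [union_insert]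
          rw [e] at hT' ⊢
          refine Dec.union _ _ (hX.1 hnX) (hY.2 hm) ?_ hT'
          rw [disjoint_insert_right]
          exact ⟨fun h => hu'n (mem_union_left _ h), hd⟩
  have := (key _ h Subset.rfl).2 (mem_erase.2 ⟨hne, hu⟩)
  rw [insert_erase hu'] at this
  exact this

lemma W_twin {G : SimpleGraph V} {k : ℕ} {S : Finset V} {u u' : V} (hu : u ∈ S) (hu' : u' ∈ S)
    (hne : u ≠ u') (hk : 2 ≤ k)
    (ht : ∀ z ∈ S, z ≠ u → z ≠ u' → (G.Adj u z ↔ G.Adj u' z))
    (h : W G k (S.erase u')) : W G k S := by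
  refine W_attach hu hu' hne hk ?_ ?_ h
  · rintro Z hZ huZ ⟨T, hTc, hT⟩
    have hx' : ∀ x ∈ Z, (G.Adj x u' ↔ G.Adj x u) := by
      intro x hx
      have := mem_erase.1 (hZ hx)
      rw [G.adj_comm x u', G.adj_comm x u]
      exact (ht x this.2 (fun e => huZ (e ▸ hx)) this.1).symm
    have hue : u ∈ S.erase u' := mem_erase.2 ⟨hne, hu⟩
    refine Ty_of_labels (out G (S.erase u') Z) T hTc ?_ ?_
    · intro x hx
      rcases hT x hx with h | h
      · left
        intro z hz hzZ
        have h' := out_eq_empty_iff.1 h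
        by_cases e : z = u'
        · rw [e, hx' x hx]; exact h' u hue huZ
        · exact h' z (mem_erase.2 ⟨e, hz⟩) hzZ
      · exact Or.inr h
    · intro x hx y hy hxy z hz hzZ
      have h' := out_eq_iff.1 hxy
      by_cases e : z = u'
      · rw [e, hx' x hx, hx' y hy]; exact h' u hue huZ
      · exact h' z (mem_erase.2 ⟨e, hz⟩) hzZ
  · rintro Z hZ huZ ⟨T, hTc, hT⟩
    have key : ∀ x ∈ insert u' Z, (if x = u' then u else x) ∈ Z ∧
        ∀ z ∈ S, z ∉ insert u' Z → (G.Adj x z ↔ G.Adj (if x = u' then u else x) z) := by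
      intro x hx
      by_cases e : x = u'
      · rw [if_pos e]
        refine ⟨huZ, fun z hz hzZ => ?_⟩
        rw [e]
        exact (ht z hz (fun e' => hzZ (e' ▸ mem_insert_of_mem huZ))
          (fun e' => hzZ (e' ▸ mem_insert_self _ _))).symm
      · rw [if_neg e]
        exact ⟨(mem_insert.1 hx).resolve_left e, fun _ _ _ => Iff.rfl⟩
    have hz' : ∀ z ∈ S, z ∉ insert u' Z → z ∈ S.erase u' ∧ z ∉ Z := by
      intro z hz hzZ
      rw [mem_insert, not_or] at hzZ
      exact ⟨mem_erase.2 ⟨hzZ.1, hz⟩, hzZ.2⟩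
    refine Ty_of_labels (fun x => out G (S.erase u') Z (if x = u' then u else x)) T hTc ?_ ?_
    · intro x hx
      rcases hT _ (key x hx).1 with h | h
      · left
        intro z hz hzZ
        rw [(key x hx).2 z hz hzZ]
        exact out_eq_empty_iff.1 h z (hz' z hz hzZ).1 (hz' z hz hzZ).2
      · exact Or.inr h
    · intro x hx y hy hxy z hz hzZ
      rw [(key x hx).2 z hz hzZ, (key y hy).2 z hz hzZ]
      exact out_eq_iff.1 hxy z (hz' z hz hzZ).1 (hz' z hz hzZ).2

lemma W_pend {G : SimpleGraph V} {k : ℕ} {S : Finset V} {u u' : V} (hu : u ∈ S) (hu' : u' ∈ S)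
    (hne : u ≠ u') (hk : 2 ≤ k)
    (ht : ∀ z ∈ S, z ≠ u → ¬ G.Adj u' z)
    (h : W G k (S.erase u')) : W G k S := by
  refine W_attach hu hu' hne hk ?_ ?_ h
  · rintro Z hZ huZ ⟨T, hTc, hT⟩
    refine ⟨T, hTc, fun x hx => ?_⟩
    have : out G S Z x = out G (S.erase u') Z x := by
      ext z
      simp only [mem_out, mem_erase]
      constructor
      · rintro ⟨a, b, c⟩
        refine ⟨⟨?_, a⟩, b, c⟩
        rintro rfl
        exact ht x (mem_erase.1 (hZ hx)).2 (fun e => huZ (e ▸ hx)) c.symm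
      · rintro ⟨a, b, c⟩; exact ⟨a.2, b, c⟩
    rw [this]
    exact hT x hx
  · rintro Z hZ huZ ⟨T, hTc, hT⟩
    refine ⟨T, hTc, fun x hx => ?_⟩
    rcases mem_insert.1 hx with rfl | hx
    · left
      rw [out_eq_empty_iff]
      intro z hz hzZ
      exact ht z hz (fun e => hzZ (e ▸ mem_insert_of_mem huZ))
    · have : out G S (insert u' Z) x = out G (S.erase u') Z x := by
        ext z
        simp only [mem_out, mem_erase, mem_insert]
        tauto
      rw [this]
      exact hT x hx

/-- connectedness, as absence of proper closed subsets -/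
def Conn (G : SimpleGraph V) (S : Finset V) : Prop :=
  ∀ A ⊆ S, A.Nonempty → (∀ x ∈ A, ∀ y ∈ S, G.Adj x y → y ∈ A) → S ⊆ A

/-- no twins -/
def TwinFree (G : SimpleGraph V) (S : Finset V) : Prop :=
  ∀ x ∈ S, ∀ y ∈ S, (∀ z ∈ S, z ≠ x → z ≠ y → (G.Adj x z ↔ G.Adj y z)) → x = y

/-- minimum degree at least two -/
def NoPend (G : SimpleGraph V) (S : Finset V) : Prop :=
  ∀ x ∈ S, ∃ y ∈ S, ∃ z ∈ S, y ≠ z ∧ G.Adj x y ∧ G.Adj x z

lemma W_of_prime {G : SimpleGraph V} {k : ℕ} (hk : 2 ≤ k) (S0 : Finset V)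
    (h : ∀ S ⊆ S0, S.Nonempty → Conn G S → TwinFree G S → NoPend G S → W G k S) :
    W G k S0 := by
  have key : ∀ n, ∀ S ⊆ S0, S.card = n → W G k S := by
    intro n
    induction n using Nat.strong_induction_on with
    | _ n ih =>
      intro S hS hn
      by_cases h2 : S.card ≤ 2
      · exact W_card G (h2.trans hk)
      have hne : S.Nonempty := card_pos.1 (by omega)
      have herase : ∀ u' ∈ S, W G k (S.erase u') := by
        intro u' hu'
        exact ih _ (by rw [card_erase_of_mem hu']; omega) _ ((erase_subset _ _).trans hS) rfl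
      by_cases hc : Conn G S
      · by_cases ht : TwinFree G S
        · by_cases hp : NoPend G S
          · exact h S hS hne hc ht hp
          · unfold NoPend at hp
            push Not at hp
            obtain ⟨x, hx, hp⟩ := hp
            by_cases hy : ∃ y ∈ S, G.Adj x y
            · obtain ⟨y, hy, hxy⟩ := hy
              refine W_pend hy hx hxy.ne.symm hk ?_ (herase x hx)
              intro z hz hzy hxz
              exact hp z hz y hy hzy hxz hxy
            · push Not at hy
              obtain ⟨y, hy', hyx⟩ := exists_mem_ne (by omega : 1 < S.card) x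
              exact W_pend hy' hx hyx hk (fun z hz _ => hy z hz) (herase x hx)
        · unfold TwinFree at ht
          push Not at ht
          obtain ⟨x, hx, y, hy, ht, hxy⟩ := ht
          exact W_twin hx hy hxy hk ht (herase y hy)
      · unfold Conn at hc
        push Not at hc
        obtain ⟨A, hA, hAne, hcl, hnot⟩ := hc
        have hlt : A.card < S.card := card_lt_card ⟨hA, hnot⟩
        refine W_union hA (fun x hx y hy hyA hxy => hyA (hcl x hx y hy hxy)) ?_ ?_
        · exact ih _ (by omega) _ (hA.trans hS) rfl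
        · refine ih _ ?_ _ (sdiff_subset.trans hS) rfl
          rw [card_sdiff_of_subset hA]
          have := card_pos.2 hAne
          omega
  exact key _ S0 Subset.rfl rfl

/-- independent sets -/
lemma W_indep {G : SimpleGraph V} {S : Finset V} (h : ∀ x ∈ S, ∀ y ∈ S, ¬ G.Adj x y) :
    W G 2 S := by
  refine W_of_prime le_rfl S (fun S' hS' ⟨x, hx⟩ _ _ hp => ?_)
  obtain ⟨y, hy, _, _, _, hxy, _⟩ := hp x hx
  exact absurd hxy (h x (hS' hx) y (hS' hy))

/-- maximum degree at most two -/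
lemma W_deg2 {G : SimpleGraph V} {S : Finset V}
    (h : ∀ x ∈ S, ∀ a ∈ S, ∀ b ∈ S, ∀ c ∈ S, G.Adj x a → G.Adj x b → G.Adj x c →
      a = b ∨ a = c ∨ b = c) : W G (J 1 3) S := by
  refine W_of_prime (by simp [J]) S (fun S' hS' ⟨v, hv⟩ hc _ _ => ?_)
  refine W_del (k := 2) (t := 1) (F := {v}) (by simp) ?_
  refine W_of_prime le_rfl _ (fun A hA hAne _ _ hp => ?_)
  exfalso
  have hA' : A ⊆ S' := hA.trans sdiff_subset
  have : S' ⊆ A := by
    refine hc A hA' hAne (fun x hx y hy hxy => ?_)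
    obtain ⟨a, ha, b, hb, hab, hxa, hxb⟩ := hp x hx
    rcases h x (hS' (hA' hx)) a (hS' (hA' ha)) b (hS' (hA' hb)) y (hS' hy) hxa hxb hxy with
      e | e | e
    · exact absurd e hab
    · exact e ▸ ha
    · exact e ▸ hb
  have := hA (this hv)
  simp at this

end

end Pool.Agent.MP_41f2d3_co
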