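import Pool.Agent.MP_41f2d3_co.K3Local

/-! The triangle-free case. -/

namespace Pool.Agent.MP_41f2d3_co

open Finset Classical

noncomputable section

variable {V : Type}

lemma W_reps {G : SimpleGraph V} {t : ℕ} {X : Finset V} (R : Finset V) (hR : R.card ≤ t)
    (h : ∀ x ∈ X, ∃ r ∈ R, ∀ z ∈ X, (G.Adj x z ↔ G.Adj r z)) : W G (t * 3) X := by
  have h0 : W (⊥ : SimpleGraph V) 2 X := W_indep (fun _ _ _ _ h => h)
  refine W.relabel (fun x => X.filter (G.Adj x)) (R.image (fun r => X.filter (G.Adj r)))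
    (card_image_le.trans hR) ?_ ?_ h0
  · intro x hx
    obtain ⟨r, hr, h⟩ := h x hx
    refine mem_image.2 ⟨r, hr, ?_⟩
    ext z
    simp only [mem_filter]
    constructor
    · rintro ⟨a, b⟩; exact ⟨a, (h z a).2 b⟩
    · rintro ⟨a, b⟩; exact ⟨a, (h z a).1 b⟩
  · intro x _ y _ z hz e _ _ _
    have := Finset.ext_iff.1 e z
    simpa [hz] using this

lemma rainbow_of_ordered {G : SimpleGraph V} {S : Finset V} (col : V → Fin 3)
    (h : ∀ a ∈ S, ∀ b ∈ S, ∀ c ∈ S, col a = 0 → col b = 1 → col c = 2 →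
      ¬ G.Adj a b → ¬ G.Adj a c → ¬ G.Adj b c → False) :
    ∀ a ∈ S, ∀ b ∈ S, ∀ c ∈ S, col a ≠ col b → col a ≠ col c → col b ≠ col c →
      G.Adj a b ∨ G.Adj a c ∨ G.Adj b c := by
  intro a ha b hb c hc n1 n2 n3
  by_contra hh
  push Not at hh
  obtain ⟨hab, hac, hbc⟩ := hh
  rcases fin3_cases (col a) with e1 | e1 | e1 <;>
    rcases fin3_cases (col b) with e2 | e2 | e2 <;>
    rcases fin3_cases (col c) with e3 | e3 | e3 <;>
    first
    | exact absurd (e1.trans e2.symm) n1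
    | exact absurd (e1.trans e3.symm) n2
    | exact absurd (e2.trans e3.symm) n3
    | exact h a ha b hb c hc e1 e2 e3 hab hac hbc
    | exact h a ha c hc b hb e1 e3 e2 hac hab (ns hbc)
    | exact h b hb a ha c hc e2 e1 e3 (ns hab) hbc hac
    | exact h b hb c hc a ha e2 e3 e1 hbc (ns hab) (ns hac)
    | exact h c hc a ha b hb e3 e1 e2 (ns hac) (ns hbc) hab
    | exact h c hc b hb a ha e3 e2 e1 (ns hbc) (ns hac) (ns hab)

/-- an induced five-cycle inside the non-neighbourhood of `v` -/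
def C5 (G : SimpleGraph V) (S : Finset V) (v c0 c1 c2 c3 c4 : V) : Prop :=
  v ∈ S ∧ c0 ∈ S ∧ c1 ∈ S ∧ c2 ∈ S ∧ c3 ∈ S ∧ c4 ∈ S ∧
  G.Adj c0 c1 ∧ G.Adj c1 c2 ∧ G.Adj c2 c3 ∧ G.Adj c3 c4 ∧ G.Adj c4 c0 ∧
  ¬ G.Adj c0 c2 ∧ ¬ G.Adj c0 c3 ∧ ¬ G.Adj c1 c3 ∧ ¬ G.Adj c1 c4 ∧ ¬ G.Adj c2 c4 ∧
  ¬ G.Adj v c0 ∧ ¬ G.Adj v c1 ∧ ¬ G.Adj v c2 ∧ ¬ G.Adj v c3 ∧ ¬ G.Adj v c4

lemma C5.rot {G : SimpleGraph V} {S : Finset V} {v c0 c1 c2 c3 c4 : V}
    (h : C5 G S v c0 c1 c2 c3 c4) : C5 G S v c1 c2 c3 c4 c0 := by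
  obtain ⟨m, m0, m1, m2, m3, m4, a0, a1, a2, a3, a4, n0, n1, n2, n3, n4, v0, v1, v2, v3, v4⟩ := h
  exact ⟨m, m1, m2, m3, m4, m0, a1, a2, a3, a4, a0, n2, n3, n4, ns n0, ns n1, v1, v2, v3, v4, v0⟩

lemma C5.twin {G : SimpleGraph V} {S : Finset V} (hT : TF G S) (hQ : QF G S)
    {v c0 c1 c2 c3 c4 d : V} (h : C5 G S v c0 c1 c2 c3 c4) (hd : d ∈ S) (hvd : ¬ G.Adj v d)
    (h1 : G.Adj d c1 ∧ G.Adj d c4) : ∀ z ∈ S, G.Adj d z ↔ G.Adj c0 z := by
  obtain ⟨m, m0, m1, m2, m3, m4, a0, a1, a2, a3, a4, n0, n1, n2, n3, n4, v0, v1, v2, v3, v4⟩ := h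
  intro z hz
  exact c5_twin hT hQ m0 m1 m2 m3 m4 m hd hz a0 a1 a2 a3 a4 h1.1 h1.2 n0 n1 n2 n3 n4
    v0 v1 v2 v3 v4 hvd

lemma W_K3A_c5 {G : SimpleGraph V} (hP : PF G) {S : Finset V} (hT : TF G S) (hQ : QF G S)
    {v c0 c1 c2 c3 c4 : V} (h : C5 G S v c0 c1 c2 c3 c4) : W G (J 5 15) S := by
  let D := S.filter (fun d => ¬ G.Adj v d ∧ ∃ e ∈ S, ¬ G.Adj v e ∧ G.Adj d e)
  have hrep : ∀ d ∈ D, ∃ r ∈ ({c0, c1, c2, c3, c4} : Finset V),
      ∀ z ∈ S, (G.Adj d z ↔ G.Adj r z) := by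
    intro d hd
    obtain ⟨hdS, hvd, e, he, hve, hde⟩ := mem_filter.1 hd
    have h' := h
    obtain ⟨m, m0, m1, m2, m3, m4, a0, a1, a2, a3, a4, n0, n1, n2, n3, n4, v0, v1, v2, v3, v4⟩ := h'
    rcases c5_type hT hQ m0 m1 m2 m3 m4 m hdS he a0 a1 a2 a3 a4 hde n0 n1 n2 n3 n4
      v0 v1 v2 v3 v4 hvd hve with t | t | t | t | t
    · exact ⟨c0, by simp, h.twin hT hQ hdS hvd t⟩
    · exact ⟨c1, by simp, h.rot.twin hT hQ hdS hvd t⟩
    · exact ⟨c2, by simp, h.rot.rot.twin hT hQ hdS hvd t⟩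
    · exact ⟨c3, by simp, h.rot.rot.rot.twin hT hQ hdS hvd t⟩
    · exact ⟨c4, by simp, h.rot.rot.rot.rot.twin hT hQ hdS hvd t⟩
  have hc : ({c0, c1, c2, c3, c4} : Finset V).card ≤ 5 := card_le_five
  refine W_join (A := D) (filter_subset _ _) (Ty_of_reps _ hc ?_) (W_reps _ hc ?_) ?_
  · intro x hx
    obtain ⟨r, hr, h⟩ := hrep x hx
    exact Or.inr ⟨r, hr, fun z hz _ => h z hz⟩
  · intro x hx
    obtain ⟨r, hr, h⟩ := hrep x hx
    exact ⟨r, hr, fun z hz => h z (mem_filter.1 hz).1⟩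
  · refine (W_bip hP (fun x => G.Adj v x) ?_).mono (by norm_num)
    intro a ha b hb hab
    rw [mem_sdiff] at ha hb
    constructor
    · intro h1 h2
      exact hT v h.1 a ha.1 b hb.1 h1 h2 hab
    · intro h1
      by_contra h2
      exact ha.2 (mem_filter.2 ⟨ha.1, h2, b, hb.1, h1, hab⟩)

lemma W_K3A_noc5 {G : SimpleGraph V} (hD : DF G) (hP : PF G) {S : Finset V} (hT : TF G S)
    (hQ : QF G S) (hC : ∀ v c0 c1 c2 c3 c4, ¬ C5 G S v c0 c1 c2 c3 c4) :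
    W G (J 1 (cTri + 2)) S := by
  rcases S.eq_empty_or_nonempty with rfl | hne
  · exact W_card G (by simp)
  obtain ⟨v, hv, hmin⟩ := exists_min_image S (fun x => (S.filter (G.Adj x)).card) hne
  let InD : V → Prop := fun d => ¬ G.Adj v d ∧ ∃ e ∈ S, ¬ G.Adj v e ∧ G.Adj d e
  let T0 := S.filter (fun s => ¬ G.Adj v s ∧ ¬ InD s)
  have htw : ∀ s ∈ T0, ∀ z ∈ S, G.Adj s z ↔ G.Adj v z := by
    intro s hs
    obtain ⟨hsS, hvs, hn⟩ := mem_filter.1 hs
    have hsub : S.filter (G.Adj s) ⊆ S.filter (G.Adj v) := by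
      intro z hz
      rw [mem_filter] at hz ⊢
      refine ⟨hz.1, ?_⟩
      by_contra hh
      exact hn ⟨hvs, z, hz.1, hh, hz.2⟩
    have heq := eq_of_subset_of_card_le hsub (hmin s hsS)
    intro z hz
    have := Finset.ext_iff.1 heq z
    simpa [hz] using this
  refine W_join (A := T0) (filter_subset _ _) (Ty_of_reps {v} (by simp) ?_)
    ((W_indep ?_).mono (by omega)) ?_
  · intro x hx
    exact Or.inr ⟨v, by simp, fun z hz _ => htw x hx z hz⟩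
  · intro x hx y hy hxy
    exact (mem_filter.1 hy).2.1 ((htw x hx y (mem_filter.1 hy).1).1 hxy)
  have hrest : ∀ x ∈ S \ T0, x ∈ S ∧ (G.Adj v x ∨ InD x) := by
    intro x hx
    rw [mem_sdiff] at hx
    refine ⟨hx.1, ?_⟩
    by_contra hh
    push Not at hh
    exact hx.2 (mem_filter.2 ⟨hx.1, hh⟩)
  have hin : ∀ x ∈ S, InD x → x ∈ S \ T0 := by
    intro x hx h
    exact mem_sdiff.2 ⟨hx, fun h' => (mem_filter.1 h').2.2 h⟩
  by_cases hDne : ∃ p ∈ S, InD p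
  swap
  · push Not at hDne
    refine (W_indep ?_).mono (by omega)
    intro x hx y hy hxy
    have h1 := hrest x hx
    have h2 := hrest y hy
    exact hT v hv x h1.1 y h2.1 (h1.2.resolve_right (hDne x h1.1))
      (h2.2.resolve_right (hDne y h2.1)) hxy
  obtain ⟨p, hp, hvp, q, hq, hvq, hpq⟩ := hDne
  let X1 : V → Prop := fun x =>
    G.Adj q x ∨ (¬ G.Adj p x ∧ ¬ ∃ y ∈ S, ¬ G.Adj v y ∧ G.Adj q y ∧ G.Adj x y)
  let col : V → Fin 3 := fun x => if G.Adj v x then 0 else if X1 x then 1 else 2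
  have c0 : ∀ x, col x = 0 ↔ G.Adj v x := by
    intro x; simp only [col]; split_ifs <;> simp [*]
  have c1 : ∀ x, col x = 1 ↔ ¬ G.Adj v x ∧ X1 x := by
    intro x; simp only [col]; split_ifs <;> simp [*]
  have c2 : ∀ x, col x = 2 ↔ ¬ G.Adj v x ∧ ¬ X1 x := by
    intro x; simp only [col]; split_ifs <;> simp [*]
  have hind : ∀ a ∈ S, ∀ b ∈ S, G.Adj a b → col a ≠ col b := by
    intro a ha b hb hab e
    rcases fin3_cases (col a) with e1 | e1 | e1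
    · exact hT v hv a ha b hb ((c0 a).1 e1) ((c0 b).1 (e ▸ e1)) hab
    · obtain ⟨va, xa⟩ := (c1 a).1 e1
      obtain ⟨vb, xb⟩ := (c1 b).1 (e ▸ e1)
      by_cases qa : G.Adj q a
      · rcases xb with qb | ⟨_, xb⟩
        · exact hT q hq a ha b hb qa qb hab
        · exact xb ⟨a, ha, va, qa, hab.symm⟩
      · by_cases qb : G.Adj q b
        · exact (xa.resolve_left qa).2 ⟨b, hb, vb, qb, hab⟩
        · exact hQ p hp q hq a ha b hb v hv hpq hab (xa.resolve_left qa).1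
            (xb.resolve_left qb).1 qa qb hvp hvq va vb
    · obtain ⟨va, xa⟩ := (c2 a).1 e1
      obtain ⟨vb, xb⟩ := (c2 b).1 (e ▸ e1)
      simp only [X1, not_or, not_and, not_not] at xa xb
      have aux : ∀ a ∈ S, ∀ b ∈ S, G.Adj a b → ¬ G.Adj v a → ¬ G.Adj v b → ¬ G.Adj q a →
          ¬ G.Adj q b → G.Adj p a → ¬ G.Adj p b →
          (∃ y ∈ S, ¬ G.Adj v y ∧ G.Adj q y ∧ G.Adj b y) → False := by
        rintro a ha b hb hab va vb qa qb pa pb ⟨y, hy, vy, qy, by'⟩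
        exact hC v p a b y q ⟨hv, hp, ha, hb, hy, hq, pa, hab, by', qy.symm, hpq.symm, pb,
          fun h => hT q hq p hp y hy hpq.symm qy h, fun h => hT b hb a ha y hy hab.symm by' h,
          ns qa, ns qb, hvp, va, vb, vy, hvq⟩
      by_cases pa : G.Adj p a
      · by_cases pb : G.Adj p b
        · exact hT p hp a ha b hb pa pb hab
        · exact aux a ha b hb hab va vb xa.1 xb.1 pa pb (xb.2 pb)
      · by_cases pb : G.Adj p b
        · exact aux b hb a ha hab.symm vb va xb.1 xa.1 pb pa (xa.2 pa)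
        · exact hQ p hp q hq a ha b hb v hv hpq hab pa pb xa.1 xb.1 hvp hvq va vb
  refine (W_tri hD hP col (fun a ha b hb => hind a (hrest a ha).1 b (hrest b hb).1)
    (rainbow_of_ordered col ?_) (Or.inl (fun a ha b hb c hc =>
      hT a (hrest a ha).1 b (hrest b hb).1 c (hrest c hc).1))).mono (by omega)
  intro u hu x hx y hy cu cx cy ux uy xy
  have vu := (c0 u).1 cu
  have vx := ((c1 x).1 cx).1
  have vy := ((c2 y).1 cy).1
  obtain ⟨_, y1, hy1, vy1, xy1⟩ := (hrest x hx).2.resolve_left vx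
  obtain ⟨_, x1, hx1, vx1, yx1⟩ := (hrest y hy).2.resolve_left vy
  have xx1 : ¬ G.Adj x x1 := by
    intro h
    have n1 := hind _ (hrest x hx).1 _ hx1 h
    have n2 := hind _ (hrest y hy).1 _ hx1 yx1
    have n3 : col x1 ≠ 0 := fun h => vx1 ((c0 _).1 h)
    rw [cx] at n1
    rw [cy] at n2
    rcases fin3_cases (col x1) with e | e | e
    · exact n3 e
    · exact n1 e.symm
    · exact n2 e.symm
  have yy1 : ¬ G.Adj y y1 := by
    intro h
    have n1 := hind _ (hrest x hx).1 _ hy1 xy1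
    have n2 := hind _ (hrest y hy).1 _ hy1 h
    have n3 : col y1 ≠ 0 := fun h => vy1 ((c0 _).1 h)
    rw [cx] at n1
    rw [cy] at n2
    rcases fin3_cases (col y1) with e | e | e
    · exact n3 e
    · exact n1 e.symm
    · exact n2 e.symm
  exact rain hT hQ hv (hrest u hu).1 (hrest x hx).1 (hrest y hy).1 hx1 hy1 vu xy1 yx1 vx vy vx1 vy1
    ux uy xy xx1 yy1

/-- bound -/
def cA : ℕ := J 5 15 + J 1 (cTri + 2) + 12

lemma W_K3A {G : SimpleGraph V} (hD : DF G) (hP : PF G) {S : Finset V} (hT : TF G S)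
    (hQ : QF G S) : W G cA S := by
  by_cases hC : ∃ v c0 c1 c2 c3 c4, C5 G S v c0 c1 c2 c3 c4
  · obtain ⟨v, c0, c1, c2, c3, c4, h⟩ := hC
    exact (W_K3A_c5 hP hT hQ h).mono (by unfold cA; omega)
  · push Not at hC
    exact (W_K3A_noc5 hD hP hT hQ hC).mono (by unfold cA; omega)

lemma TF.mono {G : SimpleGraph V} {S S' : Finset V} (h : TF G S) (hS : S' ⊆ S) : TF G S' :=
  fun a ha b hb c hc => h a (hS ha) b (hS hb) c (hS hc)

lemma F5.mono {G : SimpleGraph V} {S S' : Finset V} (h : F5 G S) (hS : S' ⊆ S) : F5 G S' :=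
  fun a ha b hb c hc d hd e he => h a (hS ha) b (hS hb) c (hS hc) d (hS hd) e (hS he)

lemma W_K3P5 {G : SimpleGraph V} (hD : DF G) (hP : PF G) {S : Finset V} (hT : TF G S)
    (h5 : F5 G S) : W G cA S := by
  refine W_of_prime (by unfold cA; omega) S (fun S' hS' _ hc _ _ => ?_)
  have hT' := hT.mono hS'
  have h5' := h5.mono hS'
  refine W_K3A hD hP hT' ?_
  intro a ha b hb c hc' d hd z _ hab hcd ac ad bc bd _ _ _ _
  let A := S'.filter (fun x => ∃ y ∈ S', (G.Adj y a ∨ G.Adj y b) ∧ (x = y ∨ G.Adj x y))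
  have hsub : S' ⊆ A := by
    refine hc A (filter_subset _ _) ⟨a, mem_filter.2 ⟨ha, a, ha, Or.inr hab, Or.inl rfl⟩⟩ ?_
    intro x hx w hw hxw
    obtain ⟨hxS, y, hy, h1, h2⟩ := mem_filter.1 hx
    by_contra hn
    have hn' : ∀ y ∈ S', (G.Adj y a ∨ G.Adj y b) → w ≠ y ∧ ¬ G.Adj w y := by
      intro y hy h
      exact ⟨fun e => hn (mem_filter.2 ⟨hw, y, hy, h, Or.inl e⟩),
        fun e => hn (mem_filter.2 ⟨hw, y, hy, h, Or.inr e⟩)⟩
    rcases h2 with rfl | h2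
    · exact (hn' x hxS h1).2 hxw.symm
    · have wa := (hn' a ha (Or.inr hab)).2
      have wb := (hn' b hb (Or.inl hab.symm)).2
      have wy := (hn' y hy h1).2
      have xa : ¬ G.Adj x a := fun h => (hn' x hxS (Or.inl h)).2 hxw.symm
      have xb : ¬ G.Adj x b := fun h => (hn' x hxS (Or.inr h)).2 hxw.symm
      rcases h1 with h1 | h1
      · exact p5_closed hT' h5' ha hb hy hxS hw hab h1 h2 hxw.symm wy wa wb xb
      · exact p5_closed hT' h5' hb ha hy hxS hw hab.symm h1 h2 hxw.symm wy wb wa xa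
  obtain ⟨_, y, hy, h1, h2⟩ := mem_filter.1 (hsub hc')
  rcases h2 with rfl | h2
  · rcases h1 with h1 | h1
    · exact ac h1.symm
    · exact bc h1.symm
  · rcases h1 with h1 | h1
    · exact p5_far hT' h5' ha hb hc' hd hy hab hcd h1 h2 ac ad bc bd
    · exact p5_far hT' h5' hb ha hc' hd hy hab.symm hcd h1 h2 bc bd ac ad

/-- an edge in the non-neighbourhood of `w` -/
def Em (G : SimpleGraph V) (S : Finset V) (w p q : V) : Prop :=
  p ∈ S ∧ q ∈ S ∧ G.Adj p q ∧ ¬ G.Adj w p ∧ ¬ G.Adj w q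

/-- two anticomplete pairs -/
def Far (G : SimpleGraph V) (p q f g : V) : Prop :=
  ¬ G.Adj p f ∧ ¬ G.Adj p g ∧ ¬ G.Adj q f ∧ ¬ G.Adj q g

lemma Far.symm {G : SimpleGraph V} {p q f g : V} (h : Far G p q f g) : Far G f g p q :=
  ⟨ns h.1, ns h.2.2.1, ns h.2.1, ns h.2.2.2⟩

lemma type_touch {G : SimpleGraph V} (hP : PF G) {S : Finset V} (hT : TF G S)
    {w p q f g d e : V} (hw : w ∈ S) (h1 : Em G S w p q) (h2 : Em G S w f g) (h3 : Em G S w d e)
    (hf : Far G p q f g) (hn : ¬ Far G d e p q) :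
    (∀ u ∈ S, G.Adj w u → (G.Adj d u ↔ G.Adj p u)) ∨
      (∀ u ∈ S, G.Adj w u → (G.Adj d u ↔ G.Adj q u)) := by
  obtain ⟨hp, hq, pq, wp, wq⟩ := h1
  obtain ⟨hf', hg, fg, wf, wg⟩ := h2
  obtain ⟨hd, he, de, wd, we⟩ := h3
  obtain ⟨pf, pg, qf, qg⟩ := hf
  simp only [Far, not_and_or, not_not] at hn
  rcases hn with h | h | h | h
  · exact Or.inr (fun u hu wu =>
      typeA hT hP hw hp hq hf' hg hd he hu pq fg de h wu wp wq wf wg wd we pf pg qf qg)
  · exact Or.inl (fun u hu wu =>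
      typeA hT hP hw hq hp hf' hg hd he hu pq.symm fg de h wu wq wp wf wg wd we qf qg pf pg)
  · exact Or.inl (fun u hu wu =>
      typeB hT hP hw hp hq hf' hg hd he hu pq fg de h wu wp wq wf wg wd we pf pg qf qg)
  · exact Or.inr (fun u hu wu =>
      typeB hT hP hw hq hp hf' hg hd he hu pq.symm fg de h wu wq wp wf wg wd we qf qg pf pg)

lemma W_K3B {G : SimpleGraph V} (hD : DF G) (hP : PF G) {S : Finset V} (hT : TF G S)
    {w p1 q1 p2 q2 : V} (hw : w ∈ S) (h1 : Em G S w p1 q1) (h2 : Em G S w p2 q2)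
    (hf : Far G p1 q1 p2 q2) : W G (J 6 cA) S := by
  let D := S.filter (fun d => ∃ e, Em G S w d e)
  have hout : ∀ d ∈ D, ∀ z ∈ S, z ∉ D → G.Adj d z → G.Adj w z := by
    intro d hd z hz hzD hdz
    obtain ⟨hdS, e, he⟩ := mem_filter.1 hd
    by_contra hh
    exact hzD (mem_filter.2 ⟨hz, d, hz, hdS, hdz.symm, hh, he.2.2.2.1⟩)
  have hD1 : ∀ {p q}, Em G S w p q → p ∈ D ∧ q ∈ D := by
    intro p q h
    exact ⟨mem_filter.2 ⟨h.1, q, h⟩,
      mem_filter.2 ⟨h.2.1, p, h.2.1, h.1, h.2.2.1.symm, h.2.2.2.2, h.2.2.2.1⟩⟩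
  have conv : ∀ d ∈ D, ∀ r ∈ D, (∀ u ∈ S, G.Adj w u → (G.Adj d u ↔ G.Adj r u)) →
      ∀ z ∈ S, z ∉ D → (G.Adj d z ↔ G.Adj r z) := by
    intro d hd r hr h z hz hzD
    by_cases wz : G.Adj w z
    · exact h z hz wz
    · exact ⟨fun a => absurd (hout d hd z hz hzD a) wz, fun a => absurd (hout r hr z hz hzD a) wz⟩
  have hTy : Ty G 6 S D := by
    have main : ∀ p3 q3 : V, (∀ d e, Em G S w d e → Far G d e p1 q1 → Far G d e p2 q2 →
        (∀ z ∈ S, G.Adj w z → ¬ G.Adj d z) ∨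
        (Em G S w p3 q3 ∧ Far G p3 q3 p1 q1 ∧ ¬ Far G d e p3 q3)) → Ty G 6 S D := by
      intro p3 q3 h3
      refine Ty_of_reps {p1, q1, p2, q2, p3, q3} card_le_six ?_
      intro d hd
      obtain ⟨hdS, e, he⟩ := mem_filter.1 hd
      by_cases t1 : Far G d e p1 q1
      · by_cases t2 : Far G d e p2 q2
        · rcases h3 d e he t1 t2 with h | ⟨h, hf3, hn⟩
          · exact Or.inl (fun z hz hzD a => h z hz (hout d hd z hz hzD a) a)
          · rcases type_touch hP hT hw h h1 he hf3 hn with t | t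
            · exact Or.inr ⟨p3, by simp, conv d hd p3 (hD1 h).1 t⟩
            · exact Or.inr ⟨q3, by simp, conv d hd q3 (hD1 h).2 t⟩
        · rcases type_touch hP hT hw h2 h1 he hf.symm t2 with t | t
          · exact Or.inr ⟨p2, by simp, conv d hd p2 (hD1 h2).1 t⟩
          · exact Or.inr ⟨q2, by simp, conv d hd q2 (hD1 h2).2 t⟩
      · rcases type_touch hP hT hw h1 h2 he hf t1 with t | t
        · exact Or.inr ⟨p1, by simp, conv d hd p1 (hD1 h1).1 t⟩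
        · exact Or.inr ⟨q1, by simp, conv d hd q1 (hD1 h1).2 t⟩
    by_cases h3 : ∃ p3 q3, Em G S w p3 q3 ∧ Far G p3 q3 p1 q1 ∧ ∃ u ∈ S, G.Adj w u ∧ G.Adj p3 u
    · obtain ⟨p3, q3, e3, f3, u, hu, wu, pu⟩ := h3
      refine main p3 q3 (fun d e he t1 _ => ?_)
      by_cases t3 : Far G d e p3 q3
      · left
        intro z hz wz dz
        exact three hT hP hw he.1 he.2.1 e3.1 e3.2.1 h1.1 h1.2.1 hz hu he.2.2.1 e3.2.2.1 h1.2.2.1
          wz wu dz.symm pu.symm he.2.2.2.1 he.2.2.2.2 e3.2.2.2.1 e3.2.2.2.2 h1.2.2.2.1 h1.2.2.2.2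
          t3.1 t3.2.1 t3.2.2.1 t3.2.2.2 t1.1 t1.2.1 t1.2.2.1 t1.2.2.2
          f3.1 f3.2.1 f3.2.2.1 f3.2.2.2
      · exact Or.inr ⟨e3, f3, t3⟩
    · refine main p1 q1 (fun d e he t1 _ => Or.inl (fun z hz wz dz => ?_))
      exact h3 ⟨d, e, he, t1, z, hz, wz, dz⟩
  refine W_join (A := D) (filter_subset _ _) hTy ?_ ?_
  · refine W_K3P5 hD hP (hT.mono (filter_subset _ _)) ?_
    intro a ha b hb c hc d hd e he h1 h2 h3 h4 n1 n2 n3 n4 n5 n6
    have hn : ∀ x ∈ D, ¬ G.Adj w x := by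
      intro x hx
      obtain ⟨_, e, he⟩ := mem_filter.1 hx
      exact he.2.2.2.1
    exact hP a b c d e w h1 h2 h3 h4 n1 n2 n3 n4 n5 n6 (hn a ha) (hn b hb) (hn c hc) (hn d hd)
      (hn e he)
  · refine (W_bip hP (fun x => G.Adj w x) ?_).mono (by unfold cA; omega)
    intro a ha b hb hab
    rw [mem_sdiff] at ha hb
    constructor
    · intro h1 h2
      exact hT w hw a ha.1 b hb.1 h1 h2 hab
    · intro h1
      by_contra h2
      exact ha.2 (mem_filter.2 ⟨ha.1, b, ha.1, hb.1, hab, h2, h1⟩)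

/-- bound -/
def cK3 : ℕ := cA + J 6 cA

theorem W_K3 {G : SimpleGraph V} (hD : DF G) (hP : PF G) {S : Finset V} (hT : TF G S) :
    W G cK3 S := by
  by_cases hQ : QF G S
  · exact (W_K3A hD hP hT hQ).mono (by unfold cK3; omega)
  · unfold QF at hQ
    push Not at hQ
    obtain ⟨a, ha, b, hb, c, hc, d, hd, z, hz, ab, cd, ac, ad, bc, bd, za, zb, zc, zd, _⟩ := hQ
    exact (W_K3B hD hP hT hz ⟨ha, hb, ab, za, zb⟩ ⟨hc, hd, cd, zc, zd⟩ ⟨ac, ad, bc, bd⟩).mono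
      (by unfold cK3; omega)

end

end Pool.Agent.MP_41f2d3_co
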