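import Pool.Agent.MP_41f2d3_co.Tri

/-! Local lemmas for the triangle-free case. -/

namespace Pool.Agent.MP_41f2d3_co

open Finset Classical

variable {V : Type}

/-- triangle-free on `S` -/
def TF (G : SimpleGraph V) (S : Finset V) : Prop :=
  ∀ a ∈ S, ∀ b ∈ S, ∀ c ∈ S, G.Adj a b → G.Adj a c → G.Adj b c → False

/-- P5-free on `S` -/
def F5 (G : SimpleGraph V) (S : Finset V) : Prop :=
  ∀ a ∈ S, ∀ b ∈ S, ∀ c ∈ S, ∀ d ∈ S, ∀ e ∈ S, G.Adj a b → G.Adj b c → G.Adj c d → G.Adj d e →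
    ¬ G.Adj a c → ¬ G.Adj a d → ¬ G.Adj a e → ¬ G.Adj b d → ¬ G.Adj b e → ¬ G.Adj c e → False

/-- P1 + 2 P2 free on `S` -/
def QF (G : SimpleGraph V) (S : Finset V) : Prop :=
  ∀ a ∈ S, ∀ b ∈ S, ∀ c ∈ S, ∀ d ∈ S, ∀ z ∈ S, G.Adj a b → G.Adj c d →
    ¬ G.Adj a c → ¬ G.Adj a d → ¬ G.Adj b c → ¬ G.Adj b d →
    ¬ G.Adj z a → ¬ G.Adj z b → ¬ G.Adj z c → ¬ G.Adj z d → False

lemma ns {G : SimpleGraph V} {a b : V} (h : ¬ G.Adj a b) : ¬ G.Adj b a := fun h' => h h'.symm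

set_option linter.unusedVariables false

lemma c5_type {G : SimpleGraph V} {S : Finset V} (hT : TF G S) (hQ : QF G S)
    {c0 c1 c2 c3 c4 v d e : V} (hc0 : c0 ∈ S) (hc1 : c1 ∈ S) (hc2 : c2 ∈ S) (hc3 : c3 ∈ S) (hc4 : c4 ∈ S) (hv : v ∈ S) (hd : d ∈ S) (he : e ∈ S)
    (a0 : G.Adj c0 c1) (a1 : G.Adj c1 c2) (a2 : G.Adj c2 c3) (a3 : G.Adj c3 c4)
    (a4 : G.Adj c4 c0) (a5 : G.Adj d e) (n0 : ¬ G.Adj c0 c2) (n1 : ¬ G.Adj c0 c3)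
    (n2 : ¬ G.Adj c1 c3) (n3 : ¬ G.Adj c1 c4) (n4 : ¬ G.Adj c2 c4) (n5 : ¬ G.Adj v c0)
    (n6 : ¬ G.Adj v c1) (n7 : ¬ G.Adj v c2) (n8 : ¬ G.Adj v c3) (n9 : ¬ G.Adj v c4)
    (n10 : ¬ G.Adj v d) (n11 : ¬ G.Adj v e)
    : (G.Adj d c1 ∧ G.Adj d c4) ∨ (G.Adj d c2 ∧ G.Adj d c0) ∨ (G.Adj d c3 ∧ G.Adj d c1) ∨ (G.Adj d c4 ∧ G.Adj d c2) ∨ (G.Adj d c0 ∧ G.Adj d c3) := by
  have i0 := hT c0 hc0 c1 hc1 e he
  have i1 := hT c0 hc0 c4 hc4 e he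
  have i2 := hT c1 hc1 c2 hc2 e he
  have i3 := hT c2 hc2 c3 hc3 e he
  have i4 := hT c3 hc3 c4 hc4 e he
  have i5 := hQ c0 hc0 c1 hc1 c3 hc3 d hd v hv
  have i6 := hQ c0 hc0 c1 hc1 d hd e he c3 hc3
  have i7 := hQ c0 hc0 c4 hc4 c2 hc2 d hd v hv
  have i8 := hQ c0 hc0 c4 hc4 d hd e he v hv
  have i9 := hQ c0 hc0 d hd c2 hc2 c3 hc3 v hv
  have i10 := hQ c1 hc1 c2 hc2 c4 hc4 d hd v hv
  have i11 := hQ c1 hc1 c2 hc2 d hd e he c4 hc4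
  have i12 := hQ c1 hc1 d hd c3 hc3 c4 hc4 v hv
  have i13 := hQ c2 hc2 c3 hc3 d hd e he c0 hc0
  have i14 := hQ c3 hc3 c4 hc4 d hd e he c1 hc1
  clear hT hQ
  grind [SimpleGraph.adj_comm, SimpleGraph.irrefl]

lemma c5_twin {G : SimpleGraph V} {S : Finset V} (hT : TF G S) (hQ : QF G S)
    {c0 c1 c2 c3 c4 v d z : V} (hc0 : c0 ∈ S) (hc1 : c1 ∈ S) (hc2 : c2 ∈ S) (hc3 : c3 ∈ S) (hc4 : c4 ∈ S) (hv : v ∈ S) (hd : d ∈ S) (hz : z ∈ S)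
    (a0 : G.Adj c0 c1) (a1 : G.Adj c1 c2) (a2 : G.Adj c2 c3) (a3 : G.Adj c3 c4)
    (a4 : G.Adj c4 c0) (a5 : G.Adj d c1) (a6 : G.Adj d c4) (n0 : ¬ G.Adj c0 c2)
    (n1 : ¬ G.Adj c0 c3) (n2 : ¬ G.Adj c1 c3) (n3 : ¬ G.Adj c1 c4) (n4 : ¬ G.Adj c2 c4)
    (n5 : ¬ G.Adj v c0) (n6 : ¬ G.Adj v c1) (n7 : ¬ G.Adj v c2) (n8 : ¬ G.Adj v c3)
    (n9 : ¬ G.Adj v c4) (n10 : ¬ G.Adj v d)
    : G.Adj d z ↔ G.Adj c0 z := by
  have i0 := hT c0 hc0 c1 hc1 z hz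
  have i1 := hT c0 hc0 c4 hc4 z hz
  have i2 := hT c1 hc1 c2 hc2 d hd
  have i3 := hT c1 hc1 d hd z hz
  have i4 := hT c2 hc2 c3 hc3 z hz
  have i5 := hT c3 hc3 c4 hc4 d hd
  have i6 := hT c4 hc4 d hd z hz
  have i7 := hQ c0 hc0 c1 hc1 c3 hc3 z hz v hv
  have i8 := hQ c0 hc0 c1 hc1 v hv z hz c3 hc3
  have i9 := hQ c0 hc0 c4 hc4 c2 hc2 z hz v hv
  have i10 := hQ c0 hc0 z hz c2 hc2 c3 hc3 v hv
  have i11 := hQ c1 hc1 c2 hc2 v hv z hz c4 hc4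
  have i12 := hQ c1 hc1 d hd c3 hc3 z hz v hv
  have i13 := hQ c1 hc1 d hd v hv z hz c3 hc3
  have i14 := hQ c2 hc2 c3 hc3 d hd z hz v hv
  have i15 := hQ c2 hc2 z hz c4 hc4 d hd v hv
  clear hT hQ
  grind [SimpleGraph.adj_comm, SimpleGraph.irrefl]

lemma rain {G : SimpleGraph V} {S : Finset V} (hT : TF G S) (hQ : QF G S)
    {v u x y x1 y1 : V} (hv : v ∈ S) (hu : u ∈ S) (hx : x ∈ S) (hy : y ∈ S) (hx1 : x1 ∈ S) (hy1 : y1 ∈ S)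
    (a0 : G.Adj v u) (a1 : G.Adj x y1) (a2 : G.Adj y x1) (n0 : ¬ G.Adj v x)
    (n1 : ¬ G.Adj v y) (n2 : ¬ G.Adj v x1) (n3 : ¬ G.Adj v y1) (n4 : ¬ G.Adj u x)
    (n5 : ¬ G.Adj u y) (n6 : ¬ G.Adj x y) (n7 : ¬ G.Adj x x1) (n8 : ¬ G.Adj y y1)
    : False := by
  have i0 := hT u hu x1 hx1 y1 hy1
  have i1 := hQ v hv u hu x hx y1 hy1 y hy
  have i2 := hQ v hv u hu y hy x1 hx1 x hx
  have i3 := hQ x hx y1 hy1 y hy x1 hx1 v hv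
  clear hT hQ
  grind [SimpleGraph.adj_comm, SimpleGraph.irrefl]

lemma p5_closed {G : SimpleGraph V} {S : Finset V} (hT : TF G S) (h5 : F5 G S)
    {a b y x w : V} (ha : a ∈ S) (hb : b ∈ S) (hy : y ∈ S) (hx : x ∈ S) (hw : w ∈ S)
    (a0 : G.Adj a b) (a1 : G.Adj y a) (a2 : G.Adj x y) (a3 : G.Adj w x)
    (n0 : ¬ G.Adj w y) (n1 : ¬ G.Adj w a) (n2 : ¬ G.Adj w b) (n3 : ¬ G.Adj x b)
    : False := by
  have i0 := hT a ha b hb y hy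
  have i1 := hT a ha y hy x hx
  have i2 := h5 b hb a ha y hy x hx w hw
  clear hT h5
  grind [SimpleGraph.adj_comm, SimpleGraph.irrefl]

lemma p5_far {G : SimpleGraph V} {S : Finset V} (hT : TF G S) (h5 : F5 G S)
    {a b c d y : V} (ha : a ∈ S) (hb : b ∈ S) (hc : c ∈ S) (hd : d ∈ S) (hy : y ∈ S)
    (a0 : G.Adj a b) (a1 : G.Adj c d) (a2 : G.Adj y a) (a3 : G.Adj c y)
    (n0 : ¬ G.Adj a c) (n1 : ¬ G.Adj a d) (n2 : ¬ G.Adj b c) (n3 : ¬ G.Adj b d)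
    : False := by
  have i0 := hT a ha b hb y hy
  have i1 := hT c hc d hd y hy
  have i2 := h5 b hb a ha y hy c hc d hd
  clear hT h5
  grind [SimpleGraph.adj_comm, SimpleGraph.irrefl]

lemma typeA {G : SimpleGraph V} {S : Finset V} (hT : TF G S) (hP : PF G)
    {w p q f g d e u : V} (hw : w ∈ S) (hp : p ∈ S) (hq : q ∈ S) (hf : f ∈ S) (hg : g ∈ S) (hd : d ∈ S) (he : e ∈ S) (hu : u ∈ S)
    (a0 : G.Adj p q) (a1 : G.Adj f g) (a2 : G.Adj d e) (a3 : G.Adj d p)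
    (a4 : G.Adj w u) (n0 : ¬ G.Adj w p) (n1 : ¬ G.Adj w q) (n2 : ¬ G.Adj w f)
    (n3 : ¬ G.Adj w g) (n4 : ¬ G.Adj w d) (n5 : ¬ G.Adj w e) (n6 : ¬ G.Adj p f)
    (n7 : ¬ G.Adj p g) (n8 : ¬ G.Adj q f) (n9 : ¬ G.Adj q g)
    : G.Adj d u ↔ G.Adj q u := by
  have i0 := hT p hp q hq d hd
  have i1 := hT p hp q hq u hu
  have i2 := hT p hp d hd u hu
  have i3 := hT f hf g hg d hd
  have i4 := hT f hf g hg u hu
  have i5 := hP w u q p d f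
  have i6 := hP w u q p d g
  have i7 := hP w u d p q f
  have i8 := hP w u d p q g
  have i9 := hP q p d f g w
  have i10 := hP q p d g f w
  clear hT hP
  grind [SimpleGraph.adj_comm, SimpleGraph.irrefl]

lemma typeB {G : SimpleGraph V} {S : Finset V} (hT : TF G S) (hP : PF G)
    {w p q f g d e u : V} (hw : w ∈ S) (hp : p ∈ S) (hq : q ∈ S) (hf : f ∈ S) (hg : g ∈ S) (hd : d ∈ S) (he : e ∈ S) (hu : u ∈ S)
    (a0 : G.Adj p q) (a1 : G.Adj f g) (a2 : G.Adj d e) (a3 : G.Adj e p)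
    (a4 : G.Adj w u) (n0 : ¬ G.Adj w p) (n1 : ¬ G.Adj w q) (n2 : ¬ G.Adj w f)
    (n3 : ¬ G.Adj w g) (n4 : ¬ G.Adj w d) (n5 : ¬ G.Adj w e) (n6 : ¬ G.Adj p f)
    (n7 : ¬ G.Adj p g) (n8 : ¬ G.Adj q f) (n9 : ¬ G.Adj q g)
    : G.Adj d u ↔ G.Adj p u := by
  have i0 := hT p hp q hq e he
  have i1 := hT p hp d hd e he
  have i2 := hT p hp e he u hu
  have i3 := hT f hf g hg d hd
  have i4 := hT f hf g hg e he
  have i5 := hT f hf g hg u hu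
  have i6 := hT d hd e he u hu
  have i7 := hP w u p e d f
  have i8 := hP w u p e d g
  have i9 := hP w u d e p f
  have i10 := hP w u d e p g
  have i11 := hP p e d f g w
  have i12 := hP p e d g f w
  have i13 := hP q p e f g w
  have i14 := hP q p e g f w
  clear hT hP
  grind [SimpleGraph.adj_comm, SimpleGraph.irrefl]

lemma three {G : SimpleGraph V} {S : Finset V} (hT : TF G S) (hP : PF G)
    {w p q r s f g u u1 : V} (hw : w ∈ S) (hp : p ∈ S) (hq : q ∈ S) (hr : r ∈ S) (hs : s ∈ S) (hf : f ∈ S) (hg : g ∈ S) (hu : u ∈ S) (hu1 : u1 ∈ S)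
    (a0 : G.Adj p q) (a1 : G.Adj r s) (a2 : G.Adj f g) (a3 : G.Adj w u)
    (a4 : G.Adj w u1) (a5 : G.Adj u p) (a6 : G.Adj u1 r) (n0 : ¬ G.Adj w p)
    (n1 : ¬ G.Adj w q) (n2 : ¬ G.Adj w r) (n3 : ¬ G.Adj w s) (n4 : ¬ G.Adj w f)
    (n5 : ¬ G.Adj w g) (n6 : ¬ G.Adj p r) (n7 : ¬ G.Adj p s) (n8 : ¬ G.Adj q r)
    (n9 : ¬ G.Adj q s) (n10 : ¬ G.Adj p f) (n11 : ¬ G.Adj p g) (n12 : ¬ G.Adj q f)
    (n13 : ¬ G.Adj q g) (n14 : ¬ G.Adj r f) (n15 : ¬ G.Adj r g) (n16 : ¬ G.Adj s f)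
    (n17 : ¬ G.Adj s g)
    : False := by
  have i0 := hT w hw u hu u1 hu1
  have i1 := hT p hp q hq u hu
  have i2 := hT p hp q hq u1 hu1
  have i3 := hT r hr s hs u hu
  have i4 := hT r hr s hs u1 hu1
  have i5 := hT f hf g hg u1 hu1
  have i6 := hP p q u1 r s g
  have i7 := hP q p u w u1 s
  have i8 := hP q p u w u1 g
  have i9 := hP q p u1 r s f
  have i10 := hP q p u1 f g s
  have i11 := hP r u1 w u g q
  have i12 := hP s r u1 g f p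
  clear hT hP
  grind [SimpleGraph.adj_comm, SimpleGraph.irrefl]

end Pool.Agent.MP_41f2d3_co
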