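import Pool.Agent.MP_41f2d3_co.Defs
import Pool.Agent.MP_41f2d3_co.Frame

/-! From decompositions to clique-width expressions. -/

namespace Pool.Agent.MP_41f2d3_co

open Finset Classical

noncomputable section

variable {V : Type}

lemma Built.congr {k : ℕ} {S : Set V} {l l' : V → Fin k} {H : SimpleGraph V}
    (h : Built k S l H) (hne : S.Nonempty) (e : ∀ u ∈ S, l' u = l u) : Built k S l' H := by
  obtain ⟨v, _⟩ := hne
  refine Built.relabel S l l' H (l v) (l v) h (fun u hu => ?_)
  rw [e u hu]
  split_ifs with h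
  · exact h
  · rfl

lemma Built.multi_relabel {k : ℕ} {S : Set V} {l : V → Fin k} {H : SimpleGraph V}
    (h : Built k S l H) (f : Fin k → Fin k) (A : Finset (Fin k)) (hA : ∀ a ∈ A, f a ∉ A) :
    Built k S (fun v => if l v ∈ A then f (l v) else l v) H := by
  induction A using Finset.induction_on with
  | empty => simpa using h
  | insert a A ha ih =>
    have ih' := ih (fun b hb hfb => hA b (mem_insert_of_mem hb) (mem_insert_of_mem hfb))
    refine Built.relabel S _ _ H a (f a) ih' (fun u _ => ?_)
    by_cases h1 : l u ∈ A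
    · have h2 : f (l u) ≠ a := fun e =>
        hA (l u) (mem_insert_of_mem h1) (e ▸ mem_insert_self _ _)
      simp [h1, h2]
    · by_cases h2 : l u = a
      · simp [h2, ha]
      · simp [h1, h2]

lemma Built.relabel_fresh {k : ℕ} {S : Set V} {l l' : V → Fin k} {H : SimpleGraph V}
    (h : Built k S l H) (hne : S.Nonempty)
    (h1 : ∀ x ∈ S, ∀ y ∈ S, l x = l y → l' x = l' y)
    (h2 : ∀ x ∈ S, ∀ y ∈ S, l' x ≠ l y) : Built k S l' H := by
  let f : Fin k → Fin k := fun a => if h : ∃ x ∈ S, l x = a then l' h.choose else a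
  let A : Finset (Fin k) := univ.filter (fun a => ∃ x ∈ S, l x = a)
  have hf : ∀ x ∈ S, f (l x) = l' x := by
    intro x hx
    have hex : ∃ y ∈ S, l y = l x := ⟨x, hx, rfl⟩
    simp only [f]
    rw [dif_pos hex]
    exact h1 _ hex.choose_spec.1 _ hx hex.choose_spec.2
  have := h.multi_relabel f A (by
    intro a ha hfa
    simp only [A, mem_filter, mem_univ, true_and] at ha hfa
    obtain ⟨x, hx, rfl⟩ := ha
    obtain ⟨y, hy, e⟩ := hfa
    rw [hf x hx] at e
    exact h2 x hx y hy e.symm)
  refine this.congr hne (fun u hu => ?_)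
  have : l u ∈ A := by
    simp only [A, mem_filter, mem_univ, true_and]; exact ⟨u, hu, rfl⟩
  simp only [this, if_true]
  exact (hf u hu).symm

lemma Built.multi_join {k : ℕ} {S : Set V} {l : V → Fin k} {H : SimpleGraph V}
    (h : Built k S l H) (P : Finset (Fin k × Fin k)) (hP : ∀ p ∈ P, p.1 ≠ p.2)
    (H' : SimpleGraph V)
    (hH : ∀ u v, H'.Adj u v ↔
      (H.Adj u v ∨ (u ∈ S ∧ v ∈ S ∧ ((l u, l v) ∈ P ∨ (l v, l u) ∈ P)))) :
    Built k S l H' := by
  induction P using Finset.induction_on generalizing H' with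
  | empty =>
    have : H' = H := by ext u v; simp [hH]
    rw [this]; exact h
  | insert p P hp ih =>
    let H0 : SimpleGraph V :=
      { Adj := fun u v => H.Adj u v ∨ (u ∈ S ∧ v ∈ S ∧ ((l u, l v) ∈ P ∨ (l v, l u) ∈ P))
        symm := ⟨by
          intro u v huv
          rcases huv with a | ⟨a, b, c⟩
          · exact Or.inl a.symm
          · exact Or.inr ⟨b, a, c.symm⟩⟩
        loopless := ⟨by
          intro u hu
          rcases hu with a | ⟨_, _, c⟩
          · exact a.ne rfl
          · rcases c with c | c <;> exact hP _ (mem_insert_of_mem c) rfl⟩ }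
    have h0 := ih (fun q hq => hP q (mem_insert_of_mem hq)) H0 (fun u v => Iff.rfl)
    refine Built.join S l H0 H' p.1 p.2 h0 (hP p (mem_insert_self _ _)) (fun u v => ?_)
    rw [hH]
    simp only [H0, mem_insert, Prod.ext_iff]
    tauto

/-- restriction of a graph to a vertex set -/
def res (G : SimpleGraph V) (X : Finset V) : SimpleGraph V where
  Adj u v := u ∈ X ∧ v ∈ X ∧ G.Adj u v
  symm := ⟨fun _ _ h => ⟨h.2.1, h.1, h.2.2.symm⟩⟩
  loopless := ⟨fun _ h => h.2.2.ne rfl⟩

lemma Dec.built {G : SimpleGraph V} {k : ℕ} {S X : Finset V} (h : Dec G k S X) (hX : X ⊆ S)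
    (hne : X.Nonempty) :
    ∃ c : V → Fin (k + 1), Built (3 * (k + 1)) (X : Set V)
      (fun v => finProdFinEquiv ((0 : Fin 3), c v)) (res G X) ∧
      ∀ x ∈ X, ∀ y ∈ X, c x = c y → out G S X x = out G S X y := by
  induction h with
  | empty => simp at hne
  | single v =>
    refine ⟨fun _ => 0, ?_, ?_⟩
    · have : res G {v} = ⊥ := by
        ext a b
        simp only [res, mem_singleton, SimpleGraph.bot_adj, iff_false]
        rintro ⟨rfl, rfl, h⟩
        exact h.ne rfl
      rw [this, coe_singleton]
      exact Built.vertex v _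
    · intro x hx y hy _
      rw [mem_singleton.1 hx, mem_singleton.1 hy]
  | union X Y _ _ hd hT ihX ihY =>
    have hXS : X ⊆ S := subset_union_left.trans hX
    have hYS : Y ⊆ S := subset_union_right.trans hX
    rcases X.eq_empty_or_nonempty with rfl | hXne
    · simpa using ihY hYS (by simpa using hne)
    rcases Y.eq_empty_or_nonempty with rfl | hYne
    · simpa using ihX hXS hXne
    obtain ⟨c1, b1, h1⟩ := ihX hXS hXne
    obtain ⟨c2, b2, h2⟩ := ihY hYS hYne
    have b2' : Built (3 * (k + 1)) (Y : Set V)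
        (fun v => finProdFinEquiv ((1 : Fin 3), c2 v)) (res G Y) := by
      refine b2.relabel_fresh (by simpa using hYne) ?_ ?_
      · intro x _ y _ e
        simp only [EmbeddingLike.apply_eq_iff_eq, Prod.mk.injEq, true_and] at e ⊢
        exact e
      · intro x _ y _ e
        simp only [EmbeddingLike.apply_eq_iff_eq, Prod.mk.injEq] at e
        exact absurd e.1 (by decide)
    let l : V → Fin (3 * (k + 1)) := fun v =>
      if v ∈ X then finProdFinEquiv ((0 : Fin 3), c1 v) else finProdFinEquiv ((1 : Fin 3), c2 v)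
    have hlX : ∀ u ∈ X, l u = finProdFinEquiv ((0 : Fin 3), c1 u) := by
      intro u hu; simp only [l, if_pos hu]
    have hlY : ∀ u ∈ Y, l u = finProdFinEquiv ((1 : Fin 3), c2 u) := by
      intro u hu
      have : u ∉ X := fun h => disjoint_left.1 hd h hu
      simp only [l, if_neg this]
    have hXX : ∀ x ∈ X, ∀ y ∈ X, l x = l y → out G S X x = out G S X y := by
      intro x hx y hy e
      rw [hlX x hx, hlX y hy] at e
      simp only [EmbeddingLike.apply_eq_iff_eq, Prod.mk.injEq, true_and] at e
      exact h1 x hx y hy e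
    have hYY : ∀ x ∈ Y, ∀ y ∈ Y, l x = l y → out G S Y x = out G S Y y := by
      intro x hx y hy e
      rw [hlY x hx, hlY y hy] at e
      simp only [EmbeddingLike.apply_eq_iff_eq, Prod.mk.injEq, true_and] at e
      exact h2 x hx y hy e
    have hXY : ∀ x ∈ X, ∀ y ∈ Y, l x ≠ l y := by
      intro x hx y hy e
      rw [hlX x hx, hlY y hy] at e
      simp only [EmbeddingLike.apply_eq_iff_eq, Prod.mk.injEq] at e
      exact absurd e.1 (by decide)
    have b3 := Built.union _ _ _ _ l _ _ b1 b2' (by simpa using hd) hlX hlY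
    let P : Finset (Fin (3 * (k + 1)) × Fin (3 * (k + 1))) :=
      univ.filter (fun p => ∃ x ∈ X, ∃ y ∈ Y, l x = p.1 ∧ l y = p.2 ∧ G.Adj x y)
    have hPmem : ∀ u ∈ X ∪ Y, ∀ v ∈ X ∪ Y, (l u, l v) ∈ P ↔ u ∈ X ∧ v ∈ Y ∧ G.Adj u v := by
      intro u hu v hv
      simp only [P, mem_filter, mem_univ, true_and]
      constructor
      · rintro ⟨x, hx, y, hy, e1, e2, hxy⟩
        have huX : u ∈ X := by
          rcases mem_union.1 hu with h | h
          · exact h
          · exact absurd e1 (hXY x hx u h)
        have hvY : v ∈ Y := by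
          rcases mem_union.1 hv with h | h
          · exact absurd e2.symm (hXY v h y hy)
          · exact h
        refine ⟨huX, hvY, ?_⟩
        have a1 : G.Adj u y := (out_eq_iff.1 (hXX x hx u huX e1) y (hYS hy)
          (fun h => disjoint_left.1 hd h hy)).1 hxy
        exact ((out_eq_iff.1 (hYY y hy v hvY e2) u (hXS huX)
          (fun h => disjoint_left.1 hd huX h)).1 a1.symm).symm
      · rintro ⟨a, b, c⟩
        exact ⟨u, a, v, b, rfl, rfl, c⟩
    have b4 : Built (3 * (k + 1)) ((X : Set V) ∪ (Y : Set V)) l (res G (X ∪ Y)) := by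
      refine b3.multi_join P ?_ _ ?_
      · intro p hp
        simp only [P, mem_filter, mem_univ, true_and] at hp
        obtain ⟨x, hx, y, hy, e1, e2, _⟩ := hp
        rw [← e1, ← e2]
        exact hXY x hx y hy
      · intro u v
        simp only [res, SimpleGraph.sup_adj, Set.mem_union, mem_coe]
        constructor
        · rintro ⟨hu, hv, huv⟩
          have e1 := hPmem u hu v hv
          have e2 := hPmem v hv u hu
          have hu' := mem_union.1 hu
          have hv' := mem_union.1 hv
          rcases hu' with a | a <;> rcases hv' with b | b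
          · exact Or.inl (Or.inl ⟨a, b, huv⟩)
          · exact Or.inr ⟨Or.inl a, Or.inr b, Or.inl (e1.2 ⟨a, b, huv⟩)⟩
          · exact Or.inr ⟨Or.inr a, Or.inl b, Or.inr (e2.2 ⟨b, a, huv.symm⟩)⟩
          · exact Or.inl (Or.inr ⟨a, b, huv⟩)
        · rintro ((⟨a, b, c⟩ | ⟨a, b, c⟩) | ⟨a, b, c⟩)
          · exact ⟨mem_union_left _ a, mem_union_left _ b, c⟩
          · exact ⟨mem_union_right _ a, mem_union_right _ b, c⟩
          · have hu := mem_union.2 a
            have hv := mem_union.2 b
            refine ⟨hu, hv, ?_⟩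
            rcases c with c | c
            · exact ((hPmem u hu v hv).1 c).2.2
            · exact ((hPmem v hv u hu).1 c).2.2.symm
    obtain ⟨T, hTc, hT⟩ := hT
    have hcard : Fintype.card (insert ∅ T : Finset (Finset V)) ≤ Fintype.card (Fin (k + 1)) := by
      rw [Fintype.card_coe, Fintype.card_fin]
      exact (card_insert_le _ _).trans (by omega)
    obtain ⟨e⟩ := Function.Embedding.nonempty_of_card_le hcard
    have hmem : ∀ x ∈ X ∪ Y, out G S (X ∪ Y) x ∈ (insert ∅ T : Finset (Finset V)) := by
      intro x hx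
      rcases hT x hx with h | h <;> simp [h]
    let c : V → Fin (k + 1) := fun x =>
      if h : x ∈ X ∪ Y then e ⟨out G S (X ∪ Y) x, hmem x h⟩ else 0
    have hc : ∀ x ∈ X ∪ Y, ∀ y ∈ X ∪ Y, c x = c y ↔ out G S (X ∪ Y) x = out G S (X ∪ Y) y := by
      intro x hx y hy
      simp only [c, dif_pos hx, dif_pos hy, EmbeddingLike.apply_eq_iff_eq, Subtype.mk.injEq]
    have hne' : ((X : Set V) ∪ (Y : Set V)).Nonempty := by
      obtain ⟨x, hx⟩ := hXne
      exact ⟨x, Or.inl hx⟩
    have b5 : Built (3 * (k + 1)) ((X : Set V) ∪ (Y : Set V))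
        (fun v => finProdFinEquiv ((2 : Fin 3), c v)) (res G (X ∪ Y)) := by
      refine b4.relabel_fresh hne' ?_ ?_
      · intro x hx y hy e
        simp only [EmbeddingLike.apply_eq_iff_eq, Prod.mk.injEq, true_and]
        rw [hc x (mem_union.2 hx) y (mem_union.2 hy), out_eq_iff]
        intro z hz hzn
        rw [mem_union, not_or] at hzn
        rcases hx with hx | hx <;> rcases hy with hy | hy
        · exact out_eq_iff.1 (hXX x hx y hy e) z hz hzn.1
        · exact absurd e (hXY x hx y hy)
        · exact absurd e.symm (hXY y hy x hx)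
        · exact out_eq_iff.1 (hYY x hx y hy e) z hz hzn.2
      · intro x _ y hy e
        rcases hy with hy | hy
        · rw [hlX y hy] at e
          simp only [EmbeddingLike.apply_eq_iff_eq, Prod.mk.injEq] at e
          exact absurd e.1 (by decide)
        · rw [hlY y hy] at e
          simp only [EmbeddingLike.apply_eq_iff_eq, Prod.mk.injEq] at e
          exact absurd e.1 (by decide)
    refine ⟨c, ?_, fun x hx y hy e => (hc x hx y hy).1 e⟩
    rw [coe_union]
    refine b5.relabel_fresh hne' ?_ ?_
    · intro x _ y _ e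
      simp only [EmbeddingLike.apply_eq_iff_eq, Prod.mk.injEq, true_and] at e ⊢
      exact e
    · intro x _ y _ e
      simp only [EmbeddingLike.apply_eq_iff_eq, Prod.mk.injEq] at e
      exact absurd e.1 (by decide)

theorem cw_of_W [Fintype V] [Nonempty V] {G : SimpleGraph V} {k : ℕ} (h : W G k univ) :
    CliqueWidthLE G (3 * (k + 1)) := by
  obtain ⟨c, b, _⟩ := Dec.built h Subset.rfl univ_nonempty
  have : res G univ = G := by ext u v; simp [res]
  rw [this, coe_univ] at b
  exact ⟨_, b⟩

end

end Pool.Agent.MP_41f2d3_co
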