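import Pool.Agent.MP_41f2d3_co.Big2
import Pool.Agent.MP_41f2d3_co.ToCW

/-! Assembly for the pair (diamond, P1 + P5). -/

namespace Pool.Agent.MP_41f2d3_co

open SimpleGraph

variable {V : Type}

lemma DF_of_isEmpty {G : SimpleGraph V} (h : IsEmpty (diamond ↪g G)) : DF G := by
  intro a b c d ab ac ad bc bd cd
  by_contra n
  have hadj : ∀ i j : Fin 4, G.Adj (![a, b, c, d] i) (![a, b, c, d] j) ↔ diamond.Adj i j := by
    intro i j
    fin_cases i <;> fin_cases j <;>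
      simp [diamond, ab, ac, ad, bc, bd, ab.symm, ac.symm, ad.symm, bc.symm, bd.symm, n, ns n]
  refine h.false ⟨⟨![a, b, c, d], ?_⟩, fun {i j} => hadj i j⟩
  intro i j
  fin_cases i <;> fin_cases j <;>
    simp [ab.ne, ac.ne, ad.ne, bc.ne, bd.ne, cd, ab.ne', ac.ne', ad.ne', bc.ne', bd.ne', cd.symm]

lemma PF_of_isEmpty {G : SimpleGraph V} (h : IsEmpty ((pathGraph 1 ⊕g pathGraph 5) ↪g G)) :
    PF G := by
  intro a b c d e z ab bc cd de ac ad ae bd be ce za zb zc zd ze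
  let f : Fin 1 ⊕ Fin 5 → V := Sum.elim (fun _ => z) ![a, b, c, d, e]
  have hadj : ∀ i j, G.Adj (f i) (f j) ↔ (pathGraph 1 ⊕g pathGraph 5).Adj i j := by
    rintro (i | i) (j | j) <;> fin_cases i <;> fin_cases j <;>
      simp [f, pathGraph_adj, ab, bc, cd, de, ab.symm, bc.symm, cd.symm, de.symm, ac, ad, ae, bd,
        be, ce, za, zb, zc, zd, ze, ns ac, ns ad, ns ae, ns bd, ns be, ns ce, ns za, ns zb, ns zc,
        ns zd, ns ze]
  have h1 : a ≠ c := fun e => ad (e ▸ cd)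
  have h2 : a ≠ d := fun e => bd (e ▸ ab.symm)
  have h3 : a ≠ e := fun e' => be (e' ▸ ab.symm)
  have h4 : b ≠ d := fun e => ad (e ▸ ab)
  have h5 : b ≠ e := fun e' => ae (e' ▸ ab)
  have h6 : c ≠ e := fun e' => be (e' ▸ bc)
  have h7 : z ≠ a := fun e => zb (e ▸ ab)
  have h8 : z ≠ b := fun e => zc (e ▸ bc)
  have h9 : z ≠ c := fun e => zd (e ▸ cd)
  have h10 : z ≠ d := fun e' => ze (e' ▸ de)
  have h11 : z ≠ e := fun e' => zd (e' ▸ de.symm)
  refine h.false ⟨⟨f, ?_⟩, fun {i j} => hadj i j⟩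
  rintro (i | i) (j | j) <;> fin_cases i <;> fin_cases j <;>
    simp [f, ab.ne, bc.ne, cd.ne, de.ne, ab.ne', bc.ne', cd.ne', de.ne', h1, h2, h3, h4, h5, h6,
      h7, h8, h9, h10, h11, h1.symm, h2.symm, h3.symm, h4.symm, h5.symm, h6.symm, h7.symm,
      h8.symm, h9.symm, h10.symm, h11.symm]

theorem bounded_diamond_P1P5 :
    ∃ c : ℕ, ∀ (V : Type) [Finite V] [Nonempty V] (G : SimpleGraph V),
      IsEmpty (diamond ↪g G) → IsEmpty ((pathGraph 1 ⊕g pathGraph 5) ↪g G) →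
      CliqueWidthLE G c := by
  obtain ⟨k, hk⟩ := W_main
  refine ⟨3 * (k + 1), fun V _ _ G h1 h2 => ?_⟩
  have := Fintype.ofFinite V
  exact cw_of_W (hk V G _ (DF_of_isEmpty h1) (PF_of_isEmpty h2))

end Pool.Agent.MP_41f2d3_co
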