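import Mathlib

/-! Finite Ramsey theorem for pairs. -/

namespace Pool.Agent.MP_41f2d3_co

open Finset Classical

lemma ramsey_end (C : Type) [Fintype C] (r : ℕ) : ∃ N, ∀ χ : ℕ → ℕ → C, ∀ A : Finset ℕ,
    N ≤ A.card → ∃ B ⊆ A, B.card = r ∧ ∃ g : ℕ → C, ∀ i ∈ B, ∀ j ∈ B, i < j → χ i j = g i := by
  induction r with
  | zero => exact ⟨0, fun χ A _ => ⟨∅, empty_subset _, rfl, fun i => χ i i, by simp⟩⟩
  | succ r ih =>
    obtain ⟨N, hN⟩ := ih
    refine ⟨Fintype.card C * N + 1, fun χ A hA => ?_⟩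
    have hne : A.Nonempty := card_pos.1 (by omega)
    let a := A.min' hne
    have ha : a ∈ A := A.min'_mem hne
    have hcard : (univ : Finset C).card * N ≤ (A.erase a).card := by
      rw [card_erase_of_mem ha, card_univ]; omega
    obtain ⟨c, _, hc⟩ := exists_le_card_fiber_of_mul_le_card_of_maps_to
      (f := fun j => χ a j) (fun _ _ => mem_univ _) ⟨χ a a, mem_univ _⟩ hcard
    obtain ⟨B, hB, hBc, g, hg⟩ := hN χ _ hc
    have haB : a ∉ B := fun h => by simpa using (mem_filter.1 (hB h)).1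
    refine ⟨insert a B, ?_, by rw [card_insert_of_notMem haB, hBc], Function.update g a c, ?_⟩
    · intro x hx
      rcases mem_insert.1 hx with rfl | hx
      · exact ha
      · exact mem_of_mem_erase (mem_filter.1 (hB hx)).1
    · intro i hi j hj hij
      have hj' : j ∈ B := by
        rcases mem_insert.1 hj with rfl | hj
        · exfalso
          have : a ≤ i := by
            rcases mem_insert.1 hi with rfl | hi
            · exact le_rfl
            · exact A.min'_le i (mem_of_mem_erase (mem_filter.1 (hB hi)).1)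
          omega
        · exact hj
      rcases mem_insert.1 hi with rfl | hi
      · rw [Function.update_self]; exact (mem_filter.1 (hB hj')).2
      · rw [Function.update_of_ne (fun e : i = a => haB (e ▸ hi))]
        exact hg i hi j hj' hij

theorem ramsey (C : Type) [Fintype C] (m : ℕ) : ∃ N, ∀ χ : ℕ → ℕ → C,
    ∃ f : Fin m → ℕ, (∀ i, f i < N) ∧ (∀ i j, i < j → f i < f j) ∧
      ∃ c, ∀ i j, i < j → χ (f i) (f j) = c := by
  obtain ⟨N, hN⟩ := ramsey_end C (Fintype.card C * m)
  refine ⟨N, fun χ => ?_⟩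
  obtain ⟨B, hB, hBc, g, hg⟩ := hN χ (range N) (by simp)
  obtain ⟨c, _, hc⟩ := exists_le_card_fiber_of_mul_le_card_of_maps_to (s := B)
    (t := (univ : Finset C)) (n := m)
    (f := g) (fun _ _ => mem_univ _) ⟨g 0, mem_univ _⟩ (by rw [card_univ, hBc])
  obtain ⟨B', hB', hc'⟩ := exists_subset_card_eq hc
  let f := B'.orderEmbOfFin hc'
  have hf : ∀ i, f i ∈ B ∧ g (f i) = c := fun i =>
    mem_filter.1 (hB' (B'.orderEmbOfFin_mem hc' i))
  refine ⟨f, fun i => mem_range.1 (hB (hf i).1), fun i j h => f.strictMono h, c, fun i j h => ?_⟩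
  rw [hg _ (hf i).1 _ (hf j).1 (f.strictMono h), (hf i).2]

end Pool.Agent.MP_41f2d3_co
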