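import Pool.Agent.MP_41f2d3_co.Cliques
import Pool.Agent.MP_41f2d3_co.TCLocal
import Pool.Agent.MP_41f2d3_co.Ramsey

/-! Bounded clique number. -/

namespace Pool.Agent.MP_41f2d3_co

open Finset Classical

noncomputable section

variable {V : Type}

/-- bound -/
def cTC : ℕ := J 12 (J 1 (cTri + 2) + 12)

lemma W_TC {G : SimpleGraph V} (hD : DF G) (hP : PF G) {a b c : Fin 4 → V} (h : TCs G a b c)
    (S : Finset V) : W G cTC S := by
  let F : Finset V := univ.image a ∪ (univ.image b ∪ univ.image c)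
  have hF : F.card ≤ 12 := by
    have h1 : (univ.image a).card ≤ 4 := card_image_le.trans (by simp)
    have h2 : (univ.image b).card ≤ 4 := card_image_le.trans (by simp)
    have h3 : (univ.image c).card ≤ 4 := card_image_le.trans (by simp)
    have h4 := card_union_le (univ.image b) (univ.image c)
    have h5 := card_union_le (univ.image a) (univ.image b ∪ univ.image c)
    simp only [F]
    omega
  refine W_del hF ?_
  have hoff : ∀ x ∈ S \ F, Off a b c x := by
    intro x hx i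
    have := (mem_sdiff.1 hx).2
    simp only [F, mem_union, mem_image, mem_univ, true_and, not_or, not_exists] at this
    exact ⟨fun e => this.1 i e.symm, fun e => this.2.1 i e.symm, fun e => this.2.2 i e.symm⟩
  generalize S \ F = S' at hoff
  let N0 := S'.filter (fun x => ¬ G.Adj x (a 2) ∧ ¬ G.Adj x (b 2) ∧ ¬ G.Adj x (c 2))
  refine W_join (A := N0) (filter_subset _ _) ?_ ((W_indep ?_).mono (by omega)) ?_
  · refine Ty_of_labels (fun _ => ()) univ (by simp) (fun _ _ => Or.inr (mem_univ _)) ?_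
    intro x hx y hy _ z hz _
    obtain ⟨hx, x1, x2, x3⟩ := mem_filter.1 hx
    obtain ⟨hy, y1, y2, y3⟩ := mem_filter.1 hy
    constructor
    · intro e
      by_contra e'
      exact tc_n0twin hD hP h (hoff x hx) (hoff y hy) (hoff z hz) e e' x1 x2 x3 y1 y2 y3
    · intro e
      by_contra e'
      exact tc_n0twin hD hP h (hoff y hy) (hoff x hx) (hoff z hz) e e' y1 y2 y3 x1 x2 x3
  · intro x hx y hy e
    obtain ⟨hx, x1, x2, x3⟩ := mem_filter.1 hx
    obtain ⟨hy, y1, y2, y3⟩ := mem_filter.1 hy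
    exact tc_n0ind hD hP h (hoff x hx) (hoff y hy) e x1 x2 x3 y1 y2 y3
  let col : V → Fin 3 := fun x => if G.Adj x (a 2) then 0 else if G.Adj x (b 2) then 1 else 2
  have c0 : ∀ x, col x = 0 → G.Adj x (a 2) := by
    intro x; simp only [col]; split_ifs <;> simp [*]
  have c1 : ∀ x, col x = 1 → G.Adj x (b 2) := by
    intro x; simp only [col]; split_ifs <;> simp [*]
  have c2 : ∀ x ∈ S' \ N0, col x = 2 → G.Adj x (c 2) := by
    intro x hx
    rw [mem_sdiff] at hx
    simp only [col]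
    split_ifs with h1 h2
    · simp
    · simp
    · intro _
      by_contra h3
      exact hx.2 (mem_filter.2 ⟨hx.1, h1, h2, h3⟩)
  have ho : ∀ x ∈ S' \ N0, Off a b c x := fun x hx => hoff x (mem_sdiff.1 hx).1
  have hind : ∀ x ∈ S' \ N0, ∀ y ∈ S' \ N0, G.Adj x y → col x ≠ col y := by
    intro x hx y hy e ec
    rcases fin3_cases (col x) with e1 | e1 | e1
    · exact tc_ind hD hP h (ho x hx) (ho y hy) (c0 x e1) (c0 y (ec ▸ e1)) e
    · exact tc_ind hD hP h.rot (ho x hx).rot (ho y hy).rot (c1 x e1) (c1 y (ec ▸ e1)) e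
    · exact tc_ind hD hP h.rot.rot (ho x hx).rot.rot (ho y hy).rot.rot (c2 x hx e1)
        (c2 y hy (ec ▸ e1)) e
  refine (W_tri hD hP col hind (rainbow_of_ordered col ?_) (Or.inr ?_)).mono (by omega)
  · intro x hx y hy z hz e1 e2 e3 n1 n2 n3
    exact tc_3p1 hD hP h (ho x hx) (ho y hy) (ho z hz) (c0 x e1) (c1 y e2) (c2 z hz e3) n1 n2 n3
  · intro u hu w hw v hv z hz e1 e2 uw vz
    by_contra hh
    push Not at hh
    obtain ⟨uz, vw⟩ := hh
    have hne := hind u hu w hw uw
    rcases fin3_cases (col u) with d1 | d1 | d1 <;> rcases fin3_cases (col w) with d2 | d2 | d2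
    · exact hne (d1.trans d2.symm)
    · exact tc_2k2 hD hP h (ho u hu) (ho v hv) (ho w hw) (ho z hz) (c0 u d1) (c0 v (e1 ▸ d1))
        (c1 w d2) (c1 z (e2 ▸ d2)) uw vz uz vw
    · exact tc_2k2 hD hP h.rot.rot (ho w hw).rot.rot (ho z hz).rot.rot (ho u hu).rot.rot
        (ho v hv).rot.rot (c2 w hw d2) (c2 z hz (e2 ▸ d2)) (c0 u d1) (c0 v (e1 ▸ d1))
        uw.symm vz.symm (ns vw) (ns uz)
    · exact tc_2k2 hD hP h (ho w hw) (ho z hz) (ho u hu) (ho v hv) (c0 w d2) (c0 z (e2 ▸ d2))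
        (c1 u d1) (c1 v (e1 ▸ d1)) uw.symm vz.symm (ns vw) (ns uz)
    · exact hne (d1.trans d2.symm)
    · exact tc_2k2 hD hP h.rot (ho u hu).rot (ho v hv).rot (ho w hw).rot (ho z hz).rot
        (c1 u d1) (c1 v (e1 ▸ d1)) (c2 w hw d2) (c2 z hz (e2 ▸ d2)) uw vz uz vw
    · exact tc_2k2 hD hP h.rot.rot (ho u hu).rot.rot (ho v hv).rot.rot (ho w hw).rot.rot
        (ho z hz).rot.rot (c2 u hu d1) (c2 v hv (e1 ▸ d1)) (c0 w d2) (c0 z (e2 ▸ d2)) uw vz uz vw
    · exact tc_2k2 hD hP h.rot (ho w hw).rot (ho z hz).rot (ho u hu).rot (ho v hv).rot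
        (c1 w d2) (c1 z (e2 ▸ d2)) (c2 u hu d1) (c2 v hv (e1 ▸ d1)) uw.symm vz.symm (ns vw) (ns uz)
    · exact hne (d1.trans d2.symm)

lemma excl {G : SimpleGraph V} (hP : PF G) (a b c : Fin 4 → V) (pba pbc pca : Prop)
    (t1 : ∀ i, G.Adj (a i) (b i)) (t2 : ∀ i, G.Adj (b i) (c i)) (t3 : ∀ i, G.Adj (c i) (a i))
    (aa : ∀ i j, ¬ G.Adj (a i) (a j)) (bb : ∀ i j, ¬ G.Adj (b i) (b j))
    (cc : ∀ i j, ¬ G.Adj (c i) (c j))
    (ab : ∀ i j, i < j → G.Adj (a i) (b j)) (ac : ∀ i j, i < j → ¬ G.Adj (a i) (c j))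
    (cb : ∀ i j, i < j → ¬ G.Adj (c i) (b j))
    (ba : ∀ i j, i < j → (G.Adj (b i) (a j) ↔ pba))
    (bc : ∀ i j, i < j → (G.Adj (b i) (c j) ↔ pbc))
    (ca : ∀ i j, i < j → (G.Adj (c i) (a j) ↔ pca))
    (i1 : pba → ¬ pbc) (i2 : pba → ¬ pca) : pbc ∧ TCs G a b c := by
  by_cases h1 : pbc <;> by_cases h2 : pca
  · have h3 : ¬ pba := fun h => i1 h h1
    refine ⟨h1, ?_, ?_, ?_, aa, bb, cc⟩
    · intro i j
      rcases lt_trichotomy i j with h | rfl | h
      · exact ⟨fun _ => h.le, fun _ => ab i j h⟩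
      · exact ⟨fun _ => le_rfl, fun _ => t1 i⟩
      · exact ⟨fun e => absurd ((ba j i h).1 e.symm) h3, fun e => absurd e (not_le.2 h)⟩
    · intro i j
      rcases lt_trichotomy i j with h | rfl | h
      · exact ⟨fun _ => h.le, fun _ => (bc i j h).2 h1⟩
      · exact ⟨fun _ => le_rfl, fun _ => t2 i⟩
      · exact ⟨fun e => absurd e.symm (cb j i h), fun e => absurd e (not_le.2 h)⟩
    · intro i j
      rcases lt_trichotomy i j with h | rfl | h
      · exact ⟨fun _ => h.le, fun _ => (ca i j h).2 h2⟩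
      · exact ⟨fun _ => le_rfl, fun _ => t3 i⟩
      · exact ⟨fun e => absurd e.symm (ac j i h), fun e => absurd e (not_le.2 h)⟩
  · exfalso
    have ca' : ∀ i j, i < j → ¬ G.Adj (c i) (a j) := fun i j h e => h2 ((ca i j h).1 e)
    exact hP (c 0) (a 0) (b 3) (a 1) (c 1) (c 2) (t3 0) (ab 0 3 (by decide))
      (ab 1 3 (by decide)).symm (t3 1).symm (cb 0 3 (by decide)) (ca' 0 1 (by decide)) (cc 0 1)
      (aa 0 1) (ac 0 1 (by decide)) (ns (cb 1 3 (by decide))) (cc 2 0) (ns (ac 0 2 (by decide)))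
      (cb 2 3 (by decide)) (ns (ac 1 2 (by decide))) (cc 2 1)
  · exfalso
    have bc' : ∀ i j, i < j → ¬ G.Adj (b i) (c j) := fun i j h e => h1 ((bc i j h).1 e)
    have ba' : ∀ i j, i < j → ¬ G.Adj (b i) (a j) := fun i j h e => i2 ((ba i j h).1 e) h2
    exact hP (b 0) (c 0) (a 3) (c 1) (b 1) (b 2) (t2 0) ((ca 0 3 (by decide)).2 h2)
      ((ca 1 3 (by decide)).2 h2).symm (t2 1).symm (ba' 0 3 (by decide)) (bc' 0 1 (by decide))
      (bb 0 1) (cc 0 1) (cb 0 1 (by decide)) (ns (ba' 1 3 (by decide))) (bb 2 0)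
      (ns (cb 0 2 (by decide))) (ba' 2 3 (by decide)) (ns (cb 1 2 (by decide))) (bb 2 1)
  · exfalso
    have bc' : ∀ i j, i < j → ¬ G.Adj (b i) (c j) := fun i j h e => h1 ((bc i j h).1 e)
    have ca' : ∀ i j, i < j → ¬ G.Adj (c i) (a j) := fun i j h e => h2 ((ca i j h).1 e)
    exact hP (c 0) (a 0) (b 2) (a 1) (c 1) (c 3) (t3 0) (ab 0 2 (by decide))
      (ab 1 2 (by decide)).symm (t3 1).symm (cb 0 2 (by decide)) (ca' 0 1 (by decide)) (cc 0 1)
      (aa 0 1) (ac 0 1 (by decide)) (ns (cb 1 2 (by decide))) (cc 3 0) (ns (ac 0 3 (by decide)))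
      (ns (bc' 2 3 (by decide))) (ns (ac 1 3 (by decide))) (cc 3 1)

/-- a clique of size `s` in `S` -/
def IsCl (G : SimpleGraph V) (S : Finset V) {s : ℕ} (c : Fin s → V) : Prop :=
  (∀ x, c x ∈ S) ∧ ∀ x y, x ≠ y → G.Adj (c x) (c y)

/-- no clique of size `s` in `S` -/
def NoCl (G : SimpleGraph V) (S : Finset V) (s : ℕ) : Prop := ∀ c : Fin s → V, ¬ IsCl G S c

lemma hit {G : SimpleGraph V} {S : Finset V} (v0 : V) (s N : ℕ) :
    (∃ F : Finset V, F.card ≤ s * N ∧ NoCl G (S \ F) s) ∨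
    ∃ t : ℕ → Fin s → V, (∀ i < N, IsCl G S (t i)) ∧
      ∀ i < N, ∀ j < N, i ≠ j → ∀ x y, t i x ≠ t j y := by
  induction N with
  | zero => exact Or.inr ⟨fun _ _ => v0, by simp, by simp⟩
  | succ N ih =>
    rcases ih with ⟨F, hF, h⟩ | ⟨t, h1, h2⟩
    · exact Or.inl ⟨F, hF.trans (Nat.mul_le_mul_left _ (by omega)), h⟩
    let F : Finset V := (range N).biUnion (fun i => univ.image (t i))
    have hF : F.card ≤ s * N := by
      have := card_biUnion_le_card_mul (range N) (fun i => univ.image (t i)) s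
        (fun i _ => card_image_le.trans (by simp))
      rw [card_range, mul_comm] at this
      exact this
    by_cases hn : NoCl G (S \ F) s
    · exact Or.inl ⟨F, hF.trans (Nat.mul_le_mul_left _ (by omega)), hn⟩
    right
    unfold NoCl at hn
    push Not at hn
    obtain ⟨c, hc⟩ := hn
    have hc' : ∀ i < N, ∀ x y, t i x ≠ c y := by
      intro i hi x y e
      exact (mem_sdiff.1 (hc.1 y)).2
        (mem_biUnion.2 ⟨i, mem_range.2 hi, mem_image.2 ⟨x, mem_univ _, e⟩⟩)
    refine ⟨Function.update t N c, ?_, ?_⟩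
    · intro i hi
      by_cases e : i = N
      · rw [e, Function.update_self]
        exact ⟨fun x => (mem_sdiff.1 (hc.1 x)).1, hc.2⟩
      · rw [Function.update_of_ne e]
        exact h1 i (by omega)
    · intro i hi j hj hij x y
      by_cases e : i = N <;> by_cases e' : j = N
      · omega
      · rw [e, Function.update_self, Function.update_of_ne e']
        exact (hc' j (by omega) y x).symm
      · rw [e', Function.update_self, Function.update_of_ne e]
        exact hc' i (by omega) x y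
      · rw [Function.update_of_ne e, Function.update_of_ne e']
        exact h2 i (by omega) j (by omega) hij x y

lemma IsCl.mc {G : SimpleGraph V} (hD : DF G) {S : Finset V} {s : ℕ} {c : Fin s → V}
    (h : IsCl G S c) (hn : NoCl G S (s + 1)) : MC G S (univ.image c) ∧ (univ.image c).card = s := by
  have hinj : Function.Injective c := by
    intro x y e
    by_contra hne
    exact (h.2 x y hne).ne e
  refine ⟨⟨?_, ?_, ?_⟩, by rw [card_image_of_injective _ hinj]; simp⟩
  · intro v hv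
    obtain ⟨x, _, rfl⟩ := mem_image.1 hv
    exact h.1 x
  · intro u hu v hv hne
    obtain ⟨x, _, rfl⟩ := mem_image.1 hu
    obtain ⟨y, _, rfl⟩ := mem_image.1 hv
    exact h.2 x y (fun e => hne (e ▸ rfl))
  · intro v hv hvn u hu w hw vu vw
    obtain ⟨x, _, rfl⟩ := mem_image.1 hu
    obtain ⟨y, _, rfl⟩ := mem_image.1 hw
    by_contra hne
    have hxy : x ≠ y := fun e => hne (e ▸ rfl)
    have hall : ∀ z, G.Adj v (c z) := by
      intro z
      by_cases e1 : z = x
      · exact e1 ▸ vu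
      by_cases e2 : z = y
      · exact e2 ▸ vw
      exact hD (c x) (c y) v (c z) (h.2 x y hxy) vu.symm (h.2 x z (Ne.symm e1)) vw.symm
        (h.2 y z (Ne.symm e2)) (fun e => hvn (mem_image.2 ⟨z, mem_univ _, e.symm⟩))
    refine hn (Fin.cons v c) ⟨?_, ?_⟩
    · intro z
      refine Fin.cases ?_ (fun z => ?_) z
      · simpa using hv
      · simpa using h.1 z
    · intro z w
      refine Fin.cases ?_ (fun z => ?_) z <;> refine Fin.cases ?_ (fun w => ?_) w
      · simp
      · intro _; simpa using hall w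
      · intro _; simpa using (hall z).symm
      · intro e; simpa using h.2 z w (fun e' => e (e' ▸ rfl))

lemma NoCl.mono {G : SimpleGraph V} {S S' : Finset V} {s : ℕ} (h : NoCl G S s) (hS : S' ⊆ S) :
    NoCl G S' s := fun c hc => h c ⟨fun x => hS (hc.1 x), hc.2⟩

theorem W_omega (s : ℕ) : ∃ k, ∀ (V : Type) (G : SimpleGraph V) (S : Finset V), DF G → PF G →
    NoCl G S (s + 3) → W G k S := by
  induction s with
  | zero =>
    refine ⟨cK3, fun V G S hD hP hn => W_K3 hD hP ?_⟩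
    intro a ha b hb c hc ab ac bc
    refine hn ![a, b, c] ⟨?_, ?_⟩
    · intro x; fin_cases x <;> simpa
    · intro x y
      fin_cases x <;> fin_cases y <;> simp [ab, ac, bc, ab.symm, ac.symm, bc.symm]
  | succ s ih =>
    obtain ⟨k, hk⟩ := ih
    obtain ⟨N, hN⟩ := ramsey (Fin (s + 3) → Fin (s + 3) → Prop) (s + 4)
    refine ⟨J ((s + 3) * N) (k + (s + 3) * N) + cTC + 2, fun V G S0 hD hP hn0 => ?_⟩
    refine W_of_prime (by omega) S0 (fun S hS ⟨v0, _⟩ hc _ _ => ?_)
    have hn : NoCl G S (s + 3 + 1) := hn0.mono hS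
    rcases hit (G := G) (S := S) v0 (s + 3) N with ⟨F, hF, h⟩ | ⟨t, h1, h2⟩
    · exact (W_del hF (hk V G _ hD hP h)).mono (by omega)
    obtain ⟨f, hf, hmono, π, hπ⟩ := hN (fun i j x y => G.Adj (t i x) (t j y))
    let T : Fin (s + 4) → Fin (s + 3) → V := fun i => t (f i)
    have hT : ∀ i, IsCl G S (T i) := fun i => h1 _ (hf i)
    have hne : ∀ i j, i < j → ∀ x y, T i x ≠ T j y :=
      fun i j h => h2 _ (hf i) _ (hf j) (hmono i j h).ne
    have hadj : ∀ i j, i < j → ∀ x y, (G.Adj (T i x) (T j y) ↔ π x y) := by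
      intro i j h x y
      rw [← hπ i j h]
    have hmc := fun i => (hT i).mc hD hn
    have nofix : ∀ x, ¬ π x x := by
      intro x hx
      refine hn (fun i => T i x) ⟨fun i => (hT i).1 x, fun i j hij => ?_⟩
      rcases lt_or_gt_of_ne hij with h | h
      · exact (hadj i j h x x).2 hx
      · exact ((hadj j i h x x).2 hx).symm
    have l01 : (0 : Fin (s + 4)) < 1 := by simp
    have inj1 : ∀ x y y', π x y → π x y' → y = y' := by
      intro x y y' p1 p2
      have := (hmc 1).1.one (T 0 x) ((hT 0).1 x) (fun h => by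
        obtain ⟨z, _, e⟩ := mem_image.1 h
        exact hne 0 1 l01 x z e.symm) (T 1 y) (mem_image_of_mem _ (mem_univ _)) (T 1 y')
        (mem_image_of_mem _ (mem_univ _)) ((hadj 0 1 l01 x y).2 p1) ((hadj 0 1 l01 x y').2 p2)
      by_contra hh
      exact ((hT 1).2 y y' hh).ne this
    have inj2 : ∀ x x' y, π x y → π x' y → x = x' := by
      intro x x' y p1 p2
      have := (hmc 0).1.one (T 1 y) ((hT 1).1 y) (fun h => by
        obtain ⟨z, _, e⟩ := mem_image.1 h
        exact hne 0 1 l01 z y e) (T 0 x) (mem_image_of_mem _ (mem_univ _)) (T 0 x')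
        (mem_image_of_mem _ (mem_univ _)) ((hadj 0 1 l01 x y).2 p1).symm
        ((hadj 0 1 l01 x' y).2 p2).symm
      by_contra hh
      exact ((hT 0).2 x x' hh).ne this
    by_cases hemp : ∃ α β, π α β
    swap
    · exfalso
      push Not at hemp
      have anti : ∀ i j, i < j → ∀ x ∈ univ.image (T i), ∀ y ∈ univ.image (T j), ¬ G.Adj x y := by
        intro i j h x hx y hy
        obtain ⟨x, _, rfl⟩ := mem_image.1 hx
        obtain ⟨y, _, rfl⟩ := mem_image.1 hy
        exact fun e => hemp x y ((hadj i j h x y).1 e)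
      let i0 : Fin (s + 4) := ⟨0, by omega⟩
      let i1 : Fin (s + 4) := ⟨1, by omega⟩
      let i2 : Fin (s + 4) := ⟨2, by omega⟩
      exact three_cliques hP (hmc i0).1 (hmc i1).1 (hmc i2).1 (by rw [(hmc i0).2]; omega)
        (by rw [(hmc i1).2]; omega) (by rw [(hmc i2).2]; omega)
        (anti i0 i1 (by simp [i0, i1])) (anti i0 i2 (by simp [i0, i2, Fin.lt_def]))
        (anti i1 i2 (by simp [i1, i2, Fin.lt_def])) hc
    obtain ⟨α, β, hαβ⟩ := hemp
    have hab : α ≠ β := fun e => nofix β (e ▸ hαβ)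
    obtain ⟨γ, g1, g2⟩ : ∃ γ : Fin (s + 3), γ ≠ α ∧ γ ≠ β := by
      have : ({α, β} : Finset (Fin (s + 3))).card < (univ : Finset (Fin (s + 3))).card :=
        lt_of_le_of_lt card_le_two (by simp)
      obtain ⟨γ, _, h⟩ := exists_mem_notMem_of_card_lt_card this
      simp only [mem_insert, mem_singleton, not_or] at h
      exact ⟨γ, h⟩
    let e : Fin 4 → Fin (s + 4) := Fin.castLE (by omega)
    have he : ∀ i j, i < j → e i < e j := fun i j h => h
    have same : ∀ x i j, ¬ G.Adj (T (e i) x) (T (e j) x) := by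
      intro x i j
      rcases lt_trichotomy i j with h | rfl | h
      · exact fun a => nofix x ((hadj _ _ (he i j h) x x).1 a)
      · exact fun a => a.ne rfl
      · exact fun a => nofix x ((hadj _ _ (he j i h) x x).1 a.symm)
    have := excl hP (fun i => T (e i) α) (fun i => T (e i) β) (fun i => T (e i) γ)
      (π β α) (π β γ) (π γ α) (fun i => (hT _).2 _ _ hab) (fun i => (hT _).2 _ _ g2.symm)
      (fun i => (hT _).2 _ _ g1) (same α) (same β) (same γ)
      (fun i j h => (hadj _ _ (he i j h) _ _).2 hαβ)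
      (fun i j h a => g2 (inj1 _ _ _ ((hadj _ _ (he i j h) _ _).1 a) hαβ))
      (fun i j h a => g1 (inj2 _ _ _ ((hadj _ _ (he i j h) _ _).1 a) hαβ))
      (fun i j h => hadj _ _ (he i j h) _ _) (fun i j h => hadj _ _ (he i j h) _ _)
      (fun i j h => hadj _ _ (he i j h) _ _)
      (fun p1 p2 => g1 (inj1 _ _ _ p2 p1)) (fun p1 p2 => g2 (inj2 _ _ _ p2 p1))
    exact (W_TC hD hP this.2 S).mono (by omega)

end

end Pool.Agent.MP_41f2d3_co
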