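import Pool.Agent.MP_41f2d3_co.RABLocal

/-! Graphs containing four triangles along a complete bipartite graph. -/

namespace Pool.Agent.MP_41f2d3_co

open Finset Classical

noncomputable section

variable {V : Type} {G : SimpleGraph V} {C D A B : V → Prop}

/-- four independent classes -/
structure Four (G : SimpleGraph V) (C D A B : V → Prop) : Prop where
  t : Tri3 G D A B
  iC : ∀ {x y}, C x → C y → ¬ G.Adj x y
  nCA : ∀ {x}, C x → ¬ A x
  nCB : ∀ {x}, C x → ¬ B x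
  cd : ∀ {x y}, C x → D y → G.Adj x y
  a1 : ∀ {x y z}, C x → A y → A z → G.Adj x y → G.Adj x z → y = z
  a2 : ∀ {x y z}, C x → C y → A z → G.Adj x z → G.Adj y z → x = y
  b1 : ∀ {x y z}, C x → B y → B z → G.Adj x y → G.Adj x z → y = z
  b2 : ∀ {x y z}, C x → C y → B z → G.Adj x z → G.Adj y z → x = y
  ra : ∀ {x y z}, C x → A y → B z → G.Adj x y → ¬ G.Adj x z → G.Adj y z
  rb : ∀ {x y z}, C x → B y → A z → G.Adj x y → ¬ G.Adj x z → G.Adj y z

lemma Four.sw (h : Four G C D A B) : Four G C D B A :=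
  ⟨h.t.sw, h.iC, h.nCB, h.nCA, h.cd, h.b1, h.b2, h.a1, h.a2, h.rb, h.ra⟩

lemma Four.mono (h : Four G C D A B) {D' : V → Prop} (hD : ∀ v, D' v → D v) :
    Four G C D' A B :=
  ⟨h.t.mono hD (fun _ h => h) (fun _ h => h), h.iC, h.nCA, h.nCB, fun h1 h2 => h.cd h1 (hD _ h2),
    h.a1, h.a2, h.b1, h.b2, h.ra, h.rb⟩

/-- `A` together with vertices of `C` without neighbours in `A` -/
def Ex (G : SimpleGraph V) (C A : V → Prop) (R : V → Prop) (v : V) : Prop :=
  A v ∨ (C v ∧ R v ∧ ∀ a, A a → ¬ G.Adj v a)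

lemma Four.ex_ind (h : Four G C D A B) {R : V → Prop} {x y : V} (hx : Ex G C A R x)
    (hy : Ex G C A R y) : ¬ G.Adj x y := by
  rcases hx with hx | hx <;> rcases hy with hy | hy
  · exact h.t.iA hx hy
  · exact ns (hy.2.2 x hx)
  · exact hx.2.2 y hy
  · exact h.iC hx.1 hy.1

lemma Four.ex_A (h : Four G C D A B) {R : V → Prop} {x y : V} (hx : Ex G C A R x) (hy : D y)
    (n : ¬ G.Adj x y) : A x :=
  hx.resolve_right (fun c => n (h.cd c.1 hy))

lemma Four.ex_ne (h : Four G C D A B) {R : V → Prop} {x y : V} (hx : D x) (hy : Ex G C A R y) :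
    x ≠ y := by
  rcases hy with hy | hy
  · exact h.t.nDA hx hy
  · exact (h.cd hy.1 hx).ne'

lemma Four.ex_pDA (h : Four G C D A B) (R : V → Prop) : P23 G D (Ex G C A R) :=
  fun _ _ _ _ _ hx hx' hy hy' hy'' e1 e2 e3 n1 n2 n3 ne =>
    h.t.pDA hx hx' (h.ex_A hy hx' (ns n1)) (h.ex_A hy' hx' (ns n2)) (h.ex_A hy'' hx (ns n3))
      e1 e2 e3 n1 n2 n3 ne

lemma Four.ex_pAD (h : Four G C D A B) (R : V → Prop) : P23 G (Ex G C A R) D :=
  fun _ _ _ _ _ hx hx' hy hy' hy'' e1 e2 e3 n1 n2 n3 ne =>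
    h.t.pAD (h.ex_A hx hy'' n3) (h.ex_A hx' hy n1) hy hy' hy'' e1 e2 e3 n1 n2 n3 ne

lemma Four.ex_pAB (h : Four G C D A B) (R R' : V → Prop) :
    P23 G (Ex G C A R) (Ex G C B R') := by
  intro x x' y y' y'' hx hx' hy hy' hy'' e1 e2 e3 n1 n2 n3 ne
  have f : ∀ {u v}, C u → Ex G C B R' v → G.Adj u v → B v :=
    fun hu hv e => hv.resolve_right (fun c => h.iC hu c.1 e)
  rcases hx with hx | hx
  swap
  · exact ne (h.b1 hx.1 (f hx.1 hy e1) (f hx.1 hy' e2) e1 e2)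
  rcases hx' with hx' | hx'
  swap
  · exact n3 (h.rb hx'.1 (f hx'.1 hy'' e3) hx e3 (hx'.2.2 x hx)).symm
  rcases hy'' with hy'' | hy''
  swap
  · rcases hy with hy | hy
    · exact n1 (h.ra hy''.1 hx' hy e3.symm (hy''.2.2 y hy))
    rcases hy' with hy' | hy'
    · exact n2 (h.ra hy''.1 hx' hy' e3.symm (hy''.2.2 y' hy'))
    · exact ne (h.a2 hy.1 hy'.1 hx e1.symm e2.symm)
  rcases hy with hy | hy
  swap
  · exact n3 (h.ra hy.1 hx hy'' e1.symm (hy.2.2 y'' hy''))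
  rcases hy' with hy' | hy'
  swap
  · exact n3 (h.ra hy'.1 hx hy'' e2.symm (hy'.2.2 y'' hy''))
  exact h.t.pAB hx hx' hy hy' hy'' e1 e2 e3 n1 n2 n3 ne

lemma Four.ex_tri (h : Four G C D A B) :
    Tri3 G D (Ex G C A (fun _ => True)) (Ex G C B (fun v => ∃ a, A a ∧ G.Adj v a)) := by
  refine ⟨h.t.iD, h.ex_ind, h.sw.ex_ind, h.ex_ne, ?_, fun hx hy => (h.sw.ex_ne hy hx).symm, ?_,
    h.ex_pDA _, h.ex_pAD _, h.ex_pAB _ _, h.sw.ex_pAB _ _, h.sw.ex_pAD _, h.sw.ex_pDA _⟩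
  · rintro x y (hx | hx) (hy | hy)
    · exact h.t.nAB hx hy
    · exact fun e => h.nCA hy.1 (e ▸ hx)
    · exact fun e => h.nCB hx.1 (e ▸ hy)
    · rintro rfl
      obtain ⟨a, h1, h2⟩ := hy.2.1
      exact hx.2.2 a h1 h2
  · intro x y z hx hy hz n1 n2 n3
    exact h.t.rb hx (h.ex_A hy hx (ns n1)) (h.sw.ex_A hz hx (ns n2)) n1 n2 n3

lemma W_deg2' {S : Finset V} (h : ∀ x ∈ S, ∃ u w, ∀ y ∈ S, G.Adj x y → y = u ∨ y = w) :
    W G (J 1 3) S := by
  refine W_deg2 (fun x hx p hp q hq r hr e1 e2 e3 => ?_)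
  obtain ⟨u, w, k⟩ := h x hx
  rcases k p hp e1 with rfl | rfl <;> rcases k q hq e2 with rfl | rfl <;>
    rcases k r hr e3 with rfl | rfl <;> simp

/-- a vertex of `C` with both partners -/
structure Pt (G : SimpleGraph V) (C A B : V → Prop) (c a b : V) : Prop where
  hc : C c
  ha : A a
  hb : B b
  ca : G.Adj c a
  cb : G.Adj c b

lemma Pt.sw {c a b : V} (p : Pt G C A B c a b) : Pt G C B A c b a :=
  ⟨p.hc, p.hb, p.ha, p.cb, p.ca⟩

lemma Four.oneD (hD : DF G) (h : Four G C D A B) {c a d d' : V} (hc : C c) (ca : G.Adj c a)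
    (hd : D d) (hd' : D d') (e : G.Adj a d) (e' : G.Adj a d') : d = d' := by
  by_contra n
  exact h.t.iD hd hd' (hD c a d d' ca (h.cd hc hd) (h.cd hc hd') e e' n)

lemma Four.dq (hD : DF G) (h : Four G C D A B) {c a b d : V} (p : Pt G C A B c a b)
    (ab : G.Adj a b) (hd : D d) (e : G.Adj d a) : G.Adj d b :=
  (hD c a b d p.ca p.cb (h.cd p.hc hd) ab e.symm (h.t.nBD p.hb hd)).symm

lemma Four.dq2 (hD : DF G) (h : Four G C D A B) {c a b d z : V} (p : Pt G C A B c a b)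
    (ab : G.Adj a b) (da : G.Adj d a) (db : G.Adj d b) (hz : A z) (e : G.Adj d z) : z = a := by
  by_contra n
  have cz : ¬ G.Adj c z := fun k => n (h.a1 p.hc hz p.ha k p.ca)
  exact h.t.iA hz p.ha (hD d b z a db e da (h.rb p.hc p.hb hz p.cb cz) ab.symm n)

/-- the special part -/
def QQ (G : SimpleGraph V) (C D A B : V → Prop) (v : V) : Prop :=
  ∃ c a b, Pt G C A B c a b ∧ (v = c ∨ v = a ∨ v = b ∨ (D v ∧ G.Adj v a ∧ G.Adj v b))

lemma QQ.sw {v : V} (q : QQ G C D A B v) : QQ G C D B A v := by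
  obtain ⟨c, a, b, p, q⟩ := q
  refine ⟨c, b, a, p.sw, ?_⟩
  rcases q with q | q | q | q
  · exact Or.inl q
  · exact Or.inr (Or.inr (Or.inl q))
  · exact Or.inr (Or.inl q)
  · exact Or.inr (Or.inr (Or.inr ⟨q.1, q.2.2, q.2.1⟩))

lemma Four.unifA (hD : DF G) (h : Four G C D A B)
    (H : ∀ c a b d, Pt G C A B c a b → D d → G.Adj a b) {c a b z : V} (p : Pt G C A B c a b)
    (hz : C z ∨ D z ∨ A z ∨ B z) (n : ¬ QQ G C D A B z) : G.Adj a z ↔ B z := by
  rcases hz with hz | hz | hz | hz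
  · exact iff_of_false (fun e => n ⟨c, a, b, p, Or.inl (h.a2 hz p.hc p.ha e.symm p.ca)⟩)
      (h.nCB hz)
  · exact iff_of_false (fun e => n ⟨c, a, b, p, Or.inr (Or.inr (Or.inr
      ⟨hz, e.symm, h.dq hD p (H c a b z p hz) hz e.symm⟩))⟩) (fun k => h.t.nBD k hz rfl)
  · exact iff_of_false (h.t.iA p.ha hz) (fun k => h.t.nAB hz k rfl)
  · exact iff_of_true (h.ra p.hc p.ha hz p.ca (fun e => n ⟨c, a, b, p,
      Or.inr (Or.inr (Or.inl (h.b1 p.hc hz p.hb e p.cb)))⟩)) hz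

lemma Four.slotA (hD : DF G) (h : Four G C D A B)
    (H : ∀ c a b d, Pt G C A B c a b → D d → G.Adj a b) {c a b : V} (p : Pt G C A B c a b) :
    ∃ w, ∀ y, (C y ∧ G.Adj a y) ∨ (D y ∧ G.Adj a y) ∨ (B y ∧ ¬ G.Adj a y) → y = c ∨ y = w := by
  by_cases hd : ∃ d, D d ∧ G.Adj a d
  · obtain ⟨d, hd, ad⟩ := hd
    refine ⟨d, ?_⟩
    rintro y (hy | hy | hy)
    · exact Or.inl (h.a2 hy.1 p.hc p.ha hy.2.symm p.ca)
    · exact Or.inr (h.oneD hD p.hc p.ca hy.1 hd hy.2 ad)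
    · by_cases cy : G.Adj c y
      · exact absurd (H c a y d ⟨p.hc, p.ha, hy.1, p.ca, cy⟩ hd) hy.2
      · exact absurd (h.ra p.hc p.ha hy.1 p.ca cy) hy.2
  · refine ⟨b, ?_⟩
    rintro y (hy | hy | hy)
    · exact Or.inl (h.a2 hy.1 p.hc p.ha hy.2.symm p.ca)
    · exact absurd ⟨y, hy⟩ hd
    · by_cases cy : G.Adj c y
      · exact Or.inr (h.b1 p.hc hy.1 p.hb cy p.cb)
      · exact absurd (h.ra p.hc p.ha hy.1 p.ca cy) hy.2

/-- bound -/
def cF0 : ℕ := J 16 (cC + 16 * (J 1 3 + 1))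

lemma W_four0 (hD : DF G) (hR : RF G) (h : Four G C D A B)
    (H : ∀ c a b d, Pt G C A B c a b → D d → G.Adj a b) {S : Finset V}
    (hS : ∀ v ∈ S, C v ∨ D v ∨ A v ∨ B v) : W G cF0 S := by
  have H' : ∀ c b a d, Pt G C B A c b a → D d → G.Adj b a :=
    fun c b a d p hd => (H c a b d p.sw hd).symm
  obtain ⟨Q, hQ⟩ : ∃ Q : Finset V, ∀ v, v ∈ Q ↔ v ∈ S ∧ QQ G C D A B v :=
    ⟨S.filter _, fun v => mem_filter⟩
  have nCD : ∀ {v}, C v → ¬ D v := fun c d => (h.cd c d).ne rfl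
  have nDC : ∀ {v}, D v → ¬ C v := fun d c => (h.cd c d).ne rfl
  have nDA : ∀ {v}, D v → ¬ A v := fun c c' => h.t.nDA c c' rfl
  have nDB : ∀ {v}, D v → ¬ B v := fun c c' => h.t.nBD c' c rfl
  have nAD : ∀ {v}, A v → ¬ D v := fun c c' => h.t.nDA c' c rfl
  have nAB : ∀ {v}, A v → ¬ B v := fun c c' => h.t.nAB c c' rfl
  have nBD : ∀ {v}, B v → ¬ D v := fun c c' => h.t.nBD c c' rfl
  have nBA : ∀ {v}, B v → ¬ A v := fun c c' => h.t.nAB c' c rfl
  have nAC : ∀ {v}, A v → ¬ C v := fun c c' => h.nCA c' c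
  have nBC : ∀ {v}, B v → ¬ C v := fun c c' => h.nCB c' c
  refine W_join (A := Q) (fun v hv => ((hQ v).1 hv).1) ?_ ?_ ?_
  · have key : ∀ x, QQ G C D A B x → ∀ z ∈ S, z ∉ Q →
        (G.Adj x z ↔ (C x ∧ D z) ∨ (D x ∧ C z) ∨ (A x ∧ B z) ∨ (B x ∧ A z)) := by
      rintro x ⟨c, a, b, p, q⟩ z hz zQ
      have n : ¬ QQ G C D A B z := fun k => zQ ((hQ z).2 ⟨hz, k⟩)
      have cz := hS z hz
      rcases q with rfl | rfl | rfl | q
      · have hx := p.hc
        simp only [hx, nCD hx, h.nCA hx, h.nCB hx, true_and, false_and, or_false]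
        rcases cz with cz | cz | cz | cz
        · exact iff_of_false (h.iC hx cz) (nCD cz)
        · exact iff_of_true (h.cd hx cz) cz
        · exact iff_of_false (fun e => n ⟨x, a, b, p, Or.inr (Or.inl (h.a1 hx cz p.ha e p.ca))⟩)
            (nAD cz)
        · exact iff_of_false
            (fun e => n ⟨x, a, b, p, Or.inr (Or.inr (Or.inl (h.b1 hx cz p.hb e p.cb)))⟩) (nBD cz)
      · have hx := p.ha
        simp only [hx, nAC hx, nAD hx, nAB hx, true_and, false_and, or_false, false_or]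
        exact h.unifA hD H p cz n
      · have hx := p.hb
        simp only [hx, nBC hx, nBD hx, nBA hx, true_and, false_and, false_or]
        refine h.sw.unifA hD H' p.sw ?_ (fun k => n k.sw)
        rcases cz with cz | cz | cz | cz
        exacts [Or.inl cz, Or.inr (Or.inl cz), Or.inr (Or.inr (Or.inr cz)),
          Or.inr (Or.inr (Or.inl cz))]
      · have hx := q.1
        have ab := H c a b x p hx
        simp only [hx, nDC hx, nDA hx, nDB hx, true_and, false_and, or_false, false_or]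
        rcases cz with cz | cz | cz | cz
        · exact iff_of_true (h.cd cz hx).symm cz
        · exact iff_of_false (h.t.iD hx cz) (nDC cz)
        · exact iff_of_false (fun e => n ⟨c, a, b, p,
            Or.inr (Or.inl (h.dq2 hD p ab q.2.1 q.2.2 cz e))⟩) (nAC cz)
        · exact iff_of_false (fun e => n ⟨c, a, b, p,
            Or.inr (Or.inr (Or.inl (h.sw.dq2 hD p.sw ab.symm q.2.2 q.2.1 cz e)))⟩) (nBC cz)
    refine Ty_of_labels (fun v => (C v, D v, A v, B v)) univ (by simp)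
      (fun _ _ => Or.inr (mem_univ _)) ?_
    intro x hx y hy e z hz zQ
    simp only [Prod.mk.injEq, eq_iff_iff] at e
    rw [key x ((hQ x).1 hx).2 z hz zQ, key y ((hQ y).1 hy).2 z hz zQ, e.1, e.2.1, e.2.2.1,
      e.2.2.2]
  · let lab : V → Prop × Prop × Prop × Prop := fun v => (C v, D v, A v, B v)
    let φ : Prop × Prop × Prop × Prop → Prop × Prop × Prop × Prop → Prop :=
      fun p q => (p.1 ∧ q.2.1) ∨ (p.2.2.1 ∧ q.2.2.2)
    have := W_flip (G := G) lab φ (k := J 1 3) (S := Q) (W_deg2' ?_)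
    · refine this.mono ?_
      have : Fintype.card (Prop × Prop × Prop × Prop) = 16 := by simp
      rw [this]
      exact Nat.le_add_left _ _
    intro x hx
    obtain ⟨c, a, b, p, q⟩ := ((hQ x).1 hx).2
    rcases q with rfl | rfl | rfl | q
    · refine ⟨a, b, fun y hy e => ?_⟩
      have hx := p.hc
      have e2 := e.2
      simp only [lab, φ, hx, nCD hx, h.nCA hx, h.nCB hx, true_and, false_and, and_false,
        or_false] at e2
      rcases hS y ((hQ y).1 hy).1 with cy | cy | cy | cy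
      · exact absurd (e2.2 (nCD cy)) (h.iC hx cy)
      · exact absurd cy (e2.1 (h.cd hx cy))
      · exact Or.inl (h.a1 hx cy p.ha (e2.2 (nAD cy)) p.ca)
      · exact Or.inr (h.b1 hx cy p.hb (e2.2 (nBD cy)) p.cb)
    · obtain ⟨w, hw⟩ := h.slotA hD H p
      refine ⟨c, w, fun y hy e => hw y ?_⟩
      have hx := p.ha
      have e2 := e.2
      simp only [lab, φ, hx, nAC hx, nAD hx, nAB hx, true_and, false_and, and_false,
        or_false, false_or] at e2
      rcases hS y ((hQ y).1 hy).1 with cy | cy | cy | cy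
      · exact Or.inl ⟨cy, e2.2 (h.nCB cy)⟩
      · exact Or.inr (Or.inl ⟨cy, e2.2 (nDB cy)⟩)
      · exact absurd (e2.2 (nAB cy)) (h.t.iA hx cy)
      · exact Or.inr (Or.inr ⟨cy, fun k => e2.1 k cy⟩)
    · obtain ⟨w, hw⟩ := h.sw.slotA hD H' p.sw
      refine ⟨c, w, fun y hy e => hw y ?_⟩
      have hx := p.hb
      have e2 := e.2
      simp only [lab, φ, hx, nBC hx, nBD hx, nBA hx, and_true, false_and, and_false,
        false_or] at e2
      rcases hS y ((hQ y).1 hy).1 with cy | cy | cy | cy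
      · exact Or.inl ⟨cy, e2.2 (h.nCA cy)⟩
      · exact Or.inr (Or.inl ⟨cy, e2.2 (nDA cy)⟩)
      · exact Or.inr (Or.inr ⟨cy, fun k => e2.1 k cy⟩)
      · exact absurd (e2.2 (nBA cy)) (h.t.iB hx cy)
    · refine ⟨a, b, fun y hy e => ?_⟩
      have hx := q.1
      have ab := H c a b x p hx
      have e2 := e.2
      simp only [lab, φ, hx, nDC hx, nDA hx, nDB hx, and_true, false_and, and_false,
        or_false, false_or] at e2
      rcases hS y ((hQ y).1 hy).1 with cy | cy | cy | cy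
      · exact absurd cy (e2.1 (h.cd cy hx).symm)
      · exact absurd (e2.2 (nDC cy)) (h.t.iD hx cy)
      · exact Or.inl (h.dq2 hD p ab q.2.1 q.2.2 cy (e2.2 (nAC cy)))
      · exact Or.inr (h.sw.dq2 hD p.sw ab.symm q.2.2 q.2.1 cy (e2.2 (nBC cy)))
  · refine (W_core' hD hR h.ex_tri ?_).mono (Nat.le_add_right _ _)
    intro v hv
    obtain ⟨hv, n⟩ := mem_sdiff.1 hv
    rcases hS v hv with cv | cv | cv | cv
    · by_cases e1 : ∃ a, A a ∧ G.Adj v a
      · refine Or.inr (Or.inr (Or.inr ⟨cv, e1, fun b hb vb => ?_⟩))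
        obtain ⟨a, ha, va⟩ := e1
        exact n ((hQ v).2 ⟨hv, v, a, b, ⟨cv, ha, hb, va, vb⟩, Or.inl rfl⟩)
      · exact Or.inr (Or.inl (Or.inr ⟨cv, trivial, fun a ha va => e1 ⟨a, ha, va⟩⟩))
    · exact Or.inl cv
    · exact Or.inr (Or.inl (Or.inl cv))
    · exact Or.inr (Or.inr (Or.inl cv))

lemma le_J (t k m : ℕ) : k ≤ J t (k + m) := by
  unfold J
  have : 1 ≤ 2 ^ t := Nat.one_le_two_pow
  nlinarith

lemma W_four (hD : DF G) (hR : RF G) (h : Four G C D A B) {S : Finset V}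
    (hS : ∀ v ∈ S, C v ∨ D v ∨ A v ∨ B v) : W G (J 2 (cF0 + 2)) S := by
  by_cases H : ∀ c a b d, Pt G C A B c a b → D d → G.Adj a b
  · exact (W_four0 hD hR h H hS).mono (le_J _ _ _)
  push Not at H
  obtain ⟨c, a, b, _, p, _, ab⟩ := H
  refine W_del (F := S.filter D) ?_ (W_four0 hD hR (h.mono (D' := fun _ => False)
    (fun _ k => k.elim)) (fun _ _ _ _ _ k => k.elim) ?_)
  · rcases three_or_le (S.filter D) with k | ⟨x, hx, y, hy, z, hz, n1, n2, n3⟩
    · exact k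
    exfalso
    have dx := (mem_filter.1 hx).2
    have dy := (mem_filter.1 hy).2
    have dz := (mem_filter.1 hz).2
    have key : ∀ d, D d → G.Adj a d ∨ G.Adj b d := by
      intro d hd
      by_contra hh
      rw [not_or] at hh
      exact h.t.rb hd p.ha p.hb (ns hh.1) (ns hh.2) ab
    have oa := fun {d d'} => h.oneD (d := d) (d' := d') hD p.hc p.ca
    have ob := fun {d d'} => h.oneD (d := d) (d' := d') hD p.hc p.cb
    rcases key x dx with e1 | e1 <;> rcases key y dy with e2 | e2 <;> rcases key z dz with e3 | e3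
    exacts [n1 (oa dx dy e1 e2), n1 (oa dx dy e1 e2), n2 (oa dx dz e1 e3), n3 (ob dy dz e2 e3),
      n3 (oa dy dz e2 e3), n2 (ob dx dz e1 e3), n1 (ob dx dy e1 e2), n1 (ob dx dy e1 e2)]
  · intro v hv
    obtain ⟨hv, n⟩ := mem_sdiff.1 hv
    rcases hS v hv with cv | cv | cv | cv
    · exact Or.inl cv
    · exact absurd (mem_filter.2 ⟨hv, cv⟩) n
    · exact Or.inr (Or.inr (Or.inl cv))
    · exact Or.inr (Or.inr (Or.inr cv))

variable {a b c : Fin 4 → V}

lemma AB4.sw (h : AB4 G a b c) : AB4 G b a c :=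
  ⟨fun i j => (h.ab j i).symm, h.bc, h.ac, h.bb, h.aa, h.cc⟩

lemma KC.sw {v : V} (h : KC G a b c v) : KC G b a c v :=
  fun i => ⟨(h i).2.1, (h i).1, (h i).2.2⟩

lemma KD.sw {v : V} (h : KD G a b c v) : KD G b a c v :=
  fun i => ⟨(h i).2.1, (h i).1, (h i).2.2⟩

lemma AB4.four (hD : DF G) (hR : RF G) (h : AB4 G a b c) :
    Four G (KC G a b c) (KD G a b c) (KA G a b c) (KA G b a c) := by
  have iD : ∀ {x y}, KD G a b c x → KD G a b c y → ¬ G.Adj x y :=
    fun h1 h2 => ab_iD hD hR h h1 h2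
  have iA : ∀ {x y}, KA G a b c x → KA G a b c y → ¬ G.Adj x y :=
    fun h1 h2 => ab_iA hD hR h h1 h2
  have iB : ∀ {x y}, KA G b a c x → KA G b a c y → ¬ G.Adj x y :=
    fun h1 h2 => ab_iA hD hR h.sw h1 h2
  refine ⟨⟨iD, iA, iB, fun h1 h2 e => (h2 0).2.2 (e ▸ (h1 0).2.2),
    fun h1 h2 e => (h2 0).1 (e ▸ (h1 0).2.1), fun h1 h2 e => (h1 0).2.2 (e ▸ (h2 0).2.2),
    fun h1 h2 h3 => ab_rb hD hR h h1 h2 h3,
    P23_of_P1 hR (a 0) iD iA (fun k => (k 0).1) (fun k => (k 0).1),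
    P23_of_P1 hR (a 0) iA iD (fun k => (k 0).1) (fun k => (k 0).1),
    P23_of_P1 hR (c 0) iA iB (fun k => (k 0).2.2) (fun k => (k 0).2.2),
    P23_of_P1 hR (c 0) iB iA (fun k => (k 0).2.2) (fun k => (k 0).2.2),
    P23_of_P1 hR (b 0) iB iD (fun k => (k 0).1) (fun k => (k 0).2.1),
    P23_of_P1 hR (b 0) iD iB (fun k => (k 0).2.1) (fun k => (k 0).1)⟩,
    fun h1 h2 => ab_iC hD hR h h1 h2, fun h1 h2 => (h1 0).2.1 (h2 0).2.1,
    fun h1 h2 => (h1 0).1 (h2 0).2.1,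
    fun h1 h2 => Classical.byContradiction (ab_cd hD hR h h1 h2),
    fun h1 h2 h3 e1 e2 => Classical.byContradiction (ab_a1 hD hR h h1 h2 h3 e1 e2),
    fun h1 h2 h3 e1 e2 => Classical.byContradiction (ab_a2 hD hR h h1 h2 h3 e1 e2),
    fun h1 h2 h3 e1 e2 => Classical.byContradiction (ab_a1 hD hR h.sw h1.sw h2 h3 e1 e2),
    fun h1 h2 h3 e1 e2 => Classical.byContradiction (ab_a2 hD hR h.sw h1.sw h2.sw h3 e1 e2),
    fun h1 h2 h3 e1 e2 => Classical.byContradiction (ab_ra hD hR h h1 h2 h3 e1 e2),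
    fun h1 h2 h3 e1 e2 => Classical.byContradiction (ab_ra hD hR h.sw h1.sw h2 h3 e1 e2)⟩

theorem W_ABR : ∃ k, ∀ (V : Type) (G : SimpleGraph V) (a b c : Fin 4 → V) (S : Finset V),
    DF G → RF G → AB4 G a b c → W G k S := by
  refine ⟨J 12 (J 4 (J 2 (cF0 + 2) + 4) + 12), fun V G a b c S hD hR h => ?_⟩
  let F : Finset V := univ.image a ∪ (univ.image b ∪ univ.image c)
  have hF : F.card ≤ 12 := by
    have h1 : (univ.image a).card ≤ 4 := card_image_le.trans (by simp)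
    have h2 : (univ.image b).card ≤ 4 := card_image_le.trans (by simp)
    have h3 : (univ.image c).card ≤ 4 := card_image_le.trans (by simp)
    have h4 := card_union_le (univ.image b) (univ.image c)
    have h5 := card_union_le (univ.image a) (univ.image b ∪ univ.image c)
    simp only [F]
    omega
  refine W_del hF ?_
  have hoff : ∀ x ∈ S \ F, Off a b c x := by
    intro x hx i
    have := (mem_sdiff.1 hx).2
    simp only [F, mem_union, mem_image, mem_univ, true_and, not_or, not_exists] at this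
    exact ⟨fun e => this.1 i e.symm, fun e => this.2.1 i e.symm, fun e => this.2.2 i e.symm⟩
  generalize S \ F = S' at hoff
  let f : Fin 4 → Finset V := fun i => S'.filter (fun v => G.Adj v (a i) ∧ G.Adj v (b i))
  refine W_del (F := univ.biUnion f) ?_ (W_four hD hR (h.four hD hR) ?_)
  · refine (card_biUnion_le_card_mul univ f 1 (fun i _ => ?_)).trans (by simp)
    rw [card_le_one]
    intro u hu v hv
    obtain ⟨hu', u1, u2⟩ := mem_filter.1 hu
    obtain ⟨hv', v1, v2⟩ := mem_filter.1 hv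
    by_contra n
    fin_cases i
    · exact ab_small0 hD hR h (hoff u hu') (hoff v hv') u1 u2 v1 v2 n
    · exact ab_small1 hD hR h (hoff u hu') (hoff v hv') u1 u2 v1 v2 n
    · exact ab_small2 hD hR h (hoff u hu') (hoff v hv') u1 u2 v1 v2 n
    · exact ab_small3 hD hR h (hoff u hu') (hoff v hv') u1 u2 v1 v2 n
  · intro v hv
    obtain ⟨hv, n⟩ := mem_sdiff.1 hv
    by_contra hh
    simp only [not_or] at hh
    exact ab_cls hD hR h (hoff v hv) hh.2.2.1 hh.2.2.2 hh.1 hh.2.1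
      (fun i e1 e2 => n (mem_biUnion.2 ⟨i, mem_univ _, mem_filter.2 ⟨hv, e1, e2⟩⟩))

end

end Pool.Agent.MP_41f2d3_co
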