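import Pool.Agent.MP_41f2d3_co.RTC

/-! Local lemmas for four triangles along a complete bipartite graph. -/

namespace Pool.Agent.MP_41f2d3_co

variable {V : Type}

/-- four triangles along a complete bipartite graph -/
structure AB4 (G : SimpleGraph V) (a b c : Fin 4 → V) : Prop where
  ab : ∀ i j, G.Adj (a i) (b j)
  ac : ∀ i j, G.Adj (a i) (c j) ↔ i = j
  bc : ∀ i j, G.Adj (b i) (c j) ↔ i = j
  aa : ∀ i j, ¬ G.Adj (a i) (a j)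
  bb : ∀ i j, ¬ G.Adj (b i) (b j)
  cc : ∀ i j, ¬ G.Adj (c i) (c j)

/-- complete to the second class -/
def KA (G : SimpleGraph V) (a b c : Fin 4 → V) (v : V) : Prop :=
  ∀ i, ¬ G.Adj v (a i) ∧ G.Adj v (b i) ∧ ¬ G.Adj v (c i)

/-- anticomplete to the base -/
def KC (G : SimpleGraph V) (a b c : Fin 4 → V) (v : V) : Prop :=
  ∀ i, ¬ G.Adj v (a i) ∧ ¬ G.Adj v (b i) ∧ ¬ G.Adj v (c i)

/-- complete to the third class -/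
def KD (G : SimpleGraph V) (a b c : Fin 4 → V) (v : V) : Prop :=
  ∀ i, ¬ G.Adj v (a i) ∧ ¬ G.Adj v (b i) ∧ G.Adj v (c i)

lemma all4 {P : Fin 4 → Prop} (h0 : P 0) (h1 : P 1) (h2 : P 2) (h3 : P 3) : ∀ i, P i := by
  intro i
  fin_cases i
  exacts [h0, h1, h2, h3]

set_option linter.unusedVariables false

lemma ab_cls {G : SimpleGraph V} (hD : DF G) (hR : RF G) {a b c : Fin 4 → V} (h : AB4 G a b c)
    {v : V}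
    (ov : Off a b c v) (nA : ¬ KA G a b c v) (nB : ¬ KA G b a c v)
    (nC : ¬ KC G a b c v) (nD : ¬ KD G a b c v) (nS : ∀ i, G.Adj v (a i) → G.Adj v (b i) → False)
    : False := by
  have fa0b0 : G.Adj (a 0) (b 0) := h.ab 0 0
  have fa0c0 : G.Adj (a 0) (c 0) := (h.ac 0 0).2 rfl
  have fa0a1 : ¬ G.Adj (a 0) (a 1) := h.aa 0 1
  have fa0b1 : G.Adj (a 0) (b 1) := h.ab 0 1
  have fa0c1 : ¬ G.Adj (a 0) (c 1) := mt (h.ac 0 1).1 (by decide)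
  have fa0a2 : ¬ G.Adj (a 0) (a 2) := h.aa 0 2
  have fa0b2 : G.Adj (a 0) (b 2) := h.ab 0 2
  have fa0c2 : ¬ G.Adj (a 0) (c 2) := mt (h.ac 0 2).1 (by decide)
  have fa0a3 : ¬ G.Adj (a 0) (a 3) := h.aa 0 3
  have fa0b3 : G.Adj (a 0) (b 3) := h.ab 0 3
  have fa0c3 : ¬ G.Adj (a 0) (c 3) := mt (h.ac 0 3).1 (by decide)
  have fb0c0 : G.Adj (b 0) (c 0) := (h.bc 0 0).2 rfl
  have fa1b0 : G.Adj (a 1) (b 0) := h.ab 1 0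
  have fb0b1 : ¬ G.Adj (b 0) (b 1) := h.bb 0 1
  have fb0c1 : ¬ G.Adj (b 0) (c 1) := mt (h.bc 0 1).1 (by decide)
  have fa2b0 : G.Adj (a 2) (b 0) := h.ab 2 0
  have fb0b2 : ¬ G.Adj (b 0) (b 2) := h.bb 0 2
  have fb0c2 : ¬ G.Adj (b 0) (c 2) := mt (h.bc 0 2).1 (by decide)
  have fb0b3 : ¬ G.Adj (b 0) (b 3) := h.bb 0 3
  have fb0c3 : ¬ G.Adj (b 0) (c 3) := mt (h.bc 0 3).1 (by decide)
  have fa1c0 : ¬ G.Adj (a 1) (c 0) := mt (h.ac 1 0).1 (by decide)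
  have fb1c0 : ¬ G.Adj (b 1) (c 0) := mt (h.bc 1 0).1 (by decide)
  have fc0c1 : ¬ G.Adj (c 0) (c 1) := h.cc 0 1
  have fa2c0 : ¬ G.Adj (a 2) (c 0) := mt (h.ac 2 0).1 (by decide)
  have fb2c0 : ¬ G.Adj (b 2) (c 0) := mt (h.bc 2 0).1 (by decide)
  have fc0c2 : ¬ G.Adj (c 0) (c 2) := h.cc 0 2
  have fa3c0 : ¬ G.Adj (a 3) (c 0) := mt (h.ac 3 0).1 (by decide)
  have fb3c0 : ¬ G.Adj (b 3) (c 0) := mt (h.bc 3 0).1 (by decide)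
  have fc0c3 : ¬ G.Adj (c 0) (c 3) := h.cc 0 3
  have fa1b1 : G.Adj (a 1) (b 1) := h.ab 1 1
  have fa1c1 : G.Adj (a 1) (c 1) := (h.ac 1 1).2 rfl
  have fa1a2 : ¬ G.Adj (a 1) (a 2) := h.aa 1 2
  have fa1b2 : G.Adj (a 1) (b 2) := h.ab 1 2
  have fa1c2 : ¬ G.Adj (a 1) (c 2) := mt (h.ac 1 2).1 (by decide)
  have fa1a3 : ¬ G.Adj (a 1) (a 3) := h.aa 1 3
  have fa1b3 : G.Adj (a 1) (b 3) := h.ab 1 3
  have fa1c3 : ¬ G.Adj (a 1) (c 3) := mt (h.ac 1 3).1 (by decide)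
  have fb1c1 : G.Adj (b 1) (c 1) := (h.bc 1 1).2 rfl
  have fb1b2 : ¬ G.Adj (b 1) (b 2) := h.bb 1 2
  have fb1c2 : ¬ G.Adj (b 1) (c 2) := mt (h.bc 1 2).1 (by decide)
  have fb1b3 : ¬ G.Adj (b 1) (b 3) := h.bb 1 3
  have fb1c3 : ¬ G.Adj (b 1) (c 3) := mt (h.bc 1 3).1 (by decide)
  have fa2c1 : ¬ G.Adj (a 2) (c 1) := mt (h.ac 2 1).1 (by decide)
  have fb2c1 : ¬ G.Adj (b 2) (c 1) := mt (h.bc 2 1).1 (by decide)
  have fc1c2 : ¬ G.Adj (c 1) (c 2) := h.cc 1 2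
  have fa3c1 : ¬ G.Adj (a 3) (c 1) := mt (h.ac 3 1).1 (by decide)
  have fb3c1 : ¬ G.Adj (b 3) (c 1) := mt (h.bc 3 1).1 (by decide)
  have fc1c3 : ¬ G.Adj (c 1) (c 3) := h.cc 1 3
  have fa2b2 : G.Adj (a 2) (b 2) := h.ab 2 2
  have fa2c2 : G.Adj (a 2) (c 2) := (h.ac 2 2).2 rfl
  have fa2a3 : ¬ G.Adj (a 2) (a 3) := h.aa 2 3
  have fa2c3 : ¬ G.Adj (a 2) (c 3) := mt (h.ac 2 3).1 (by decide)
  have fb2c2 : G.Adj (b 2) (c 2) := (h.bc 2 2).2 rfl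
  have fb2b3 : ¬ G.Adj (b 2) (b 3) := h.bb 2 3
  have fb2c3 : ¬ G.Adj (b 2) (c 3) := mt (h.bc 2 3).1 (by decide)
  have fa3c2 : ¬ G.Adj (a 3) (c 2) := mt (h.ac 3 2).1 (by decide)
  have fb3c2 : ¬ G.Adj (b 3) (c 2) := mt (h.bc 3 2).1 (by decide)
  have fc2c3 : ¬ G.Adj (c 2) (c 3) := h.cc 2 3
  have fa3b3 : G.Adj (a 3) (b 3) := h.ab 3 3
  have fa3c3 : G.Adj (a 3) (c 3) := (h.ac 3 3).2 rfl
  have fb3c3 : G.Adj (b 3) (c 3) := (h.bc 3 3).2 rfl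
  have qva0 := (ov 0).1
  have qvb0 := (ov 0).2.1
  have qvc0 := (ov 0).2.2
  have qva1 := (ov 1).1
  have qvb1 := (ov 1).2.1
  have qvc1 := (ov 1).2.2
  have qva2 := (ov 2).1
  have qvb2 := (ov 2).2.1
  have qvc2 := (ov 2).2.2
  have qva3 := (ov 3).1
  have qvb3 := (ov 3).2.1
  have qvc3 := (ov 3).2.2
  have k0 : ¬ G.Adj v (a 0) → G.Adj v (b 0) → ¬ G.Adj v (c 0) → ¬ G.Adj v (a 1) → G.Adj v (b 1) → ¬ G.Adj v (c 1) → ¬ G.Adj v (a 2) → G.Adj v (b 2) → ¬ G.Adj v (c 2) → ¬ G.Adj v (a 3) → G.Adj v (b 3) → ¬ G.Adj v (c 3) → False :=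
    fun x0 y0 z0 x1 y1 z1 x2 y2 z2 x3 y3 z3 => nA (all4 ⟨x0, y0, z0⟩ ⟨x1, y1, z1⟩ ⟨x2, y2, z2⟩ ⟨x3, y3, z3⟩)
  have k1 : ¬ G.Adj v (b 0) → G.Adj v (a 0) → ¬ G.Adj v (c 0) → ¬ G.Adj v (b 1) → G.Adj v (a 1) → ¬ G.Adj v (c 1) → ¬ G.Adj v (b 2) → G.Adj v (a 2) → ¬ G.Adj v (c 2) → ¬ G.Adj v (b 3) → G.Adj v (a 3) → ¬ G.Adj v (c 3) → False :=
    fun x0 y0 z0 x1 y1 z1 x2 y2 z2 x3 y3 z3 => nB (all4 ⟨x0, y0, z0⟩ ⟨x1, y1, z1⟩ ⟨x2, y2, z2⟩ ⟨x3, y3, z3⟩)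
  have k2 : ¬ G.Adj v (a 0) → ¬ G.Adj v (b 0) → ¬ G.Adj v (c 0) → ¬ G.Adj v (a 1) → ¬ G.Adj v (b 1) → ¬ G.Adj v (c 1) → ¬ G.Adj v (a 2) → ¬ G.Adj v (b 2) → ¬ G.Adj v (c 2) → ¬ G.Adj v (a 3) → ¬ G.Adj v (b 3) → ¬ G.Adj v (c 3) → False :=
    fun x0 y0 z0 x1 y1 z1 x2 y2 z2 x3 y3 z3 => nC (all4 ⟨x0, y0, z0⟩ ⟨x1, y1, z1⟩ ⟨x2, y2, z2⟩ ⟨x3, y3, z3⟩)
  have k3 : ¬ G.Adj v (a 0) → ¬ G.Adj v (b 0) → G.Adj v (c 0) → ¬ G.Adj v (a 1) → ¬ G.Adj v (b 1) → G.Adj v (c 1) → ¬ G.Adj v (a 2) → ¬ G.Adj v (b 2) → G.Adj v (c 2) → ¬ G.Adj v (a 3) → ¬ G.Adj v (b 3) → G.Adj v (c 3) → False :=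
    fun x0 y0 z0 x1 y1 z1 x2 y2 z2 x3 y3 z3 => nD (all4 ⟨x0, y0, z0⟩ ⟨x1, y1, z1⟩ ⟨x2, y2, z2⟩ ⟨x3, y3, z3⟩)
  have k4 : G.Adj v (a 0) → G.Adj v (b 0) → False :=
    nS 0
  have k5 : G.Adj v (a 1) → G.Adj v (b 1) → False :=
    nS 1
  have k6 : G.Adj v (a 2) → G.Adj v (b 2) → False :=
    nS 2
  have k7 : G.Adj v (a 3) → G.Adj v (b 3) → False :=
    nS 3
  have t1 : (a 0) ≠ (a 1) := fun hc => eqa hc fa0c0 fa1c0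
  have t2 : (a 0) ≠ (c 2) := fun hc => eqa hc fa0b0 (ns fb0c2)
  have t3 : (b 0) ≠ (c 2) := fun hc => eqa hc fa0b0.symm (ns fa0c2)
  have t4 : (b 0) ≠ (b 3) := fun hc => eqa hc fb0c0 fb3c0
  have t5 : (c 0) ≠ (c 1) := fun hc => eqa hc fa0c0.symm (ns fa0c1)
  have t6 : (c 0) ≠ (a 2) := fun hc => eqa hc fa0c0.symm (ns fa0a2)
  have t7 : (c 0) ≠ (c 3) := fun hc => eqa hc fa0c0.symm (ns fa0c3)
  have t8 : (a 1) ≠ (c 2) := fun hc => eqa hc fa1b0 (ns fb0c2)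
  have t9 : (b 1) ≠ (b 2) := fun hc => eqa hc fb1c1 fb2c1
  have t10 : (c 1) ≠ (c 2) := fun hc => eqa hc fa1c1.symm (ns fa1c2)
  have t11 : (c 1) ≠ (b 3) := fun hc => eqa hc.symm fa0b3.symm (ns fa0c1)
  rcases Classical.em (G.Adj (a 0) v) with t12 | t12
  · have t13 : ¬ G.Adj (b 0) v := fun hc => k4 t12.symm hc.symm
    have t14 : ¬ G.Adj (c 0) v := fun hc => t13 (hD (a 0) (c 0) (b 0) v fa0c0 fa0b0 t12 fb0c0.symm hc (Ne.symm qvb0))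
    rcases Classical.em (G.Adj (b 1) v) with t15 | t15
    · have t16 : ¬ G.Adj (a 1) v := fun hc => k5 hc.symm t15.symm
      have t17 : ¬ G.Adj (c 1) v := fun hc => t16 (hD (b 1) (c 1) (a 1) v fb1c1 fa1b1.symm t15 fa1c1.symm hc (Ne.symm qva1))
      have t18 : ¬ G.Adj (b 2) v := fun hc => fb1b2 (hD (a 0) v (b 1) (b 2) t12 fa0b1 fa0b2 t15.symm hc.symm t9)
      exact hR (b 2) (b 0) (c 0) (c 1) (b 1) v fb0c0 fb1c1.symm t15 t17 (ns fb0b2) fb2c0 fb2c1 (ns fb1b2) t18 fb0c1 fb0b1 t13 fc0c1 (ns fb1c0) t14 (Ne.symm qvc1)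
    · rcases Classical.em (G.Adj (c 2) v) with t19 | t19
      · have t20 : ¬ G.Adj (b 2) v := fun hc => fa0c2 (hD (b 2) v (a 0) (c 2) hc fa0b2.symm fb2c2 t12.symm t19.symm t2)
        exact hR (b 1) (b 0) (c 0) (b 2) (c 2) v fb0c0 fb2c2 t19 t20 (ns fb0b1) fb1c0 fb1b2 fb1c2 t15 fb0b2 fb0c2 t13 (ns fb2c0) fc0c2 t14 (Ne.symm qvb2)
      · have t21 : ¬ G.Adj (b 2) v := fun hc => hR (b 1) (b 0) (c 0) (c 2) (b 2) v fb0c0 fb2c2.symm hc t19 (ns fb0b1) fb1c0 fb1c2 fb1b2 t15 fb0c2 fb0b2 t13 fc0c2 (ns fb2c0) t14 (Ne.symm qvc2)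
        have t22 : ¬ G.Adj (c 1) v := fun hc => hR (c 2) (b 0) (c 0) (b 1) (c 1) v fb0c0 fb1c1 hc t15 (ns fb0c2) (ns fc0c2) (ns fb1c2) (ns fc1c2) t19 fb0b1 fb0c1 t13 (ns fb1c0) fc0c1 t14 (Ne.symm qvb1)
        have t23 : G.Adj (a 1) v := Classical.byContradiction fun hc => hR (c 2) (a 1) (c 1) (c 0) (a 0) v fa1c1 fa0c0.symm t12 t14 (ns fa1c2) (ns fc1c2) (ns fc0c2) (ns fa0c2) t19 fa1c0 (ns fa0a1) hc (ns fc0c1) (ns fa0c1) t22 (Ne.symm qvc0)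
        have t24 : G.Adj (a 2) v := Classical.byContradiction fun hc => hR (c 0) (a 2) (c 2) (c 1) (a 1) v fa2c2 fa1c1.symm t23 t22 (ns fa2c0) fc0c2 fc0c1 (ns fa1c0) t14 fa2c1 (ns fa1a2) hc (ns fc1c2) (ns fa1c2) t19 (Ne.symm qvc1)
        have t25 : ¬ G.Adj (b 3) v := fun hc => fa0a1 (hD (b 3) v (a 0) (a 1) hc fa0b3.symm fa1b3.symm t12.symm t23.symm t1)
        have t26 : ¬ G.Adj (c 3) v := fun hc => hR (b 0) (b 1) (c 1) (b 3) (c 3) v fb1c1 fb3c3 hc t25 fb0b1 fb0c1 fb0b3 fb0c3 t13 fb1b3 fb1c3 t15 (ns fb3c1) fc1c3 t22 (Ne.symm qvb3)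
        have t27 : ¬ G.Adj (a 3) v := fun hc => k1 (ns t13) t12.symm (ns t14) (ns t15) t23.symm (ns t22) (ns t21) t24.symm (ns t19) (ns t25) hc.symm (ns t26)
        exact hR (c 0) (a 3) (c 3) (c 1) (a 1) v fa3c3 fa1c1.symm t23 t22 (ns fa3c0) fc0c3 fc0c1 (ns fa1c0) t14 fa3c1 (ns fa1a3) t27 (ns fc1c3) (ns fa1c3) t26 (Ne.symm qvc1)
  · rcases Classical.em (G.Adj (a 1) v) with t28 | t28
    · have t29 : ¬ G.Adj (b 1) v := fun hc => k5 t28.symm hc.symm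
      have t30 : ¬ G.Adj (c 1) v := fun hc => t29 (hD (a 1) (c 1) (b 1) v fa1c1 fa1b1 t28 fb1c1.symm hc (Ne.symm qvb1))
      rcases Classical.em (G.Adj (c 2) v) with t31 | t31
      · have t32 : ¬ G.Adj (b 2) v := fun hc => fa1c2 (hD (b 2) v (a 1) (c 2) hc fa1b2.symm fb2c2 t28.symm t31.symm t8)
        have t33 : G.Adj (c 0) v := Classical.byContradiction fun hc => hR (c 0) (b 1) (c 1) (b 2) (c 2) v fb1c1 fb2c2 t31 t32 (ns fb1c0) fc0c1 (ns fb2c0) fc0c2 hc fb1b2 fb1c2 t29 (ns fb2c1) fc1c2 t30 (Ne.symm qvb2)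
        have t34 : G.Adj (c 3) v := Classical.byContradiction fun hc => hR (c 3) (b 1) (c 1) (b 2) (c 2) v fb1c1 fb2c2 t31 t32 (ns fb1c3) (ns fc1c3) (ns fb2c3) (ns fc2c3) hc fb1b2 fb1c2 t29 (ns fb2c1) fc1c2 t30 (Ne.symm qvb2)
        have t35 : ¬ G.Adj (a 2) v := fun hc => t32 (hD (a 2) (c 2) (b 2) v fa2c2 fa2b2 hc fb2c2.symm t31 (Ne.symm qvb2))
        exact hR (c 1) (a 2) (b 2) (c 0) v (c 3) fa2b2 t33 t34.symm fc0c3 (ns fa2c1) (ns fb2c1) (ns fc0c1) t30 fc1c3 fa2c0 t35 fa2c3 fb2c0 t32 fb2c3 t7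
      · have t36 : G.Adj (a 2) v := Classical.byContradiction fun hc => hR (a 0) (a 2) (c 2) (c 1) (a 1) v fa2c2 fa1c1.symm t28 t30 fa0a2 fa0c2 fa0c1 fa0a1 t12 fa2c1 (ns fa1a2) hc (ns fc1c2) (ns fa1c2) t31 (Ne.symm qvc1)
        have t37 : G.Adj (c 0) v := Classical.byContradiction fun hc => hR (c 1) (a 0) (c 0) (c 2) (a 2) v fa0c0 fa2c2.symm t36 t31 (ns fa0c1) (ns fc0c1) fc1c2 (ns fa2c1) t30 fa0c2 fa0a2 t12 fc0c2 (ns fa2c0) hc (Ne.symm qvc2)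
        have t38 : G.Adj (b 0) v := Classical.byContradiction fun hc => hR (c 2) (b 1) (c 1) (b 0) (c 0) v fb1c1 fb0c0 t37 hc (ns fb1c2) (ns fc1c2) (ns fb0c2) (ns fc0c2) t31 (ns fb0b1) fb1c0 t29 (ns fb0c1) (ns fc0c1) t30 (Ne.symm qvb0)
        exact (ns fa2c0) (hD (b 0) v (c 0) (a 2) t38 fb0c0 fa2b0.symm t37.symm t36.symm t6)
    · rcases Classical.em (G.Adj (a 2) v) with t39 | t39
      · have t40 : ¬ G.Adj (b 2) v := fun hc => k6 t39.symm hc.symm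
        have t41 : ¬ G.Adj (c 2) v := fun hc => t40 (hD (a 2) (c 2) (b 2) v fa2c2 fa2b2 t39 fb2c2.symm hc (Ne.symm qvb2))
        have t42 : G.Adj (c 1) v := Classical.byContradiction fun hc => hR (a 0) (a 1) (c 1) (c 2) (a 2) v fa1c1 fa2c2.symm t39 t41 fa0a1 fa0c1 fa0c2 fa0a2 t12 fa1c2 fa1a2 t28 fc1c2 (ns fa2c1) hc (Ne.symm qvc2)
        have t43 : G.Adj (c 0) v := Classical.byContradiction fun hc => hR (a 1) (a 0) (c 0) (c 2) (a 2) v fa0c0 fa2c2.symm t39 t41 (ns fa0a1) fa1c0 fa1c2 fa1a2 t28 fa0c2 fa0a2 t12 fc0c2 (ns fa2c0) hc (Ne.symm qvc2)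
        have t44 : G.Adj (b 3) v := Classical.byContradiction fun hc => hR (b 3) (b 2) (c 2) (c 0) v (c 1) fb2c2 t43 t42.symm fc0c1 (ns fb2b3) fb3c2 fb3c0 hc fb3c1 fb2c0 t40 fb2c1 (ns fc0c2) t41 (ns fc1c2) t5
        have t45 : G.Adj (b 0) v := Classical.byContradiction fun hc => hR (b 0) (b 2) (c 2) (c 1) v (b 3) fb2c2 t42 t44.symm (ns fb3c1) fb0b2 fb0c2 fb0c1 hc fb0b3 fb2c1 t40 fb2b3 (ns fc1c2) t41 (ns fb3c2) t11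
        have t46 : G.Adj (b 1) v := Classical.byContradiction fun hc => hR (b 1) (b 2) (c 2) (b 0) v (b 3) fb2c2 t45 t44.symm fb0b3 fb1b2 fb1c2 (ns fb0b1) hc fb1b3 (ns fb0b2) t40 fb2b3 (ns fb0c2) t41 (ns fb3c2) t4
        exact t28 (hD (b 1) (c 1) (a 1) v fb1c1 fa1b1.symm t46 fa1c1.symm t42 (Ne.symm qva1))
      · rcases Classical.em (G.Adj (a 3) v) with t47 | t47
        · have t48 : ¬ G.Adj (b 3) v := fun hc => k7 t47.symm hc.symm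
          have t49 : ¬ G.Adj (c 3) v := fun hc => t48 (hD (a 3) (c 3) (b 3) v fa3c3 fa3b3 t47 fb3c3.symm hc (Ne.symm qvb3))
          have t50 : G.Adj (c 1) v := Classical.byContradiction fun hc => hR (a 0) (a 1) (c 1) (c 3) (a 3) v fa1c1 fa3c3.symm t47 t49 fa0a1 fa0c1 fa0c3 fa0a3 t12 fa1c3 fa1a3 t28 fc1c3 (ns fa3c1) hc (Ne.symm qvc3)
          have t51 : G.Adj (c 2) v := Classical.byContradiction fun hc => hR (a 0) (a 2) (c 2) (c 3) (a 3) v fa2c2 fa3c3.symm t47 t49 fa0a2 fa0c2 fa0c3 fa0a3 t12 fa2c3 fa2a3 t39 fc2c3 (ns fa3c2) hc (Ne.symm qvc3)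
          have t52 : G.Adj (b 0) v := Classical.byContradiction fun hc => hR (b 0) (b 3) (c 3) (c 1) v (c 2) fb3c3 t50 t51.symm fc1c2 fb0b3 fb0c3 fb0c1 hc fb0c2 fb3c1 t48 fb3c2 (ns fc1c3) t49 (ns fc2c3) t10
          have t53 : G.Adj (b 1) v := Classical.byContradiction fun hc => hR (b 1) (b 3) (c 3) (b 0) v (c 2) fb3c3 t52 t51.symm fb0c2 fb1b3 fb1c3 (ns fb0b1) hc fb1c2 (ns fb0b3) t48 fb3c2 (ns fb0c3) t49 (ns fc2c3) t3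
          exact t28 (hD (b 1) (c 1) (a 1) v fb1c1 fa1b1.symm t53 fa1c1.symm t50 (Ne.symm qva1))
        · rcases Classical.em (G.Adj (c 0) v) with t54 | t54
          · have t55 : ¬ G.Adj (b 0) v := fun hc => t12 (hD (b 0) (c 0) (a 0) v fb0c0 fa0b0.symm hc fa0c0.symm t54 (Ne.symm qva0))
            have t56 : G.Adj (c 2) v := Classical.byContradiction fun hc => hR (a 1) (a 2) (c 2) (a 0) (c 0) v fa2c2 fa0c0 t54 t12 fa1a2 fa1c2 (ns fa0a1) fa1c0 t28 (ns fa0a2) fa2c0 t39 (ns fa0c2) (ns fc0c2) hc (Ne.symm qva0)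
            have t57 : G.Adj (c 3) v := Classical.byContradiction fun hc => hR (a 1) (a 3) (c 3) (a 0) (c 0) v fa3c3 fa0c0 t54 t12 fa1a3 fa1c3 (ns fa0a1) fa1c0 t28 (ns fa0a3) fa3c0 t47 (ns fa0c3) (ns fc0c3) hc (Ne.symm qva0)
            have t58 : G.Adj (c 1) v := Classical.byContradiction fun hc => hR (a 2) (a 1) (c 1) (a 0) (c 0) v fa1c1 fa0c0 t54 t12 (ns fa1a2) fa2c1 (ns fa0a2) fa2c0 t39 (ns fa0a1) fa1c0 t28 (ns fa0c1) (ns fc0c1) hc (Ne.symm qva0)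
            have t59 : ¬ G.Adj (b 2) v := fun hc => t39 (hD (b 2) (c 2) (a 2) v fb2c2 fa2b2.symm hc fa2c2.symm t56 (Ne.symm qva2))
            have t60 : ¬ G.Adj (b 3) v := fun hc => t47 (hD (b 3) (c 3) (a 3) v fb3c3 fa3b3.symm hc fa3c3.symm t57 (Ne.symm qva3))
            have t61 : G.Adj (b 1) v := Classical.byContradiction fun hc => k3 (ns t12) (ns t55) t54.symm (ns t28) (ns hc) t58.symm (ns t39) (ns t59) t56.symm (ns t47) (ns t60) t57.symm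
            exact t28 (hD (b 1) (c 1) (a 1) v fb1c1 fa1b1.symm t61 fa1c1.symm t58 (Ne.symm qva1))
          · have t62 : ¬ G.Adj (c 2) v := fun hc => hR (a 1) (a 0) (c 0) (a 2) (c 2) v fa0c0 fa2c2 hc t39 (ns fa0a1) fa1c0 fa1a2 fa1c2 t28 fa0a2 fa0c2 t12 (ns fa2c0) fc0c2 t54 (Ne.symm qva2)
            have t63 : ¬ G.Adj (c 3) v := fun hc => hR (a 1) (a 0) (c 0) (a 3) (c 3) v fa0c0 fa3c3 hc t47 (ns fa0a1) fa1c0 fa1a3 fa1c3 t28 fa0a3 fa0c3 t12 (ns fa3c0) fc0c3 t54 (Ne.symm qva3)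
            have t64 : ¬ G.Adj (c 1) v := fun hc => hR (a 2) (a 0) (c 0) (a 1) (c 1) v fa0c0 fa1c1 hc t28 (ns fa0a2) fa2c0 (ns fa1a2) fa2c1 t39 fa0a1 fa0c1 t12 (ns fa1c0) fc0c1 t54 (Ne.symm qva1)
            rcases Classical.em (G.Adj (b 0) v) with t65 | t65
            · have t66 : G.Adj (b 2) v := Classical.byContradiction fun hc => hR (c 1) (b 2) (c 2) (c 0) (b 0) v fb2c2 fb0c0.symm t65 t54 (ns fb2c1) fc1c2 (ns fc0c1) (ns fb0c1) t64 fb2c0 (ns fb0b2) hc (ns fc0c2) (ns fb0c2) t62 (Ne.symm qvc0)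
              have t67 : G.Adj (b 3) v := Classical.byContradiction fun hc => hR (c 1) (b 3) (c 3) (c 0) (b 0) v fb3c3 fb0c0.symm t65 t54 (ns fb3c1) fc1c3 (ns fc0c1) (ns fb0c1) t64 fb3c0 (ns fb0b3) hc (ns fc0c3) (ns fb0c3) t63 (Ne.symm qvc0)
              have t68 : G.Adj (b 1) v := Classical.byContradiction fun hc => hR (c 2) (b 1) (c 1) (c 0) (b 0) v fb1c1 fb0c0.symm t65 t54 (ns fb1c2) (ns fc1c2) (ns fc0c2) (ns fb0c2) t62 fb1c0 (ns fb0b1) hc (ns fc0c1) (ns fb0c1) t64 (Ne.symm qvc0)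
              exact k0 (ns t12) t65.symm (ns t54) (ns t28) t68.symm (ns t64) (ns t39) t66.symm (ns t62) (ns t47) t67.symm (ns t63)
            · have t69 : ¬ G.Adj (b 2) v := fun hc => hR (c 1) (b 0) (c 0) (c 2) (b 2) v fb0c0 fb2c2.symm hc t62 (ns fb0c1) (ns fc0c1) fc1c2 (ns fb2c1) t64 fb0c2 fb0b2 t65 fc0c2 (ns fb2c0) t54 (Ne.symm qvc2)
              have t70 : ¬ G.Adj (b 3) v := fun hc => hR (c 1) (b 0) (c 0) (c 3) (b 3) v fb0c0 fb3c3.symm hc t63 (ns fb0c1) (ns fc0c1) fc1c3 (ns fb3c1) t64 fb0c3 fb0b3 t65 fc0c3 (ns fb3c0) t54 (Ne.symm qvc3)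
              have t71 : ¬ G.Adj (b 1) v := fun hc => hR (b 2) (b 0) (c 0) (c 1) (b 1) v fb0c0 fb1c1.symm hc t64 (ns fb0b2) fb2c0 fb2c1 (ns fb1b2) t69 fb0c1 fb0b1 t65 fc0c1 (ns fb1c0) t54 (Ne.symm qvc1)
              exact k2 (ns t12) (ns t65) (ns t54) (ns t28) (ns t71) (ns t64) (ns t39) (ns t69) (ns t62) (ns t47) (ns t70) (ns t63)

lemma ab_small0 {G : SimpleGraph V} (hD : DF G) (hR : RF G) {a b c : Fin 4 → V} (h : AB4 G a b c)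
    {u v : V}
    (ou : Off a b c u) (ov : Off a b c v) (a0 : G.Adj u (a 0))
    (a1 : G.Adj u (b 0)) (a2 : G.Adj v (a 0)) (a3 : G.Adj v (b 0))
    (d0 : u ≠ v)
    : False := by
  have fa0b0 : G.Adj (a 0) (b 0) := h.ab 0 0
  have fa0c0 : G.Adj (a 0) (c 0) := (h.ac 0 0).2 rfl
  have fa0c1 : ¬ G.Adj (a 0) (c 1) := mt (h.ac 0 1).1 (by decide)
  have fa0a2 : ¬ G.Adj (a 0) (a 2) := h.aa 0 2
  have fa0b2 : G.Adj (a 0) (b 2) := h.ab 0 2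
  have fa0a3 : ¬ G.Adj (a 0) (a 3) := h.aa 0 3
  have fb0c0 : G.Adj (b 0) (c 0) := (h.bc 0 0).2 rfl
  have fb0c1 : ¬ G.Adj (b 0) (c 1) := mt (h.bc 0 1).1 (by decide)
  have fa2b0 : G.Adj (a 2) (b 0) := h.ab 2 0
  have fb0b2 : ¬ G.Adj (b 0) (b 2) := h.bb 0 2
  have fa3b0 : G.Adj (a 3) (b 0) := h.ab 3 0
  have fc0c1 : ¬ G.Adj (c 0) (c 1) := h.cc 0 1
  have fa2c0 : ¬ G.Adj (a 2) (c 0) := mt (h.ac 2 0).1 (by decide)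
  have fb2c0 : ¬ G.Adj (b 2) (c 0) := mt (h.bc 2 0).1 (by decide)
  have fa3c0 : ¬ G.Adj (a 3) (c 0) := mt (h.ac 3 0).1 (by decide)
  have fa2c1 : ¬ G.Adj (a 2) (c 1) := mt (h.ac 2 1).1 (by decide)
  have fb2c1 : ¬ G.Adj (b 2) (c 1) := mt (h.bc 2 1).1 (by decide)
  have fa3c1 : ¬ G.Adj (a 3) (c 1) := mt (h.ac 3 1).1 (by decide)
  have fa2b2 : G.Adj (a 2) (b 2) := h.ab 2 2
  have fa2c2 : G.Adj (a 2) (c 2) := (h.ac 2 2).2 rfl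
  have fa2a3 : ¬ G.Adj (a 2) (a 3) := h.aa 2 3
  have fa3b2 : G.Adj (a 3) (b 2) := h.ab 3 2
  have fa3c2 : ¬ G.Adj (a 3) (c 2) := mt (h.ac 3 2).1 (by decide)
  have quc0 := (ou 0).2.2
  have qvc0 := (ov 0).2.2
  have t1 : (a 0) ≠ (c 1) := fun hc => eqa hc fa0b0 (ns fb0c1)
  have t2 : (a 0) ≠ (a 2) := fun hc => eqa hc fa0c0 fa2c0
  have t3 : (a 0) ≠ (a 3) := fun hc => eqa hc fa0c0 fa3c0
  have t4 : (b 0) ≠ (b 2) := fun hc => eqa hc fb0c0 fb2c0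
  have t5 : (a 2) ≠ (a 3) := fun hc => eqa hc fa2c2 fa3c2
  have t6 : G.Adj (c 0) u := Classical.byContradiction fun hc => hc (hD (a 0) (b 0) (c 0) u fa0b0 fa0c0 a0.symm fb0c0 a1.symm (Ne.symm quc0))
  have t7 : G.Adj (c 0) v := Classical.byContradiction fun hc => hc (hD (a 0) (b 0) (c 0) v fa0b0 fa0c0 a2.symm fb0c0 a3.symm (Ne.symm qvc0))
  have t8 : G.Adj u v := Classical.byContradiction fun hc => hc (hD (a 0) (b 0) u v fa0b0 a0.symm a2.symm a1.symm a3.symm d0)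
  have t9 : ¬ G.Adj (b 2) u := fun hc => fb0b2 (hD (a 0) u (b 0) (b 2) a0.symm fa0b0 fa0b2 a1 hc.symm t4)
  have t10 : ¬ G.Adj (b 2) v := fun hc => fb0b2 (hD (a 0) v (b 0) (b 2) a2.symm fa0b0 fa0b2 a3 hc.symm t4)
  have t11 : ¬ G.Adj (a 2) u := fun hc => fa0a2 (hD (b 0) u (a 0) (a 2) a1.symm fa0b0.symm fa2b0.symm a0 hc.symm t2)
  have t12 : ¬ G.Adj (a 3) u := fun hc => fa0a3 (hD (b 0) u (a 0) (a 3) a1.symm fa0b0.symm fa3b0.symm a0 hc.symm t3)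
  have t13 : ¬ G.Adj (a 2) v := fun hc => fa0a2 (hD (b 0) v (a 0) (a 2) a3.symm fa0b0.symm fa2b0.symm a2 hc.symm t2)
  have t14 : ¬ G.Adj (a 3) v := fun hc => fa0a3 (hD (b 0) v (a 0) (a 3) a3.symm fa0b0.symm fa3b0.symm a2 hc.symm t3)
  have t15 : G.Adj (c 1) u := Classical.byContradiction fun hc => hR (c 1) (c 0) u (a 2) (b 2) (a 3) t6 fa2b2 fa3b2.symm fa2a3 (ns fc0c1) hc (ns fa2c1) (ns fb2c1) (ns fa3c1) (ns fa2c0) (ns fb2c0) (ns fa3c0) (ns t11) (ns t9) (ns t12) t5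
  have t16 : G.Adj (c 1) v := Classical.byContradiction fun hc => hR (c 1) (c 0) v (a 2) (b 2) (a 3) t7 fa2b2 fa3b2.symm fa2a3 (ns fc0c1) hc (ns fa2c1) (ns fb2c1) (ns fa3c1) (ns fa2c0) (ns fb2c0) (ns fa3c0) (ns t13) (ns t10) (ns t14) t5
  exact fa0c1 (hD u v (a 0) (c 1) t8 a0 t15.symm a2 t16.symm t1)

lemma ab_small1 {G : SimpleGraph V} (hD : DF G) (hR : RF G) {a b c : Fin 4 → V} (h : AB4 G a b c)
    {u v : V}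
    (ou : Off a b c u) (ov : Off a b c v) (a0 : G.Adj u (a 1))
    (a1 : G.Adj u (b 1)) (a2 : G.Adj v (a 1)) (a3 : G.Adj v (b 1))
    (d0 : u ≠ v)
    : False := by
  have fa0c0 : G.Adj (a 0) (c 0) := (h.ac 0 0).2 rfl
  have fa0a1 : ¬ G.Adj (a 0) (a 1) := h.aa 0 1
  have fa1c0 : ¬ G.Adj (a 1) (c 0) := mt (h.ac 1 0).1 (by decide)
  have fc0c1 : ¬ G.Adj (c 0) (c 1) := h.cc 0 1
  have fa2c0 : ¬ G.Adj (a 2) (c 0) := mt (h.ac 2 0).1 (by decide)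
  have fb2c0 : ¬ G.Adj (b 2) (c 0) := mt (h.bc 2 0).1 (by decide)
  have fa3c0 : ¬ G.Adj (a 3) (c 0) := mt (h.ac 3 0).1 (by decide)
  have fa1b1 : G.Adj (a 1) (b 1) := h.ab 1 1
  have fa1c1 : G.Adj (a 1) (c 1) := (h.ac 1 1).2 rfl
  have fa1a2 : ¬ G.Adj (a 1) (a 2) := h.aa 1 2
  have fa1b2 : G.Adj (a 1) (b 2) := h.ab 1 2
  have fa1a3 : ¬ G.Adj (a 1) (a 3) := h.aa 1 3
  have fb1c1 : G.Adj (b 1) (c 1) := (h.bc 1 1).2 rfl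
  have fa2b1 : G.Adj (a 2) (b 1) := h.ab 2 1
  have fb1b2 : ¬ G.Adj (b 1) (b 2) := h.bb 1 2
  have fa3b1 : G.Adj (a 3) (b 1) := h.ab 3 1
  have fa2c1 : ¬ G.Adj (a 2) (c 1) := mt (h.ac 2 1).1 (by decide)
  have fb2c1 : ¬ G.Adj (b 2) (c 1) := mt (h.bc 2 1).1 (by decide)
  have fa3c1 : ¬ G.Adj (a 3) (c 1) := mt (h.ac 3 1).1 (by decide)
  have fa2b2 : G.Adj (a 2) (b 2) := h.ab 2 2
  have fa2c2 : G.Adj (a 2) (c 2) := (h.ac 2 2).2 rfl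
  have fa2a3 : ¬ G.Adj (a 2) (a 3) := h.aa 2 3
  have fa3b2 : G.Adj (a 3) (b 2) := h.ab 3 2
  have fa3c2 : ¬ G.Adj (a 3) (c 2) := mt (h.ac 3 2).1 (by decide)
  have quc1 := (ou 1).2.2
  have qvc1 := (ov 1).2.2
  have t1 : (c 0) ≠ (a 1) := fun hc => eqa hc fa0c0.symm (ns fa0a1)
  have t2 : (a 1) ≠ (a 2) := fun hc => eqa hc fa1c1 fa2c1
  have t3 : (a 1) ≠ (a 3) := fun hc => eqa hc fa1c1 fa3c1
  have t4 : (b 1) ≠ (b 2) := fun hc => eqa hc fb1c1 fb2c1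
  have t5 : (a 2) ≠ (a 3) := fun hc => eqa hc fa2c2 fa3c2
  have t6 : G.Adj (c 1) u := Classical.byContradiction fun hc => hc (hD (a 1) (b 1) (c 1) u fa1b1 fa1c1 a0.symm fb1c1 a1.symm (Ne.symm quc1))
  have t7 : G.Adj (c 1) v := Classical.byContradiction fun hc => hc (hD (a 1) (b 1) (c 1) v fa1b1 fa1c1 a2.symm fb1c1 a3.symm (Ne.symm qvc1))
  have t8 : G.Adj u v := Classical.byContradiction fun hc => hc (hD (a 1) (b 1) u v fa1b1 a0.symm a2.symm a1.symm a3.symm d0)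
  have t9 : ¬ G.Adj (b 2) u := fun hc => fb1b2 (hD (a 1) u (b 1) (b 2) a0.symm fa1b1 fa1b2 a1 hc.symm t4)
  have t10 : ¬ G.Adj (b 2) v := fun hc => fb1b2 (hD (a 1) v (b 1) (b 2) a2.symm fa1b1 fa1b2 a3 hc.symm t4)
  have t11 : ¬ G.Adj (a 2) u := fun hc => fa1a2 (hD (b 1) u (a 1) (a 2) a1.symm fa1b1.symm fa2b1.symm a0 hc.symm t2)
  have t12 : ¬ G.Adj (a 3) u := fun hc => fa1a3 (hD (b 1) u (a 1) (a 3) a1.symm fa1b1.symm fa3b1.symm a0 hc.symm t3)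
  have t13 : ¬ G.Adj (a 2) v := fun hc => fa1a2 (hD (b 1) v (a 1) (a 2) a3.symm fa1b1.symm fa2b1.symm a2 hc.symm t2)
  have t14 : ¬ G.Adj (a 3) v := fun hc => fa1a3 (hD (b 1) v (a 1) (a 3) a3.symm fa1b1.symm fa3b1.symm a2 hc.symm t3)
  have t15 : G.Adj (c 0) u := Classical.byContradiction fun hc => hR (c 0) (c 1) u (a 2) (b 2) (a 3) t6 fa2b2 fa3b2.symm fa2a3 fc0c1 hc (ns fa2c0) (ns fb2c0) (ns fa3c0) (ns fa2c1) (ns fb2c1) (ns fa3c1) (ns t11) (ns t9) (ns t12) t5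
  have t16 : G.Adj (c 0) v := Classical.byContradiction fun hc => hR (c 0) (c 1) v (a 2) (b 2) (a 3) t7 fa2b2 fa3b2.symm fa2a3 fc0c1 hc (ns fa2c0) (ns fb2c0) (ns fa3c0) (ns fa2c1) (ns fb2c1) (ns fa3c1) (ns t13) (ns t10) (ns t14) t5
  exact (ns fa1c0) (hD u v (c 0) (a 1) t8 t15.symm a0 t16.symm a2 t1)

lemma ab_small2 {G : SimpleGraph V} (hD : DF G) (hR : RF G) {a b c : Fin 4 → V} (h : AB4 G a b c)
    {u v : V}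
    (ou : Off a b c u) (ov : Off a b c v) (a0 : G.Adj u (a 2))
    (a1 : G.Adj u (b 2)) (a2 : G.Adj v (a 2)) (a3 : G.Adj v (b 2))
    (d0 : u ≠ v)
    : False := by
  have fa0b0 : G.Adj (a 0) (b 0) := h.ab 0 0
  have fa0c0 : G.Adj (a 0) (c 0) := (h.ac 0 0).2 rfl
  have fa0c1 : ¬ G.Adj (a 0) (c 1) := mt (h.ac 0 1).1 (by decide)
  have fa0a2 : ¬ G.Adj (a 0) (a 2) := h.aa 0 2
  have fa0b2 : G.Adj (a 0) (b 2) := h.ab 0 2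
  have fa0c2 : ¬ G.Adj (a 0) (c 2) := mt (h.ac 0 2).1 (by decide)
  have fa0c3 : ¬ G.Adj (a 0) (c 3) := mt (h.ac 0 3).1 (by decide)
  have fb0c0 : G.Adj (b 0) (c 0) := (h.bc 0 0).2 rfl
  have fb0c1 : ¬ G.Adj (b 0) (c 1) := mt (h.bc 0 1).1 (by decide)
  have fa2b0 : G.Adj (a 2) (b 0) := h.ab 2 0
  have fb0b2 : ¬ G.Adj (b 0) (b 2) := h.bb 0 2
  have fb0c2 : ¬ G.Adj (b 0) (c 2) := mt (h.bc 0 2).1 (by decide)
  have fb0c3 : ¬ G.Adj (b 0) (c 3) := mt (h.bc 0 3).1 (by decide)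
  have fa1c0 : ¬ G.Adj (a 1) (c 0) := mt (h.ac 1 0).1 (by decide)
  have fb1c0 : ¬ G.Adj (b 1) (c 0) := mt (h.bc 1 0).1 (by decide)
  have fc0c1 : ¬ G.Adj (c 0) (c 1) := h.cc 0 1
  have fa2c0 : ¬ G.Adj (a 2) (c 0) := mt (h.ac 2 0).1 (by decide)
  have fb2c0 : ¬ G.Adj (b 2) (c 0) := mt (h.bc 2 0).1 (by decide)
  have fc0c2 : ¬ G.Adj (c 0) (c 2) := h.cc 0 2
  have fa3c0 : ¬ G.Adj (a 3) (c 0) := mt (h.ac 3 0).1 (by decide)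
  have fc0c3 : ¬ G.Adj (c 0) (c 3) := h.cc 0 3
  have fa1b1 : G.Adj (a 1) (b 1) := h.ab 1 1
  have fa1c1 : G.Adj (a 1) (c 1) := (h.ac 1 1).2 rfl
  have fa1a2 : ¬ G.Adj (a 1) (a 2) := h.aa 1 2
  have fa1b2 : G.Adj (a 1) (b 2) := h.ab 1 2
  have fa1c2 : ¬ G.Adj (a 1) (c 2) := mt (h.ac 1 2).1 (by decide)
  have fa1a3 : ¬ G.Adj (a 1) (a 3) := h.aa 1 3
  have fa1c3 : ¬ G.Adj (a 1) (c 3) := mt (h.ac 1 3).1 (by decide)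
  have fb1c1 : G.Adj (b 1) (c 1) := (h.bc 1 1).2 rfl
  have fa2b1 : G.Adj (a 2) (b 1) := h.ab 2 1
  have fb1b2 : ¬ G.Adj (b 1) (b 2) := h.bb 1 2
  have fb1c2 : ¬ G.Adj (b 1) (c 2) := mt (h.bc 1 2).1 (by decide)
  have fa3b1 : G.Adj (a 3) (b 1) := h.ab 3 1
  have fa2c1 : ¬ G.Adj (a 2) (c 1) := mt (h.ac 2 1).1 (by decide)
  have fb2c1 : ¬ G.Adj (b 2) (c 1) := mt (h.bc 2 1).1 (by decide)
  have fc1c2 : ¬ G.Adj (c 1) (c 2) := h.cc 1 2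
  have fa3c1 : ¬ G.Adj (a 3) (c 1) := mt (h.ac 3 1).1 (by decide)
  have fc1c3 : ¬ G.Adj (c 1) (c 3) := h.cc 1 3
  have fa2b2 : G.Adj (a 2) (b 2) := h.ab 2 2
  have fa2c2 : G.Adj (a 2) (c 2) := (h.ac 2 2).2 rfl
  have fa2a3 : ¬ G.Adj (a 2) (a 3) := h.aa 2 3
  have fa2c3 : ¬ G.Adj (a 2) (c 3) := mt (h.ac 2 3).1 (by decide)
  have fb2c2 : G.Adj (b 2) (c 2) := (h.bc 2 2).2 rfl
  have fa3b2 : G.Adj (a 3) (b 2) := h.ab 3 2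
  have fa3c2 : ¬ G.Adj (a 3) (c 2) := mt (h.ac 3 2).1 (by decide)
  have fc2c3 : ¬ G.Adj (c 2) (c 3) := h.cc 2 3
  have fa3c3 : G.Adj (a 3) (c 3) := (h.ac 3 3).2 rfl
  have quc2 := (ou 2).2.2
  have qvc2 := (ov 2).2.2
  have t1 : (a 0) ≠ (a 2) := fun hc => eqa hc fa0c0 fa2c0
  have t2 : (b 0) ≠ (b 2) := fun hc => eqa hc fb0c0 fb2c0
  have t3 : (c 0) ≠ (c 1) := fun hc => eqa hc fa0c0.symm (ns fa0c1)
  have t4 : (c 0) ≠ (c 2) := fun hc => eqa hc fa0c0.symm (ns fa0c2)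
  have t5 : (a 1) ≠ (a 2) := fun hc => eqa hc fa1c1 fa2c1
  have t6 : (a 1) ≠ (a 3) := fun hc => eqa hc fa1c1 fa3c1
  have t7 : (b 1) ≠ (b 2) := fun hc => eqa hc fb1c1 fb2c1
  have t8 : (a 2) ≠ (a 3) := fun hc => eqa hc fa2c2 fa3c2
  have t9 : (c 2) ≠ (c 3) := fun hc => eqa hc fa2c2.symm (ns fa2c3)
  have t10 : G.Adj (c 2) u := Classical.byContradiction fun hc => hc (hD (a 2) (b 2) (c 2) u fa2b2 fa2c2 a0.symm fb2c2 a1.symm (Ne.symm quc2))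
  have t11 : G.Adj (c 2) v := Classical.byContradiction fun hc => hc (hD (a 2) (b 2) (c 2) v fa2b2 fa2c2 a2.symm fb2c2 a3.symm (Ne.symm qvc2))
  have t12 : G.Adj u v := Classical.byContradiction fun hc => hc (hD (a 2) (b 2) u v fa2b2 a0.symm a2.symm a1.symm a3.symm d0)
  have t13 : ¬ G.Adj (b 0) u := fun hc => fb0b2 (hD (a 2) u (b 0) (b 2) a0.symm fa2b0 fa2b2 hc.symm a1 t2)
  have t14 : ¬ G.Adj (b 1) u := fun hc => fb1b2 (hD (a 2) u (b 1) (b 2) a0.symm fa2b1 fa2b2 hc.symm a1 t7)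
  have t15 : ¬ G.Adj (b 0) v := fun hc => fb0b2 (hD (a 2) v (b 0) (b 2) a2.symm fa2b0 fa2b2 hc.symm a3 t2)
  have t16 : ¬ G.Adj (b 1) v := fun hc => fb1b2 (hD (a 2) v (b 1) (b 2) a2.symm fa2b1 fa2b2 hc.symm a3 t7)
  have t17 : ¬ G.Adj (a 0) u := fun hc => fa0a2 (hD (b 2) u (a 0) (a 2) a1.symm fa0b2.symm fa2b2.symm hc.symm a0 t1)
  have t18 : ¬ G.Adj (a 1) u := fun hc => fa1a2 (hD (b 2) u (a 1) (a 2) a1.symm fa1b2.symm fa2b2.symm hc.symm a0 t5)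
  have t19 : ¬ G.Adj (a 3) u := fun hc => fa2a3 (hD (b 2) u (a 2) (a 3) a1.symm fa2b2.symm fa3b2.symm a0 hc.symm t8)
  have t20 : ¬ G.Adj (a 0) v := fun hc => fa0a2 (hD (b 2) v (a 0) (a 2) a3.symm fa0b2.symm fa2b2.symm hc.symm a2 t1)
  have t21 : ¬ G.Adj (a 1) v := fun hc => fa1a2 (hD (b 2) v (a 1) (a 2) a3.symm fa1b2.symm fa2b2.symm hc.symm a2 t5)
  have t22 : ¬ G.Adj (a 3) v := fun hc => fa2a3 (hD (b 2) v (a 2) (a 3) a3.symm fa2b2.symm fa3b2.symm a2 hc.symm t8)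
  have t23 : G.Adj (c 0) u := Classical.byContradiction fun hc => hR (c 0) (c 2) u (a 1) (b 1) (a 3) t10 fa1b1 fa3b1.symm fa1a3 fc0c2 hc (ns fa1c0) (ns fb1c0) (ns fa3c0) (ns fa1c2) (ns fb1c2) (ns fa3c2) (ns t18) (ns t14) (ns t19) t6
  have t24 : G.Adj (c 0) v := Classical.byContradiction fun hc => hR (c 0) (c 2) v (a 1) (b 1) (a 3) t11 fa1b1 fa3b1.symm fa1a3 fc0c2 hc (ns fa1c0) (ns fb1c0) (ns fa3c0) (ns fa1c2) (ns fb1c2) (ns fa3c2) (ns t21) (ns t16) (ns t22) t6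
  have t25 : G.Adj (c 3) u := Classical.byContradiction fun hc => hR (a 1) (a 3) (c 3) (c 0) u (c 2) fa3c3 t23 t10.symm fc0c2 fa1a3 fa1c3 fa1c0 t18 fa1c2 fa3c0 t19 fa3c2 (ns fc0c3) hc (ns fc2c3) t4
  have t26 : G.Adj (c 3) v := Classical.byContradiction fun hc => hR (a 1) (a 3) (c 3) (c 0) v (c 2) fa3c3 t24 t11.symm fc0c2 fa1a3 fa1c3 fa1c0 t21 fa1c2 fa3c0 t22 fa3c2 (ns fc0c3) hc (ns fc2c3) t4
  have t27 : G.Adj (c 1) u := Classical.byContradiction fun hc => hR (c 1) (a 0) (b 0) (c 2) u (c 3) fa0b0 t10 t25.symm fc2c3 (ns fa0c1) (ns fb0c1) fc1c2 hc fc1c3 fa0c2 t17 fa0c3 fb0c2 t13 fb0c3 t9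
  have t28 : G.Adj (c 1) v := Classical.byContradiction fun hc => hR (c 1) (a 0) (b 0) (c 2) v (c 3) fa0b0 t11 t26.symm fc2c3 (ns fa0c1) (ns fb0c1) fc1c2 hc fc1c3 fa0c2 t20 fa0c3 fb0c2 t15 fb0c3 t9
  exact fc0c1 (hD u v (c 0) (c 1) t12 t23.symm t27.symm t24.symm t28.symm t3)

lemma ab_small3 {G : SimpleGraph V} (hD : DF G) (hR : RF G) {a b c : Fin 4 → V} (h : AB4 G a b c)
    {u v : V}
    (ou : Off a b c u) (ov : Off a b c v) (a0 : G.Adj u (a 3))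
    (a1 : G.Adj u (b 3)) (a2 : G.Adj v (a 3)) (a3 : G.Adj v (b 3))
    (d0 : u ≠ v)
    : False := by
  have fa0b0 : G.Adj (a 0) (b 0) := h.ab 0 0
  have fa0c0 : G.Adj (a 0) (c 0) := (h.ac 0 0).2 rfl
  have fa0c1 : ¬ G.Adj (a 0) (c 1) := mt (h.ac 0 1).1 (by decide)
  have fa0c2 : ¬ G.Adj (a 0) (c 2) := mt (h.ac 0 2).1 (by decide)
  have fa0a3 : ¬ G.Adj (a 0) (a 3) := h.aa 0 3
  have fa0b3 : G.Adj (a 0) (b 3) := h.ab 0 3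
  have fa0c3 : ¬ G.Adj (a 0) (c 3) := mt (h.ac 0 3).1 (by decide)
  have fb0c0 : G.Adj (b 0) (c 0) := (h.bc 0 0).2 rfl
  have fb0c1 : ¬ G.Adj (b 0) (c 1) := mt (h.bc 0 1).1 (by decide)
  have fb0c2 : ¬ G.Adj (b 0) (c 2) := mt (h.bc 0 2).1 (by decide)
  have fa3b0 : G.Adj (a 3) (b 0) := h.ab 3 0
  have fb0b3 : ¬ G.Adj (b 0) (b 3) := h.bb 0 3
  have fb0c3 : ¬ G.Adj (b 0) (c 3) := mt (h.bc 0 3).1 (by decide)
  have fa1c0 : ¬ G.Adj (a 1) (c 0) := mt (h.ac 1 0).1 (by decide)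
  have fb1c0 : ¬ G.Adj (b 1) (c 0) := mt (h.bc 1 0).1 (by decide)
  have fc0c1 : ¬ G.Adj (c 0) (c 1) := h.cc 0 1
  have fa2c0 : ¬ G.Adj (a 2) (c 0) := mt (h.ac 2 0).1 (by decide)
  have fc0c2 : ¬ G.Adj (c 0) (c 2) := h.cc 0 2
  have fa3c0 : ¬ G.Adj (a 3) (c 0) := mt (h.ac 3 0).1 (by decide)
  have fb3c0 : ¬ G.Adj (b 3) (c 0) := mt (h.bc 3 0).1 (by decide)
  have fc0c3 : ¬ G.Adj (c 0) (c 3) := h.cc 0 3
  have fa1b1 : G.Adj (a 1) (b 1) := h.ab 1 1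
  have fa1c1 : G.Adj (a 1) (c 1) := (h.ac 1 1).2 rfl
  have fa1a2 : ¬ G.Adj (a 1) (a 2) := h.aa 1 2
  have fa1c2 : ¬ G.Adj (a 1) (c 2) := mt (h.ac 1 2).1 (by decide)
  have fa1a3 : ¬ G.Adj (a 1) (a 3) := h.aa 1 3
  have fa1b3 : G.Adj (a 1) (b 3) := h.ab 1 3
  have fa1c3 : ¬ G.Adj (a 1) (c 3) := mt (h.ac 1 3).1 (by decide)
  have fb1c1 : G.Adj (b 1) (c 1) := (h.bc 1 1).2 rfl
  have fa2b1 : G.Adj (a 2) (b 1) := h.ab 2 1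
  have fa3b1 : G.Adj (a 3) (b 1) := h.ab 3 1
  have fb1b3 : ¬ G.Adj (b 1) (b 3) := h.bb 1 3
  have fb1c3 : ¬ G.Adj (b 1) (c 3) := mt (h.bc 1 3).1 (by decide)
  have fa2c1 : ¬ G.Adj (a 2) (c 1) := mt (h.ac 2 1).1 (by decide)
  have fc1c2 : ¬ G.Adj (c 1) (c 2) := h.cc 1 2
  have fa3c1 : ¬ G.Adj (a 3) (c 1) := mt (h.ac 3 1).1 (by decide)
  have fb3c1 : ¬ G.Adj (b 3) (c 1) := mt (h.bc 3 1).1 (by decide)
  have fc1c3 : ¬ G.Adj (c 1) (c 3) := h.cc 1 3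
  have fa2c2 : G.Adj (a 2) (c 2) := (h.ac 2 2).2 rfl
  have fa2a3 : ¬ G.Adj (a 2) (a 3) := h.aa 2 3
  have fa2b3 : G.Adj (a 2) (b 3) := h.ab 2 3
  have fa2c3 : ¬ G.Adj (a 2) (c 3) := mt (h.ac 2 3).1 (by decide)
  have fa3c2 : ¬ G.Adj (a 3) (c 2) := mt (h.ac 3 2).1 (by decide)
  have fc2c3 : ¬ G.Adj (c 2) (c 3) := h.cc 2 3
  have fa3b3 : G.Adj (a 3) (b 3) := h.ab 3 3
  have fa3c3 : G.Adj (a 3) (c 3) := (h.ac 3 3).2 rfl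
  have fb3c3 : G.Adj (b 3) (c 3) := (h.bc 3 3).2 rfl
  have quc3 := (ou 3).2.2
  have qvc3 := (ov 3).2.2
  have t1 : (a 0) ≠ (a 3) := fun hc => eqa hc fa0c0 fa3c0
  have t2 : (b 0) ≠ (b 3) := fun hc => eqa hc fb0c0 fb3c0
  have t3 : (c 0) ≠ (c 1) := fun hc => eqa hc fa0c0.symm (ns fa0c1)
  have t4 : (c 0) ≠ (c 3) := fun hc => eqa hc fa0c0.symm (ns fa0c3)
  have t5 : (a 1) ≠ (a 2) := fun hc => eqa hc fa1c1 fa2c1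
  have t6 : (a 1) ≠ (a 3) := fun hc => eqa hc fa1c1 fa3c1
  have t7 : (b 1) ≠ (b 3) := fun hc => eqa hc fb1c1 fb3c1
  have t8 : (a 2) ≠ (a 3) := fun hc => eqa hc fa2c2 fa3c2
  have t9 : (c 2) ≠ (c 3) := fun hc => eqa hc fa2c2.symm (ns fa2c3)
  have t10 : G.Adj (c 3) u := Classical.byContradiction fun hc => hc (hD (a 3) (b 3) (c 3) u fa3b3 fa3c3 a0.symm fb3c3 a1.symm (Ne.symm quc3))
  have t11 : G.Adj (c 3) v := Classical.byContradiction fun hc => hc (hD (a 3) (b 3) (c 3) v fa3b3 fa3c3 a2.symm fb3c3 a3.symm (Ne.symm qvc3))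
  have t12 : G.Adj u v := Classical.byContradiction fun hc => hc (hD (a 3) (b 3) u v fa3b3 a0.symm a2.symm a1.symm a3.symm d0)
  have t13 : ¬ G.Adj (b 0) u := fun hc => fb0b3 (hD (a 3) u (b 0) (b 3) a0.symm fa3b0 fa3b3 hc.symm a1 t2)
  have t14 : ¬ G.Adj (b 1) u := fun hc => fb1b3 (hD (a 3) u (b 1) (b 3) a0.symm fa3b1 fa3b3 hc.symm a1 t7)
  have t15 : ¬ G.Adj (b 0) v := fun hc => fb0b3 (hD (a 3) v (b 0) (b 3) a2.symm fa3b0 fa3b3 hc.symm a3 t2)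
  have t16 : ¬ G.Adj (b 1) v := fun hc => fb1b3 (hD (a 3) v (b 1) (b 3) a2.symm fa3b1 fa3b3 hc.symm a3 t7)
  have t17 : ¬ G.Adj (a 0) u := fun hc => fa0a3 (hD (b 3) u (a 0) (a 3) a1.symm fa0b3.symm fa3b3.symm hc.symm a0 t1)
  have t18 : ¬ G.Adj (a 1) u := fun hc => fa1a3 (hD (b 3) u (a 1) (a 3) a1.symm fa1b3.symm fa3b3.symm hc.symm a0 t6)
  have t19 : ¬ G.Adj (a 2) u := fun hc => fa2a3 (hD (b 3) u (a 2) (a 3) a1.symm fa2b3.symm fa3b3.symm hc.symm a0 t8)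
  have t20 : ¬ G.Adj (a 0) v := fun hc => fa0a3 (hD (b 3) v (a 0) (a 3) a3.symm fa0b3.symm fa3b3.symm hc.symm a2 t1)
  have t21 : ¬ G.Adj (a 1) v := fun hc => fa1a3 (hD (b 3) v (a 1) (a 3) a3.symm fa1b3.symm fa3b3.symm hc.symm a2 t6)
  have t22 : ¬ G.Adj (a 2) v := fun hc => fa2a3 (hD (b 3) v (a 2) (a 3) a3.symm fa2b3.symm fa3b3.symm hc.symm a2 t8)
  have t23 : G.Adj (c 0) u := Classical.byContradiction fun hc => hR (c 0) (c 3) u (a 1) (b 1) (a 2) t10 fa1b1 fa2b1.symm fa1a2 fc0c3 hc (ns fa1c0) (ns fb1c0) (ns fa2c0) (ns fa1c3) (ns fb1c3) (ns fa2c3) (ns t18) (ns t14) (ns t19) t5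
  have t24 : G.Adj (c 0) v := Classical.byContradiction fun hc => hR (c 0) (c 3) v (a 1) (b 1) (a 2) t11 fa1b1 fa2b1.symm fa1a2 fc0c3 hc (ns fa1c0) (ns fb1c0) (ns fa2c0) (ns fa1c3) (ns fb1c3) (ns fa2c3) (ns t21) (ns t16) (ns t22) t5
  have t25 : G.Adj (c 2) u := Classical.byContradiction fun hc => hR (a 1) (a 2) (c 2) (c 0) u (c 3) fa2c2 t23 t10.symm fc0c3 fa1a2 fa1c2 fa1c0 t18 fa1c3 fa2c0 t19 fa2c3 (ns fc0c2) hc fc2c3 t4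
  have t26 : G.Adj (c 2) v := Classical.byContradiction fun hc => hR (a 1) (a 2) (c 2) (c 0) v (c 3) fa2c2 t24 t11.symm fc0c3 fa1a2 fa1c2 fa1c0 t21 fa1c3 fa2c0 t22 fa2c3 (ns fc0c2) hc fc2c3 t4
  have t27 : G.Adj (c 1) u := Classical.byContradiction fun hc => hR (c 1) (a 0) (b 0) (c 2) u (c 3) fa0b0 t25 t10.symm fc2c3 (ns fa0c1) (ns fb0c1) fc1c2 hc fc1c3 fa0c2 t17 fa0c3 fb0c2 t13 fb0c3 t9
  have t28 : G.Adj (c 1) v := Classical.byContradiction fun hc => hR (c 1) (a 0) (b 0) (c 2) v (c 3) fa0b0 t26 t11.symm fc2c3 (ns fa0c1) (ns fb0c1) fc1c2 hc fc1c3 fa0c2 t20 fa0c3 fb0c2 t15 fb0c3 t9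
  exact fc0c1 (hD u v (c 0) (c 1) t12 t23.symm t27.symm t24.symm t28.symm t3)

lemma ab_iA {G : SimpleGraph V} (hD : DF G) (hR : RF G) {a b c : Fin 4 → V} (h : AB4 G a b c)
    {x y : V}
    (wx : KA G a b c x) (wy : KA G a b c y) (a0 : G.Adj x y)
    : False := by
  have fb0c0 : G.Adj (b 0) (c 0) := (h.bc 0 0).2 rfl
  have fb0b1 : ¬ G.Adj (b 0) (b 1) := h.bb 0 1
  have fb1c0 : ¬ G.Adj (b 1) (c 0) := mt (h.bc 1 0).1 (by decide)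
  have t1 : (b 0) ≠ (b 1) := fun hc => eqa hc fb0c0 fb1c0
  exact fb0b1 (hD x y (b 0) (b 1) a0 (wx 0).2.1 (wx 1).2.1 (wy 0).2.1 (wy 1).2.1 t1)

lemma ab_iC {G : SimpleGraph V} (hD : DF G) (hR : RF G) {a b c : Fin 4 → V} (h : AB4 G a b c)
    {x y : V}
    (wx : KC G a b c x) (wy : KC G a b c y) (a0 : G.Adj x y)
    : False := by
  have fa1c0 : ¬ G.Adj (a 1) (c 0) := mt (h.ac 1 0).1 (by decide)
  have fb1c0 : ¬ G.Adj (b 1) (c 0) := mt (h.bc 1 0).1 (by decide)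
  have fa2c0 : ¬ G.Adj (a 2) (c 0) := mt (h.ac 2 0).1 (by decide)
  have fa1b1 : G.Adj (a 1) (b 1) := h.ab 1 1
  have fa1c1 : G.Adj (a 1) (c 1) := (h.ac 1 1).2 rfl
  have fa1a2 : ¬ G.Adj (a 1) (a 2) := h.aa 1 2
  have fa2b1 : G.Adj (a 2) (b 1) := h.ab 2 1
  have fa2c1 : ¬ G.Adj (a 2) (c 1) := mt (h.ac 2 1).1 (by decide)
  have t1 : (a 1) ≠ (a 2) := fun hc => eqa hc fa1c1 fa2c1
  exact hR (c 0) x y (a 1) (b 1) (a 2) a0 fa1b1 fa2b1.symm fa1a2 (ns (wx 0).2.2) (ns (wy 0).2.2) (ns fa1c0) (ns fb1c0) (ns fa2c0) (wx 1).1 (wx 1).2.1 (wx 2).1 (wy 1).1 (wy 1).2.1 (wy 2).1 t1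

lemma ab_iD {G : SimpleGraph V} (hD : DF G) (hR : RF G) {a b c : Fin 4 → V} (h : AB4 G a b c)
    {x y : V}
    (wx : KD G a b c x) (wy : KD G a b c y) (a0 : G.Adj x y)
    : False := by
  have fa0c0 : G.Adj (a 0) (c 0) := (h.ac 0 0).2 rfl
  have fa0c1 : ¬ G.Adj (a 0) (c 1) := mt (h.ac 0 1).1 (by decide)
  have fc0c1 : ¬ G.Adj (c 0) (c 1) := h.cc 0 1
  have t1 : (c 0) ≠ (c 1) := fun hc => eqa hc fa0c0.symm (ns fa0c1)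
  exact fc0c1 (hD x y (c 0) (c 1) a0 (wx 0).2.2 (wx 1).2.2 (wy 0).2.2 (wy 1).2.2 t1)

lemma ab_cd {G : SimpleGraph V} (hD : DF G) (hR : RF G) {a b c : Fin 4 → V} (h : AB4 G a b c)
    {x y : V}
    (wx : KC G a b c x) (wy : KD G a b c y) (n0 : ¬ G.Adj x y)
    : False := by
  have fa0b0 : G.Adj (a 0) (b 0) := h.ab 0 0
  have fa0c1 : ¬ G.Adj (a 0) (c 1) := mt (h.ac 0 1).1 (by decide)
  have fa0c2 : ¬ G.Adj (a 0) (c 2) := mt (h.ac 0 2).1 (by decide)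
  have fb0c1 : ¬ G.Adj (b 0) (c 1) := mt (h.bc 0 1).1 (by decide)
  have fb0c2 : ¬ G.Adj (b 0) (c 2) := mt (h.bc 0 2).1 (by decide)
  have fa1c1 : G.Adj (a 1) (c 1) := (h.ac 1 1).2 rfl
  have fa1c2 : ¬ G.Adj (a 1) (c 2) := mt (h.ac 1 2).1 (by decide)
  have fc1c2 : ¬ G.Adj (c 1) (c 2) := h.cc 1 2
  have t1 : (c 1) ≠ (c 2) := fun hc => eqa hc fa1c1.symm (ns fa1c2)
  exact hR x (a 0) (b 0) (c 1) y (c 2) fa0b0 (wy 1).2.2.symm (wy 2).2.2 fc1c2 (wx 0).1 (wx 0).2.1 (wx 1).2.2 n0 (wx 2).2.2 fa0c1 (ns (wy 0).1) fa0c2 fb0c1 (ns (wy 0).2.1) fb0c2 t1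

lemma ab_a1 {G : SimpleGraph V} (hD : DF G) (hR : RF G) {a b c : Fin 4 → V} (h : AB4 G a b c)
    {x y z : V}
    (wx : KC G a b c x) (wy : KA G a b c y) (wz : KA G a b c z)
    (a0 : G.Adj x y) (a1 : G.Adj x z) (d0 : y ≠ z)
    : False := by
  have fa0a1 : ¬ G.Adj (a 0) (a 1) := h.aa 0 1
  have fa0c1 : ¬ G.Adj (a 0) (c 1) := mt (h.ac 0 1).1 (by decide)
  have fb0c0 : G.Adj (b 0) (c 0) := (h.bc 0 0).2 rfl
  have fb0b1 : ¬ G.Adj (b 0) (b 1) := h.bb 0 1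
  have fb1c0 : ¬ G.Adj (b 1) (c 0) := mt (h.bc 1 0).1 (by decide)
  have fa1c1 : G.Adj (a 1) (c 1) := (h.ac 1 1).2 rfl
  have t1 : (b 0) ≠ (b 1) := fun hc => eqa hc fb0c0 fb1c0
  have t2 : G.Adj y z := Classical.byContradiction fun hc => hR (a 0) (a 1) (c 1) y x z fa1c1 a0.symm a1 hc fa0a1 fa0c1 (ns (wy 0).1) (ns (wx 0).1) (ns (wz 0).1) (ns (wy 1).1) (ns (wx 1).1) (ns (wz 1).1) (ns (wy 1).2.2) (ns (wx 1).2.2) (ns (wz 1).2.2) d0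
  exact fb0b1 (hD y z (b 0) (b 1) t2 (wy 0).2.1 (wy 1).2.1 (wz 0).2.1 (wz 1).2.1 t1)

lemma ab_a2 {G : SimpleGraph V} (hD : DF G) (hR : RF G) {a b c : Fin 4 → V} (h : AB4 G a b c)
    {x y z : V}
    (wx : KC G a b c x) (wy : KC G a b c y) (wz : KA G a b c z)
    (a0 : G.Adj x z) (a1 : G.Adj y z) (d0 : x ≠ y)
    : False := by
  have fa0a1 : ¬ G.Adj (a 0) (a 1) := h.aa 0 1
  have fa0c1 : ¬ G.Adj (a 0) (c 1) := mt (h.ac 0 1).1 (by decide)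
  have fa1c0 : ¬ G.Adj (a 1) (c 0) := mt (h.ac 1 0).1 (by decide)
  have fb1c0 : ¬ G.Adj (b 1) (c 0) := mt (h.bc 1 0).1 (by decide)
  have fa2c0 : ¬ G.Adj (a 2) (c 0) := mt (h.ac 2 0).1 (by decide)
  have fa1b1 : G.Adj (a 1) (b 1) := h.ab 1 1
  have fa1c1 : G.Adj (a 1) (c 1) := (h.ac 1 1).2 rfl
  have fa1a2 : ¬ G.Adj (a 1) (a 2) := h.aa 1 2
  have fa2b1 : G.Adj (a 2) (b 1) := h.ab 2 1
  have fa2c1 : ¬ G.Adj (a 2) (c 1) := mt (h.ac 2 1).1 (by decide)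
  have t1 : (a 1) ≠ (a 2) := fun hc => eqa hc fa1c1 fa2c1
  have t2 : G.Adj x y := Classical.byContradiction fun hc => hR (a 0) (a 1) (c 1) x z y fa1c1 a0 a1.symm hc fa0a1 fa0c1 (ns (wx 0).1) (ns (wz 0).1) (ns (wy 0).1) (ns (wx 1).1) (ns (wz 1).1) (ns (wy 1).1) (ns (wx 1).2.2) (ns (wz 1).2.2) (ns (wy 1).2.2) d0
  exact hR (c 0) x y (a 1) (b 1) (a 2) t2 fa1b1 fa2b1.symm fa1a2 (ns (wx 0).2.2) (ns (wy 0).2.2) (ns fa1c0) (ns fb1c0) (ns fa2c0) (wx 1).1 (wx 1).2.1 (wx 2).1 (wy 1).1 (wy 1).2.1 (wy 2).1 t1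

lemma ab_ra {G : SimpleGraph V} (hD : DF G) (hR : RF G) {a b c : Fin 4 → V} (h : AB4 G a b c)
    {x y z : V}
    (wx : KC G a b c x) (wy : KA G a b c y) (wz : KA G b a c z)
    (a0 : G.Adj x y) (n0 : ¬ G.Adj x z) (n1 : ¬ G.Adj y z)
    : False := by
  have fa1c0 : ¬ G.Adj (a 1) (c 0) := mt (h.ac 1 0).1 (by decide)
  have fa2c0 : ¬ G.Adj (a 2) (c 0) := mt (h.ac 2 0).1 (by decide)
  have fa1c1 : G.Adj (a 1) (c 1) := (h.ac 1 1).2 rfl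
  have fa1a2 : ¬ G.Adj (a 1) (a 2) := h.aa 1 2
  have fa2c1 : ¬ G.Adj (a 2) (c 1) := mt (h.ac 2 1).1 (by decide)
  have t1 : (a 1) ≠ (a 2) := fun hc => eqa hc fa1c1 fa2c1
  exact hR (c 0) x y (a 1) z (a 2) a0 (wz 1).2.1.symm (wz 2).2.1 fa1a2 (ns (wx 0).2.2) (ns (wy 0).2.2) (ns fa1c0) (ns (wz 0).2.2) (ns fa2c0) (wx 1).1 n0 (wx 2).1 (wy 1).1 n1 (wy 2).1 t1

lemma ab_rb {G : SimpleGraph V} (hD : DF G) (hR : RF G) {a b c : Fin 4 → V} (h : AB4 G a b c)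
    {x y z : V}
    (wx : KD G a b c x) (wy : KA G a b c y) (wz : KA G b a c z)
    (n0 : ¬ G.Adj x y) (n1 : ¬ G.Adj x z) (n2 : ¬ G.Adj y z)
    : False := by
  have fa0c1 : ¬ G.Adj (a 0) (c 1) := mt (h.ac 0 1).1 (by decide)
  have fa0c2 : ¬ G.Adj (a 0) (c 2) := mt (h.ac 0 2).1 (by decide)
  have fa1c1 : G.Adj (a 1) (c 1) := (h.ac 1 1).2 rfl
  have fa1c2 : ¬ G.Adj (a 1) (c 2) := mt (h.ac 1 2).1 (by decide)
  have fc1c2 : ¬ G.Adj (c 1) (c 2) := h.cc 1 2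
  have t1 : (c 1) ≠ (c 2) := fun hc => eqa hc fa1c1.symm (ns fa1c2)
  exact hR y (a 0) z (c 1) x (c 2) (wz 0).2.1.symm (wx 1).2.2.symm (wx 2).2.2 fc1c2 (wy 0).1 n2 (wy 1).2.2 (ns n0) (wy 2).2.2 fa0c1 (ns (wx 0).1) fa0c2 (wz 1).2.2 (ns n1) (wz 2).2.2 t1

end Pool.Agent.MP_41f2d3_co
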