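import Pool.Agent.MP_41f2d3_co.ROmega

/-! Large cliques, for the pair (diamond, P1 + P2 + P3). -/

namespace Pool.Agent.MP_41f2d3_co

open Finset Classical

noncomputable section

variable {V : Type}

/-- P1 + P3 free on `S` -/
def P13 (G : SimpleGraph V) (S : Finset V) : Prop :=
  ∀ z ∈ S, ∀ c ∈ S, ∀ d ∈ S, ∀ e ∈ S, G.Adj c d → G.Adj d e → ¬ G.Adj c e →
    ¬ G.Adj z c → ¬ G.Adj z d → ¬ G.Adj z e → c ≠ e → False

/-- three independent vertices -/
def I3 (G : SimpleGraph V) (S : Finset V) : Prop :=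
  ∃ x ∈ S, ∃ y ∈ S, ∃ z ∈ S, x ≠ y ∧ x ≠ z ∧ y ≠ z ∧ ¬ G.Adj x y ∧ ¬ G.Adj x z ∧ ¬ G.Adj y z

section
set_option linter.unusedVariables false

lemma big_cl {G : SimpleGraph V} {S : Finset V} (h13 : P13 G S)
    {x y z p q r : V} (hx : x ∈ S) (hy : y ∈ S) (hz : z ∈ S) (hp : p ∈ S) (hq : q ∈ S) (hr : r ∈ S)
    (a0 : G.Adj p q) (a1 : G.Adj p r) (n0 : ¬ G.Adj x y) (n1 : ¬ G.Adj x z)
    (n2 : ¬ G.Adj y z) (n3 : ¬ G.Adj q r) (d0 : x ≠ y) (d1 : x ≠ z)
    (d2 : y ≠ z) (d3 : q ≠ r) (c0 : G.Adj p x → G.Adj p y → G.Adj p z → False) (c1 : G.Adj q x → G.Adj q y → G.Adj q z → False)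
    (c2 : G.Adj r x → G.Adj r y → G.Adj r z → False)
    : False := by
  rcases Classical.em (x = p) with t1 | t1
  · have t2 : ¬ G.Adj y p := fun hc => eqa t1.symm hc.symm n0
    have t3 : ¬ G.Adj z p := fun hc => eqa t1.symm hc.symm n1
    have t4 : G.Adj x q := Classical.byContradiction fun hc => eqa t1.symm a0 hc
    rcases Classical.em (G.Adj z q) with t5 | t5
    · have t6 : ¬ G.Adj y q := fun hc => c1 t4.symm hc.symm t5.symm
      exact h13 y hy x hx q hq z hz t4 t5.symm n1 (ns n0) t6 n2 d1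
    · have t7 : ¬ G.Adj y q := fun hc => h13 z hz x hx q hq y hy t4 hc.symm n0 (ns n1) t5 (ns n2) d0
      have t8 : G.Adj z r := Classical.byContradiction fun hc => h13 z hz q hq p hp r hr a0.symm a1 n3 t5 t3 hc d3
      have t9 : ¬ G.Adj y r := fun hc => h13 q hq y hy r hr z hz hc t8.symm n2 (ns t7) n3 (ns t5) d2
      exact h13 y hy q hq p hp r hr a0.symm a1 n3 t7 t2 t9 d3
  · rcases Classical.em (y = p) with t10 | t10
    · have t11 : ¬ G.Adj x p := fun hc => eqa t10.symm hc.symm (ns n0)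
      have t12 : ¬ G.Adj z p := fun hc => eqa t10.symm hc.symm n2
      have t13 : G.Adj y q := Classical.byContradiction fun hc => eqa t10.symm a0 hc
      rcases Classical.em (G.Adj z q) with t14 | t14
      · have t15 : ¬ G.Adj x q := fun hc => c1 hc.symm t13.symm t14.symm
        exact h13 x hx y hy q hq z hz t13 t14.symm n2 n0 t15 n1 d2
      · have t16 : ¬ G.Adj x q := fun hc => h13 z hz x hx q hq y hy hc t13.symm n0 (ns n1) t14 (ns n2) d0
        have t17 : G.Adj z r := Classical.byContradiction fun hc => h13 z hz q hq p hp r hr a0.symm a1 n3 t14 t12 hc d3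
        have t18 : ¬ G.Adj x r := fun hc => h13 q hq x hx r hr z hz hc t17.symm n1 (ns t16) n3 (ns t14) d1
        exact h13 x hx q hq p hp r hr a0.symm a1 n3 t16 t11 t18 d3
    · rcases Classical.em (z = p) with t19 | t19
      · have t20 : ¬ G.Adj x p := fun hc => eqa t19.symm hc.symm (ns n1)
        have t21 : ¬ G.Adj y p := fun hc => eqa t19.symm hc.symm (ns n2)
        have t22 : G.Adj z r := Classical.byContradiction fun hc => eqa t19.symm a1 hc
        rcases Classical.em (G.Adj x r) with t23 | t23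
        · have t24 : ¬ G.Adj y r := fun hc => c2 t23.symm hc.symm t22.symm
          exact h13 y hy x hx r hr z hz t23 t22.symm n1 (ns n0) t24 n2 d1
        · have t25 : ¬ G.Adj y r := fun hc => h13 x hx y hy r hr z hz hc t22.symm n2 n0 t23 n1 d2
          have t26 : G.Adj x q := Classical.byContradiction fun hc => h13 x hx q hq p hp r hr a0.symm a1 n3 hc t20 t23 d3
          have t27 : ¬ G.Adj y q := fun hc => h13 r hr x hx q hq y hy t26 hc.symm n0 (ns t23) (ns n3) (ns t25) d0
          exact h13 y hy q hq p hp r hr a0.symm a1 n3 t27 t21 t25 d3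
      · rcases Classical.em (x = q) with t28 | t28
        · have t29 : ¬ G.Adj y q := fun hc => eqa t28.symm hc.symm n0
          have t30 : G.Adj x p := Classical.byContradiction fun hc => eqa t28.symm a0.symm hc
          have t31 : ¬ G.Adj x r := fun hc => eqa t28 hc n3
          rcases Classical.em (G.Adj y p) with t32 | t32
          · have t33 : ¬ G.Adj z p := fun hc => c0 t30.symm t32.symm hc.symm
            exact h13 z hz x hx p hp y hy t30 t32.symm n0 (ns n1) t33 (ns n2) d0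
          · have t34 : ¬ G.Adj z p := fun hc => h13 y hy x hx p hp z hz t30 hc.symm n1 (ns n0) t32 n2 d1
            have t35 : G.Adj y r := Classical.byContradiction fun hc => h13 y hy q hq p hp r hr a0.symm a1 n3 t29 t32 hc d3
            have t36 : G.Adj z r := Classical.byContradiction fun hc => h13 z hz y hy r hr p hp t35 a1.symm t32 (ns n2) hc t34 t10
            exact h13 x hx y hy r hr z hz t35 t36.symm n2 n0 t31 n1 d2
        · rcases Classical.em (y = r) with t37 | t37
          · have t38 : ¬ G.Adj z r := fun hc => eqa t37.symm hc.symm n2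
            have t39 : G.Adj y p := Classical.byContradiction fun hc => eqa t37.symm a1.symm hc
            have t40 : ¬ G.Adj y q := fun hc => eqa t37 hc (ns n3)
            rcases Classical.em (G.Adj z p) with t41 | t41
            · have t42 : ¬ G.Adj x p := fun hc => c0 hc.symm t39.symm t41.symm
              exact h13 x hx y hy p hp z hz t39 t41.symm n2 n0 t42 n1 d2
            · have t43 : ¬ G.Adj x p := fun hc => h13 z hz x hx p hp y hy hc t39.symm n0 (ns n1) t41 (ns n2) d0
              have t44 : G.Adj z q := Classical.byContradiction fun hc => h13 z hz q hq p hp r hr a0.symm a1 n3 hc t41 t38 d3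
              have t45 : G.Adj x q := Classical.byContradiction fun hc => h13 x hx z hz q hq p hp t44 a0.symm t41 n1 hc t43 t19
              exact h13 y hy x hx q hq z hz t45 t44.symm n1 (ns n0) t40 n2 d1
          · rcases Classical.em (z = q) with t46 | t46
            · have t47 : ¬ G.Adj x q := fun hc => eqa t46.symm hc.symm (ns n1)
              have t48 : G.Adj z p := Classical.byContradiction fun hc => eqa t46.symm a0.symm hc
              have t49 : ¬ G.Adj z r := fun hc => eqa t46 hc n3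
              rcases Classical.em (G.Adj x p) with t50 | t50
              · have t51 : ¬ G.Adj y p := fun hc => c0 t50.symm hc.symm t48.symm
                exact h13 y hy x hx p hp z hz t50 t48.symm n1 (ns n0) t51 n2 d1
              · have t52 : ¬ G.Adj y p := fun hc => h13 x hx y hy p hp z hz hc t48.symm n2 n0 t50 n1 d2
                have t53 : G.Adj x r := Classical.byContradiction fun hc => h13 x hx q hq p hp r hr a0.symm a1 n3 t47 t50 hc d3
                have t54 : G.Adj y r := Classical.byContradiction fun hc => h13 y hy x hx r hr p hp t53 a1.symm t50 (ns n0) hc t52 t1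
                exact h13 z hz x hx r hr y hy t53 t54.symm n0 (ns n1) t49 (ns n2) d0
            · rcases Classical.em (y = q) with t55 | t55
              · have t56 : ¬ G.Adj z q := fun hc => eqa t55.symm hc.symm n2
                have t57 : G.Adj y p := Classical.byContradiction fun hc => eqa t55.symm a0.symm hc
                have t58 : ¬ G.Adj y r := fun hc => eqa t55 hc n3
                rcases Classical.em (G.Adj z p) with t59 | t59
                · have t60 : ¬ G.Adj x p := fun hc => c0 hc.symm t57.symm t59.symm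
                  exact h13 x hx y hy p hp z hz t57 t59.symm n2 n0 t60 n1 d2
                · have t61 : ¬ G.Adj x p := fun hc => h13 z hz x hx p hp y hy hc t57.symm n0 (ns n1) t59 (ns n2) d0
                  have t62 : G.Adj z r := Classical.byContradiction fun hc => h13 z hz q hq p hp r hr a0.symm a1 n3 t56 t59 hc d3
                  have t63 : G.Adj x r := Classical.byContradiction fun hc => h13 x hx z hz r hr p hp t62 a1.symm t59 n1 hc t61 t19
                  exact h13 y hy x hx r hr z hz t63 t62.symm n1 (ns n0) t58 n2 d1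
              · rcases Classical.em (G.Adj x q) with t64 | t64
                · rcases Classical.em (G.Adj y q) with t65 | t65
                  · have t66 : ¬ G.Adj z q := fun hc => c1 t64.symm t65.symm hc.symm
                    exact h13 z hz x hx q hq y hy t64 t65.symm n0 (ns n1) t66 (ns n2) d0
                  · have t67 : ¬ G.Adj z q := fun hc => h13 y hy x hx q hq z hz t64 hc.symm n1 (ns n0) t65 n2 d1
                    rcases Classical.em (G.Adj y p) with t68 | t68
                    · have t69 : G.Adj z p := Classical.byContradiction fun hc => h13 z hz y hy p hp q hq t68 a0 t65 (ns n2) hc t67 t55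
                      have t70 : ¬ G.Adj x p := fun hc => c0 hc.symm t68.symm t69.symm
                      exact h13 x hx y hy p hp z hz t68 t69.symm n2 n0 t70 n1 d2
                    · have t71 : G.Adj y r := Classical.byContradiction fun hc => h13 y hy q hq p hp r hr a0.symm a1 n3 t65 t68 hc d3
                      have t72 : ¬ G.Adj z p := fun hc => h13 y hy z hz p hp q hq hc a0 t67 n2 t68 t65 t46
                      have t73 : G.Adj z r := Classical.byContradiction fun hc => h13 z hz y hy r hr p hp t71 a1.symm t68 (ns n2) hc t72 t10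
                      have t74 : ¬ G.Adj x r := fun hc => c2 hc.symm t71.symm t73.symm
                      exact h13 x hx y hy r hr z hz t71 t73.symm n2 n0 t74 n1 d2
                · rcases Classical.em (G.Adj x p) with t75 | t75
                  · rcases Classical.em (G.Adj y p) with t76 | t76
                    · have t77 : ¬ G.Adj z p := fun hc => c0 t75.symm t76.symm hc.symm
                      exact h13 z hz x hx p hp y hy t75 t76.symm n0 (ns n1) t77 (ns n2) d0
                    · have t78 : ¬ G.Adj z p := fun hc => h13 y hy x hx p hp z hz t75 hc.symm n1 (ns n0) t76 n2 d1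
                      have t79 : G.Adj y q := Classical.byContradiction fun hc => h13 y hy x hx p hp q hq t75 a0 t64 (ns n0) t76 hc t28
                      have t80 : G.Adj z q := Classical.byContradiction fun hc => h13 z hz y hy q hq p hp t79 a0.symm t76 (ns n2) hc t78 t10
                      exact h13 x hx y hy q hq z hz t79 t80.symm n2 n0 t64 n1 d2
                  · have t81 : G.Adj x r := Classical.byContradiction fun hc => h13 x hx q hq p hp r hr a0.symm a1 n3 t64 t75 hc d3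
                    rcases Classical.em (G.Adj y r) with t82 | t82
                    · have t83 : ¬ G.Adj z r := fun hc => c2 t81.symm t82.symm hc.symm
                      exact h13 z hz x hx r hr y hy t81 t82.symm n0 (ns n1) t83 (ns n2) d0
                    · have t84 : ¬ G.Adj z r := fun hc => h13 y hy x hx r hr z hz t81 hc.symm n1 (ns n0) t82 n2 d1
                      have t85 : G.Adj y p := Classical.byContradiction fun hc => h13 y hy x hx r hr p hp t81 a1.symm t75 (ns n0) t82 hc t1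
                      have t86 : G.Adj z p := Classical.byContradiction fun hc => h13 z hz y hy p hp r hr t85 a1 t82 (ns n2) hc t84 t37
                      exact h13 x hx y hy p hp z hz t85 t86.symm n2 n0 t75 n1 d2

lemma big_jc {G : SimpleGraph V} {S : Finset V} (h13 : P13 G S)
    {x y z j u : V} (hx : x ∈ S) (hy : y ∈ S) (hz : z ∈ S) (hj : j ∈ S) (hu : u ∈ S)
    (a0 : G.Adj j x) (a1 : G.Adj j y) (a2 : G.Adj j z) (n0 : ¬ G.Adj x y)
    (n1 : ¬ G.Adj x z) (n2 : ¬ G.Adj y z) (n3 : ¬ G.Adj j u) (d0 : x ≠ y)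
    (d1 : x ≠ z) (d2 : y ≠ z) (c0 : G.Adj u x → G.Adj u y → G.Adj u z → False)
    : False := by
  rcases Classical.em (G.Adj x u) with t1 | t1
  · rcases Classical.em (G.Adj y u) with t2 | t2
    · have t3 : ¬ G.Adj z u := fun hc => c0 t1.symm t2.symm hc.symm
      exact h13 z hz x hx u hu y hy t1 t2.symm n0 (ns n1) t3 (ns n2) d0
    · have t4 : G.Adj z u := Classical.byContradiction fun hc => h13 u hu y hy j hj z hz a1.symm a2 n2 (ns t2) (ns n3) (ns hc) d2
      exact h13 y hy x hx u hu z hz t1 t4.symm n1 (ns n0) t2 n2 d1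
  · have t5 : G.Adj y u := Classical.byContradiction fun hc => h13 u hu x hx j hj y hy a0.symm a1 n0 (ns t1) (ns n3) (ns hc) d0
    have t6 : G.Adj z u := Classical.byContradiction fun hc => h13 u hu x hx j hj z hz a0.symm a2 n1 (ns t1) (ns n3) (ns hc) d1
    exact h13 x hx y hy u hu z hz t5 t6.symm n2 n0 t1 n1 d2


end

lemma W_no3 {G : SimpleGraph V} (hD : DF G) {S K : Finset V}
    (hK : ∀ x ∈ K, ∀ y ∈ K, x ≠ y → G.Adj x y) (h3 : ¬ I3 G (S \ K)) :
    W G (J 3 (c3Cl + 3)) S := by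
  have h3' : ∀ x ∈ S \ K, ∀ y ∈ S \ K, ∀ z ∈ S \ K, x ≠ y → x ≠ z → y ≠ z → ¬ G.Adj x y →
      ¬ G.Adj x z → G.Adj y z := by
    intro x hx y hy z hz n1 n2 n3 e1 e2
    by_contra e3
    exact h3 ⟨x, hx, y, hy, z, hz, n1, n2, n3, e1, e2, e3⟩
  by_cases hT : TF G (S \ K)
  · rcases (S \ K).eq_empty_or_nonempty with he | ⟨v, hv⟩
    · refine (W_three_cl hD (fun _ => 0) (fun x hx y hy _ n => ?_)).mono (le_J _ _ _)
      have hs := sdiff_eq_empty_iff_subset.1 he
      exact hK x (hs hx) y (hs hy) n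
    refine W_del (F := insert v ((S \ K).filter (G.Adj v))) ?_
      (W_three_cl hD (fun x => if x ∈ K then 0 else 1) ?_)
    · refine (card_insert_le _ _).trans ?_
      rcases three_or_le ((S \ K).filter (G.Adj v)) with k | ⟨x, hx, y, hy, z, hz, n1, n2, n3⟩
      · omega
      rw [mem_filter] at hx hy hz
      exact (hT v hv y hy.1 z hz.1 hy.2 hz.2 (h3' x hx.1 y hy.1 z hz.1 n1 n2 n3
        (hT v hv x hx.1 y hy.1 hx.2 hy.2) (hT v hv x hx.1 z hz.1 hx.2 hz.2))).elim
    · intro x hx y hy e n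
      simp only [mem_sdiff, mem_insert, mem_filter, not_or, not_and] at hx hy
      by_cases xK : x ∈ K <;> by_cases yK : y ∈ K
      · exact hK x xK y yK n
      · simp [xK, yK] at e
      · simp [xK, yK] at e
      · exact h3' v hv x (mem_sdiff.2 ⟨hx.1, xK⟩) y (mem_sdiff.2 ⟨hy.1, yK⟩) (Ne.symm hx.2.1)
          (Ne.symm hy.2.1) n (hx.2.2 ⟨hx.1, xK⟩) (hy.2.2 ⟨hy.1, yK⟩)
  unfold TF at hT
  push Not at hT
  obtain ⟨p, hp, q, hq, r, hr, pq, pr, qr, _⟩ := hT
  obtain ⟨Q, hQ1, hQ⟩ := exists_MC hD (S := S \ K) (Q := {p, q, r}) (by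
    intro x hx
    simp only [mem_insert, mem_singleton] at hx
    rcases hx with rfl | rfl | rfl <;> assumption) (by
    intro x hx y hy n
    simp only [mem_insert, mem_singleton] at hx hy
    rcases hx with rfl | rfl | rfl <;> rcases hy with rfl | rfl | rfl <;>
      first | exact absurd rfl n | assumption | (symm; assumption))
  have hc : 3 ≤ Q.card := by
    have := card_le_card hQ1
    rwa [card_eq_three.2 ⟨p, q, r, pq.ne, pr.ne, qr.ne, rfl⟩] at this
  refine (W_three_cl hD (fun x => if x ∈ K then 0 else if x ∈ Q then 1 else 2) ?_).mono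
    (le_J _ _ _)
  intro x hx y hy e n
  by_cases xK : x ∈ K <;> by_cases yK : y ∈ K <;> by_cases xQ : x ∈ Q <;> by_cases yQ : y ∈ Q <;>
    simp only [xK, yK, xQ, yQ, if_true, if_false] at e <;>
    first
    | exact hK x xK y yK n
    | exact hQ.cl x xQ y yQ n
    | exact absurd e (by decide)
    | skip
  have hx' := mem_sdiff.2 ⟨hx, xK⟩
  have hy' := mem_sdiff.2 ⟨hy, yK⟩
  obtain ⟨w, hw, k⟩ := hQ.avoid {x, y} (by
    intro z hz; simp only [mem_insert, mem_singleton] at hz
    rcases hz with rfl | rfl; exacts [hx', hy']) (lt_of_le_of_lt card_le_two hc)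
  exact h3' w (hQ.sub hw) x hx' y hy' (fun e => xQ (e ▸ hw)) (fun e => yQ (e ▸ hw)) n
    (ns ((k x (by simp)).2 xQ)) (ns ((k y (by simp)).2 yQ))

lemma clus_no3 {G : SimpleGraph V} (hR : RF G) {S K : Finset V} (hK : MC G S K)
    (hc : 5 ≤ K.card) (ht : TwinFree G S) (hp : NoPend G S)
    (hcl : ∀ x ∈ S \ K, ∀ y ∈ S \ K, ∀ z ∈ S \ K, G.Adj x y → G.Adj x z → y ≠ z → G.Adj y z) :
    ¬ I3 G (S \ K) := by
  rintro ⟨v1, h1, v2, h2, v3, h3, n12, n13, n23, a12, a13, a23⟩
  let sm : V → V → Prop := fun u v => u = v ∨ G.Adj u v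
  have sy : ∀ {u v}, sm u v → sm v u := fun h => h.elim (fun e => Or.inl e.symm)
    (fun e => Or.inr e.symm)
  have tr : ∀ {u v w}, u ∈ S \ K → v ∈ S \ K → w ∈ S \ K → sm u v → sm v w → sm u w := by
    rintro u v w hu hv hw (rfl | e1) e2
    · exact e2
    rcases e2 with rfl | e2
    · exact Or.inr e1
    by_cases e : u = w
    · exact Or.inl e
    · exact Or.inr (hcl v hv u hu w hw e1.symm e2 e)
  have nb : ∀ v ∈ S \ K, ∃ v' ∈ S \ K, G.Adj v v' := by
    intro v hv
    obtain ⟨y, hy, z, hz, yz, vy, vz⟩ := hp v (mem_sdiff.1 hv).1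
    by_cases yK : y ∈ K
    · exact ⟨z, mem_sdiff.2 ⟨hz, fun zK => yz (hK.one' hv yK zK vy vz)⟩, vz⟩
    · exact ⟨y, mem_sdiff.2 ⟨hy, yK⟩, vy⟩
  have tw : ∀ x ∈ K, ∀ v ∈ S \ K, ∀ v' ∈ S \ K, G.Adj v v' → G.Adj v x → ¬ G.Adj v' x := by
    intro x hx v hv v' hv' e e1 e2
    refine e.ne (ht v (mem_sdiff.1 hv).1 v' (mem_sdiff.1 hv').1 (fun z hz zv zv' => ?_))
    by_cases zK : z ∈ K
    · exact ⟨fun k => hK.one' hv zK hx k e1 ▸ e2, fun k => hK.one' hv' zK hx k e2 ▸ e1⟩
    · have hz' := mem_sdiff.2 ⟨hz, zK⟩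
      exact ⟨fun k => hcl v hv v' hv' z hz' e k zv'.symm,
        fun k => hcl v' hv' v hv z hz' e.symm k zv.symm⟩
  have key : ∀ x ∈ K, ∀ u ∈ S \ K, G.Adj u x → ∀ p ∈ S \ K, ∀ q ∈ S \ K, G.Adj p q →
      ¬ sm u p → ∀ w ∈ S \ K, ¬ sm u w → ¬ sm p w → G.Adj p x ∨ G.Adj q x := by
    intro x hx u hu ux p hp q hq pq up w hw uw pw
    by_contra hh
    rw [not_or] at hh
    obtain ⟨r, hr, wr, rx⟩ : ∃ r ∈ S \ K, sm w r ∧ ¬ G.Adj r x := by
      by_cases e : G.Adj w x
      · obtain ⟨w', hw', k⟩ := nb w hw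
        exact ⟨w', hw', Or.inr k, tw x hx w hw w' hw' k e⟩
      · exact ⟨w, hw, Or.inl rfl, e⟩
    obtain ⟨x', hx', k⟩ := hK.avoid {x, p, q, r} (by
      intro z hz; simp only [mem_insert, mem_singleton] at hz
      rcases hz with rfl | rfl | rfl | rfl
      exacts [hK.sub hx, (mem_sdiff.1 hp).1, (mem_sdiff.1 hq).1, (mem_sdiff.1 hr).1])
      (lt_of_le_of_lt card_le_four hc)
    have xx' : x' ≠ x := (k x (by simp)).1 hx
    exact hR r p q u x x' pq ux (hK.cl _ hx _ hx' xx'.symm)
      (fun e => xx' (hK.one' hu hx' hx e ux))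
      (fun e => pw (tr hp hr hw (Or.inr e.symm) (sy wr)))
      (fun e => pw (tr hp hq hw (Or.inr pq) (tr hq hr hw (Or.inr e.symm) (sy wr))))
      (fun e => uw (tr hu hr hw (Or.inr e.symm) (sy wr))) rx
      ((k r (by simp)).2 (mem_sdiff.1 hr).2) (fun e => up (Or.inr e.symm)) hh.1
      ((k p (by simp)).2 (mem_sdiff.1 hp).2)
      (fun e => up (tr hu hq hp (Or.inr e.symm) (Or.inr pq.symm))) hh.2
      ((k q (by simp)).2 (mem_sdiff.1 hq).2) (fun e => (mem_sdiff.1 hu).2 (e ▸ hx'))
  have s12 : ¬ sm v1 v2 := fun h => h.elim n12 a12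
  have s13 : ¬ sm v1 v3 := fun h => h.elim n13 a13
  have s23 : ¬ sm v2 v3 := fun h => h.elim n23 a23
  have two : ∀ u ∈ S \ K, ∃ w1 ∈ S \ K, ∃ w2 ∈ S \ K, ¬ sm u w1 ∧ ¬ sm u w2 ∧ ¬ sm w1 w2 := by
    intro u hu
    by_cases e1 : sm u v1
    · exact ⟨v2, h2, v3, h3, fun e => s12 (tr h1 hu h2 (sy e1) e),
        fun e => s13 (tr h1 hu h3 (sy e1) e), s23⟩
    by_cases e2 : sm u v2
    · exact ⟨v1, h1, v3, h3, e1, fun e => s23 (tr h2 hu h3 (sy e2) e), s13⟩
    · exact ⟨v1, h1, v2, h2, e1, e2, s12⟩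
  have key2 : ∀ x ∈ K, ∀ u ∈ S \ K, G.Adj u x → ∀ p ∈ S \ K, ∀ q ∈ S \ K, G.Adj p q →
      ¬ sm u p → G.Adj p x ∨ G.Adj q x := by
    intro x hx u hu ux p hp q hq pq up
    obtain ⟨w1, k1, w2, k2, m1, m2, m3⟩ := two u hu
    by_cases e : sm p w1
    · exact key x hx u hu ux p hp q hq pq up w2 k2 m2 (fun e' => m3 (tr k1 hp k2 (sy e) e'))
    · exact key x hx u hu ux p hp q hq pq up w1 k1 m1 e
  obtain ⟨q, hq, pq⟩ := nb v1 h1
  have key3 : ∀ x ∈ K, ∀ u ∈ S \ K, G.Adj u x → G.Adj v1 x ∨ G.Adj q x := by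
    intro x hx u hu ux
    by_cases e : sm u v1
    swap
    · exact key2 x hx u hu ux v1 h1 q hq pq e
    obtain ⟨w, hw, k⟩ := nb v2 h2
    rcases key2 x hx u hu ux v2 h2 w hw k (fun e' => s12 (tr h1 hu h2 (sy e) e')) with e' | e'
    · exact key2 x hx v2 h2 e' v1 h1 q hq pq (fun e'' => s12 (sy e''))
    · exact key2 x hx w hw e' v1 h1 q hq pq
        (fun e'' => s12 (sy (tr h2 hw h1 (Or.inr k) e'')))
  obtain ⟨x, hx, k1⟩ := hK.avoid {v1, q} (by
    intro z hz; simp only [mem_insert, mem_singleton] at hz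
    rcases hz with rfl | rfl
    exacts [(mem_sdiff.1 h1).1, (mem_sdiff.1 hq).1]) (lt_of_le_of_lt card_le_two (by omega))
  obtain ⟨y, hy, k2⟩ := hK.avoid {x, v1, q} (by
    intro z hz; simp only [mem_insert, mem_singleton] at hz
    rcases hz with rfl | rfl | rfl
    exacts [hK.sub hx, (mem_sdiff.1 h1).1, (mem_sdiff.1 hq).1])
    (lt_of_le_of_lt card_le_three (by omega))
  have nx : ∀ u ∈ S \ K, ¬ G.Adj u x := fun u hu e => (key3 x hx u hu e).elim
    ((k1 v1 (by simp)).2 (mem_sdiff.1 h1).2) ((k1 q (by simp)).2 (mem_sdiff.1 hq).2)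
  have ny : ∀ u ∈ S \ K, ¬ G.Adj u y := fun u hu e => (key3 y hy u hu e).elim
    ((k2 v1 (by simp)).2 (mem_sdiff.1 h1).2) ((k2 q (by simp)).2 (mem_sdiff.1 hq).2)
  refine (k2 x (by simp)).1 hx (ht y (hK.sub hy) x (hK.sub hx) (fun z hz zy zx => ?_))
  by_cases zK : z ∈ K
  · exact iff_of_true (hK.cl y hy z zK zy.symm) (hK.cl x hx z zK zx.symm)
  · exact iff_of_false (ns (ny z (mem_sdiff.2 ⟨hz, zK⟩))) (ns (nx z (mem_sdiff.2 ⟨hz, zK⟩)))

/-- bound -/
def cCl : ℕ := J 4 (2 + 4) + J 3 (c3Cl + 3) + 2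

lemma W_clus {G : SimpleGraph V} (hD : DF G) (hR : RF G) {S S' K : Finset V} (hK : MC G S K)
    (hS : S' ⊆ S)
    (hcl : ∀ x ∈ S' \ K, ∀ y ∈ S' \ K, ∀ z ∈ S' \ K, G.Adj x y → G.Adj x z → y ≠ z → G.Adj y z) :
    W G cCl S' := by
  unfold cCl
  refine W_of_prime (Nat.le_add_left _ _) S' (fun P hP _ _ ht hp => ?_)
  have sub : P \ (K ∩ P) ⊆ S' \ K := by
    intro x hx
    rw [mem_sdiff, mem_inter] at hx
    exact mem_sdiff.2 ⟨hP hx.1, fun k => hx.2 ⟨k, hx.1⟩⟩
  have hcl' : ∀ x ∈ P \ (K ∩ P), ∀ y ∈ P \ (K ∩ P), ∀ z ∈ P \ (K ∩ P), G.Adj x y → G.Adj x z →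
      y ≠ z → G.Adj y z := fun x hx y hy z hz => hcl x (sub hx) y (sub hy) z (sub hz)
  by_cases hc : (K ∩ P).card ≤ 4
  · exact (W_del hc (W_cluster hcl')).mono (by omega)
  have hK' : MC G P (K ∩ P) := ⟨inter_subset_right,
    fun x hx y hy => hK.cl x (mem_inter.1 hx).1 y (mem_inter.1 hy).1,
    fun v hv n x hx y hy => hK.one v (hS (hP hv)) (fun k => n (mem_inter.2 ⟨k, hv⟩)) x
      (mem_inter.1 hx).1 y (mem_inter.1 hy).1⟩
  exact (W_no3 hD hK'.cl (clus_no3 hR hK' (by omega) ht hp hcl')).mono (by omega)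

theorem W_mainR : ∃ k, ∀ (V : Type) (G : SimpleGraph V) (S : Finset V), DF G → RF G →
    W G k S := by
  obtain ⟨k1, hk1⟩ := W_omegaR 3
  refine ⟨k1 + J 3 (c3Cl + 3) + J 1 (cCl + 1) + 4 * (2 + 1), fun V G S hD hR => ?_⟩
  by_cases hn : NoCl G S (3 + 3)
  · exact (hk1 V G S hD hR hn).mono (by omega)
  obtain ⟨K, hK, hKc⟩ := exists_big hD hn
  have h13 : P13 G (S \ K) := by
    intro z hz c hc d hd e he cd de ce zc zd ze ne
    rw [mem_sdiff] at hz hc hd he
    obtain ⟨a, ha, k1⟩ := hK.avoid {z, c, d, e} (by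
      intro w hw; simp only [mem_insert, mem_singleton] at hw
      rcases hw with rfl | rfl | rfl | rfl
      exacts [hz.1, hc.1, hd.1, he.1]) (lt_of_le_of_lt card_le_four (by omega))
    obtain ⟨b, hb, k2⟩ := hK.avoid {a, z, c, d, e} (by
      intro w hw; simp only [mem_insert, mem_singleton] at hw
      rcases hw with rfl | rfl | rfl | rfl | rfl
      exacts [hK.sub ha, hz.1, hc.1, hd.1, he.1]) (lt_of_le_of_lt card_le_five (by omega))
    exact hR z a b c d e (hK.cl a ha b hb ((k2 a (by simp)).1 ha).symm) cd de ce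
      ((k1 z (by simp)).2 hz.2) ((k2 z (by simp)).2 hz.2) zc zd ze
      (ns ((k1 c (by simp)).2 hc.2)) (ns ((k1 d (by simp)).2 hd.2)) (ns ((k1 e (by simp)).2 he.2))
      (ns ((k2 c (by simp)).2 hc.2)) (ns ((k2 d (by simp)).2 hd.2)) (ns ((k2 e (by simp)).2 he.2))
      ne
  by_cases h3 : I3 G (S \ K)
  swap
  · exact (W_no3 hD hK.cl h3).mono (by omega)
  obtain ⟨x, hx, y, hy, z, hz, n1, n2, n3, e1, e2, e3⟩ := h3
  obtain ⟨Jn, hJ⟩ : ∃ Jn : Finset V, ∀ v, v ∈ Jn ↔
      v ∈ S \ K ∧ G.Adj v x ∧ G.Adj v y ∧ G.Adj v z := ⟨(S \ K).filter _, fun v => mem_filter⟩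
  by_cases hc : Jn.card ≤ 1
  · refine (W_del hc (W_clus hD hR hK sdiff_subset ?_)).mono (by omega)
    have f : ∀ v ∈ (S \ Jn) \ K, v ∈ S \ K ∧ (G.Adj v x → G.Adj v y → G.Adj v z → False) := by
      intro v hv
      simp only [mem_sdiff] at hv
      have hv' := mem_sdiff.2 ⟨hv.1.1, hv.2⟩
      exact ⟨hv', fun a b c => hv.1.2 ((hJ v).2 ⟨hv', a, b, c⟩)⟩
    intro p hp q hq r hr pq pr qr
    by_contra n
    exact big_cl h13 hx hy hz (f p hp).1 (f q hq).1 (f r hr).1 pq pr e1 e2 e3 n n1 n2 n3 qr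
      (f p hp).2 (f q hq).2 (f r hr).2
  obtain ⟨j, hj, j', hj', jj⟩ := one_lt_card.1 (by omega : 1 < Jn.card)
  have iJ : ∀ u ∈ Jn, ∀ v ∈ Jn, ¬ G.Adj u v := by
    intro u hu v hv e
    have a := (hJ u).1 hu
    have b := (hJ v).1 hv
    exact e1 (hD u v x y e a.2.1 a.2.2.1 b.2.1 b.2.2.1 n1)
  have cJ : ∀ u ∈ Jn, ∀ v ∈ S \ K, v ∉ Jn → G.Adj u v := by
    intro u hu v hv n
    have a := (hJ u).1 hu
    by_contra e
    exact big_jc h13 hx hy hz a.1 hv a.2.1 a.2.2.1 a.2.2.2 e1 e2 e3 e n1 n2 n3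
      (fun p q r => n ((hJ v).2 ⟨hv, p, q, r⟩))
  have iH : ∀ u ∈ S \ K, ∀ v ∈ S \ K, u ∉ Jn → v ∉ Jn → ¬ G.Adj u v := by
    intro u hu v hv nu nv e
    exact iJ j hj j' hj' (hD u v j j' e (cJ j hj u hu nu).symm (cJ j' hj' u hu nu).symm
      (cJ j hj v hv nv).symm (cJ j' hj' v hv nv).symm jj)
  have JK : ∀ u ∈ Jn, u ∉ K := fun u hu => (mem_sdiff.1 ((hJ u).1 hu).1).2
  let lab : V → Prop × Prop := fun v => (v ∈ K, v ∈ Jn)
  let φ : Prop × Prop → Prop × Prop → Prop :=
    fun p q => (p.1 ∧ q.1) ∨ (p.2 ∧ ¬ q.1 ∧ ¬ q.2)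
  have mid : ∀ u ∈ S, ∀ v ∈ S, (flip G lab φ).Adj u v → (u ∈ K ↔ v ∉ K) ∧ G.Adj u v := by
    intro u hu v hv e
    have e2 := e.2
    by_cases uK : u ∈ K <;> by_cases vK : v ∈ K
    · simp only [lab, φ, uK, vK, true_and, true_or, not_true_eq_false, iff_false] at e2
      exact absurd (hK.cl u uK v vK e.1) e2
    · have uJ : u ∉ Jn := fun k => JK u k uK
      simp only [lab, φ, uK, vK, uJ, true_and, false_and, and_false, not_true_eq_false,
        or_false, not_false_eq_true, iff_true] at e2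
      exact ⟨iff_of_true uK vK, e2⟩
    · have vJ : v ∉ Jn := fun k => JK v k vK
      simp only [lab, φ, uK, vK, vJ, true_and, false_and, and_false, not_true_eq_false,
        or_false, not_false_eq_true, iff_true] at e2
      exact ⟨iff_of_false uK (not_not.2 vK), e2⟩
    · exfalso
      have hu' := mem_sdiff.2 ⟨hu, uK⟩
      have hv' := mem_sdiff.2 ⟨hv, vK⟩
      by_cases uJ : u ∈ Jn <;> by_cases vJ : v ∈ Jn <;>
        simp only [lab, φ, uK, vK, uJ, vJ, and_false, not_true_eq_false,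
          or_false, not_false_eq_true, iff_true, iff_false, and_true, or_true] at e2
      · exact iJ u uJ v vJ e2
      · exact e2 (cJ u uJ v hv' vJ)
      · exact e2 (cJ v vJ u hu' uJ).symm
      · exact iH u hu' v hv' uJ vJ e2
  have := W_flip (G := G) lab φ (k := 2) (S := S) (W_star (fun v => v ∉ K) ?_ ?_)
  · refine this.mono ?_
    have : Fintype.card (Prop × Prop) = 4 := by simp
    rw [this]
    omega
  · intro u hu v hv e
    have := (mid u hu v hv e).1
    by_cases uK : u ∈ K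
    · exact Or.inr (this.1 uK)
    · exact Or.inl uK
  · intro u hu v hv w hw uK a b
    have p := mid u hu v hv a
    have q := mid u hu w hw b
    exact hK.one u hu uK v (not_not.1 (mt p.1.2 uK)) w (not_not.1 (mt q.1.2 uK)) p.2 q.2

end

end Pool.Agent.MP_41f2d3_co
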