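import Pool.Agent.MP_41f2d3_co.RFrame

/-! Bipartite graphs without induced P1 + P2 + P3. -/

namespace Pool.Agent.MP_41f2d3_co

open Finset Classical

noncomputable section

variable {V : Type}

/-- bound -/
def cS : ℕ := J 4 16 + 8

/-- no induced subdivided claw with legs 1, 1, 3 -/
def S113 (H : SimpleGraph V) (S : Finset V) : Prop :=
  ∀ y ∈ S, ∀ y' ∈ S, ∀ b ∈ S, ∀ x ∈ S, ∀ a ∈ S, ∀ c ∈ S, H.Adj y b → H.Adj y' b → H.Adj y x →
    ¬ H.Adj y' x → H.Adj y' a → H.Adj y' c → ¬ H.Adj y a → ¬ H.Adj y c → a = c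

/-- degree at most two -/
def D2 (H : SimpleGraph V) (S : Finset V) (u : V) : Prop :=
  ∀ a ∈ S, ∀ b ∈ S, ∀ c ∈ S, H.Adj u a → H.Adj u b → H.Adj u c → a = b ∨ a = c ∨ b = c

lemma all_D2 {H : SimpleGraph V} {S : Finset V} (hs : S113 H S) (hc : Conn H S)
    (ht : TwinFree H S) (hp : NoPend H S) {z : V} (hz : z ∈ S)
    (hg : ∀ u ∈ S, (u = z ∨ H.Adj z u) → D2 H S u) : W H 8 S := by
  have hsub : S ⊆ S.filter (fun v => ∀ u ∈ S, (u = v ∨ H.Adj v u) → D2 H S u) := by
    refine hc _ (filter_subset _ _) ⟨z, mem_filter.2 ⟨hz, hg⟩⟩ ?_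
    intro v hv u hu vu
    obtain ⟨hvS, hv⟩ := mem_filter.1 hv
    refine mem_filter.2 ⟨hu, fun s hsS hs' => ?_⟩
    have du := hv u hu (Or.inr vu)
    have dv := hv v hvS (Or.inl rfl)
    rcases hs' with rfl | us
    · exact du
    by_cases e : s = v
    · exact e ▸ dv
    obtain ⟨t, htS, vt, tu⟩ : ∃ t ∈ S, H.Adj v t ∧ t ≠ u := by
      obtain ⟨a, ha, b, hb, ab, va, vb⟩ := hp v hvS
      by_cases e : a = u
      · exact ⟨b, hb, vb, fun h => ab (e.trans h.symm)⟩
      · exact ⟨a, ha, va, e⟩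
    have dt := hv t htS (Or.inr vt)
    by_cases st : H.Adj s t
    · exfalso
      refine tu (ht t htS u hu (fun w hw _ _ => ⟨fun a => ?_, fun a => ?_⟩))
      · rcases dt s hsS v hvS w hw st.symm vt.symm a with h | h | h
        · exact absurd h e
        · exact h ▸ us
        · exact h ▸ vu.symm
      · rcases du s hsS v hvS w hw us vu.symm a with h | h | h
        · exact absurd h e
        · exact h ▸ st.symm
        · exact h ▸ vt.symm
    · have nv : ∀ a ∈ S, H.Adj s a → a ≠ u → ¬ H.Adj v a := by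
        intro a ha sa au va
        rcases dv u hu t htS a ha vu vt va with h | h | h
        · exact tu h.symm
        · exact au h.symm
        · exact st (h ▸ sa)
      have two : ∀ a ∈ S, ∀ b ∈ S, H.Adj s a → H.Adj s b → a ≠ u → b ≠ u → a = b :=
        fun a ha b hb sa sb au bu => hs v hvS s hsS u hu t htS a ha b hb vu us.symm vt st sa sb
          (nv a ha sa au) (nv b hb sb bu)
      intro a ha b hb c hc' sa sb sc
      by_cases e1 : a = u
      · by_cases e2 : b = u
        · exact Or.inl (e1.trans e2.symm)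
        · by_cases e3 : c = u
          · exact Or.inr (Or.inl (e1.trans e3.symm))
          · exact Or.inr (Or.inr (two b hb c hc' sb sc e2 e3))
      · by_cases e2 : b = u
        · by_cases e3 : c = u
          · exact Or.inr (Or.inr (e2.trans e3.symm))
          · exact Or.inr (Or.inl (two a ha c hc' sa sc e1 e3))
        · exact Or.inl (two a ha b hb sa sb e1 e2)
  have := W_deg2 (G := H) (S := S) (fun x hx => (mem_filter.1 (hsub hx)).2 x hx (Or.inl rfl))
  simpa [J] using this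

lemma W_s113 {H : SimpleGraph V} {S0 : Finset V} (sd : V → Prop)
    (hb0 : ∀ a ∈ S0, ∀ b ∈ S0, H.Adj a b → (sd a ↔ ¬ sd b)) (hs0 : S113 H S0) :
    W H (2 * (cS + 1)) S0 := by
  refine W_of_split (by simp [cS]) S0 (fun S hS hne hc ht hp => ?_)
  have hb : ∀ a ∈ S, ∀ b ∈ S, H.Adj a b → (sd a ↔ ¬ sd b) :=
    fun a ha b hb' => hb0 a (hS ha) b (hS hb')
  have hs : S113 H S := fun y hy y' hy' b hb' x hx a ha c hc' =>
    hs0 y (hS hy) y' (hS hy') b (hS hb') x (hS hx) a (hS ha) c (hS hc')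
  obtain ⟨y, hy, hmin⟩ := exists_min_image S (fun v => (S.filter (H.Adj v)).card) hne
  let Sib : V → Prop := fun z => z ∈ S ∧ (∃ b ∈ S, H.Adj y b ∧ H.Adj z b) ∧
    ∃ a ∈ S, H.Adj y a ∧ ¬ H.Adj z a
  have sx : ∀ z, Sib z → ∃ x ∈ S, H.Adj z x ∧ ¬ H.Adj y x := by
    rintro z ⟨hz, _, a, ha, ya, za⟩
    by_contra hh
    push Not at hh
    have : (S.filter (H.Adj z)).card < (S.filter (H.Adj y)).card := by
      refine card_lt_card ⟨fun t ht' => ?_, fun h => ?_⟩
      · rw [mem_filter] at ht' ⊢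
        exact ⟨ht'.1, hh t ht'.1 ht'.2⟩
      · exact za (mem_filter.1 (h (mem_filter.2 ⟨ha, ya⟩))).2
    have := hmin z hz
    omega
  have ua : ∀ z, Sib z → ∀ a ∈ S, ∀ a' ∈ S, H.Adj y a → H.Adj y a' → ¬ H.Adj z a → ¬ H.Adj z a' →
      a = a' := by
    intro z hz a ha a' ha' h1 h2 h3 h4
    obtain ⟨x, hx, zx, yx⟩ := sx z hz
    obtain ⟨hzS, ⟨b, hb', yb, zb⟩, _⟩ := hz
    exact hs z hzS y hy b hb' x hx a ha a' ha' zb yb zx yx h1 h2 h3 h4
  have ux : ∀ z, Sib z → ∀ x ∈ S, ∀ x' ∈ S, H.Adj z x → H.Adj z x' → ¬ H.Adj y x → ¬ H.Adj y x' →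
      x = x' := by
    rintro z ⟨hzS, ⟨b, hb', yb, zb⟩, a, ha, ya, za⟩ x hx x' hx' h1 h2 h3 h4
    exact hs y hy z hzS b hb' a ha x hx x' hx' yb zb ya za h1 h2 h3 h4
  let X0 : V → Prop := fun v => H.Adj y v ∨ ∃ z, Sib z ∧ H.Adj z v
  let A := S.filter (fun v => v = y ∨ Sib v ∨ X0 v)
  obtain ⟨a1, ha1, a2, ha2, a12, ya1, ya2⟩ := hp y hy
  by_cases hcase : ∀ w ∈ S, w ∉ A → ∀ v ∈ S, ∀ v' ∈ S, X0 v → X0 v' → H.Adj w v → H.Adj w v'
  · right
    refine ⟨A, filter_subset _ _, a1, mem_filter.2 ⟨ha1, Or.inr (Or.inr (Or.inl ya1))⟩,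
      ⟨y, mem_filter.2 ⟨hy, Or.inl rfl⟩, ya1.ne⟩, ?_, ?_⟩
    · have sdS : ∀ z, Sib z → (sd z ↔ sd y) := by
        rintro z ⟨hzS, ⟨b, hb', yb, zb⟩, _⟩
        have := hb y hy b hb' yb
        have := hb z hzS b hb' zb
        grind
      have sdX : ∀ v ∈ S, X0 v → ¬ (sd v ↔ sd y) := by
        rintro v hv (h | ⟨z, hz, h⟩)
        · have := hb y hy v hv h
          grind
        · have := hb z hz.1 v hv h
          have := sdS z hz
          grind
      obtain ⟨a0, x0, h0⟩ : ∃ a0 x0, ∀ z, Sib z → ∀ a ∈ S, ∀ x ∈ S, H.Adj y a → ¬ H.Adj z a →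
          H.Adj z x → ¬ H.Adj y x → a = a1 ∨ a = a2 ∨ a = a0 ∨ x = x0 := by
        by_cases hz0 : ∃ z0, Sib z0
        · obtain ⟨z0, hz0⟩ := hz0
          obtain ⟨x0, hx0, zx0, yx0⟩ := sx z0 hz0
          obtain ⟨a0, ha0, ya0, za0⟩ := hz0.2.2
          refine ⟨a0, x0, fun z hz a ha x hx ya za zx yx => ?_⟩
          by_contra hh
          push Not at hh
          obtain ⟨n1, n2, n3, n4⟩ := hh
          have f1 : H.Adj z a0 := by
            by_contra h
            exact n3 (ua z hz a ha a0 ha0 ya ya0 za h)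
          have f2 : H.Adj z0 a := by
            by_contra h
            exact n3 (ua z0 hz0 a ha a0 ha0 ya ya0 h za0)
          have f3 : ¬ H.Adj z0 x := fun h => n4 (ux z0 hz0 x hx x0 hx0 h zx0 yx yx0)
          have fin : ∀ b ∈ S, H.Adj y b → a ≠ b → b ≠ a0 → False := by
            intro b hb' yb ab ba0
            have g1 : H.Adj z b := by
              by_contra h
              exact ab (ua z hz a ha b hb' ya yb za h)
            have g2 : H.Adj z0 b := by
              by_contra h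
              exact ba0 (ua z0 hz0 b hb' a0 ha0 yb ya0 h za0)
            have := hs z0 hz0.1 z hz.1 b hb' a ha a0 ha0 x hx g2 g1 f2 za f1 zx za0 f3
            exact yx (this ▸ ya0)
          by_cases e : a1 = a0
          · exact fin a2 ha2 ya2 n2 (fun h => a12 (e.trans h.symm))
          · exact fin a1 ha1 ya1 n1 e
        · exact ⟨y, y, fun z hz => absurd ⟨z, hz⟩ hz0⟩
      refine (W_del (F := {a1, a2, a0, x0}) (t := 4) (k := 12) card_le_four ?_).mono
        (by simp [cS])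
      have := W_flip (G := H) (fun v => (H.Adj y v, sd v ↔ sd y)) (fun p q => p.1 ∧ q.2)
        (k := 2) (S := A \ {a1, a2, a0, x0}) (W_star (fun v => sd v ↔ sd y) ?_ ?_)
      · simpa using this
      · intro u hu v hv huv
        have hu' := (mem_filter.1 (mem_sdiff.1 hu).1).1
        have hv' := (mem_filter.1 (mem_sdiff.1 hv).1).1
        have := hb u hu' v hv'
        rw [flip_adj] at huv
        grind
      · intro z hz t ht' t' ht'' sz zt zt'
        have hz' := mem_filter.1 (mem_sdiff.1 hz).1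
        have key : ∀ t ∈ A, (flip H (fun v => (H.Adj y v, sd v ↔ sd y))
            (fun p q => p.1 ∧ q.2)).Adj z t → (H.Adj z t ↔ ¬ H.Adj y t) := by
          intro t ht' zt
          have htS := (mem_filter.1 ht').1
          have h1 := hb z hz'.1 t htS
          have h2 := hb y hy z hz'.1
          have h3 := hb y hy t htS
          rw [flip_adj] at zt
          grind
        have k1 := key t (mem_sdiff.1 ht').1 zt
        have k2 := key t' (mem_sdiff.1 ht'').1 zt'
        have tS := (mem_filter.1 (mem_sdiff.1 ht').1).1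
        have tS' := (mem_filter.1 (mem_sdiff.1 ht'').1).1
        have tF := (mem_sdiff.1 ht').2
        have tF' := (mem_sdiff.1 ht'').2
        simp only [mem_insert, mem_singleton, not_or] at tF tF'
        rcases hz'.2 with rfl | hz2 | hz2
        · exact absurd k1 iff_not_self
        · by_cases e1 : H.Adj y t <;> by_cases e2 : H.Adj y t'
          · exact ua z hz2 t tS t' tS' e1 e2 (fun h => k1.1 h e1) (fun h => k2.1 h e2)
          · rcases h0 z hz2 t tS t' tS' e1 (fun h => k1.1 h e1) (k2.2 e2) e2 with h | h | h | h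
            · exact absurd h tF.1
            · exact absurd h tF.2.1
            · exact absurd h tF.2.2.1
            · exact absurd h tF'.2.2.2
          · rcases h0 z hz2 t' tS' t tS e2 (fun h => k2.1 h e2) (k1.2 e1) e1 with h | h | h | h
            · exact absurd h tF'.1
            · exact absurd h tF'.2.1
            · exact absurd h tF'.2.2.1
            · exact absurd h tF.2.2.2
          · exact ux z hz2 t tS t' tS' (k1.2 e1) (k2.2 e2) e1 e2
        · exact absurd sz (sdX z hz'.1 hz2)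
    · intro a ha
      obtain ⟨haS, h | h | h⟩ := mem_filter.1 ha
      · left
        intro z hz hzA az
        exact hzA (mem_filter.2 ⟨hz, Or.inr (Or.inr (Or.inl (h ▸ az)))⟩)
      · left
        intro z hz hzA az
        exact hzA (mem_filter.2 ⟨hz, Or.inr (Or.inr (Or.inr ⟨a, h, az⟩))⟩)
      · right
        intro z hz hzA
        exact ⟨fun e => (hcase z hz hzA a haS a1 ha1 h (Or.inl ya1) e.symm).symm,
          fun e => (hcase z hz hzA a1 ha1 a haS (Or.inl ya1) h e.symm).symm⟩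
  left
  push Not at hcase
  obtain ⟨w, hw, hwA, v, hv, v', hv', xv, xv', wv, wv'⟩ := hcase
  have wy : w ≠ y := fun e => hwA (mem_filter.2 ⟨hw, Or.inl e⟩)
  have wS : ¬ Sib w := fun e => hwA (mem_filter.2 ⟨hw, Or.inr (Or.inl e)⟩)
  by_cases hn : ∃ b ∈ S, H.Adj y b ∧ H.Adj w b
  · exfalso
    have hall : ∀ a ∈ S, H.Adj y a → H.Adj w a := by
      intro a ha ya
      by_contra h
      exact wS ⟨hw, hn, a, ha, ya, h⟩
    have yv' : ¬ H.Adj y v' := fun h => wv' (hall v' hv' h)
    obtain ⟨z, hz, zv'⟩ := xv'.resolve_left yv'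
    obtain ⟨c, hc', wc, yc⟩ : ∃ c ∈ S, H.Adj w c ∧ ¬ H.Adj y c := by
      by_contra hh
      push Not at hh
      exact wy (ht w hw y hy (fun t ht' _ _ => ⟨hh t ht', hall t ht'⟩))
    have zc : ¬ H.Adj z c := fun h => wv' (ux z hz c hc' v' hv' h zv' yc yv' ▸ wc)
    obtain ⟨hzS, ⟨b, hb', yb, zb⟩, a, ha, ya, za⟩ := hz
    exact yc (hs z hzS w hw b hb' v' hv' a ha c hc' zb (hall b hb' yb) zv' wv' (hall a ha ya) wc
      za zc ▸ ya)
  push Not at hn
  have yv : ¬ H.Adj y v := fun h => hn v hv h wv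
  obtain ⟨z, hz, zv⟩ := xv.resolve_left yv
  have hz' := hz
  obtain ⟨hzS, ⟨b, hb', yb, zb⟩, a, ha, ya, za⟩ := hz'
  obtain ⟨x', hx', wx', x'v⟩ : ∃ x' ∈ S, H.Adj w x' ∧ x' ≠ v := by
    obtain ⟨p, hp', q, hq, pq, wp, wq⟩ := hp w hw
    by_cases e : p = v
    · exact ⟨q, hq, wq, fun h => pq (e.trans h.symm)⟩
    · exact ⟨p, hp', wp, e⟩
  have zx' : ¬ H.Adj z x' := fun h =>
    x'v (ux z hz x' hx' v hv h zv (fun h' => hn x' hx' h' wx') yv)
  have Nz : ∀ t ∈ S, H.Adj z t → t = b ∨ t = v := by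
    intro t ht' zt
    by_cases e : H.Adj y t
    · exact Or.inl (hs w hw z hzS v hv x' hx' t ht' b hb' wv zv wx' zx' zt zb (hn t ht' e)
        (hn b hb' yb))
    · exact Or.inr (ux z hz t ht' v hv zt zv e yv)
  have wz : w ≠ z := fun e => wS (e ▸ hz)
  have common : ∀ t ∈ S, H.Adj b t → H.Adj v t → t = z := by
    intro t ht' bt vt
    by_contra tz
    obtain ⟨c, hc', tc, zc⟩ : ∃ c ∈ S, H.Adj t c ∧ ¬ H.Adj z c := by
      by_contra hh
      push Not at hh
      refine tz (ht t ht' z hzS (fun s hs' _ _ => ⟨hh s hs', fun h => ?_⟩))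
      rcases Nz s hs' h with rfl | rfl
      · exact bt.symm
      · exact vt.symm
    by_cases ta : H.Adj t a
    · exact wz (hs a ha v hv t ht' y hy w hw z hzS ta.symm vt ya.symm (ns yv) wv.symm zv.symm
        (ns (hn a ha ya)) (ns za))
    · have yc : ¬ H.Adj y c := fun h => ta (ua z hz c hc' a ha h ya zc za ▸ tc)
      exact zc (hs y hy t ht' b hb' a ha v hv c hc' yb bt.symm ya ta vt.symm tc yv yc ▸ zv)
  have Nb : ∀ t ∈ S, H.Adj b t → t = z ∨ t = y := by
    intro t ht' bt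
    by_cases e : H.Adj v t
    · exact Or.inl (common t ht' bt e)
    · exact Or.inr (hs v hv b hb' z hzS w hw t ht' y hy zv.symm zb.symm wv.symm (ns (hn b hb' yb))
        bt yb.symm e (ns yv))
  have Nv : ∀ t ∈ S, H.Adj v t → t = z ∨ t = w := by
    intro t ht' vt
    by_cases e : H.Adj b t
    · exact Or.inl (common t ht' e vt)
    · exact Or.inr (hs b hb' v hv z hzS y hy t ht' w hw zb.symm zv.symm yb.symm (ns yv)
        vt wv.symm e (ns (hn b hb' yb)))
  have mk : ∀ u p q, (∀ t ∈ S, H.Adj u t → t = p ∨ t = q) → D2 H S u := by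
    intro u p q h a ha b hb c hc ua ub uc
    rcases h a ha ua with rfl | rfl <;> rcases h b hb ub with rfl | rfl <;>
      rcases h c hc uc with rfl | rfl <;> simp
  refine (all_D2 hs hc ht hp hzS ?_).mono (by simp [cS])
  rintro u hu (rfl | h)
  · exact mk _ _ _ Nz
  · rcases Nz u hu h with rfl | rfl
    · exact mk _ _ _ Nb
    · exact mk _ _ _ Nv

/-- bound -/
def cB : ℕ := 2 * (2 * (cS + 1) + 1)

lemma W_bipR {G : SimpleGraph V} (hR : RF G) {S : Finset V} (sd : V → Prop)
    (hb : ∀ a ∈ S, ∀ b ∈ S, G.Adj a b → (sd a ↔ ¬ sd b)) : W G cB S := by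
  have key : ∀ a ∈ S, ∀ b ∈ S, ((flip G sd (fun p q => p ∧ ¬ q)).Adj a b ↔
      (sd a ↔ ¬ sd b) ∧ ¬ G.Adj a b) := by
    intro a ha b hb'
    have := hb a ha b hb'
    rw [flip_adj]
    by_cases e : a = b
    · subst e; simp
    · grind
  have := W_flip (G := G) sd (fun p q => p ∧ ¬ q) (k := 2 * (cS + 1)) (S := S) (W_s113 sd ?_ ?_)
  · simpa [cB] using this
  · intro a ha b hb' h
    exact ((key a ha b hb').1 h).1
  · intro y hy y' hy' b hb' x hx a ha c hc h1 h2 h3 h4 h5 h6 h7 h8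
    rw [key _ hy _ hb'] at h1
    rw [key _ hy' _ hb'] at h2
    rw [key _ hy _ hx] at h3
    rw [key _ hy' _ hx] at h4
    rw [key _ hy' _ ha] at h5
    rw [key _ hy' _ hc] at h6
    rw [key _ hy _ ha] at h7
    rw [key _ hy _ hc] at h8
    have nn : ∀ p ∈ S, ∀ q ∈ S, (sd p ↔ sd q) → ¬ G.Adj p q := by
      intro p hp q hq e h
      have := hb p hp q hq h
      grind
    have s1 := h1.1
    have s2 := h2.1
    have s3 := h3.1
    have s5 := h5.1
    have s6 := h6.1
    by_contra ac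
    exact hR b y' x a y c (by grind) (by grind [SimpleGraph.adj_comm]) (by grind)
      (nn a ha c hc (by grind)) (ns h2.2) (nn b hb' x hx (by grind)) (nn b hb' a ha (by grind))
      (ns h1.2) (nn b hb' c hc (by grind)) h5.2 (nn y' hy' y hy (by grind)) h6.2
      (nn x hx a ha (by grind)) (ns h3.2) (nn x hx c hc (by grind)) ac

end

end Pool.Agent.MP_41f2d3_co
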