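import Pool.Agent.MP_41f2d3_co.RCoreLocal

/-! Three independent classes without independent transversal have bounded width. -/

namespace Pool.Agent.MP_41f2d3_co

open Finset Classical

noncomputable section

variable {V : Type} {G : SimpleGraph V} {D A B : V → Prop} {d a b : V}

lemma Tri3.rot (h : Tri3 G D A B) : Tri3 G A B D :=
  ⟨h.iA, h.iB, h.iD, h.nAB, h.nBD, h.nDA,
    fun hx hy hz n1 n2 n3 => h.rb hz hx hy (ns n2) (ns n3) n1,
    h.pAB, h.pBA, h.pBD, h.pDB, h.pDA, h.pAD⟩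

lemma Tri3.sw (h : Tri3 G D A B) : Tri3 G D B A :=
  ⟨h.iD, h.iB, h.iA, fun hx hy => (h.nBD hy hx).symm, fun hx hy => (h.nAB hy hx).symm,
    fun hx hy => (h.nDA hy hx).symm,
    fun hx hy hz n1 n2 n3 => h.rb hx hz hy n2 n1 (ns n3),
    h.pDB, h.pBD, h.pBA, h.pAB, h.pAD, h.pDA⟩

lemma Tr.rot (t : Tr G D A B d a b) : Tr G A B D a b d :=
  ⟨t.ha, t.hb, t.hd, t.ab, t.db.symm, t.da.symm⟩

lemma Tr.sw (t : Tr G D A B d a b) : Tr G D B A d b a :=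
  ⟨t.hd, t.hb, t.ha, t.db, t.ab.symm, t.da⟩

/-- the edge `x y` lies in an induced pair of edges -/
def K2 (G : SimpleGraph V) (P Q : V → Prop) (x y : V) : Prop :=
  ∃ x' y', P x' ∧ Q y' ∧ G.Adj x' y' ∧ ¬ G.Adj x y' ∧ ¬ G.Adj x' y

/-- the non-edge `x y` lies in an induced pair of edges -/
def N2 (G : SimpleGraph V) (P Q : V → Prop) (x y : V) : Prop :=
  ∃ x' y', P x' ∧ Q y' ∧ G.Adj x y' ∧ G.Adj x' y ∧ ¬ G.Adj x' y'

/-- strong arcs between two consecutive classes -/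
def Arc (G : SimpleGraph V) (P Q : V → Prop) (y x : V) : Prop :=
  (P y ∧ Q x ∧ G.Adj y x) ∨ (P x ∧ Q y ∧ G.Adj x y ∧ K2 G P Q x y) ∨
    (P x ∧ Q y ∧ ¬ G.Adj x y ∧ ¬ N2 G P Q x y)

lemma Arc.rev {P Q : V → Prop} {x y : V} (h : Arc G P Q y x) : Arc G Q P x y := by
  rcases h with ⟨h1, h2, h3⟩ | ⟨h1, h2, h3, x', y', k1, k2, k3, k4, k5⟩ | ⟨h1, h2, h3, h4⟩
  · exact Or.inl ⟨h2, h1, h3.symm⟩
  · exact Or.inr (Or.inl ⟨h2, h1, h3.symm, y', x', k2, k1, k3.symm, ns k5, ns k4⟩)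
  · refine Or.inr (Or.inr ⟨h2, h1, ns h3, ?_⟩)
    rintro ⟨y', x', k1, k2, k3, k4, k5⟩
    exact h4 ⟨x', y', k2, k1, k4.symm, k3.symm, ns k5⟩

/-- closed under predecessors -/
def UC (G : SimpleGraph V) (D A B : V → Prop) (U : V → Prop) : Prop :=
  ∀ x y, U x → (Arc G D A y x ∨ Arc G A B y x ∨ Arc G B D y x) → U y

lemma UC.rot {U : V → Prop} (h : UC G D A B U) : UC G A B D U :=
  fun x y hx e => h x y hx (e.elim (fun e => Or.inr (Or.inl e))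
    (fun e => e.elim (fun e => Or.inr (Or.inr e)) Or.inl))

lemma UC.compl {L : V → Prop} (h : UC G D B A L) : UC G D A B (fun v => ¬ L v) := by
  intro x y hx e hy
  refine hx (h y x hy ?_)
  rcases e with e | e | e
  · exact Or.inr (Or.inr e.rev)
  · exact Or.inr (Or.inl e.rev)
  · exact Or.inl e.rev

lemma back_eq (h : Tri3 G D A B) {U : V → Prop} (hU : UC G D A B U) {x1 x2 y1 y2 : V}
    (d1 : D x1) (d2 : D x2) (a1 : A y1) (a2 : A y2) (u1 : U x1) (u2 : U x2) (n1 : ¬ U y1)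
    (n2 : ¬ U y2) (e1 : ¬ G.Adj x1 y1) (e2 : ¬ G.Adj x2 y2) : ¬ G.Adj x2 y1 := by
  intro e
  have get : ∀ x y, D x → A y → U x → ¬ U y → ¬ G.Adj x y →
      ∃ x' y', D x' ∧ A y' ∧ G.Adj x y' ∧ G.Adj x' y ∧ ¬ G.Adj x' y' ∧ U y' ∧ ¬ U x' := by
    intro x y dx ay ux ny nxy
    have : N2 G D A x y := by
      by_contra hh
      exact ny (hU x y ux (Or.inl (Or.inr (Or.inr ⟨dx, ay, nxy, hh⟩))))
    obtain ⟨x', y', k1, k2, k3, k4, k5⟩ := this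
    refine ⟨x', y', k1, k2, k3, k4, k5,
      hU x y' ux (Or.inl (Or.inr (Or.inl ⟨dx, k2, k3, x', y, k1, ay, k4, nxy, k5⟩))), fun u => ?_⟩
    exact ny (hU x' y u (Or.inl (Or.inr (Or.inl ⟨k1, ay, k4, x, y', dx, k2, k3, k5, nxy⟩))))
  obtain ⟨p1, q1, k1, k2, k3, k4, k5, k6, _⟩ := get x1 y1 d1 a1 u1 n1 e1
  obtain ⟨p2, q2, l1, _, _, l4, _, _, l7⟩ := get x2 y2 d2 a2 u2 n2 e2
  have nk : ¬ K2 G D A x2 y1 := fun k => n1 (hU x2 y1 u2 (Or.inl (Or.inr (Or.inl ⟨d2, a1, e, k⟩))))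
  have f1 : G.Adj p2 y1 := by
    by_contra hh
    exact nk ⟨p2, y2, l1, a2, l4, e2, hh⟩
  by_cases ep : p1 = p2
  · subst ep
    refine h.pDA k1 d1 a1 a2 k2 k4 l4 k3 e1 (fun hh => nk ⟨x1, y2, d1, a2, hh, e2, e1⟩) k5 ?_
    exact fun hh => e2 (hh ▸ e)
  · refine h.pAD a1 k2 k1 l1 d1 k4.symm f1.symm k3.symm (ns k5) (fun hh => ?_) (ns e1) ep
    exact l7 (hU q1 p2 k6 (Or.inl (Or.inl ⟨l1, k2, hh.symm⟩)))

lemma UC_same (h : Tri3 G D A B) {U : V → Prop} (hU : UC G D A B U) {x1 x2 : V}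
    (d1 : D x1) (d2 : D x2) (u1 : U x1) (u2 : U x2)
    (hb : (∃ y, A y ∧ ¬ U y ∧ ¬ G.Adj x1 y) → ∃ y, A y ∧ ¬ U y ∧ ¬ G.Adj x2 y) {z : V}
    (hz : D z ∨ A z ∨ B z) (nz : ¬ U z) (e : G.Adj x2 z) : G.Adj x1 z := by
  rcases hz with hz | hz | hz
  · exact absurd e (h.iD d2 hz)
  · by_contra n
    obtain ⟨y, hy, ny, n2⟩ := hb ⟨z, hz, nz, n⟩
    exact back_eq h hU d1 d2 hz hy u1 u2 nz ny n n2 e
  · exact absurd (hU x2 z u2 (Or.inr (Or.inr (Or.inl ⟨hz, d2, e.symm⟩)))) nz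

lemma UC_Ty (h : Tri3 G D A B) {U : V → Prop} (hU : UC G D A B U) {S X : Finset V}
    (hS : ∀ v ∈ S, D v ∨ A v ∨ B v) (hX : ∀ v ∈ S, v ∈ X ↔ U v) (hXS : X ⊆ S) : Ty G 32 S X := by
  refine Ty_of_labels (fun x => (D x, A x, (∃ y, A y ∧ ¬ U y ∧ ¬ G.Adj x y),
    (∃ y, B y ∧ ¬ U y ∧ ¬ G.Adj x y), (∃ y, D y ∧ ¬ U y ∧ ¬ G.Adj x y))) univ (by simp)
    (fun _ _ => Or.inr (mem_univ _)) ?_
  intro x hx y hy e z hz hzX
  simp only [Prod.mk.injEq, eq_iff_iff] at e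
  obtain ⟨e1, e2, e3, e4, e5⟩ := e
  have ux := (hX x (hXS hx)).1 hx
  have uy := (hX y (hXS hy)).1 hy
  have nz : ¬ U z := fun u => hzX ((hX z hz).2 u)
  have cz := hS z hz
  rcases hS x (hXS hx) with c | c | c
  · exact ⟨UC_same h hU (e1.1 c) c uy ux e3.2 cz nz, UC_same h hU c (e1.1 c) ux uy e3.1 cz nz⟩
  · have cz' : A z ∨ B z ∨ D z := or_rotate.1 cz
    exact ⟨UC_same h.rot hU.rot (e2.1 c) c uy ux e4.2 cz' nz,
      UC_same h.rot hU.rot c (e2.1 c) ux uy e4.1 cz' nz⟩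
  · have cz' : B z ∨ D z ∨ A z := or_rotate.1 (or_rotate.1 cz)
    have c' : B y := by
      rcases hS y (hXS hy) with c' | c' | c'
      · exact absurd rfl (h.nBD c (e1.2 c'))
      · exact absurd rfl (h.nAB (e2.2 c') c)
      · exact c'
    exact ⟨UC_same h.rot.rot hU.rot.rot c' c uy ux e5.2 cz' nz,
      UC_same h.rot.rot hU.rot.rot c c' ux uy e5.1 cz' nz⟩

/-- upper middle vertices -/
def UM (G : SimpleGraph V) (D A B : V → Prop) (d a b y : V) : Prop :=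
  B y ∧ ¬ G.Adj y d ∧ ¬ G.Adj y a ∧ (∃ x, D x ∧ G.Adj x y ∧ G.Adj x a ∧ ¬ G.Adj x b) ∧
    ∀ w, A w → G.Adj w y → G.Adj w b

/-- vertices above the triangle -/
def Ub (G : SimpleGraph V) (D A B : V → Prop) (d a b x : V) : Prop :=
  D x ∧ G.Adj x a ∧ ¬ G.Adj x b ∧ ∀ y, B y → G.Adj x y → ¬ G.Adj y d → UM G D A B d a b y

/-- the set above the triangle -/
def U1 (G : SimpleGraph V) (D A B : V → Prop) (d a b v : V) : Prop :=
  (Ub G D A B d a b v ∨ UM G D A B d a b v) ∨ (Ub G A B D a b d v ∨ UM G A B D a b d v) ∨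
    (Ub G B D A b d a v ∨ UM G B D A b d a v)

lemma U1.rot {v : V} (h : U1 G D A B d a b v) : U1 G A B D a b d v := by
  rcases h with h | h | h
  · exact Or.inr (Or.inr h)
  · exact Or.inl h
  · exact Or.inr (Or.inl h)

lemma q1 (hD : DF G) (h : Tri3 G D A B) (t : Tr G D A B d a b) {x y : V} (hx : D x) (hy : B y)
    (xa : G.Adj x a) (xb : ¬ G.Adj x b) (yx : G.Adj y x) (yd : G.Adj y d) :
    Ub G B D A b d a y := by
  have ya : ¬ G.Adj y a := fun e => c1a hD h t hx hy xa yx yd e xb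
  refine ⟨hy, yd, ya, fun w hw yw wb => ⟨hw, wb, fun e => c1b hD h t hx hy hw xa yx yd yw e xb wb,
    ⟨y, hy, yw, yd, ya⟩, fun v hv vw => ?_⟩⟩
  by_contra e
  exact c1c hD h t hx hy hw hv xa yx yd yw vw xb wb e

lemma Ub_closed (hD : DF G) (h : Tri3 G D A B) (t : Tr G D A B d a b) {x y : V}
    (hx : Ub G D A B d a b x) (e : Arc G D A y x ∨ Arc G A B y x ∨ Arc G B D y x) :
    U1 G D A B d a b y := by
  obtain ⟨dx, xa, xb, hx⟩ := hx
  have nA : ¬ A x := fun c => h.nDA dx c rfl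
  have nB : ¬ B x := fun c => h.nBD c dx rfl
  rcases e with (e | ⟨_, hy, xy, p, q, hp, hq, pq, xq, py⟩ | ⟨_, hy, xy, _⟩) | (e | e | e) |
    (⟨hy, _, yx⟩ | e | e)
  · exact absurd e.2.1 nA
  · refine Or.inr (Or.inl (Or.inl ⟨hy, ?_, fun e => c1e2 hD h t dx hy hp hq xa xy pq e xb xq py,
      fun w hw yw wa => (c1e3 hD h t dx hy hp hq hw xa xy pq yw xb xq py wa).elim⟩))
    by_contra e
    exact c1e1 hD h t dx hy hp hq xa xy pq xb xq py e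
  · refine Or.inr (Or.inl (Or.inl ⟨hy, ?_, fun e => c1d1 hD h t dx hy xa e xb xy,
      fun w hw yw wa => (c1d2 hD h t dx hy hw xa yw xb xy wa).elim⟩))
    by_contra e
    exact h.rb dx hy t.hb xy xb e
  · exact absurd e.2.1 nB
  · exact absurd e.1 nA
  · exact absurd e.1 nA
  · by_cases yd : G.Adj y d
    · exact Or.inr (Or.inr (Or.inl (q1 hD h t dx hy xa xb yx yd)))
    · exact Or.inl (Or.inr (hx y hy yx.symm yd))
  · exact absurd e.1 nB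
  · exact absurd e.1 nB

lemma UM_closed (hD : DF G) (h : Tri3 G D A B) (t : Tr G D A B d a b) {y z : V}
    (hy : UM G D A B d a b y) (e : Arc G D A z y ∨ Arc G A B z y ∨ Arc G B D z y) :
    U1 G D A B d a b z := by
  have hy0 := hy
  obtain ⟨by', yd, ya, ⟨x, dx, xy, xa, xb⟩, hw⟩ := hy
  have nA : ¬ A y := fun c => h.nAB c by' rfl
  have nD : ¬ D y := fun c => h.nBD by' c rfl
  rcases e with (e | e | e) | (⟨hz, _, zy⟩ | e | e) |
    (e | ⟨_, hz, yz, p, q, hp, hq, pq, yq, pz⟩ | ⟨_, hz, yz, hn⟩)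
  · exact absurd e.2.1 nA
  · exact absurd e.1 nD
  · exact absurd e.1 nD
  · have zb := hw z hz zy
    exact Or.inr (Or.inl (Or.inl ⟨hz, zb, fun e => c2a1 hD h t by' dx hz xy xa zy zb e yd ya xb,
      fun w hw zw wa => (c2a2 hD h t by' dx hz hw xy xa zy zb zw yd ya xb wa).elim⟩))
  · exact absurd e.1 nA
  · exact absurd e.1 nA
  · exact absurd e.2.1 nD
  · have : z = x := by
      by_contra e
      exact c2b1 hD h t by' dx hz hp hq xy xa yz pq yd ya xb yq pz e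
    subst this
    refine Or.inl (Or.inl ⟨hz, xa, xb, fun p hp zp pd => ?_⟩)
    have : p = y := by
      by_contra e
      exact c2b2 hD h t by' hz hp xy xa zp yd ya xb pd e
    exact this ▸ hy0
  · have key : ∀ p, B p → G.Adj p z → G.Adj p x := by
      intro p hp pz
      by_contra e
      exact hn ⟨p, x, hp, dx, xy.symm, pz, e⟩
    refine Or.inl (Or.inl ⟨hz, ?_, fun e => xb (key b t.hb e.symm).symm, fun p hp zp pd => ?_⟩)
    · by_contra e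
      exact h.rb hz t.ha by' e (ns yz) (ns ya)
    · exact (c2b2 hD h t by' dx hp xy xa (key p hp zp.symm).symm yd ya xb pd
        (fun e => yz (e ▸ zp.symm))).elim

lemma U1_UC (hD : DF G) (h : Tri3 G D A B) (t : Tr G D A B d a b) :
    UC G D A B (U1 G D A B d a b) := by
  intro x y hx e
  have e1 : Arc G A B y x ∨ Arc G B D y x ∨ Arc G D A y x := or_rotate.1 e
  have e2 : Arc G B D y x ∨ Arc G D A y x ∨ Arc G A B y x := or_rotate.1 e1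
  rcases hx with (hx | hx) | (hx | hx) | (hx | hx)
  · exact Ub_closed hD h t hx e
  · exact UM_closed hD h t hx e
  · exact (Ub_closed hD h.rot t.rot hx e1).rot.rot
  · exact (UM_closed hD h.rot t.rot hx e1).rot.rot
  · exact (Ub_closed hD h.rot.rot t.rot.rot hx e2).rot
  · exact (UM_closed hD h.rot.rot t.rot.rot hx e2).rot

lemma U1_not (h : Tri3 G D A B) (t : Tr G D A B d a b) : ¬ U1 G D A B d a b d := by
  rintro ((hx | hx) | (hx | hx) | (hx | hx))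
  · exact hx.2.2.1 t.db
  · exact h.nBD hx.1 t.hd rfl
  · exact h.nDA t.hd hx.1 rfl
  · exact hx.2.1 t.da
  · exact h.nBD hx.1 t.hd rfl
  · exact h.nDA t.hd hx.1 rfl

lemma qM (hD : DF G) (h : Tri3 G D A B) (t : Tr G D A B d a b) {x y : V} (hx : D x) (hy : B y)
    (xd : x ≠ d) (yb : y ≠ b) (lx : ¬ U1 G D B A d b a x) (uy : ¬ U1 G D A B d a b y)
    (e : G.Adj x y ↔ ¬ (¬ G.Adj x a ∧ ¬ G.Adj y a)) :
    G.Adj x y ∧ ¬ G.Adj x b ∧ ¬ G.Adj y d := by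
  have xy : G.Adj x y := by
    by_contra n
    have : ¬ G.Adj x a ∧ ¬ G.Adj y a := by
      by_contra hh
      exact n (e.2 hh)
    exact h.rb hx t.ha hy this.1 n (ns this.2)
  have f1 : G.Adj x a → ¬ G.Adj x b := fun e1 e2 =>
    h.iD hx t.hd (hD a b x d t.ab e1.symm t.da.symm e2.symm t.db.symm xd)
  have f2 : G.Adj y a → ¬ G.Adj y d := fun e1 e2 =>
    h.iB hy t.hb (hD a d y b t.da.symm e1.symm t.ab e2.symm t.db yb)
  have g1 : G.Adj x a → ¬ G.Adj y d := fun e1 e2 =>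
    uy (Or.inr (Or.inr (Or.inl (q1 hD h t hx hy e1 (f1 e1) xy.symm e2))))
  have g2 : G.Adj y a → ¬ G.Adj x b := fun e1 e2 =>
    lx (Or.inl (Or.inl (q1 hD h.sw.rot t.sw.rot hy hx e1 (f2 e1) xy e2)))
  refine ⟨xy, ?_⟩
  by_cases e1 : G.Adj x a
  · exact ⟨f1 e1, g1 e1⟩
  · have e2 : G.Adj y a := by
      by_contra n
      exact e.1 xy ⟨e1, n⟩
    exact ⟨g2 e2, f2 e2⟩

lemma pigeon3 {d0 a0 b0 d1 a1 b1 d2 a2 b2 d3 a3 b3 r s t : Prop} (c0 : d0 ∨ a0 ∨ b0)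
    (c1 : d1 ∨ a1 ∨ b1) (c2 : d2 ∨ a2 ∨ b2) (c3 : d3 ∨ a3 ∨ b3)
    (j1 : (d0 ∧ d1) ∨ (a0 ∧ a1) ∨ (b0 ∧ b1) → False)
    (j2 : (d0 ∧ d2) ∨ (a0 ∧ a2) ∨ (b0 ∧ b2) → False)
    (j3 : (d0 ∧ d3) ∨ (a0 ∧ a3) ∨ (b0 ∧ b3) → False)
    (i1 : (d1 ∧ d2) ∨ (a1 ∧ a2) ∨ (b1 ∧ b2) → r) (i2 : (d1 ∧ d3) ∨ (a1 ∧ a3) ∨ (b1 ∧ b3) → s)
    (i3 : (d2 ∧ d3) ∨ (a2 ∧ a3) ∨ (b2 ∧ b3) → t) : r ∨ s ∨ t := by
  grind

/-- bound -/
def cQ : ℕ := J 3 (576 + 3)

lemma W_Q (hD : DF G) (h : Tri3 G D A B) (t : Tr G D A B d a b) {P : Finset V}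
    (hP : ∀ v ∈ P, (D v ∨ A v ∨ B v) ∧ ¬ U1 G D A B d a b v ∧ ¬ U1 G D B A d b a v) :
    W G cQ P := by
  refine W_del (F := {d, a, b}) card_le_three ?_
  have hP' : ∀ v ∈ P \ {d, a, b}, ((D v ∨ A v ∨ B v) ∧ ¬ U1 G D A B d a b v ∧
      ¬ U1 G D B A d b a v) ∧ v ≠ d ∧ v ≠ a ∧ v ≠ b := by
    intro v hv
    simp only [mem_sdiff, mem_insert, mem_singleton, not_or] at hv
    exact ⟨hP v hv.1, hv.2⟩
  generalize P \ {d, a, b} = P' at hP'
  let lab : V → Prop × Prop × Prop × Prop × Prop × Prop :=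
    fun v => (D v, A v, B v, G.Adj v d, G.Adj v a, G.Adj v b)
  let φ : Prop × Prop × Prop × Prop × Prop × Prop → Prop × Prop × Prop × Prop × Prop × Prop →
      Prop := fun p q => (p.1 ∧ q.2.2.1 ∧ ¬ p.2.2.2.2.1 ∧ ¬ q.2.2.2.2.1) ∨
    (p.2.1 ∧ q.1 ∧ ¬ p.2.2.2.2.2 ∧ ¬ q.2.2.2.2.2) ∨ (p.2.2.1 ∧ q.2.1 ∧ ¬ p.2.2.2.1 ∧ ¬ q.2.2.2.1)
  have := W_flip (G := G) lab φ (k := J 1 3) (S := P') (W_deg2 ?_)
  · exact this.mono (by simp [J])
  have nDA : ∀ {v}, D v → ¬ A v := fun c c' => h.nDA c c' rfl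
  have nDB : ∀ {v}, D v → ¬ B v := fun c c' => h.nBD c' c rfl
  have nAD : ∀ {v}, A v → ¬ D v := fun c c' => h.nDA c' c rfl
  have nAB : ∀ {v}, A v → ¬ B v := fun c c' => h.nAB c c' rfl
  have nBD : ∀ {v}, B v → ¬ D v := fun c c' => h.nBD c c' rfl
  have nBA : ∀ {v}, B v → ¬ A v := fun c c' => h.nAB c' c rfl
  have mDB : ∀ x ∈ P', ∀ y ∈ P', D x → B y → (flip G lab φ).Adj x y →
      G.Adj x y ∧ ¬ G.Adj x b ∧ ¬ G.Adj y d := by
    intro x hx y hy cx cy e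
    refine qM hD h t cx cy (hP' x hx).2.1 (hP' y hy).2.2.2 (hP' x hx).1.2.2 (hP' y hy).1.2.1 ?_
    have e2 := e.2
    simp only [lab, φ, cx, cy, nDA cx, nDB cx, nBD cy, nBA cy, true_and, false_and, and_false,
      or_false] at e2
    exact e2
  have mAD : ∀ x ∈ P', ∀ y ∈ P', A x → D y → (flip G lab φ).Adj x y →
      G.Adj x y ∧ ¬ G.Adj x d ∧ ¬ G.Adj y a := by
    intro x hx y hy cx cy e
    refine qM hD h.rot t.rot cx cy (hP' x hx).2.2.1 (hP' y hy).2.1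
      (fun u => (hP' x hx).1.2.2 u.rot) (fun u => (hP' y hy).1.2.1 u.rot.rot) ?_
    have e2 := e.2
    simp only [lab, φ, cx, cy, nAD cx, nAB cx, nDB cy, nDA cy, true_and, false_and, and_false,
      or_false, false_or] at e2
    exact e2
  have mBA : ∀ x ∈ P', ∀ y ∈ P', B x → A y → (flip G lab φ).Adj x y →
      G.Adj x y ∧ ¬ G.Adj x a ∧ ¬ G.Adj y b := by
    intro x hx y hy cx cy e
    refine qM hD h.rot.rot t.rot.rot cx cy (hP' x hx).2.2.2 (hP' y hy).2.2.1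
      (fun u => (hP' x hx).1.2.2 u.rot.rot) (fun u => (hP' y hy).1.2.1 u.rot) ?_
    have e2 := e.2
    simp only [lab, φ, cx, cy, nBD cx, nBA cx, nAD cy, nAB cy, true_and, false_and, and_false,
      or_false, false_or] at e2
    exact e2
  have same : ∀ x y, (D x ∧ D y) ∨ (A x ∧ A y) ∨ (B x ∧ B y) → ¬ (flip G lab φ).Adj x y := by
    intro x y c e
    have e2 := e.2
    rcases c with ⟨cx, cy⟩ | ⟨cx, cy⟩ | ⟨cx, cy⟩
    · simp only [lab, φ, cx, cy, nDA cx, nDB cx, nDA cy, nDB cy, true_and, false_and, and_false,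
        or_false, not_false_eq_true, iff_true] at e2
      exact h.iD cx cy e2
    · simp only [lab, φ, cx, cy, nAD cx, nAB cx, nAD cy, nAB cy, true_and, false_and, and_false,
        or_false, not_false_eq_true, iff_true] at e2
      exact h.iA cx cy e2
    · simp only [lab, φ, cx, cy, nBD cx, nBA cx, nBD cy, nBA cy, true_and, false_and, and_false,
        or_false, not_false_eq_true, iff_true] at e2
      exact h.iB cx cy e2
  have two : ∀ x ∈ P', ∀ y ∈ P', ∀ z ∈ P', (flip G lab φ).Adj x y → (flip G lab φ).Adj x z →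
      (D y ∧ D z) ∨ (A y ∧ A z) ∨ (B y ∧ B z) → y = z := by
    intro x hx y hy z hz e1 e2 c
    by_contra n
    rcases c with c | c | c <;> rcases (hP' x hx).1.1 with cx | cx | cx
    · exact same x y (Or.inl ⟨cx, c.1⟩) e1
    · have k1 := mAD x hx y hy cx c.1 e1
      have k2 := mAD x hx z hz cx c.2 e2
      exact h.pAD cx t.ha c.1 c.2 t.hd k1.1 k2.1 t.da.symm (ns k1.2.2) (ns k2.2.2) k1.2.1 n
    · have k1 := mDB y hy x hx c.1 cx e1.symm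
      have k2 := mDB z hz x hx c.2 cx e2.symm
      exact h.pBD cx t.hb c.1 c.2 t.hd k1.1.symm k2.1.symm t.db.symm (ns k1.2.1) (ns k2.2.1)
        k1.2.2 n
    · have k1 := mAD y hy x hx c.1 cx e1.symm
      have k2 := mAD z hz x hx c.2 cx e2.symm
      exact h.pDA cx t.hd c.1 c.2 t.ha k1.1.symm k2.1.symm t.da (ns k1.2.1) (ns k2.2.1) k1.2.2 n
    · exact same x y (Or.inr (Or.inl ⟨cx, c.1⟩)) e1
    · have k1 := mBA x hx y hy cx c.1 e1
      have k2 := mBA x hx z hz cx c.2 e2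
      exact h.pBA cx t.hb c.1 c.2 t.ha k1.1 k2.1 t.ab.symm (ns k1.2.2) (ns k2.2.2) k1.2.1 n
    · have k1 := mDB x hx y hy cx c.1 e1
      have k2 := mDB x hx z hz cx c.2 e2
      exact h.pDB cx t.hd c.1 c.2 t.hb k1.1 k2.1 t.db (ns k1.2.2) (ns k2.2.2) k1.2.1 n
    · have k1 := mBA y hy x hx c.1 cx e1.symm
      have k2 := mBA z hz x hx c.2 cx e2.symm
      exact h.pAB cx t.ha c.1 c.2 t.hb k1.1.symm k2.1.symm t.ab (ns k1.2.1) (ns k2.2.1) k1.2.2 n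
    · exact same x y (Or.inr (Or.inr ⟨cx, c.1⟩)) e1
  intro x hx p hp q hq r hr e1 e2 e3
  have i1 := two x hx p hp q hq e1 e2
  have i2 := two x hx p hp r hr e1 e3
  have i3 := two x hx q hq r hr e2 e3
  have j1 := fun c => same x p c e1
  have j2 := fun c => same x q c e2
  have j3 := fun c => same x r c e3
  have c0 := (hP' x hx).1.1
  have c1 := (hP' p hp).1.1
  have c2 := (hP' q hq).1.1
  have c3 := (hP' r hr).1.1
  exact pigeon3 c0 c1 c2 c3 j1 j2 j3 i1 i2 i3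

lemma exists_Tr (h : Tri3 G D A B) {P : Finset V} (hP : ∀ v ∈ P, D v ∨ A v ∨ B v)
    (hT : ¬ TF G P) : ∃ d ∈ P, ∃ a b, Tr G D A B d a b := by
  unfold TF at hT
  push Not at hT
  obtain ⟨x, hx, y, hy, z, hz, xy, xz, yz, _⟩ := hT
  rcases hP x hx with c1 | c1 | c1 <;> rcases hP y hy with c2 | c2 | c2 <;>
    rcases hP z hz with c3 | c3 | c3 <;>
    first
    | exact absurd xy (h.iD c1 c2)
    | exact absurd xy (h.iA c1 c2)
    | exact absurd xy (h.iB c1 c2)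
    | exact absurd xz (h.iD c1 c3)
    | exact absurd xz (h.iA c1 c3)
    | exact absurd xz (h.iB c1 c3)
    | exact absurd yz (h.iD c2 c3)
    | exact absurd yz (h.iA c2 c3)
    | exact absurd yz (h.iB c2 c3)
    | exact ⟨x, hx, y, z, c1, c2, c3, xy, yz, xz⟩
    | exact ⟨x, hx, z, y, c1, c3, c2, xz, yz.symm, xy⟩
    | exact ⟨y, hy, x, z, c2, c1, c3, xy.symm, xz, yz⟩
    | exact ⟨y, hy, z, x, c2, c3, c1, yz, xz.symm, xy.symm⟩
    | exact ⟨z, hz, x, y, c3, c1, c2, xz.symm, xy, yz.symm⟩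
    | exact ⟨z, hz, y, x, c3, c2, c1, yz.symm, xy.symm, xz.symm⟩

/-- bound of the chain lemma -/
@[irreducible] def CH (t k : ℕ) : ℕ := ((t + 1) * 2 ^ t + 1) * (k + 1)

lemma W_chain' {k t : ℕ} {S : Finset V} (C : Finset V → Prop)
    (hC : ∀ X, C X → X ⊆ S ∧ Ty G t S X) (h0 : C ∅) (h1 : C S)
    (gap : ∀ X Y, C X → C Y → X ⊆ Y → W G k (Y \ X) ∨ ∃ Z, C Z ∧ X ⊂ Z ∧ Z ⊂ Y) :
    W G (CH t k) S := by
  unfold CH
  exact W_chain C hC h0 h1 gap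

/-- bound -/
def cC : ℕ := CH 32 (cK + cQ)

theorem W_core (hD : DF G) (hR : RF G) (h : Tri3 G D A B) {S : Finset V}
    (hS : ∀ v, v ∈ S ↔ D v ∨ A v ∨ B v) : W G cC S := by
  have hin : ∀ {x y}, (Arc G D A y x ∨ Arc G A B y x ∨ Arc G B D y x) → y ∈ S := by
    intro x y e
    rw [hS]
    rcases e with (e | e | e) | (e | e | e) | (e | e | e)
    · exact Or.inl e.1
    · exact Or.inr (Or.inl e.2.1)
    · exact Or.inr (Or.inl e.2.1)
    · exact Or.inr (Or.inl e.1)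
    · exact Or.inr (Or.inr e.2.1)
    · exact Or.inr (Or.inr e.2.1)
    · exact Or.inr (Or.inr e.1)
    · exact Or.inl e.2.1
    · exact Or.inl e.2.1
  refine W_chain' (t := 32) (k := cK + cQ) (fun X => X ⊆ S ∧ UC G D A B (fun v => v ∈ X)) ?_ ?_ ?_ ?_
  · intro X hX
    exact ⟨hX.1, UC_Ty h hX.2 (fun v hv => (hS v).1 hv) (fun _ _ => Iff.rfl) hX.1⟩
  · exact ⟨empty_subset _, fun x y hx => by simp at hx⟩
  · exact ⟨Subset.rfl, fun x y _ e => hin e⟩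
  intro X Y hX hY hXY
  have hP : ∀ v ∈ Y \ X, D v ∨ A v ∨ B v := fun v hv => (hS v).1 (hY.1 (mem_sdiff.1 hv).1)
  by_cases hT : TF G (Y \ X)
  · exact Or.inl ((W_K3R hR hT).mono (Nat.le_add_right _ _))
  obtain ⟨d, hd, a, b, t⟩ := exists_Tr h hP hT
  rw [mem_sdiff] at hd
  have mk : ∀ U, UC G D A B U → ∃ Z, (Z ⊆ S ∧ UC G D A B (fun v => v ∈ Z)) ∧ X ⊆ Z ∧ Z ⊆ Y ∧
      ∀ v, v ∈ Z ↔ v ∈ X ∨ (v ∈ Y ∧ U v) := by
    intro U hU
    have s1 : X ∪ Y.filter U ⊆ Y := union_subset hXY (filter_subset _ _)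
    refine ⟨X ∪ Y.filter U, ⟨s1.trans hY.1, fun x y hx e => ?_⟩, subset_union_left, s1,
      fun v => by rw [mem_union, mem_filter]⟩
    rcases mem_union.1 hx with hx | hx
    · exact mem_union_left _ (hX.2 x y hx e)
    · rw [mem_filter] at hx
      exact mem_union_right _ (mem_filter.2 ⟨hY.2 x y hx.1 e, hU x y hx.2 e⟩)
  by_cases c1 : ∃ v ∈ Y \ X, U1 G D A B d a b v
  · obtain ⟨v, hv, u⟩ := c1
    rw [mem_sdiff] at hv
    obtain ⟨Z, m1, m2, m3, m4⟩ := mk _ (U1_UC hD h t)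
    refine Or.inr ⟨Z, m1, ⟨m2, fun s => ?_⟩, m3, fun s => ?_⟩
    · exact hv.2 (s ((m4 v).2 (Or.inr ⟨hv.1, u⟩)))
    · rcases (m4 d).1 (s hd.1) with e | e
      · exact hd.2 e
      · exact U1_not h t e.2
  by_cases c2 : ∃ v ∈ Y \ X, U1 G D B A d b a v
  · obtain ⟨v, hv, u⟩ := c2
    rw [mem_sdiff] at hv
    obtain ⟨Z, m1, m2, m3, m4⟩ := mk _ (U1_UC hD h.sw t.sw).compl
    refine Or.inr ⟨Z, m1, ⟨m2, fun s => ?_⟩, m3, fun s => ?_⟩
    · exact hd.2 (s ((m4 d).2 (Or.inr ⟨hd.1, U1_not h.sw t.sw⟩)))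
    · rcases (m4 v).1 (s hv.1) with e | e
      · exact hv.2 e
      · exact e.2 u
  push Not at c1 c2
  exact Or.inl ((W_Q hD h t (fun v hv => ⟨hP v hv, c1 v hv, c2 v hv⟩)).mono
    (Nat.le_add_left _ _))

end

end Pool.Agent.MP_41f2d3_co
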