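import Pool.Agent.MP_41f2d3_co.RK3b

/-! Local lemmas for three independent classes without independent transversal. -/

namespace Pool.Agent.MP_41f2d3_co

variable {V : Type}

/-- no induced P3 + P2 with the centre of the P3 in `P` -/
def P23 (G : SimpleGraph V) (P Q : V → Prop) : Prop :=
  ∀ ⦃x x' y y' y''⦄, P x → P x' → Q y → Q y' → Q y'' → G.Adj x y → G.Adj x y' → G.Adj x' y'' →
    ¬ G.Adj x' y → ¬ G.Adj x' y' → ¬ G.Adj x y'' → y ≠ y' → False

/-- three independent classes -/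
structure Tri3 (G : SimpleGraph V) (D A B : V → Prop) : Prop where
  iD : ∀ {x y}, D x → D y → ¬ G.Adj x y
  iA : ∀ {x y}, A x → A y → ¬ G.Adj x y
  iB : ∀ {x y}, B x → B y → ¬ G.Adj x y
  nDA : ∀ {x y}, D x → A y → x ≠ y
  nAB : ∀ {x y}, A x → B y → x ≠ y
  nBD : ∀ {x y}, B x → D y → x ≠ y
  rb : ∀ {x y z}, D x → A y → B z → ¬ G.Adj x y → ¬ G.Adj x z → ¬ G.Adj y z → False
  pDA : P23 G D A
  pAD : P23 G A D
  pAB : P23 G A B
  pBA : P23 G B A
  pBD : P23 G B D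
  pDB : P23 G D B

/-- a triangle meeting the three classes -/
structure Tr (G : SimpleGraph V) (D A B : V → Prop) (d a b : V) : Prop where
  hd : D d
  ha : A a
  hb : B b
  da : G.Adj d a
  ab : G.Adj a b
  db : G.Adj d b

set_option linter.unusedVariables false

lemma c1a {G : SimpleGraph V} (hD : DF G) {D A B : V → Prop} (h : Tri3 G D A B) {d a b : V}
    (t : Tr G D A B d a b) {x y : V}
    (hx : D x) (hy : B y) (a0 : G.Adj x a) (a1 : G.Adj y x)
    (a2 : G.Adj y d) (a3 : G.Adj y a) (n0 : ¬ G.Adj x b) : False := by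
  have t1 : b ≠ y := fun hc => eqa hc.symm a1 (ns n0)
  exact (h.iB t.hb hy) (hD d a b y t.da t.db a2.symm t.ab a3.symm t1)

lemma c1b {G : SimpleGraph V} (hD : DF G) {D A B : V → Prop} (h : Tri3 G D A B) {d a b : V}
    (t : Tr G D A B d a b) {x y w : V}
    (hx : D x) (hy : B y) (hw : A w) (a0 : G.Adj x a)
    (a1 : G.Adj y x) (a2 : G.Adj y d) (a3 : G.Adj y w) (a4 : G.Adj w d)
    (n0 : ¬ G.Adj x b) (n1 : ¬ G.Adj w b) : False := by
  have t1 : G.Adj x w := Classical.byContradiction fun hc => h.rb hx hw t.hb hc n0 n1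
  have t2 : d ≠ x := fun hc => eqa hc t.db n0
  exact (h.iD t.hd hx) (hD y w d x a3 a2 a1 a4 t1.symm t2)

lemma c1c {G : SimpleGraph V} (hD : DF G) {D A B : V → Prop} (h : Tri3 G D A B) {d a b : V}
    (t : Tr G D A B d a b) {x y w v : V}
    (hx : D x) (hy : B y) (hw : A w) (hv : D v)
    (a0 : G.Adj x a) (a1 : G.Adj y x) (a2 : G.Adj y d) (a3 : G.Adj y w)
    (a4 : G.Adj v w) (n0 : ¬ G.Adj x b) (n1 : ¬ G.Adj w b) (n2 : ¬ G.Adj v a) : False := by
  have t1 : G.Adj x w := Classical.byContradiction fun hc => h.rb hx hw t.hb hc n0 n1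
  have t2 : b ≠ y := fun hc => eqa hc.symm a1 (ns n0)
  have t3 : x ≠ v := fun hc => eqa hc a0 n2
  have t4 : ¬ G.Adj a y := fun hc => (h.iB t.hb hy) (hD d a b y t.da t.db a2.symm t.ab hc t2)
  have t5 : ¬ G.Adj y v := fun hc => (h.iD hx hv) (hD y w x v a3 a1 hc t1.symm a4.symm t3)
  exact h.rb hv t.ha hy n2 (ns t5) t4

lemma c1d1 {G : SimpleGraph V} (hD : DF G) {D A B : V → Prop} (h : Tri3 G D A B) {d a b : V}
    (t : Tr G D A B d a b) {x y : V}
    (hx : D x) (hy : A y) (a0 : G.Adj x a) (a1 : G.Adj y d)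
    (n0 : ¬ G.Adj x b) (n1 : ¬ G.Adj x y) : False := by
  have t1 : G.Adj b y := Classical.byContradiction fun hc => h.rb hx hy t.hb n1 n0 (ns hc)
  have t2 : a ≠ y := fun hc => eqa hc a0.symm (ns n1)
  exact (h.iA t.ha hy) (hD d b a y t.db t.da a1.symm t.ab.symm t1 t2)

lemma c1d2 {G : SimpleGraph V} (hD : DF G) {D A B : V → Prop} (h : Tri3 G D A B) {d a b : V}
    (t : Tr G D A B d a b) {x y w : V}
    (hx : D x) (hy : A y) (hw : D w) (a0 : G.Adj x a)
    (a1 : G.Adj y w) (n0 : ¬ G.Adj x b) (n1 : ¬ G.Adj x y) (n2 : ¬ G.Adj w a) : False := by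
  have t1 : G.Adj b y := Classical.byContradiction fun hc => h.rb hx hy t.hb n1 n0 (ns hc)
  have t2 : d ≠ x := fun hc => eqa hc t.db n0
  have t3 : a ≠ y := fun hc => eqa hc a0.symm (ns n1)
  have t4 : G.Adj d y := Classical.byContradiction fun hc => h.pAD t.ha hy t.hd hx hw t.da.symm a0.symm a1 (ns hc) (ns n1) (ns n2) t2
  exact (h.iA t.ha hy) (hD d b a y t.db t.da t4 t.ab.symm t1 t3)

lemma c1e1 {G : SimpleGraph V} (hD : DF G) {D A B : V → Prop} (h : Tri3 G D A B) {d a b : V}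
    (t : Tr G D A B d a b) {x y p q : V}
    (hx : D x) (hy : A y) (hp : D p) (hq : A q)
    (a0 : G.Adj x a) (a1 : G.Adj x y) (a2 : G.Adj p q) (n0 : ¬ G.Adj x b)
    (n1 : ¬ G.Adj x q) (n2 : ¬ G.Adj p y) (n3 : ¬ G.Adj y b) : False := by
  have t1 : G.Adj b q := Classical.byContradiction fun hc => h.rb hx hq t.hb n1 n0 (ns hc)
  have t2 : G.Adj b p := Classical.byContradiction fun hc => h.rb hp hy t.hb n2 (ns hc) n3
  have t3 : a ≠ y := fun hc => eqa hc t.ab n3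
  have t4 : a ≠ q := fun hc => eqa hc a0.symm (ns n1)
  have t5 : G.Adj a p := Classical.byContradiction fun hc => h.pDA hx hp t.ha hy hq a0 a1 a2 (ns hc) n2 n1 t3
  exact (h.iA t.ha hq) (hD b p a q t2 t.ab.symm t1 t5.symm a2 t4)

lemma c1e2 {G : SimpleGraph V} (hD : DF G) {D A B : V → Prop} (h : Tri3 G D A B) {d a b : V}
    (t : Tr G D A B d a b) {x y p q : V}
    (hx : D x) (hy : A y) (hp : D p) (hq : A q)
    (a0 : G.Adj x a) (a1 : G.Adj x y) (a2 : G.Adj p q) (a3 : G.Adj y d)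
    (n0 : ¬ G.Adj x b) (n1 : ¬ G.Adj x q) (n2 : ¬ G.Adj p y) : False := by
  have t1 : G.Adj b q := Classical.byContradiction fun hc => h.rb hx hq t.hb n1 n0 (ns hc)
  have t2 : d ≠ x := fun hc => eqa hc t.db n0
  have t3 : a ≠ q := fun hc => eqa hc a0.symm (ns n1)
  have t4 : G.Adj d q := Classical.byContradiction fun hc => h.pAD hy hq t.hd hx hp a3 a1.symm a2.symm (ns hc) (ns n1) (ns n2) t2
  exact (h.iA t.ha hq) (hD d b a q t.db t.da t4 t.ab.symm t1 t3)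

lemma c1e3 {G : SimpleGraph V} (hD : DF G) {D A B : V → Prop} (h : Tri3 G D A B) {d a b : V}
    (t : Tr G D A B d a b) {x y p q w : V}
    (hx : D x) (hy : A y) (hp : D p) (hq : A q)
    (hw : D w) (a0 : G.Adj x a) (a1 : G.Adj x y) (a2 : G.Adj p q)
    (a3 : G.Adj y w) (n0 : ¬ G.Adj x b) (n1 : ¬ G.Adj x q) (n2 : ¬ G.Adj p y)
    (n3 : ¬ G.Adj w a) : False := by
  have t1 : G.Adj b q := Classical.byContradiction fun hc => h.rb hx hq t.hb n1 n0 (ns hc)
  have t2 : d ≠ x := fun hc => eqa hc t.db n0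
  have t3 : a ≠ q := fun hc => eqa hc a0.symm (ns n1)
  have t4 : x ≠ w := fun hc => eqa hc a0 n3
  have t5 : G.Adj q w := Classical.byContradiction fun hc => h.pAD hy hq hx hw hp a1.symm a3 a2.symm (ns n1) hc (ns n2) t4
  have t6 : G.Adj d q := Classical.byContradiction fun hc => h.pAD t.ha hq t.hd hx hw t.da.symm a0.symm t5 (ns hc) (ns n1) (ns n3) t2
  exact (h.iA t.ha hq) (hD d b a q t.db t.da t6 t.ab.symm t1 t3)

lemma c2a1 {G : SimpleGraph V} (hD : DF G) {D A B : V → Prop} (h : Tri3 G D A B) {d a b : V}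
    (t : Tr G D A B d a b) {y x z : V}
    (hy : B y) (hx : D x) (hz : A z) (a0 : G.Adj x y)
    (a1 : G.Adj x a) (a2 : G.Adj z y) (a3 : G.Adj z b) (a4 : G.Adj z d)
    (n0 : ¬ G.Adj y d) (n1 : ¬ G.Adj y a) (n2 : ¬ G.Adj x b) : False := by
  have t1 : a ≠ z := fun hc => eqa hc.symm a2 (ns n1)
  exact (h.iA t.ha hz) (hD d b a z t.db t.da a4.symm t.ab.symm a3.symm t1)

lemma c2a2 {G : SimpleGraph V} (hD : DF G) {D A B : V → Prop} (h : Tri3 G D A B) {d a b : V}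
    (t : Tr G D A B d a b) {y x z w : V}
    (hy : B y) (hx : D x) (hz : A z) (hw : D w)
    (a0 : G.Adj x y) (a1 : G.Adj x a) (a2 : G.Adj z y) (a3 : G.Adj z b)
    (a4 : G.Adj z w) (n0 : ¬ G.Adj y d) (n1 : ¬ G.Adj y a) (n2 : ¬ G.Adj x b)
    (n3 : ¬ G.Adj w a) : False := by
  have t1 : G.Adj y w := Classical.byContradiction fun hc => h.rb hw t.ha hy n3 (ns hc) (ns n1)
  have t2 : d ≠ x := fun hc => eqa hc t.db n2
  have t3 : a ≠ z := fun hc => eqa hc.symm a2 (ns n1)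
  have t4 : x ≠ w := fun hc => eqa hc a1 n3
  have t5 : ¬ G.Adj d z := fun hc => (h.iA t.ha hz) (hD d b a z t.db t.da hc t.ab.symm a3.symm t3)
  have t6 : G.Adj x z := Classical.byContradiction fun hc => h.pAD t.ha hz t.hd hx hw t.da.symm a1.symm a4 (ns t5) (ns hc) (ns n3) t2
  exact (h.iD hx hw) (hD y z x w a2.symm a0.symm t1 t6.symm a4 t4)

lemma c2b1 {G : SimpleGraph V} (hD : DF G) {D A B : V → Prop} (h : Tri3 G D A B) {d a b : V}
    (t : Tr G D A B d a b) {y x z p q : V}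
    (hy : B y) (hx : D x) (hz : D z) (hp : B p)
    (hq : D q) (a0 : G.Adj x y) (a1 : G.Adj x a) (a2 : G.Adj y z)
    (a3 : G.Adj p q) (n0 : ¬ G.Adj y d) (n1 : ¬ G.Adj y a) (n2 : ¬ G.Adj x b)
    (n3 : ¬ G.Adj y q) (n4 : ¬ G.Adj p z) (d0 : z ≠ x) : False := by
  have t1 : G.Adj b z := Classical.byContradiction fun hc => h.pBD hy t.hb hx hz t.hd a0.symm a2 t.db.symm (ns n2) hc n0 (Ne.symm d0)
  have t2 : G.Adj x p := Classical.byContradiction fun hc => h.pBD hy hp hx hz hq a0.symm a2 a3 (ns hc) n4 n3 (Ne.symm d0)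
  have t3 : d ≠ z := fun hc => eqa hc.symm a2.symm (ns n0)
  have t4 : y ≠ p := fun hc => eqa hc a2 n4
  have t5 : b ≠ p := fun hc => eqa hc.symm t2.symm (ns n2)
  have t6 : G.Adj d p := Classical.byContradiction fun hc => h.pDB hx t.hd hy hp t.hb a0 t2 t.db (ns n0) hc n2 t4
  have t7 : ¬ G.Adj a p := fun hc => (h.iB t.hb hp) (hD d a b p t.da t.db t6 t.ab hc t5)
  have t8 : ¬ G.Adj a z := fun hc => (h.iD t.hd hz) (hD a b d z t.ab t.da.symm hc t.db.symm t1 t3)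
  exact h.rb hz t.ha hp (ns t8) (ns n4) t7

lemma c2b2 {G : SimpleGraph V} (hD : DF G) {D A B : V → Prop} (h : Tri3 G D A B) {d a b : V}
    (t : Tr G D A B d a b) {y x p : V}
    (hy : B y) (hx : D x) (hp : B p) (a0 : G.Adj x y)
    (a1 : G.Adj x a) (a2 : G.Adj x p) (n0 : ¬ G.Adj y d) (n1 : ¬ G.Adj y a)
    (n2 : ¬ G.Adj x b) (n3 : ¬ G.Adj p d) (d0 : p ≠ y) : False := by
  exact h.pDB hx t.hd hy hp t.hb a0 a2 t.db (ns n0) (ns n3) n2 (Ne.symm d0)

end Pool.Agent.MP_41f2d3_co
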