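import Pool.Agent.MP_41f2d3_co.Big2

/-! More decomposition tools: substitution, chains of cuts, flips. -/

namespace Pool.Agent.MP_41f2d3_co

open Finset Classical

noncomputable section

variable {V : Type}

/-- P1 + P2 + P3 free -/
def RF (G : SimpleGraph V) : Prop :=
  ∀ z a b c d e, G.Adj a b → G.Adj c d → G.Adj d e → ¬ G.Adj c e →
    ¬ G.Adj z a → ¬ G.Adj z b → ¬ G.Adj z c → ¬ G.Adj z d → ¬ G.Adj z e →
    ¬ G.Adj a c → ¬ G.Adj a d → ¬ G.Adj a e → ¬ G.Adj b c → ¬ G.Adj b d → ¬ G.Adj b e →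
    c ≠ e → False

lemma W_of_comap {V' : Type} (f : V' ↪ V) {G : SimpleGraph V} {k : ℕ} {S' : Finset V'}
    (h : W (G.comap f) k S') : W G k (S'.map f) := by
  have key : ∀ X, Dec (G.comap f) k S' X → Dec G k (S'.map f) (X.map f) := by
    intro X hX
    induction hX with
    | empty => simpa using Dec.empty
    | single v => simpa using Dec.single (f v)
    | union X Y _ _ hd hT ihX ihY =>
      rw [map_union]
      refine Dec.union _ _ ihX ihY ((disjoint_map f).2 hd) ?_
      rw [← map_union]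
      obtain ⟨T, hTc, hT⟩ := hT
      refine ⟨T.image (fun O => O.map f), card_image_le.trans hTc, ?_⟩
      intro x hx
      obtain ⟨x', hx', rfl⟩ := mem_map.1 hx
      have e : out G (S'.map f) ((X ∪ Y).map f) (f x') =
          (out (G.comap f) S' (X ∪ Y) x').map f := by
        ext z
        simp only [mem_out, mem_map]
        constructor
        · rintro ⟨⟨z', hz', rfl⟩, h2, h3⟩
          exact ⟨z', ⟨hz', fun h => h2 ⟨z', h, rfl⟩, h3⟩, rfl⟩
        · rintro ⟨z', ⟨h1, h2, h3⟩, rfl⟩
          refine ⟨⟨z', h1, rfl⟩, ?_, h3⟩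
          rintro ⟨w, hw, e⟩
          exact h2 (f.injective e ▸ hw)
      rw [e]
      rcases hT x' hx' with h | h
      · left; rw [h]; simp
      · right; exact mem_image_of_mem _ h
  exact key _ h

/-- the bound for (diamond, P1 + P5)-free graphs -/
def cP : ℕ := W_main.choose

lemma W_QF {G : SimpleGraph V} (hD : DF G) {S : Finset V} (hQ : QF G S) : W G cP S := by
  have h := W_main.choose_spec {x // x ∈ S} (G.comap (Function.Embedding.subtype _)) S.attach
    (fun a b c d h1 h2 h3 h4 h5 h6 => hD a b c d h1 h2 h3 h4 h5 (fun e => h6 (Subtype.ext e)))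
    (fun a b c d e z h1 _ _ h4 _ h6 h7 h8 h9 _ h11 h12 _ h14 h15 =>
      hQ a a.2 b b.2 d d.2 e e.2 z z.2 h1 h4 h6 h7 h8 h9 h11 h12 h14 h15)
  have h2 := W_of_comap _ h
  rw [attach_map_val] at h2
  exact h2

lemma Dec_ext {G : SimpleGraph V} {k t : ℕ} {A S : Finset V} (hT : Ty G t S A) (h1 : W G k A) :
    Dec G ((t + 1) * (k + 1)) S A := by
  obtain ⟨T, hTc, hT⟩ := hT
  refine Dec.transfer h1 (fun Z hZ hZT => ?_)
  refine Ty_transfer (out G S A) (insert ∅ T) ((card_insert_le _ _).trans (by omega)) ?_ ?_ hZT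
  · intro x hx
    rcases hT x (hZ hx) with h | h <;> simp [h]
  · intro x _ y _ hxy hh z hz hzZ
    by_cases hzA : z ∈ A
    · exact hh z hzA hzZ
    · exact out_eq_iff.1 hxy z hz hzA

lemma Ty_sdiff {G : SimpleGraph V} {t1 t2 : ℕ} {S X Y : Finset V} (hY : Y ⊆ S)
    (h1 : Ty G t1 S Y) (h2 : Ty G t2 S X) : Ty G ((t1 + 1) * 2 ^ t2) S (Y \ X) := by
  obtain ⟨T1, hc1, h1⟩ := h1
  obtain ⟨T2, hc2, h2⟩ := h2
  refine Ty_of_labels (fun y => (out G S Y y, T2.filter (fun O => y ∈ O)))
    (insert ∅ T1 ×ˢ T2.powerset) ?_ ?_ ?_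
  · rw [card_product, card_powerset]
    exact Nat.mul_le_mul ((card_insert_le _ _).trans (by omega))
      (Nat.pow_le_pow_right (by norm_num) hc2)
  · intro x hx
    right
    rw [mem_product]
    refine ⟨?_, by simp⟩
    rcases h1 x (mem_sdiff.1 hx).1 with h | h <;> simp [h]
  · intro x hx y hy hxy z hz hzZ
    simp only [Prod.mk.injEq] at hxy
    have hx' := mem_sdiff.1 hx
    have hy' := mem_sdiff.1 hy
    by_cases hzY : z ∈ Y
    · have hzX : z ∈ X := by
        by_contra hh
        exact hzZ (mem_sdiff.2 ⟨hzY, hh⟩)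
      rcases h2 z hzX with h | h
      · have h' := out_eq_empty_iff.1 h
        constructor
        · intro a; exact absurd a.symm (h' x (hY hx'.1) hx'.2)
        · intro a; exact absurd a.symm (h' y (hY hy'.1) hy'.2)
      · have := Finset.ext_iff.1 hxy.2 (out G S X z)
        simp only [mem_filter, h, true_and, mem_out, hY hx'.1, hx'.2, hY hy'.1, hy'.2,
          not_false_eq_true] at this
        rw [G.adj_comm x z, G.adj_comm y z]
        exact this
    · exact out_eq_iff.1 hxy.1 z hz hzY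

lemma Dec.mono {G : SimpleGraph V} {k k' : ℕ} {S X : Finset V} (h : Dec G k S X) (hk : k ≤ k') :
    Dec G k' S X :=
  Dec.transfer h (fun _ _ hZ => hZ.mono hk)

/-- a family of cuts whose gaps have bounded width -/
lemma W_chain {G : SimpleGraph V} {k t : ℕ} {S : Finset V} (C : Finset V → Prop)
    (hC : ∀ X, C X → X ⊆ S ∧ Ty G t S X) (h0 : C ∅) (h1 : C S)
    (gap : ∀ X Y, C X → C Y → X ⊆ Y → W G k (Y \ X) ∨ ∃ Z, C Z ∧ X ⊂ Z ∧ Z ⊂ Y) :
    W G (((t + 1) * 2 ^ t + 1) * (k + 1)) S := by
  have key : ∀ n, ∀ X Y, C X → C Y → X ⊆ Y → (Y \ X).card = n →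
      Dec G (((t + 1) * 2 ^ t + 1) * (k + 1)) S (Y \ X) := by
    intro n
    induction n using Nat.strong_induction_on with
    | _ n ih =>
      intro X Y hX hY hXY hn
      have hT := Ty_sdiff (hC Y hY).1 (hC Y hY).2 (hC X hX).2
      rcases gap X Y hX hY hXY with h | ⟨Z, hZ, h1, h2⟩
      · exact Dec_ext hT h
      · have e : Y \ X = (Z \ X) ∪ (Y \ Z) := by
          ext v
          have := @h1.1 v
          have := @h2.1 v
          simp only [mem_sdiff, mem_union]
          tauto
        have l1 : (Z \ X).card < n := by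
          rw [← hn]
          refine card_lt_card ⟨sdiff_subset_sdiff h2.1 Subset.rfl, fun h => ?_⟩
          obtain ⟨v, hv, hv'⟩ := exists_of_ssubset h2
          exact hv' (mem_sdiff.1 (h (mem_sdiff.2 ⟨hv, fun a => hv' (h1.1 a)⟩))).1
        have l2 : (Y \ Z).card < n := by
          rw [← hn]
          refine card_lt_card ⟨sdiff_subset_sdiff Subset.rfl h1.1, fun h => ?_⟩
          obtain ⟨v, hv, hv'⟩ := exists_of_ssubset h1
          exact (mem_sdiff.1 (h (mem_sdiff.2 ⟨h2.1 hv, hv'⟩))).2 hv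
        rw [e] at hT ⊢
        refine Dec.union _ _ (ih _ l1 X Z hX hZ h1.1 rfl) (ih _ l2 Z Y hZ hY h2.1 rfl) ?_
          (hT.mono ?_)
        · rw [disjoint_left]
          intro v hv hv'
          exact (mem_sdiff.1 hv').2 (mem_sdiff.1 hv).1
        · nlinarith [Nat.zero_le ((t + 1) * 2 ^ t), Nat.zero_le k]
  have := key _ ∅ S h0 h1 (empty_subset _) rfl
  rw [sdiff_empty] at this
  exact this

/-- substitution of a split module for one vertex -/
lemma W_subst {G : SimpleGraph V} {k : ℕ} {S A : Finset V} {u : V} (hA : A ⊆ S) (hu : u ∈ A)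
    (hm : ∀ a ∈ A, (∀ z ∈ S, z ∉ A → ¬ G.Adj a z) ∨ ∀ z ∈ S, z ∉ A → (G.Adj a z ↔ G.Adj u z))
    (hd : Dec G k S A) (h : W G k (insert u (S \ A))) : W G k S := by
  have key : ∀ X, Dec G k (insert u (S \ A)) X → X ⊆ insert u (S \ A) →
      (u ∉ X → Dec G k S X) ∧ (u ∈ X → Dec G k S (X ∪ A)) := by
    intro X hX
    induction hX with
    | empty => intro _; exact ⟨fun _ => Dec.empty, fun h => by simp at h⟩
    | single v =>
      intro _
      refine ⟨fun _ => Dec.single v, fun h => ?_⟩
      rw [mem_singleton] at h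
      rw [← h, union_eq_right.2 (singleton_subset_iff.2 hu)]
      exact hd
    | union X Y _ _ hdis hT ihX ihY =>
      intro hsub
      have hX := ihX (subset_union_left.trans hsub)
      have hY := ihY (subset_union_right.trans hsub)
      have hnA : ∀ x ∈ X ∪ Y, x ≠ u → x ∈ S ∧ x ∉ A := by
        intro x hx hxu
        exact mem_sdiff.1 ((mem_insert.1 (hsub hx)).resolve_left hxu)
      obtain ⟨T, hTc, hT⟩ := hT
      constructor
      · intro hn
        refine Dec.union X Y (hX.1 (fun h => hn (mem_union_left _ h)))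
          (hY.1 (fun h => hn (mem_union_right _ h))) hdis ?_
        have hx' : ∀ x ∈ X ∪ Y, x ∈ S ∧ x ∉ A := fun x hx => hnA x hx (fun e => hn (e ▸ hx))
        refine Ty_of_labels (out G (insert u (S \ A)) (X ∪ Y)) T hTc ?_ ?_
        · intro x hx
          rcases hT x hx with h | h
          · left
            intro z hz hzZ hxz
            have h' := out_eq_empty_iff.1 h
            by_cases hzA : z ∈ A
            · rcases hm z hzA with h2 | h2
              · exact h2 x (hx' x hx).1 (hx' x hx).2 hxz.symm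
              · exact h' u (mem_insert_self _ _) hn
                  ((h2 x (hx' x hx).1 (hx' x hx).2).1 hxz.symm).symm
            · exact h' z (mem_insert_of_mem (mem_sdiff.2 ⟨hz, hzA⟩)) hzZ hxz
          · exact Or.inr h
        · intro x hx y hy hxy z hz hzZ
          have h' := out_eq_iff.1 hxy
          by_cases hzA : z ∈ A
          · rw [G.adj_comm x z, G.adj_comm y z]
            rcases hm z hzA with h2 | h2
            · exact ⟨fun a => absurd a (h2 x (hx' x hx).1 (hx' x hx).2),
                fun a => absurd a (h2 y (hx' y hy).1 (hx' y hy).2)⟩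
            · rw [h2 x (hx' x hx).1 (hx' x hx).2, h2 y (hx' y hy).1 (hx' y hy).2,
                G.adj_comm u x, G.adj_comm u y]
              exact h' u (mem_insert_self _ _) hn
          · exact h' z (mem_insert_of_mem (mem_sdiff.2 ⟨hz, hzA⟩)) hzZ
      · intro hmem
        have hz' : ∀ z ∈ S, z ∉ X ∪ Y ∪ A → z ∈ insert u (S \ A) ∧ z ∉ X ∪ Y ∧ z ∉ A := by
          intro z hz hzZ
          rw [mem_union, not_or] at hzZ
          exact ⟨mem_insert_of_mem (mem_sdiff.2 ⟨hz, hzZ.2⟩), hzZ.1, hzZ.2⟩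
        have hT' : Ty G k S (X ∪ Y ∪ A) := by
          refine ⟨T, hTc, fun x hx => ?_⟩
          have eo : ∀ y ∈ X ∪ Y, out G S (X ∪ Y ∪ A) y = out G (insert u (S \ A)) (X ∪ Y) y := by
            intro y _
            ext z
            simp only [mem_out]
            constructor
            · rintro ⟨a, b, c⟩
              exact ⟨(hz' z a b).1, (hz' z a b).2.1, c⟩
            · rintro ⟨a, b, c⟩
              have := mem_sdiff.1 ((mem_insert.1 a).resolve_left (fun e => b (e ▸ hmem)))
              exact ⟨this.1, fun h => (mem_union.1 h).elim b this.2, c⟩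
          by_cases hxA : x ∈ A
          · rcases hm x hxA with h2 | h2
            · left
              exact out_eq_empty_iff.2 (fun z hz hzZ => h2 z hz (hz' z hz hzZ).2.2)
            · have : out G S (X ∪ Y ∪ A) x = out G S (X ∪ Y ∪ A) u :=
                out_eq_iff.2 (fun z hz hzZ => h2 z hz (hz' z hz hzZ).2.2)
              rw [this, eo u hmem]
              exact hT u hmem
          · have hx2 := (mem_union.1 hx).resolve_right hxA
            rw [eo x hx2]
            exact hT x hx2
        rcases mem_union.1 hmem with hm' | hm'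
        · have hnY : u ∉ Y := fun h => disjoint_left.1 hdis hm' h
          have e : X ∪ Y ∪ A = (X ∪ A) ∪ Y := by rw [union_right_comm]
          rw [e] at hT' ⊢
          refine Dec.union _ _ (hX.2 hm') (hY.1 hnY) ?_ hT'
          rw [disjoint_union_left]
          refine ⟨hdis, disjoint_left.2 (fun v hv hv' => ?_)⟩
          exact (hnA v (mem_union_right _ hv') (fun e => hnY (e ▸ hv'))).2 hv
        · have hnX : u ∉ X := fun h => disjoint_left.1 hdis h hm'
          have e : X ∪ Y ∪ A = X ∪ (Y ∪ A) := by rw [union_assoc]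
          rw [e] at hT' ⊢
          refine Dec.union _ _ (hX.1 hnX) (hY.2 hm') ?_ hT'
          rw [disjoint_union_right]
          refine ⟨hdis, disjoint_left.2 (fun v hv hv' => ?_)⟩
          exact (hnA v (mem_union_left _ hv) (fun e => hnX (e ▸ hv))).2 hv'
  have := (key _ h Subset.rfl).2 (mem_insert_self _ _)
  have e : insert u (S \ A) ∪ A = S := by
    rw [insert_union, sdiff_union_of_subset hA, insert_eq_of_mem (hA hu)]
  rw [e] at this
  exact this

lemma W_of_split {G : SimpleGraph V} {k : ℕ} (hk : 1 ≤ k) (S0 : Finset V)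
    (h : ∀ S ⊆ S0, S.Nonempty → Conn G S → TwinFree G S → NoPend G S → W G k S ∨
      ∃ A ⊆ S, ∃ u ∈ A, (∃ v ∈ A, v ≠ u) ∧ W G k A ∧
        ∀ a ∈ A, (∀ z ∈ S, z ∉ A → ¬ G.Adj a z) ∨ ∀ z ∈ S, z ∉ A → (G.Adj a z ↔ G.Adj u z)) :
    W G (2 * (k + 1)) S0 := by
  have key : ∀ n, ∀ S ⊆ S0, S.card = n → W G (2 * (k + 1)) S := by
    intro n
    induction n using Nat.strong_induction_on with
    | _ n ih =>
      intro S1 hS1 hn
      refine W_of_prime (by omega) S1 (fun S hS hne hc ht hp => ?_)
      rcases h S (hS.trans hS1) hne hc ht hp with h | ⟨A, hA, u, hu, ⟨v, hv, hvu⟩, hW, hm⟩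
      · exact h.mono (by omega)
      refine W_subst hA hu hm (Dec_ext (t := 1) (Ty_of_reps {u} (by simp) ?_) hW) ?_
      · intro a ha
        rcases hm a ha with h | h
        · exact Or.inl h
        · exact Or.inr ⟨u, by simp, h⟩
      · have hsub : insert u (S \ A) ⊆ S := insert_subset (hA hu) sdiff_subset
        refine ih _ ?_ _ (hsub.trans (hS.trans hS1)) rfl
        rw [← hn]
        refine lt_of_lt_of_le (card_lt_card ⟨hsub, fun hh => ?_⟩) (card_le_card hS)
        rcases mem_insert.1 (hh (hA hv)) with e | e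
        · exact hvu e
        · exact (mem_sdiff.1 e).2 hv
  exact key _ S0 Subset.rfl rfl

/-- flipping adjacency between classes -/
def flip {L : Type} (G : SimpleGraph V) (lab : V → L) (φ : L → L → Prop) : SimpleGraph V where
  Adj x y := x ≠ y ∧ (G.Adj x y ↔ ¬ (φ (lab x) (lab y) ∨ φ (lab y) (lab x)))
  symm := ⟨fun x y h => ⟨h.1.symm, by rw [G.adj_comm y x, or_comm]; exact h.2⟩⟩
  loopless := ⟨fun _ h => h.1 rfl⟩

lemma flip_adj {L : Type} {G : SimpleGraph V} {lab : V → L} {φ : L → L → Prop} {x y : V} :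
    (flip G lab φ).Adj x y ↔
      x ≠ y ∧ (G.Adj x y ↔ ¬ (φ (lab x) (lab y) ∨ φ (lab y) (lab x))) := Iff.rfl

lemma W_flip {L : Type} [Fintype L] {G : SimpleGraph V} (lab : V → L) (φ : L → L → Prop)
    {k : ℕ} {S : Finset V} (h : W (flip G lab φ) k S) : W G (Fintype.card L * (k + 1)) S := by
  refine W.relabel lab univ (by simp) (fun _ _ => mem_univ _) ?_ h
  intro x _ y _ z _ e zx zy hh
  simp only [flip_adj, ← e] at hh
  have := zx.symm
  have := zy.symm
  tauto

/-- general cuts -/
lemma W_cutp {G : SimpleGraph V} {k : ℕ} {S : Finset V} (col : V → Fin 3)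
    (h : ∀ P ⊆ S, W G k P ∨ ∃ A ⊆ P, A.Nonempty ∧ ¬ P ⊆ A ∧ ∃ φ : Fin 3 → Fin 3 → Prop,
      ∀ a ∈ A, ∀ b ∈ P, b ∉ A → (G.Adj a b ↔ φ (col a) (col b))) :
    W G (3 * (k + 1)) S := by
  have key : ∀ n, ∀ P ⊆ S, P.card = n →
      (∀ x ∈ P, ∀ y ∈ P, col x = col y → ∀ z ∈ S, z ∉ P → (G.Adj x z ↔ G.Adj y z)) →
      Dec G (3 * (k + 1)) S P := by
    intro n
    induction n using Nat.strong_induction_on with
    | _ n ih =>
      intro P hP hn hu
      rcases h P hP with hW | ⟨A, hA, hAne, hnot, φ, hc⟩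
      · refine Dec.transfer hW (fun Z hZ hT => ?_)
        refine Ty_transfer col univ (by simp) (fun _ _ => mem_univ _) ?_ hT
        intro x hx y hy hxy hh z hz hzZ
        by_cases hzP : z ∈ P
        · exact hh z hzP hzZ
        · exact hu x (hZ hx) y (hZ hy) hxy z hz hzP
      · have hlt : A.card < P.card := card_lt_card ⟨hA, hnot⟩
        have e : A ∪ (P \ A) = P := union_sdiff_of_subset hA
        have d1 : Dec G (3 * (k + 1)) S A := by
          refine ih _ (by omega) A (hA.trans hP) rfl ?_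
          intro x hx y hy hxy z hz hzA
          by_cases hzP : z ∈ P
          · rw [hc x hx z hzP hzA, hc y hy z hzP hzA, hxy]
          · exact hu x (hA hx) y (hA hy) hxy z hz hzP
        have d2 : Dec G (3 * (k + 1)) S (P \ A) := by
          refine ih _ ?_ (P \ A) (sdiff_subset.trans hP) rfl ?_
          · rw [card_sdiff_of_subset hA]
            have := card_pos.2 hAne
            omega
          · intro x hx y hy hxy z hz hzA
            rw [mem_sdiff] at hx hy
            by_cases hzP : z ∈ P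
            · have hzA' : z ∈ A := by
                by_contra hh
                exact hzA (mem_sdiff.2 ⟨hzP, hh⟩)
              rw [G.adj_comm x z, G.adj_comm y z, hc z hzA' x hx.1 hx.2, hc z hzA' y hy.1 hy.2, hxy]
            · exact hu x hx.1 y hy.1 hxy z hz hzP
        have := Dec.union A (P \ A) d1 d2 disjoint_sdiff (by
          rw [e]
          exact Ty_of_labels col univ (by simp) (fun _ _ => Or.inr (mem_univ _)) hu)
        rw [e] at this
        exact this
  exact key _ S Subset.rfl rfl (fun _ _ _ _ _ z hz hz' => absurd hz hz')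

/-- every edge has an end of degree one -/
lemma W_star {G : SimpleGraph V} {S : Finset V} (sd : V → Prop)
    (h1 : ∀ x ∈ S, ∀ y ∈ S, G.Adj x y → sd x ∨ sd y)
    (h2 : ∀ x ∈ S, ∀ y ∈ S, ∀ z ∈ S, sd x → G.Adj x y → G.Adj x z → y = z) : W G 2 S := by
  refine W_of_prime le_rfl S (fun S' hS' ⟨x, hx⟩ _ _ hp => ?_)
  exfalso
  obtain ⟨y, hy, z, hz, hyz, hxy, hxz⟩ := hp x hx
  rcases h1 x (hS' hx) y (hS' hy) hxy with h | h
  · exact hyz (h2 x (hS' hx) y (hS' hy) z (hS' hz) h hxy hxz)
  · obtain ⟨a, ha, b, hb, hab, hya, hyb⟩ := hp y hy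
    exact hab (h2 y (hS' hy) a (hS' ha) b (hS' hb) h hya hyb)

/-- disjoint unions of cliques -/
lemma W_cluster {G : SimpleGraph V} {S : Finset V}
    (h : ∀ x ∈ S, ∀ y ∈ S, ∀ z ∈ S, G.Adj x y → G.Adj x z → y ≠ z → G.Adj y z) : W G 2 S := by
  refine W_of_prime le_rfl S (fun S' hS' ⟨x, hx⟩ _ ht hp => ?_)
  exfalso
  obtain ⟨y, hy, _, _, _, hxy, _⟩ := hp x hx
  refine hxy.ne (ht x hx y hy (fun z hz zx zy => ⟨fun a => ?_, fun a => ?_⟩))
  · exact h x (hS' hx) y (hS' hy) z (hS' hz) hxy a zy.symm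
  · exact h y (hS' hy) x (hS' hx) z (hS' hz) hxy.symm a zx.symm

/-- a set either has three distinct members or at most two -/
lemma three_or_le (X : Finset V) :
    X.card ≤ 2 ∨ ∃ a ∈ X, ∃ b ∈ X, ∃ c ∈ X, a ≠ b ∧ a ≠ c ∧ b ≠ c := by
  by_cases h : X.card ≤ 2
  · exact Or.inl h
  · right
    obtain ⟨a, ha, b, hb, c, hc, h⟩ := two_lt_card.1 (by omega : 2 < X.card)
    exact ⟨a, ha, b, hb, c, hc, h⟩

end

end Pool.Agent.MP_41f2d3_co
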