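import Pool.Agent.MP_41f2d3_co.RBip
import Pool.Agent.MP_41f2d3_co.TCLocal

/-! Local lemmas for triangle-free graphs without induced P1 + P2 + P3. -/

namespace Pool.Agent.MP_41f2d3_co

variable {V : Type}

/-- triangle-free -/
def TG (G : SimpleGraph V) : Prop := ∀ a b c, G.Adj a b → G.Adj a c → G.Adj b c → False

/-- an induced pair of edges -/
structure B2 (G : SimpleGraph V) (a b c d : V) : Prop where
  ab : G.Adj a b
  cd : G.Adj c d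
  ac : ¬ G.Adj a c
  ad : ¬ G.Adj a d
  bc : ¬ G.Adj b c
  bd : ¬ G.Adj b d

/-- anticomplete to four vertices -/
def T4 (G : SimpleGraph V) (a b c d v : V) : Prop :=
  ¬ G.Adj v a ∧ ¬ G.Adj v b ∧ ¬ G.Adj v c ∧ ¬ G.Adj v d

/-- common neighbour of two vertices -/
def Tw (G : SimpleGraph V) (p q v : V) : Prop := G.Adj v p ∧ G.Adj v q

set_option linter.unusedVariables false

lemma k_match {G : SimpleGraph V} (hG : TG G) (hR : RF G) {a b c d : V} (h : B2 G a b c d)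
    {t u v : V}
    (ht : T4 G a b c d t) (hu : T4 G a b c d u) (hv : T4 G a b c d v)
    (a0 : G.Adj t u) (a1 : G.Adj t v) (d0 : u ≠ v) : False := by
  have t1 : ¬ G.Adj u v := fun hc => hG t u v a0 a1 hc
  exact hR a c d u t v h.cd a0.symm a1 t1 h.ac h.ad (ns hu.1) (ns ht.1) (ns hv.1) (ns hu.2.2.1) (ns ht.2.2.1) (ns hv.2.2.1) (ns hu.2.2.2) (ns ht.2.2.2) (ns hv.2.2.2) d0

lemma k_one {G : SimpleGraph V} (hG : TG G) (hR : RF G) {a b c d : V} (h : B2 G a b c d)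
    {t u x : V}
    (ht : T4 G a b c d t) (hu : T4 G a b c d u) (hx : Tw G b c x)
    (a0 : G.Adj t u) (n0 : ¬ G.Adj x t) (n1 : ¬ G.Adj x u) : False := by
  have t1 : d ≠ x := fun hc => eqa hc.symm hx.1 (ns h.bd)
  have t2 : ¬ G.Adj a x := fun hc => hG a b x h.ab hc hx.1.symm
  have t3 : ¬ G.Adj d x := fun hc => hG c d x h.cd hx.2.symm hc
  exact hR a t u d c x a0 h.cd.symm hx.2.symm t3 (ns ht.1) (ns hu.1) h.ad h.ac t2 ht.2.2.2 ht.2.2.1 (ns n0) hu.2.2.2 hu.2.2.1 (ns n1) t1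

lemma k_r2 {G : SimpleGraph V} (hG : TG G) (hR : RF G) {a b c d : V} (h : B2 G a b c d)
    {t u x y : V}
    (ht : T4 G a b c d t) (hu : T4 G a b c d u) (hx : Tw G b c x)
    (hy : Tw G a d y) (a0 : G.Adj t x) (n0 : ¬ G.Adj t u)
    (n1 : ¬ G.Adj t y) (n2 : ¬ G.Adj u x) (n3 : ¬ G.Adj u y)
    (n4 : ¬ G.Adj x y) : False := by
  have t1 : c ≠ t := fun hc => eqa hc h.cd ht.2.2.2
  have t2 : ¬ G.Adj a x := fun hc => hG a b x h.ab hc hx.1.symm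
  have t3 : ¬ G.Adj c y := fun hc => hG c d y h.cd hc hy.2.symm
  exact hR u a y c x t hy.1.symm hx.2.symm a0.symm (ns ht.2.2.1) hu.1 n3 hu.2.2.1 n2 (ns n0) h.ac t2 (ns ht.1) (ns t3) (ns n4) (ns n1) t1

lemma k_r3 {G : SimpleGraph V} (hG : TG G) (hR : RF G) {a b c d : V} (h : B2 G a b c d)
    {t x y w : V}
    (ht : T4 G a b c d t) (hx : Tw G b c x) (hy : Tw G a d y)
    (hw : Tw G b c w) (n0 : ¬ G.Adj t x) (n1 : ¬ G.Adj t y)
    (n2 : ¬ G.Adj x y) (n3 : ¬ G.Adj y w) (d0 : w ≠ x) : False := by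
  have t1 : a ≠ d := fun hc => eqa hc h.ab (ns h.bd)
  have t2 : ¬ G.Adj a x := fun hc => hG a b x h.ab hc hx.1.symm
  have t3 : ¬ G.Adj a w := fun hc => hG a b w h.ab hc hw.1.symm
  have t4 : ¬ G.Adj x w := fun hc => hG b x w hx.1.symm hw.1.symm hc
  have t5 : ¬ G.Adj d x := fun hc => hG c d x h.cd hx.2.symm hc
  have t6 : ¬ G.Adj c y := fun hc => hG c d y h.cd hc hy.2.symm
  have t7 : ¬ G.Adj d w := fun hc => hG c d w h.cd hw.2.symm hc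
  have t8 : G.Adj t w := Classical.byContradiction fun hc => hR t a y x c w hy.1.symm hx.2 hw.2.symm t4 ht.1 n1 n0 ht.2.2.1 hc t2 h.ac t3 (ns n2) (ns t6) n3 (Ne.symm d0)
  exact hR x t w a y d t8 hy.1.symm hy.2 h.ad (ns n0) t4 (ns t2) n2 (ns t5) ht.1 n1 ht.2.2.2 (ns t3) (ns n3) (ns t7) t1

lemma k_single {G : SimpleGraph V} (hG : TG G) (hR : RF G) {a b c d : V} (h : B2 G a b c d)
    {z v w : V}
    (hz : T4 G a b c d z) (a0 : G.Adj v a) (a1 : G.Adj w a)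
    (n0 : ¬ G.Adj v c) (n1 : ¬ G.Adj v d) (n2 : ¬ G.Adj w c)
    (n3 : ¬ G.Adj w d) (d0 : v ≠ w) (d1 : v ≠ b)
    (d2 : w ≠ b) : False := by
  have t1 : ¬ G.Adj b v := fun hc => hG a b v h.ab a0.symm hc
  have t2 : ¬ G.Adj b w := fun hc => hG a b w h.ab a1.symm hc
  have t3 : ¬ G.Adj v w := fun hc => hG a v w a0.symm a1.symm hc
  have t4 : G.Adj z v := Classical.byContradiction fun hc => hR z c d b a v h.cd h.ab.symm a0.symm t1 hz.2.2.1 hz.2.2.2 hz.2.1 hz.1 hc (ns h.bc) (ns h.ac) (ns n0) (ns h.bd) (ns h.ad) (ns n1) (Ne.symm d1)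
  have t5 : G.Adj z w := Classical.byContradiction fun hc => hR z c d b a w h.cd h.ab.symm a1.symm t2 hz.2.2.1 hz.2.2.2 hz.2.1 hz.1 hc (ns h.bc) (ns h.ac) (ns n2) (ns h.bd) (ns h.ad) (ns n3) (Ne.symm d2)
  exact hR b c d v z w h.cd t4.symm t5 t3 h.bc h.bd t1 (ns hz.2.1) t2 (ns n0) (ns hz.2.2.1) (ns n2) (ns n1) (ns hz.2.2.2) (ns n3) d0

lemma k_tb {G : SimpleGraph V} (hG : TG G) (hR : RF G) {a b c d : V} (h : B2 G a b c d)
    {x1 x2 x3 b1 b2 b3 t x w : V}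
    (hx1 : Tw G b c x1) (hx2 : Tw G b c x2) (hx3 : Tw G b c x3)
    (hb1 : Tw G a c b1) (hb2 : Tw G a c b2) (hb3 : Tw G a c b3)
    (ht : T4 G a b c d t) (hx : Tw G b c x) (hw : Tw G a c w)
    (a0 : G.Adj t x) (n0 : ¬ G.Adj t w) (d0 : x1 ≠ x2)
    (d1 : x1 ≠ x3) (d2 : x2 ≠ x3) (d3 : b1 ≠ b2)
    (d4 : b1 ≠ b3) (d5 : b2 ≠ b3) : False := by
  have t1 : ¬ G.Adj a x1 := fun hc => hG a b x1 h.ab hc hx1.1.symm
  have t2 : ¬ G.Adj a x2 := fun hc => hG a b x2 h.ab hc hx2.1.symm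
  have t3 : ¬ G.Adj a x3 := fun hc => hG a b x3 h.ab hc hx3.1.symm
  have t4 : ¬ G.Adj b b1 := fun hc => hG a b b1 h.ab hb1.1.symm hc
  have t5 : ¬ G.Adj b b2 := fun hc => hG a b b2 h.ab hb2.1.symm hc
  have t6 : ¬ G.Adj a x := fun hc => hG a b x h.ab hc hx.1.symm
  have t7 : ¬ G.Adj b1 b2 := fun hc => hG a b1 b2 hb1.1.symm hb2.1.symm hc
  have t8 : ¬ G.Adj x1 x2 := fun hc => hG b x1 x2 hx1.1.symm hx2.1.symm hc
  have t9 : ¬ G.Adj x1 x3 := fun hc => hG b x1 x3 hx1.1.symm hx3.1.symm hc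
  have t10 : ¬ G.Adj x2 x3 := fun hc => hG b x2 x3 hx2.1.symm hx3.1.symm hc
  have t11 : ¬ G.Adj x2 x := fun hc => hG b x2 x hx2.1.symm hx.1.symm hc
  have t12 : ¬ G.Adj d x1 := fun hc => hG c d x1 h.cd hx1.2.symm hc
  have t13 : ¬ G.Adj d x2 := fun hc => hG c d x2 h.cd hx2.2.symm hc
  have t14 : ¬ G.Adj d x3 := fun hc => hG c d x3 h.cd hx3.2.symm hc
  have t15 : ¬ G.Adj d b1 := fun hc => hG c d b1 h.cd hb1.2.symm hc
  have t16 : ¬ G.Adj d b2 := fun hc => hG c d b2 h.cd hb2.2.symm hc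
  have t17 : ¬ G.Adj d x := fun hc => hG c d x h.cd hx.2.symm hc
  have t18 : ¬ G.Adj d w := fun hc => hG c d w h.cd hw.2.symm hc
  have t19 : ¬ G.Adj x1 b1 := fun hc => hG c x1 b1 hx1.2.symm hb1.2.symm hc
  have t20 : ¬ G.Adj x1 b2 := fun hc => hG c x1 b2 hx1.2.symm hb2.2.symm hc
  have t21 : ¬ G.Adj x1 w := fun hc => hG c x1 w hx1.2.symm hw.2.symm hc
  have t22 : ¬ G.Adj x2 b1 := fun hc => hG c x2 b1 hx2.2.symm hb1.2.symm hc
  have t23 : ¬ G.Adj x2 b2 := fun hc => hG c x2 b2 hx2.2.symm hb2.2.symm hc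
  have t24 : ¬ G.Adj x2 w := fun hc => hG c x2 w hx2.2.symm hw.2.symm hc
  have t25 : ¬ G.Adj x3 b1 := fun hc => hG c x3 b1 hx3.2.symm hb1.2.symm hc
  have t26 : ¬ G.Adj x3 b2 := fun hc => hG c x3 b2 hx3.2.symm hb2.2.symm hc
  have t27 : ¬ G.Adj x3 w := fun hc => hG c x3 w hx3.2.symm hw.2.symm hc
  have t28 : ¬ G.Adj b1 x := fun hc => hG c b1 x hb1.2.symm hx.2.symm hc
  have t29 : ¬ G.Adj b2 x := fun hc => hG c b2 x hb2.2.symm hx.2.symm hc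
  rcases Classical.em (G.Adj x1 t) with t30 | t30
  · have t31 : ¬ G.Adj x2 t := fun hc => hR d a w x1 t x2 hw.1.symm t30 hc.symm t8 (ns h.ad) t18 t12 (ns ht.2.2.2) t13 t1 (ns ht.1) t2 (ns t21) (ns n0) (ns t24) d0
    have t32 : ¬ G.Adj x3 t := fun hc => hR d a w x1 t x3 hw.1.symm t30 hc.symm t9 (ns h.ad) t18 t12 (ns ht.2.2.2) t14 t1 (ns ht.1) t3 (ns t21) (ns n0) (ns t27) d1
    have t33 : ¬ G.Adj b1 t := fun hc => hR d b1 t x2 b x3 hc hx2.1 hx3.1.symm t10 t15 (ns ht.2.2.2) t13 (ns h.bd) t14 (ns t22) (ns t4) (ns t25) (ns t31) ht.2.1 (ns t32) d2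
    have t34 : ¬ G.Adj b2 t := fun hc => hR d b2 t x2 b x3 hc hx2.1 hx3.1.symm t10 t16 (ns ht.2.2.2) t13 (ns h.bd) t14 (ns t23) (ns t5) (ns t26) (ns t31) ht.2.1 (ns t32) d2
    exact hR x2 t x b1 a b2 a0 hb1.1 hb2.1.symm t7 t31 t11 t22 (ns t2) t23 (ns t33) ht.1 (ns t34) (ns t28) (ns t6) (ns t29) d3
  · rcases Classical.em (G.Adj b1 t) with t35 | t35
    · have t36 : G.Adj x2 t := Classical.byContradiction fun hc => hR d b1 t x1 b x2 t35 hx1.1 hx2.1.symm t8 t15 (ns ht.2.2.2) t12 (ns h.bd) t13 (ns t19) (ns t4) (ns t22) (ns t30) ht.2.1 (ns hc) d0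
      have t37 : G.Adj x3 t := Classical.byContradiction fun hc => hR d b1 t x1 b x3 t35 hx1.1 hx3.1.symm t9 t15 (ns ht.2.2.2) t12 (ns h.bd) t14 (ns t19) (ns t4) (ns t25) (ns t30) ht.2.1 (ns hc) d1
      exact hR d a w x2 t x3 hw.1.symm t36 t37.symm t10 (ns h.ad) t18 t13 (ns ht.2.2.2) t14 t2 (ns ht.1) t3 (ns t24) (ns n0) (ns t27) d2
    · have t38 : G.Adj b2 t := Classical.byContradiction fun hc => hR d t x b1 a b2 a0 hb1.1 hb2.1.symm t7 (ns ht.2.2.2) t17 t15 (ns h.ad) t16 (ns t35) ht.1 (ns hc) (ns t28) (ns t6) (ns t29) d3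
      have t39 : G.Adj x2 t := Classical.byContradiction fun hc => hR b1 b2 t x1 b x2 t38 hx1.1 hx2.1.symm t8 t7 t35 (ns t19) (ns t4) (ns t22) (ns t20) (ns t5) (ns t23) (ns t30) ht.2.1 (ns hc) d0
      have t40 : G.Adj x3 t := Classical.byContradiction fun hc => hR b1 b2 t x1 b x3 t38 hx1.1 hx3.1.symm t9 t7 t35 (ns t19) (ns t4) (ns t25) (ns t20) (ns t5) (ns t26) (ns t30) ht.2.1 (ns hc) d1
      exact hR x1 a b1 x2 t x3 hb1.1.symm t39 t40.symm t10 (ns t1) t19 t8 t30 t9 t2 (ns ht.1) t3 (ns t22) t35 (ns t25) d2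

lemma k_bt {G : SimpleGraph V} (hG : TG G) (hR : RF G) {a b c d : V} (h : B2 G a b c d)
    {x1 x2 x3 b1 b2 b3 t x w : V}
    (hx1 : Tw G b c x1) (hx2 : Tw G b c x2) (hx3 : Tw G b c x3)
    (hb1 : Tw G a c b1) (hb2 : Tw G a c b2) (hb3 : Tw G a c b3)
    (ht : T4 G a b c d t) (hx : Tw G b c x) (hw : Tw G a c w)
    (a0 : G.Adj t w) (n0 : ¬ G.Adj t x) (d0 : x1 ≠ x2)
    (d1 : x1 ≠ x3) (d2 : x2 ≠ x3) (d3 : b1 ≠ b2)
    (d4 : b1 ≠ b3) (d5 : b2 ≠ b3) : False := by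
  have t1 : ¬ G.Adj a x1 := fun hc => hG a b x1 h.ab hc hx1.1.symm
  have t2 : ¬ G.Adj a x2 := fun hc => hG a b x2 h.ab hc hx2.1.symm
  have t3 : ¬ G.Adj a x3 := fun hc => hG a b x3 h.ab hc hx3.1.symm
  have t4 : ¬ G.Adj b b1 := fun hc => hG a b b1 h.ab hb1.1.symm hc
  have t5 : ¬ G.Adj b b2 := fun hc => hG a b b2 h.ab hb2.1.symm hc
  have t6 : ¬ G.Adj b b3 := fun hc => hG a b b3 h.ab hb3.1.symm hc
  have t7 : ¬ G.Adj b w := fun hc => hG a b w h.ab hw.1.symm hc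
  have t8 : ¬ G.Adj b1 b2 := fun hc => hG a b1 b2 hb1.1.symm hb2.1.symm hc
  have t9 : ¬ G.Adj b1 b3 := fun hc => hG a b1 b3 hb1.1.symm hb3.1.symm hc
  have t10 : ¬ G.Adj b2 b3 := fun hc => hG a b2 b3 hb2.1.symm hb3.1.symm hc
  have t11 : ¬ G.Adj b2 w := fun hc => hG a b2 w hb2.1.symm hw.1.symm hc
  have t12 : ¬ G.Adj x1 x2 := fun hc => hG b x1 x2 hx1.1.symm hx2.1.symm hc
  have t13 : ¬ G.Adj x1 x3 := fun hc => hG b x1 x3 hx1.1.symm hx3.1.symm hc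
  have t14 : ¬ G.Adj x2 x3 := fun hc => hG b x2 x3 hx2.1.symm hx3.1.symm hc
  have t15 : ¬ G.Adj d x1 := fun hc => hG c d x1 h.cd hx1.2.symm hc
  have t16 : ¬ G.Adj d x2 := fun hc => hG c d x2 h.cd hx2.2.symm hc
  have t17 : ¬ G.Adj d x3 := fun hc => hG c d x3 h.cd hx3.2.symm hc
  have t18 : ¬ G.Adj d b1 := fun hc => hG c d b1 h.cd hb1.2.symm hc
  have t19 : ¬ G.Adj d b2 := fun hc => hG c d b2 h.cd hb2.2.symm hc
  have t20 : ¬ G.Adj d b3 := fun hc => hG c d b3 h.cd hb3.2.symm hc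
  have t21 : ¬ G.Adj d x := fun hc => hG c d x h.cd hx.2.symm hc
  have t22 : ¬ G.Adj d w := fun hc => hG c d w h.cd hw.2.symm hc
  have t23 : ¬ G.Adj x1 b1 := fun hc => hG c x1 b1 hx1.2.symm hb1.2.symm hc
  have t24 : ¬ G.Adj x1 b2 := fun hc => hG c x1 b2 hx1.2.symm hb2.2.symm hc
  have t25 : ¬ G.Adj x1 b3 := fun hc => hG c x1 b3 hx1.2.symm hb3.2.symm hc
  have t26 : ¬ G.Adj x1 w := fun hc => hG c x1 w hx1.2.symm hw.2.symm hc
  have t27 : ¬ G.Adj x2 b1 := fun hc => hG c x2 b1 hx2.2.symm hb1.2.symm hc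
  have t28 : ¬ G.Adj x2 b2 := fun hc => hG c x2 b2 hx2.2.symm hb2.2.symm hc
  have t29 : ¬ G.Adj x2 b3 := fun hc => hG c x2 b3 hx2.2.symm hb3.2.symm hc
  have t30 : ¬ G.Adj x2 w := fun hc => hG c x2 w hx2.2.symm hw.2.symm hc
  have t31 : ¬ G.Adj x3 b1 := fun hc => hG c x3 b1 hx3.2.symm hb1.2.symm hc
  have t32 : ¬ G.Adj x3 w := fun hc => hG c x3 w hx3.2.symm hw.2.symm hc
  have t33 : ¬ G.Adj b1 x := fun hc => hG c b1 x hb1.2.symm hx.2.symm hc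
  have t34 : ¬ G.Adj b2 x := fun hc => hG c b2 x hb2.2.symm hx.2.symm hc
  have t35 : ¬ G.Adj b3 x := fun hc => hG c b3 x hb3.2.symm hx.2.symm hc
  rcases Classical.em (G.Adj b1 t) with t36 | t36
  · have t37 : ¬ G.Adj b2 t := fun hc => hR d b x b1 t b2 hx.1.symm t36 hc.symm t8 (ns h.bd) t21 t18 (ns ht.2.2.2) t19 t4 (ns ht.2.1) t5 (ns t33) (ns n0) (ns t34) d3
    have t38 : ¬ G.Adj b3 t := fun hc => hR d b x b1 t b3 hx.1.symm t36 hc.symm t9 (ns h.bd) t21 t18 (ns ht.2.2.2) t20 t4 (ns ht.2.1) t6 (ns t33) (ns n0) (ns t35) d4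
    have t39 : ¬ G.Adj x1 t := fun hc => hR d x1 t b2 a b3 hc hb2.1 hb3.1.symm t10 t15 (ns ht.2.2.2) t19 (ns h.ad) t20 t24 (ns t1) t25 (ns t37) ht.1 (ns t38) d5
    have t40 : ¬ G.Adj x2 t := fun hc => hR d x2 t b2 a b3 hc hb2.1 hb3.1.symm t10 t16 (ns ht.2.2.2) t19 (ns h.ad) t20 t28 (ns t2) t29 (ns t37) ht.1 (ns t38) d5
    exact hR b2 t w x1 b x2 a0 hx1.1 hx2.1.symm t12 t37 t11 (ns t24) (ns t5) (ns t28) (ns t39) ht.2.1 (ns t40) (ns t26) (ns t7) (ns t30) d0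
  · rcases Classical.em (G.Adj x1 t) with t41 | t41
    · have t42 : G.Adj b2 t := Classical.byContradiction fun hc => hR d x1 t b1 a b2 t41 hb1.1 hb2.1.symm t8 t15 (ns ht.2.2.2) t18 (ns h.ad) t19 t23 (ns t1) t24 (ns t36) ht.1 (ns hc) d3
      have t43 : G.Adj b3 t := Classical.byContradiction fun hc => hR d x1 t b1 a b3 t41 hb1.1 hb3.1.symm t9 t15 (ns ht.2.2.2) t18 (ns h.ad) t20 t23 (ns t1) t25 (ns t36) ht.1 (ns hc) d4
      exact hR d b x b2 t b3 hx.1.symm t42 t43.symm t10 (ns h.bd) t21 t19 (ns ht.2.2.2) t20 t5 (ns ht.2.1) t6 (ns t34) (ns n0) (ns t35) d5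
    · have t44 : G.Adj x2 t := Classical.byContradiction fun hc => hR d t w x1 b x2 a0 hx1.1 hx2.1.symm t12 (ns ht.2.2.2) t22 t15 (ns h.bd) t16 (ns t41) ht.2.1 (ns hc) (ns t26) (ns t7) (ns t30) d0
      have t45 : G.Adj x3 t := Classical.byContradiction fun hc => hR d t w x1 b x3 a0 hx1.1 hx3.1.symm t13 (ns ht.2.2.2) t22 t15 (ns h.bd) t17 (ns t41) ht.2.1 (ns hc) (ns t26) (ns t7) (ns t32) d1
      exact hR x1 a b1 x2 t x3 hb1.1.symm t44 t45.symm t14 (ns t1) t23 t12 t41 t13 t2 (ns ht.1) t3 (ns t27) t36 (ns t31) d2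

lemma k_ty {G : SimpleGraph V} (hG : TG G) (hR : RF G) {a b c d : V} (h : B2 G a b c d)
    {x1 x2 x3 b1 b2 b3 t y : V}
    (hx1 : Tw G b c x1) (hx2 : Tw G b c x2) (hx3 : Tw G b c x3)
    (hb1 : Tw G a c b1) (hb2 : Tw G a c b2) (hb3 : Tw G a c b3)
    (ht : T4 G a b c d t) (hy : Tw G a d y) (a0 : G.Adj t y)
    (d0 : x1 ≠ x2) (d1 : x1 ≠ x3) (d2 : x2 ≠ x3)
    (d3 : b1 ≠ b2) (d4 : b1 ≠ b3) (d5 : b2 ≠ b3) : False := by
  have t1 : ¬ G.Adj a x1 := fun hc => hG a b x1 h.ab hc hx1.1.symm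
  have t2 : ¬ G.Adj a x2 := fun hc => hG a b x2 h.ab hc hx2.1.symm
  have t3 : ¬ G.Adj a x3 := fun hc => hG a b x3 h.ab hc hx3.1.symm
  have t4 : ¬ G.Adj b b1 := fun hc => hG a b b1 h.ab hb1.1.symm hc
  have t5 : ¬ G.Adj b b2 := fun hc => hG a b b2 h.ab hb2.1.symm hc
  have t6 : ¬ G.Adj b b3 := fun hc => hG a b b3 h.ab hb3.1.symm hc
  have t7 : ¬ G.Adj b y := fun hc => hG a b y h.ab hy.1.symm hc
  have t8 : ¬ G.Adj b1 b2 := fun hc => hG a b1 b2 hb1.1.symm hb2.1.symm hc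
  have t9 : ¬ G.Adj b1 b3 := fun hc => hG a b1 b3 hb1.1.symm hb3.1.symm hc
  have t10 : ¬ G.Adj b1 y := fun hc => hG a b1 y hb1.1.symm hy.1.symm hc
  have t11 : ¬ G.Adj b2 b3 := fun hc => hG a b2 b3 hb2.1.symm hb3.1.symm hc
  have t12 : ¬ G.Adj b2 y := fun hc => hG a b2 y hb2.1.symm hy.1.symm hc
  have t13 : ¬ G.Adj b3 y := fun hc => hG a b3 y hb3.1.symm hy.1.symm hc
  have t14 : ¬ G.Adj x1 x2 := fun hc => hG b x1 x2 hx1.1.symm hx2.1.symm hc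
  have t15 : ¬ G.Adj x1 x3 := fun hc => hG b x1 x3 hx1.1.symm hx3.1.symm hc
  have t16 : ¬ G.Adj x2 x3 := fun hc => hG b x2 x3 hx2.1.symm hx3.1.symm hc
  have t17 : ¬ G.Adj d x1 := fun hc => hG c d x1 h.cd hx1.2.symm hc
  have t18 : ¬ G.Adj d x2 := fun hc => hG c d x2 h.cd hx2.2.symm hc
  have t19 : ¬ G.Adj d x3 := fun hc => hG c d x3 h.cd hx3.2.symm hc
  have t20 : ¬ G.Adj d b1 := fun hc => hG c d b1 h.cd hb1.2.symm hc
  have t21 : ¬ G.Adj d b2 := fun hc => hG c d b2 h.cd hb2.2.symm hc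
  have t22 : ¬ G.Adj d b3 := fun hc => hG c d b3 h.cd hb3.2.symm hc
  have t23 : ¬ G.Adj c y := fun hc => hG c d y h.cd hc hy.2.symm
  have t24 : ¬ G.Adj x1 b1 := fun hc => hG c x1 b1 hx1.2.symm hb1.2.symm hc
  have t25 : ¬ G.Adj x1 b2 := fun hc => hG c x1 b2 hx1.2.symm hb2.2.symm hc
  have t26 : ¬ G.Adj x1 b3 := fun hc => hG c x1 b3 hx1.2.symm hb3.2.symm hc
  have t27 : ¬ G.Adj x2 b1 := fun hc => hG c x2 b1 hx2.2.symm hb1.2.symm hc
  have t28 : ¬ G.Adj x2 b2 := fun hc => hG c x2 b2 hx2.2.symm hb2.2.symm hc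
  have t29 : ¬ G.Adj x2 b3 := fun hc => hG c x2 b3 hx2.2.symm hb3.2.symm hc
  have t30 : ¬ G.Adj x3 b1 := fun hc => hG c x3 b1 hx3.2.symm hb1.2.symm hc
  have t31 : ¬ G.Adj x3 b2 := fun hc => hG c x3 b2 hx3.2.symm hb2.2.symm hc
  have t32 : ¬ G.Adj x3 b3 := fun hc => hG c x3 b3 hx3.2.symm hb3.2.symm hc
  rcases Classical.em (G.Adj x2 y) with t33 | t33
  · have t34 : ¬ G.Adj x2 t := fun hc => hG x2 t y hc t33 a0
    rcases Classical.em (G.Adj b3 t) with t35 | t35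
    · have t36 : G.Adj x1 t := Classical.byContradiction fun hc => hR d b3 t x1 b x2 t35 hx1.1 hx2.1.symm t14 t22 (ns ht.2.2.2) t17 (ns h.bd) t18 (ns t26) (ns t6) (ns t29) (ns hc) ht.2.1 (ns t34) d0
      have t37 : ¬ G.Adj b1 t := fun hc => hR d b x2 b1 t b3 hx2.1.symm hc t35.symm t9 (ns h.bd) t18 t20 (ns ht.2.2.2) t22 t4 (ns ht.2.1) t6 t27 t34 t29 d4
      have t38 : ¬ G.Adj b2 t := fun hc => hR d b x2 b2 t b3 hx2.1.symm hc t35.symm t11 (ns h.bd) t18 t21 (ns ht.2.2.2) t22 t5 (ns ht.2.1) t6 t28 t34 t29 d5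
      exact hR d x1 t b1 a b2 t36 hb1.1 hb2.1.symm t8 t17 (ns ht.2.2.2) t20 (ns h.ad) t21 t24 (ns t1) t25 (ns t37) ht.1 (ns t38) d3
    · have t39 : G.Adj b1 t := Classical.byContradiction fun hc => hR b t y b1 c b3 a0 hb1.2 hb3.2.symm t9 (ns ht.2.1) t7 t4 h.bc t6 (ns hc) ht.2.2.1 (ns t35) (ns t10) (ns t23) (ns t13) d4
      have t40 : G.Adj x1 t := Classical.byContradiction fun hc => hR b3 b1 t x1 b x2 t39 hx1.1 hx2.1.symm t14 (ns t9) t35 (ns t26) (ns t6) (ns t29) (ns t24) (ns t4) (ns t27) (ns hc) ht.2.1 (ns t34) d0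
      have t41 : G.Adj x3 t := Classical.byContradiction fun hc => hR b3 b1 t x2 b x3 t39 hx2.1 hx3.1.symm t16 (ns t9) t35 (ns t29) (ns t6) (ns t32) (ns t27) (ns t4) (ns t30) (ns t34) ht.2.1 (ns hc) d2
      exact hR x2 a b3 x1 t x3 hb3.1.symm t40 t41.symm t15 (ns t2) t29 (ns t14) t34 t16 t1 (ns ht.1) t3 (ns t26) t35 (ns t32) d1
  · have t42 : G.Adj x1 y := Classical.byContradiction fun hc => hR b1 d y x1 b x2 hy.2.symm hx1.1 hx2.1.symm t14 (ns t20) t10 (ns t24) (ns t4) (ns t27) t17 (ns h.bd) t18 (ns hc) (ns t7) (ns t33) d0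
    have t43 : G.Adj x3 y := Classical.byContradiction fun hc => hR b1 d y x2 b x3 hy.2.symm hx2.1 hx3.1.symm t16 (ns t20) t10 (ns t27) (ns t4) (ns t30) t18 (ns h.bd) t19 (ns t33) (ns t7) (ns hc) d2
    have t44 : ¬ G.Adj x1 t := fun hc => hG x1 t y hc t42 a0
    have t45 : ¬ G.Adj x3 t := fun hc => hG x3 t y hc t43 a0
    have t46 : ¬ G.Adj b1 t := fun hc => hR d b1 t x1 b x3 hc hx1.1 hx3.1.symm t15 t20 (ns ht.2.2.2) t17 (ns h.bd) t19 (ns t24) (ns t4) (ns t30) (ns t44) ht.2.1 (ns t45) d1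
    have t47 : ¬ G.Adj b2 t := fun hc => hR d b2 t x1 b x3 hc hx1.1 hx3.1.symm t15 t21 (ns ht.2.2.2) t17 (ns h.bd) t19 (ns t25) (ns t5) (ns t31) (ns t44) ht.2.1 (ns t45) d1
    exact hR b t y b1 c b2 a0 hb1.2 hb2.2.symm t8 (ns ht.2.1) t7 t4 h.bc t5 (ns t46) ht.2.2.1 (ns t47) (ns t10) (ns t23) (ns t12) d3

lemma k_td {G : SimpleGraph V} (hG : TG G) (hR : RF G) {a b c d : V} (h : B2 G a b c d)
    {x1 x2 x3 b1 b2 b3 t y : V}
    (hx1 : Tw G b c x1) (hx2 : Tw G b c x2) (hx3 : Tw G b c x3)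
    (hb1 : Tw G a c b1) (hb2 : Tw G a c b2) (hb3 : Tw G a c b3)
    (ht : T4 G a b c d t) (hy : Tw G b d y) (a0 : G.Adj t y)
    (d0 : x1 ≠ x2) (d1 : x1 ≠ x3) (d2 : x2 ≠ x3)
    (d3 : b1 ≠ b2) (d4 : b1 ≠ b3) (d5 : b2 ≠ b3) : False := by
  have t1 : ¬ G.Adj a x1 := fun hc => hG a b x1 h.ab hc hx1.1.symm
  have t2 : ¬ G.Adj a x2 := fun hc => hG a b x2 h.ab hc hx2.1.symm
  have t3 : ¬ G.Adj a x3 := fun hc => hG a b x3 h.ab hc hx3.1.symm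
  have t4 : ¬ G.Adj b b1 := fun hc => hG a b b1 h.ab hb1.1.symm hc
  have t5 : ¬ G.Adj a y := fun hc => hG a b y h.ab hc hy.1.symm
  have t6 : ¬ G.Adj b1 b2 := fun hc => hG a b1 b2 hb1.1.symm hb2.1.symm hc
  have t7 : ¬ G.Adj b1 b3 := fun hc => hG a b1 b3 hb1.1.symm hb3.1.symm hc
  have t8 : ¬ G.Adj b2 b3 := fun hc => hG a b2 b3 hb2.1.symm hb3.1.symm hc
  have t9 : ¬ G.Adj x1 x2 := fun hc => hG b x1 x2 hx1.1.symm hx2.1.symm hc
  have t10 : ¬ G.Adj x1 x3 := fun hc => hG b x1 x3 hx1.1.symm hx3.1.symm hc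
  have t11 : ¬ G.Adj x1 y := fun hc => hG b x1 y hx1.1.symm hy.1.symm hc
  have t12 : ¬ G.Adj x2 x3 := fun hc => hG b x2 x3 hx2.1.symm hx3.1.symm hc
  have t13 : ¬ G.Adj x2 y := fun hc => hG b x2 y hx2.1.symm hy.1.symm hc
  have t14 : ¬ G.Adj x3 y := fun hc => hG b x3 y hx3.1.symm hy.1.symm hc
  have t15 : ¬ G.Adj d x1 := fun hc => hG c d x1 h.cd hx1.2.symm hc
  have t16 : ¬ G.Adj d x2 := fun hc => hG c d x2 h.cd hx2.2.symm hc
  have t17 : ¬ G.Adj d x3 := fun hc => hG c d x3 h.cd hx3.2.symm hc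
  have t18 : ¬ G.Adj d b1 := fun hc => hG c d b1 h.cd hb1.2.symm hc
  have t19 : ¬ G.Adj d b2 := fun hc => hG c d b2 h.cd hb2.2.symm hc
  have t20 : ¬ G.Adj d b3 := fun hc => hG c d b3 h.cd hb3.2.symm hc
  have t21 : ¬ G.Adj c y := fun hc => hG c d y h.cd hc hy.2.symm
  have t22 : ¬ G.Adj x1 b1 := fun hc => hG c x1 b1 hx1.2.symm hb1.2.symm hc
  have t23 : ¬ G.Adj x1 b2 := fun hc => hG c x1 b2 hx1.2.symm hb2.2.symm hc
  have t24 : ¬ G.Adj x1 b3 := fun hc => hG c x1 b3 hx1.2.symm hb3.2.symm hc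
  have t25 : ¬ G.Adj x2 b1 := fun hc => hG c x2 b1 hx2.2.symm hb1.2.symm hc
  have t26 : ¬ G.Adj x2 b2 := fun hc => hG c x2 b2 hx2.2.symm hb2.2.symm hc
  have t27 : ¬ G.Adj x2 b3 := fun hc => hG c x2 b3 hx2.2.symm hb3.2.symm hc
  have t28 : ¬ G.Adj x3 b1 := fun hc => hG c x3 b1 hx3.2.symm hb1.2.symm hc
  have t29 : ¬ G.Adj x3 b3 := fun hc => hG c x3 b3 hx3.2.symm hb3.2.symm hc
  rcases Classical.em (G.Adj b3 y) with t30 | t30
  · have t31 : ¬ G.Adj b3 t := fun hc => hG b3 t y hc t30 a0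
    rcases Classical.em (G.Adj x2 t) with t32 | t32
    · have t33 : G.Adj b1 t := Classical.byContradiction fun hc => hR d x2 t b1 a b3 t32 hb1.1 hb3.1.symm t7 t16 (ns ht.2.2.2) t18 (ns h.ad) t20 t25 (ns t2) t27 (ns hc) ht.1 (ns t31) d4
      have t34 : ¬ G.Adj x1 t := fun hc => hR d a b3 x1 t x2 hb3.1.symm hc t32.symm t9 (ns h.ad) t20 t15 (ns ht.2.2.2) t16 t1 (ns ht.1) t2 (ns t24) t31 (ns t27) d0
      have t35 : ¬ G.Adj x3 t := fun hc => hR d a b3 x2 t x3 hb3.1.symm t32 hc.symm t12 (ns h.ad) t20 t16 (ns ht.2.2.2) t17 t2 (ns ht.1) t3 (ns t27) t31 (ns t29) d2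
      exact hR d b1 t x1 b x3 t33 hx1.1 hx3.1.symm t10 t18 (ns ht.2.2.2) t15 (ns h.bd) t17 (ns t22) (ns t4) (ns t28) (ns t34) ht.2.1 (ns t35) d1
    · have t36 : G.Adj x1 t := Classical.byContradiction fun hc => hR a t y x1 c x2 a0 hx1.2 hx2.2.symm t9 (ns ht.1) t5 t1 h.ac t2 (ns hc) ht.2.2.1 (ns t32) (ns t11) (ns t21) (ns t13) d0
      have t37 : G.Adj x3 t := Classical.byContradiction fun hc => hR a t y x2 c x3 a0 hx2.2 hx3.2.symm t12 (ns ht.1) t5 t2 h.ac t3 (ns t32) ht.2.2.1 (ns hc) (ns t13) (ns t21) (ns t14) d2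
      exact hR x2 a b3 x1 t x3 hb3.1.symm t36 t37.symm t10 (ns t2) t27 (ns t9) t32 t12 t1 (ns ht.1) t3 (ns t24) t31 (ns t29) d1
  · have t38 : G.Adj b1 y := Classical.byContradiction fun hc => hR x1 d y b1 a b3 hy.2.symm hb1.1 hb3.1.symm t7 (ns t15) t11 t22 (ns t1) t24 t18 (ns h.ad) t20 (ns hc) (ns t5) (ns t30) d4
    have t39 : G.Adj b2 y := Classical.byContradiction fun hc => hR x1 d y b2 a b3 hy.2.symm hb2.1 hb3.1.symm t8 (ns t15) t11 t23 (ns t1) t24 t19 (ns h.ad) t20 (ns hc) (ns t5) (ns t30) d5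
    have t40 : ¬ G.Adj b1 t := fun hc => hG b1 t y hc t38 a0
    have t41 : ¬ G.Adj b2 t := fun hc => hG b2 t y hc t39 a0
    have t42 : ¬ G.Adj x1 t := fun hc => hR d x1 t b1 a b2 hc hb1.1 hb2.1.symm t6 t15 (ns ht.2.2.2) t18 (ns h.ad) t19 t22 (ns t1) t23 (ns t40) ht.1 (ns t41) d3
    have t43 : ¬ G.Adj x2 t := fun hc => hR d x2 t b1 a b2 hc hb1.1 hb2.1.symm t6 t16 (ns ht.2.2.2) t18 (ns h.ad) t19 t25 (ns t2) t26 (ns t40) ht.1 (ns t41) d3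
    exact hR a t y x1 c x2 a0 hx1.2 hx2.2.symm t9 (ns ht.1) t5 t1 h.ac t2 (ns t42) ht.2.2.1 (ns t43) (ns t11) (ns t21) (ns t13) d0

lemma k_xxy {G : SimpleGraph V} (hG : TG G) (hR : RF G) {a b c d : V} (h : B2 G a b c d)
    {w x u y : V}
    (hw : Tw G a c w) (hx : Tw G b c x) (hu : Tw G b c u)
    (hy : Tw G a d y) (n0 : ¬ G.Adj y x) (n1 : ¬ G.Adj y u)
    (d0 : x ≠ u) : False := by
  have t1 : ¬ G.Adj b w := fun hc => hG a b w h.ab hw.1.symm hc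
  have t2 : ¬ G.Adj b y := fun hc => hG a b y h.ab hy.1.symm hc
  have t3 : ¬ G.Adj w y := fun hc => hG a w y hw.1.symm hy.1.symm hc
  have t4 : ¬ G.Adj x u := fun hc => hG b x u hx.1.symm hu.1.symm hc
  have t5 : ¬ G.Adj d w := fun hc => hG c d w h.cd hw.2.symm hc
  have t6 : ¬ G.Adj d x := fun hc => hG c d x h.cd hx.2.symm hc
  have t7 : ¬ G.Adj d u := fun hc => hG c d u h.cd hu.2.symm hc
  have t8 : ¬ G.Adj w x := fun hc => hG c w x hw.2.symm hx.2.symm hc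
  have t9 : ¬ G.Adj w u := fun hc => hG c w u hw.2.symm hu.2.symm hc
  exact hR w d y x b u hy.2.symm hx.1 hu.1.symm t4 (ns t5) t3 t8 (ns t1) t9 t6 (ns h.bd) t7 n0 (ns t2) n1 d0

lemma k_xyy {G : SimpleGraph V} (hG : TG G) (hR : RF G) {a b c d : V} (h : B2 G a b c d)
    {w x u y : V}
    (hw : Tw G a c w) (hx : Tw G b c x) (hu : Tw G a d u)
    (hy : Tw G a d y) (n0 : ¬ G.Adj x y) (n1 : ¬ G.Adj x u)
    (d0 : y ≠ u) : False := by
  have t1 : ¬ G.Adj b w := fun hc => hG a b w h.ab hw.1.symm hc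
  have t2 : ¬ G.Adj b u := fun hc => hG a b u h.ab hu.1.symm hc
  have t3 : ¬ G.Adj b y := fun hc => hG a b y h.ab hy.1.symm hc
  have t4 : ¬ G.Adj w u := fun hc => hG a w u hw.1.symm hu.1.symm hc
  have t5 : ¬ G.Adj w y := fun hc => hG a w y hw.1.symm hy.1.symm hc
  have t6 : ¬ G.Adj u y := fun hc => hG a u y hu.1.symm hy.1.symm hc
  have t7 : ¬ G.Adj d w := fun hc => hG c d w h.cd hw.2.symm hc
  have t8 : ¬ G.Adj d x := fun hc => hG c d x h.cd hx.2.symm hc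
  have t9 : ¬ G.Adj w x := fun hc => hG c w x hw.2.symm hx.2.symm hc
  exact hR w b x u d y hx.1.symm hu.2 hy.2.symm t6 (ns t1) t9 t4 (ns t7) t5 t2 h.bd t3 n1 (ns t8) n0 (Ne.symm d0)

lemma k_end {G : SimpleGraph V} (hG : TG G) (hR : RF G) {a b c d : V} (h : B2 G a b c d)
    {x1 x2 x3 y1 y2 t u x y : V}
    (hx1 : Tw G b c x1) (hx2 : Tw G b c x2) (hx3 : Tw G b c x3)
    (hy1 : Tw G a d y1) (hy2 : Tw G a d y2) (ht : T4 G a b c d t)
    (hu : T4 G a b c d u) (hx : Tw G b c x) (hy : Tw G a d y)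
    (a0 : G.Adj t u) (a1 : G.Adj t x) (a2 : G.Adj t y)
    (d0 : x1 ≠ x2) (d1 : x1 ≠ x3) (d2 : x2 ≠ x3)
    (d3 : y1 ≠ y2) : False := by
  have t1 : c ≠ y1 := fun hc => eqa hc.symm hy1.1 (ns h.ac)
  have t2 : c ≠ y2 := fun hc => eqa hc.symm hy2.1 (ns h.ac)
  have t3 : d ≠ x1 := fun hc => eqa hc.symm hx1.1 (ns h.bd)
  have t4 : d ≠ x2 := fun hc => eqa hc.symm hx2.1 (ns h.bd)
  have t5 : d ≠ x3 := fun hc => eqa hc.symm hx3.1 (ns h.bd)
  have t6 : ¬ G.Adj a x1 := fun hc => hG a b x1 h.ab hc hx1.1.symm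
  have t7 : ¬ G.Adj a x2 := fun hc => hG a b x2 h.ab hc hx2.1.symm
  have t8 : ¬ G.Adj a x3 := fun hc => hG a b x3 h.ab hc hx3.1.symm
  have t9 : ¬ G.Adj b y1 := fun hc => hG a b y1 h.ab hy1.1.symm hc
  have t10 : ¬ G.Adj b y2 := fun hc => hG a b y2 h.ab hy2.1.symm hc
  have t11 : ¬ G.Adj y1 y2 := fun hc => hG a y1 y2 hy1.1.symm hy2.1.symm hc
  have t12 : ¬ G.Adj x1 x2 := fun hc => hG b x1 x2 hx1.1.symm hx2.1.symm hc
  have t13 : ¬ G.Adj x1 x3 := fun hc => hG b x1 x3 hx1.1.symm hx3.1.symm hc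
  have t14 : ¬ G.Adj x2 x3 := fun hc => hG b x2 x3 hx2.1.symm hx3.1.symm hc
  have t15 : ¬ G.Adj d x1 := fun hc => hG c d x1 h.cd hx1.2.symm hc
  have t16 : ¬ G.Adj d x2 := fun hc => hG c d x2 h.cd hx2.2.symm hc
  have t17 : ¬ G.Adj d x3 := fun hc => hG c d x3 h.cd hx3.2.symm hc
  have t18 : ¬ G.Adj c y1 := fun hc => hG c d y1 h.cd hc hy1.2.symm
  have t19 : ¬ G.Adj c y2 := fun hc => hG c d y2 h.cd hc hy2.2.symm
  have t20 : ¬ G.Adj d x := fun hc => hG c d x h.cd hx.2.symm hc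
  have t21 : ¬ G.Adj c y := fun hc => hG c d y h.cd hc hy.2.symm
  have t22 : ¬ G.Adj u x := fun hc => hG t u x a0 a1 hc
  have t23 : ¬ G.Adj u y := fun hc => hG t u y a0 a2 hc
  rcases Classical.em (G.Adj x1 u) with t24 | t24
  · have t25 : ¬ G.Adj x1 t := fun hc => hG x1 t u hc t24 a0
    rcases Classical.em (G.Adj y1 u) with t26 | t26
    · have t27 : ¬ G.Adj y1 t := fun hc => hG y1 t u hc t26 a0
      have t28 : ¬ G.Adj x1 y1 := fun hc => hG x1 y1 u hc t24 t26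
      rcases Classical.em (G.Adj x2 t) with t29 | t29
      · have t30 : ¬ G.Adj x2 u := fun hc => hG x2 t u t29 hc a0
        have t31 : ¬ G.Adj x2 y := fun hc => hG x2 t y t29 hc a2
        rcases Classical.em (G.Adj x3 u) with t32 | t32
        · have t33 : ¬ G.Adj x3 t := fun hc => hG x3 t u hc t32 a0
          have t34 : ¬ G.Adj x3 y1 := fun hc => hG x3 y1 u hc t32 t26
          exact hR t a y1 x1 c x3 hy1.1.symm hx1.2 hx3.2.symm t13 ht.1 (ns t27) (ns t25) ht.2.2.1 (ns t33) t6 h.ac t8 (ns t28) (ns t18) (ns t34) d1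
        · have t35 : G.Adj x3 t := Classical.byContradiction fun hc => hR a t u d c x3 a0 h.cd.symm hx3.2.symm t17 (ns ht.1) (ns hu.1) h.ad h.ac t8 ht.2.2.2 ht.2.2.1 (ns hc) hu.2.2.2 hu.2.2.1 (ns t32) t5
          have t36 : G.Adj x3 y := Classical.byContradiction fun hc => hR u a y x2 c x3 hy.1.symm hx2.2 hx3.2.symm t14 hu.1 t23 (ns t30) hu.2.2.1 (ns t32) t7 h.ac t8 (ns t31) (ns t21) (ns hc) d2
          exact hG x3 t y t35 t36 a2
      · have t37 : G.Adj x2 u := Classical.byContradiction fun hc => hR a t u d c x2 a0 h.cd.symm hx2.2.symm t16 (ns ht.1) (ns hu.1) h.ad h.ac t7 ht.2.2.2 ht.2.2.1 (ns t29) hu.2.2.2 hu.2.2.1 (ns hc) t4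
        have t38 : G.Adj x2 y1 := Classical.byContradiction fun hc => hR t a y1 x1 c x2 hy1.1.symm hx1.2 hx2.2.symm t12 ht.1 (ns t27) (ns t25) ht.2.2.1 (ns t29) t6 h.ac t7 (ns t28) (ns t18) (ns hc) d0
        exact hG x2 y1 u t38 t37 t26
    · have t39 : G.Adj y1 t := Classical.byContradiction fun hc => hR b t u c d y1 a0 h.cd hy1.2.symm t18 (ns ht.2.1) (ns hu.2.1) h.bc h.bd t9 ht.2.2.1 ht.2.2.2 (ns hc) hu.2.2.1 hu.2.2.2 (ns t26) t1
      have t40 : ¬ G.Adj y1 x := fun hc => hG y1 t x t39 hc a1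
      rcases Classical.em (G.Adj y2 u) with t41 | t41
      · have t42 : ¬ G.Adj y2 t := fun hc => hG y2 t u hc t41 a0
        have t43 : ¬ G.Adj x1 y2 := fun hc => hG x1 y2 u hc t24 t41
        rcases Classical.em (G.Adj x2 u) with t44 | t44
        · have t45 : ¬ G.Adj x2 t := fun hc => hG x2 t u hc t44 a0
          have t46 : ¬ G.Adj x2 y2 := fun hc => hG x2 y2 u hc t44 t41
          exact hR t a y2 x1 c x2 hy2.1.symm hx1.2 hx2.2.symm t12 ht.1 (ns t42) (ns t25) ht.2.2.1 (ns t45) t6 h.ac t7 (ns t43) (ns t19) (ns t46) d0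
        · have t47 : G.Adj x2 t := Classical.byContradiction fun hc => hR a t u d c x2 a0 h.cd.symm hx2.2.symm t16 (ns ht.1) (ns hu.1) h.ad h.ac t7 ht.2.2.2 ht.2.2.1 (ns hc) hu.2.2.2 hu.2.2.1 (ns t44) t4
          have t48 : ¬ G.Adj x2 y := fun hc => hG x2 t y t47 hc a2
          rcases Classical.em (G.Adj x3 u) with t49 | t49
          · have t50 : ¬ G.Adj x3 t := fun hc => hG x3 t u hc t49 a0
            have t51 : ¬ G.Adj x3 y2 := fun hc => hG x3 y2 u hc t49 t41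
            exact hR t a y2 x1 c x3 hy2.1.symm hx1.2 hx3.2.symm t13 ht.1 (ns t42) (ns t25) ht.2.2.1 (ns t50) t6 h.ac t8 (ns t43) (ns t19) (ns t51) d1
          · have t52 : G.Adj x3 t := Classical.byContradiction fun hc => hR a t u d c x3 a0 h.cd.symm hx3.2.symm t17 (ns ht.1) (ns hu.1) h.ad h.ac t8 ht.2.2.2 ht.2.2.1 (ns hc) hu.2.2.2 hu.2.2.1 (ns t49) t5
            have t53 : G.Adj x3 y := Classical.byContradiction fun hc => hR u a y x2 c x3 hy.1.symm hx2.2 hx3.2.symm t14 hu.1 t23 (ns t44) hu.2.2.1 (ns t49) t7 h.ac t8 (ns t48) (ns t21) (ns hc) d2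
            exact hG x3 t y t52 t53 a2
      · have t54 : G.Adj y2 t := Classical.byContradiction fun hc => hR b t u c d y2 a0 h.cd hy2.2.symm t19 (ns ht.2.1) (ns hu.2.1) h.bc h.bd t10 ht.2.2.1 ht.2.2.2 (ns hc) hu.2.2.1 hu.2.2.2 (ns t41) t2
        have t55 : G.Adj y2 x := Classical.byContradiction fun hc => hR u b x y1 d y2 hx.1.symm hy1.2 hy2.2.symm t11 hu.2.1 t22 (ns t26) hu.2.2.2 (ns t41) t9 h.bd t10 (ns t40) (ns t20) (ns hc) d3
        exact hG y2 t x t54 t55 a1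
  · have t56 : G.Adj x1 t := Classical.byContradiction fun hc => hR a t u d c x1 a0 h.cd.symm hx1.2.symm t15 (ns ht.1) (ns hu.1) h.ad h.ac t6 ht.2.2.2 ht.2.2.1 (ns hc) hu.2.2.2 hu.2.2.1 (ns t24) t3
    have t57 : ¬ G.Adj x1 y := fun hc => hG x1 t y t56 hc a2
    rcases Classical.em (G.Adj x2 u) with t58 | t58
    · have t59 : ¬ G.Adj x2 t := fun hc => hG x2 t u hc t58 a0
      rcases Classical.em (G.Adj x3 u) with t60 | t60
      · have t61 : ¬ G.Adj x3 t := fun hc => hG x3 t u hc t60 a0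
        rcases Classical.em (G.Adj y1 u) with t62 | t62
        · have t63 : ¬ G.Adj y1 t := fun hc => hG y1 t u hc t62 a0
          have t64 : ¬ G.Adj x2 y1 := fun hc => hG x2 y1 u hc t58 t62
          have t65 : ¬ G.Adj x3 y1 := fun hc => hG x3 y1 u hc t60 t62
          exact hR t a y1 x2 c x3 hy1.1.symm hx2.2 hx3.2.symm t14 ht.1 (ns t63) (ns t59) ht.2.2.1 (ns t61) t7 h.ac t8 (ns t64) (ns t18) (ns t65) d2
        · have t66 : G.Adj y1 t := Classical.byContradiction fun hc => hR b t u c d y1 a0 h.cd hy1.2.symm t18 (ns ht.2.1) (ns hu.2.1) h.bc h.bd t9 ht.2.2.1 ht.2.2.2 (ns hc) hu.2.2.1 hu.2.2.2 (ns t62) t1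
          have t67 : ¬ G.Adj y1 x := fun hc => hG y1 t x t66 hc a1
          rcases Classical.em (G.Adj y2 u) with t68 | t68
          · have t69 : ¬ G.Adj y2 t := fun hc => hG y2 t u hc t68 a0
            have t70 : ¬ G.Adj x2 y2 := fun hc => hG x2 y2 u hc t58 t68
            have t71 : ¬ G.Adj x3 y2 := fun hc => hG x3 y2 u hc t60 t68
            exact hR t a y2 x2 c x3 hy2.1.symm hx2.2 hx3.2.symm t14 ht.1 (ns t69) (ns t59) ht.2.2.1 (ns t61) t7 h.ac t8 (ns t70) (ns t19) (ns t71) d2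
          · have t72 : G.Adj y2 t := Classical.byContradiction fun hc => hR b t u c d y2 a0 h.cd hy2.2.symm t19 (ns ht.2.1) (ns hu.2.1) h.bc h.bd t10 ht.2.2.1 ht.2.2.2 (ns hc) hu.2.2.1 hu.2.2.2 (ns t68) t2
            have t73 : G.Adj y2 x := Classical.byContradiction fun hc => hR u b x y1 d y2 hx.1.symm hy1.2 hy2.2.symm t11 hu.2.1 t22 (ns t62) hu.2.2.2 (ns t68) t9 h.bd t10 (ns t67) (ns t20) (ns hc) d3
            exact hG y2 t x t72 t73 a1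
      · have t74 : G.Adj x3 t := Classical.byContradiction fun hc => hR a t u d c x3 a0 h.cd.symm hx3.2.symm t17 (ns ht.1) (ns hu.1) h.ad h.ac t8 ht.2.2.2 ht.2.2.1 (ns hc) hu.2.2.2 hu.2.2.1 (ns t60) t5
        have t75 : G.Adj x3 y := Classical.byContradiction fun hc => hR u a y x1 c x3 hy.1.symm hx1.2 hx3.2.symm t13 hu.1 t23 (ns t24) hu.2.2.1 (ns t60) t6 h.ac t8 (ns t57) (ns t21) (ns hc) d1
        exact hG x3 t y t74 t75 a2
    · have t76 : G.Adj x2 t := Classical.byContradiction fun hc => hR a t u d c x2 a0 h.cd.symm hx2.2.symm t16 (ns ht.1) (ns hu.1) h.ad h.ac t7 ht.2.2.2 ht.2.2.1 (ns hc) hu.2.2.2 hu.2.2.1 (ns t58) t4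
      have t77 : G.Adj x2 y := Classical.byContradiction fun hc => hR u a y x1 c x2 hy.1.symm hx1.2 hx2.2.symm t12 hu.1 t23 (ns t24) hu.2.2.1 (ns t58) t6 h.ac t7 (ns t57) (ns t21) (ns hc) d0
      exact hG x2 t y t76 t77 a2

end Pool.Agent.MP_41f2d3_co
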