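import Pool.Agent.MP_41f2d3_co.RK3Local

/-! Triangle-free graphs without induced P1 + P2 + P3: building blocks. -/

namespace Pool.Agent.MP_41f2d3_co

open Finset Classical

noncomputable section

variable {V : Type}

/-- bound -/
def cT : ℕ := 3 * (cB + 1)

lemma W_txy {G : SimpleGraph V} (hR : RF G) {S : Finset V} (col : V → Fin 3)
    (hind : ∀ a ∈ S, ∀ b ∈ S, G.Adj a b → col a ≠ col b) (hT : TF G S)
    (hbad : ∀ t ∈ S, ∀ x ∈ S, ∀ y ∈ S, col t = 0 → col x = 1 → col y = 2 → ¬ G.Adj t x →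
      ¬ G.Adj t y → ¬ G.Adj x y → (∀ u ∈ S, col u = 0 → (G.Adj u x ↔ G.Adj u y)) ∧
      (∀ w ∈ S, col w = 1 → w ≠ x → G.Adj y w) ∧ ∀ w ∈ S, col w = 2 → w ≠ y → G.Adj x w) :
    W G cT S := by
  refine W_cutp col (fun P hPS => ?_)
  have hind' : ∀ a ∈ P, ∀ b ∈ P, G.Adj a b → col a ≠ col b :=
    fun a ha b hb => hind a (hPS ha) b (hPS hb)
  by_cases hb : ∃ t ∈ P, ∃ x ∈ P, ∃ y ∈ P, col t = 0 ∧ col x = 1 ∧ col y = 2 ∧ ¬ G.Adj t x ∧
      ¬ G.Adj t y ∧ ¬ G.Adj x y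
  · obtain ⟨t, ht, x, hx, y, hy, ct, cx, cy, tx, ty, xy⟩ := hb
    obtain ⟨h1, h2, h3⟩ := hbad t (hPS ht) x (hPS hx) y (hPS hy) ct cx cy tx ty xy
    right
    refine ⟨P.filter (fun v => v = x ∨ v = y ∨ (col v = 0 ∧ G.Adj v x)), filter_subset _ _,
      ⟨x, mem_filter.2 ⟨hx, Or.inl rfl⟩⟩, fun h => ?_,
      fun i j => (i = 1 ∧ j = 2) ∨ (i = 2 ∧ j = 1), ?_⟩
    · rcases (mem_filter.1 (h ht)).2 with e | e | e
      · rw [e, cx] at ct; omega
      · rw [e, cy] at ct; omega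
      · exact tx e.2
    · intro a ha b hb hbA
      have hb' : b ≠ x ∧ b ≠ y ∧ (col b = 0 → ¬ G.Adj b x) :=
        ⟨fun e => hbA (mem_filter.2 ⟨hb, Or.inl e⟩),
          fun e => hbA (mem_filter.2 ⟨hb, Or.inr (Or.inl e)⟩),
          fun e e' => hbA (mem_filter.2 ⟨hb, Or.inr (Or.inr ⟨e, e'⟩)⟩)⟩
      obtain ⟨haP, ha⟩ := mem_filter.1 ha
      have i1 := hind' a haP b hb
      have i2 := h1 b (hPS hb)
      have i3 := h2 b (hPS hb)
      have i4 := h3 b (hPS hb)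
      have i5 := h1 a (hPS haP)
      have i6 := hT a (hPS haP) x (hPS hx) b (hPS hb)
      have i7 := hT a (hPS haP) y (hPS hy) b (hPS hb)
      clear hbA hbad hind hT hR h1 h2 h3 hind'
      rcases fin3_cases (col b) with e | e | e <;> rcases ha with rfl | rfl | ha <;>
        grind [SimpleGraph.adj_comm]
  have h3' := rainbow_of_ordered (G := G) (S := P) col
    (fun a ha b hb' c hc e1 e2 e3 n1 n2 n3 => hb ⟨a, ha, b, hb', c, hc, e1, e2, e3, n1, n2, n3⟩)
  by_cases hall : ∃ a ∈ P, ∃ b ∈ P, ∃ c ∈ P, col a = 0 ∧ col b = 1 ∧ col c = 2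
  · obtain ⟨a, ha, b, hb, c, hc, ca, cb, cc⟩ := hall
    right
    obtain ⟨A, h1, h2, h3, h4⟩ := cut_notri col hind' h3' (hT.mono hPS) ha hb hc
      (by rw [ca, cb]; decide) (by rw [ca, cc]; decide) (by rw [cb, cc]; decide)
    exact ⟨A, h1, h2, h3, fun i j => j = i + 1, h4⟩
  · left
    have : ∃ i : Fin 3, ∀ a ∈ P, col a ≠ i := by
      by_contra hh
      push Not at hh
      obtain ⟨a, ha, ca⟩ := hh 0
      obtain ⟨b, hb, cb⟩ := hh 1
      obtain ⟨c, hc, cc⟩ := hh 2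
      exact hall ⟨a, ha, b, hb, c, hc, ca, cb, cc⟩
    obtain ⟨i, hi⟩ := this
    refine W_bipR hR (fun v => col v = i + 1) ?_
    intro a ha b hb hab
    exact fin3_side i _ _ (hind' a ha b hb hab) (hi a ha) (hi b hb)

/-- P2 + P3 free on `S` -/
def F23 (G : SimpleGraph V) (S : Finset V) : Prop :=
  ∀ a ∈ S, ∀ b ∈ S, ∀ c ∈ S, ∀ d ∈ S, ∀ e ∈ S, G.Adj a b → G.Adj c d → G.Adj d e → ¬ G.Adj c e →
    ¬ G.Adj a c → ¬ G.Adj a d → ¬ G.Adj a e → ¬ G.Adj b c → ¬ G.Adj b d → ¬ G.Adj b e →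
    c ≠ e → False

/-- an independent set `X` and an induced matching with each edge dominating `X` -/
structure TX (G : SimpleGraph V) (S : Finset V) (X : V → Prop) : Prop where
  tf : TF G S
  ind : ∀ x ∈ S, ∀ y ∈ S, X x → X y → ¬ G.Adj x y
  mt : ∀ t ∈ S, ∀ u ∈ S, ∀ v ∈ S, ¬ X t → ¬ X u → ¬ X v → G.Adj t u → G.Adj t v → u = v
  one : ∀ t ∈ S, ∀ u ∈ S, ∀ x ∈ S, ¬ X t → ¬ X u → X x → G.Adj t u → G.Adj t x ∨ G.Adj u x
  f23 : F23 G S

lemma TX.mono {G : SimpleGraph V} {S S' : Finset V} {X : V → Prop} (h : TX G S X) (hS : S' ⊆ S) :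
    TX G S' X :=
  ⟨h.tf.mono hS, fun x hx y hy => h.ind x (hS hx) y (hS hy),
    fun t ht u hu v hv => h.mt t (hS ht) u (hS hu) v (hS hv),
    fun t ht u hu v hv => h.one t (hS ht) u (hS hu) v (hS hv),
    fun a ha b hb c hc d hd e he => h.f23 a (hS ha) b (hS hb) c (hS hc) d (hS hd) e (hS he)⟩

/-- at most one neighbour in `X` -/
def Low (G : SimpleGraph V) (S : Finset V) (X : V → Prop) (t : V) : Prop :=
  ∀ x ∈ S, ∀ y ∈ S, X x → X y → G.Adj t x → G.Adj t y → x = y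

/-- bound -/
def cX1 : ℕ := J 4 (cB + 12)

lemma W_tx1 {G : SimpleGraph V} (hR : RF G) {S : Finset V} {X : V → Prop} (h : TX G S X)
    (hlow : ∀ t ∈ S, ∀ u ∈ S, ¬ X t → ¬ X u → G.Adj t u → (Low G S X t ↔ ¬ Low G S X u)) :
    W G cX1 S := by
  let minor : V → Prop := fun m => ¬ X m ∧ (∃ u ∈ S, ¬ X u ∧ G.Adj m u) ∧ Low G S X m
  let Sp : V → Prop := fun t => ¬ X t ∧ ∃ u ∈ S, ¬ X u ∧ G.Adj t u ∧
    (∃ x ∈ S, X x ∧ G.Adj t x) ∧ ∃ x ∈ S, X x ∧ G.Adj u x
  let A := S.filter (fun v => Sp v ∨ (X v ∧ ∃ m ∈ S, minor m ∧ G.Adj m v))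
  have inA1 : ∀ v ∈ S, Sp v → v ∈ A := fun v hv hs => mem_filter.2 ⟨hv, Or.inl hs⟩
  have inA2 : ∀ v ∈ S, X v → ∀ m ∈ S, minor m → G.Adj m v → v ∈ A :=
    fun v hv hx m hm h1 h2 => mem_filter.2 ⟨hv, Or.inr ⟨hx, m, hm, h1, h2⟩⟩
  have spA : ∀ v ∈ A, ¬ X v → Sp v := fun v hv hx =>
    (mem_filter.1 hv).2.resolve_right (fun h => hx h.1)
  have xA : ∀ v ∈ A, X v → ∃ m ∈ S, minor m ∧ G.Adj m v := fun v hv hx =>
    ((mem_filter.1 hv).2.resolve_left (fun h => h.1 hx)).2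
  have partner : ∀ t ∈ A, ¬ X t → ∀ z ∈ S, ¬ X z → G.Adj t z → z ∈ A := by
    intro t ht hx z hz hz' tz
    obtain ⟨_, u, hu, xu, tu, h1, h2⟩ := spA t ht hx
    have htS := (mem_filter.1 ht).1
    have := h.mt t htS u hu z hz hx xu hz' tu tz
    subst this
    exact inA1 u hu ⟨xu, t, htS, hx, tu.symm, h2, h1⟩
  refine W_join (A := A) (filter_subset _ _) ?_ ?_ ?_
  · refine Ty_of_labels (fun v => (X v, Low G S X v)) univ (by simp) (fun _ _ => Or.inr (mem_univ _))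
      ?_
    have main : ∀ x ∈ A, ∀ y ∈ A, (X x ↔ X y) → (Low G S X x ↔ Low G S X y) → ∀ z ∈ S, z ∉ A →
        G.Adj x z → G.Adj y z := by
      intro x hx y hy e1 e2 z hz hzA xz
      have hxS := (mem_filter.1 hx).1
      have hyS := (mem_filter.1 hy).1
      by_cases hX : X x
      · have hY := e1.1 hX
        have hZ : ¬ X z := fun hZ => h.ind x hxS z hz hX hZ xz
        by_contra yz
        have xy : x ≠ y := fun e => yz (e ▸ xz)
        by_cases hp : ∃ u ∈ S, ¬ X u ∧ G.Adj z u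
        · obtain ⟨u, hu, xu, zu⟩ := hp
          refine hzA (inA1 z hz ⟨hZ, u, hu, xu, zu, ⟨x, hxS, hX, xz.symm⟩, y, hyS, hY, ?_⟩)
          exact (h.one z hz u hu y hyS hZ xu hY zu).resolve_left (ns yz)
        · push Not at hp
          obtain ⟨m, hm, ⟨m1, m2, m3⟩, mx⟩ := xA x hx hX
          obtain ⟨n, hn, ⟨n1, n2, n3⟩, ny⟩ := xA y hy hY
          have nx : ¬ G.Adj n x := fun e => xy (n3 x hxS y hyS hX hY e ny)
          have my : ¬ G.Adj m y := fun e => xy (m3 x hxS y hyS hX hY mx e)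
          refine h.f23 n hn y hyS z hz x hxS m hm ny xz.symm mx.symm (hp m hm m1)
            (ns (hp n hn n1)) nx (fun e => (hlow n hn m hm n1 m1 e).1 n3 m3) yz
            (h.ind y hyS x hxS hY hX) (ns my) ?_
          rintro rfl
          obtain ⟨u, hu, xu, zu⟩ := m2
          exact hp u hu xu zu
      · have hY : ¬ X y := fun a => hX (e1.2 a)
        have hZ : X z := by
          by_contra hZ
          exact hzA (partner x hx hX z hz hZ xz)
        obtain ⟨_, u, hu, xu, tu, _⟩ := spA x hx hX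
        have lx : ¬ Low G S X x := fun l =>
          hzA (inA2 z hz hZ x hxS ⟨hX, ⟨u, hu, xu, tu⟩, l⟩ xz)
        obtain ⟨_, w, hw, xw, yw, _⟩ := spA y hy hY
        have lw : Low G S X w := by
          by_contra l
          exact lx (e2.2 ((hlow y hyS w hw hY xw yw).2 l))
        refine (h.one y hyS w hw z hz hY xw hZ yw).resolve_right (fun wz => ?_)
        exact hzA (inA2 z hz hZ w hw ⟨xw, ⟨y, hyS, hY, yw.symm⟩, lw⟩ wz)
    intro x hx y hy e z hz hzA
    simp only [Prod.mk.injEq, eq_iff_iff] at e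
    exact ⟨main x hx y hy e.1 e.2 z hz hzA, main y hy x hx e.1.symm e.2.symm z hz hzA⟩
  · have := W_flip (G := G) (fun v => (X v, Low G S X v)) (fun p q => (¬ p.1 ∧ ¬ p.2) ∧ q.1)
      (k := 2) (S := A) (W_of_prime le_rfl A ?_)
    · exact this.mono (by simp)
    intro S' hS' ⟨v0, hv0⟩ _ ht hp
    exfalso
    have allX : ∀ t ∈ S', X t := by
      intro t htS'
      by_contra hx
      have htA := hS' htS'
      have htS := (mem_filter.1 htA).1
      obtain ⟨_, u, hu, xu, tu, _⟩ := spA t htA hx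
      have hl := hlow t htS u hu hx xu tu
      have fT : ∀ s ∈ S, ¬ X s → ∀ z, ¬ X z → (flip G (fun v => (X v, Low G S X v))
          (fun p q => (¬ p.1 ∧ ¬ p.2) ∧ q.1)).Adj s z → G.Adj s z := by
        intro s _ xs z xz e
        rw [flip_adj] at e
        grind
      have fX : ∀ s, ¬ X s → ∀ z, X z → ((flip G (fun v => (X v, Low G S X v))
          (fun p q => (¬ p.1 ∧ ¬ p.2) ∧ q.1)).Adj s z ↔ (G.Adj s z ↔ Low G S X s)) := by
        intro s xs z xz
        rw [flip_adj]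
        have : s ≠ z := fun e => xs (e ▸ xz)
        grind
      have ex : ∀ z ∈ S, X z → (G.Adj t z ↔ ¬ G.Adj u z) := fun z hz xz =>
        ⟨fun a b => h.tf t htS u hu z hz tu a b,
          fun a => (h.one t htS u hu z hz hx xu xz tu).resolve_right a⟩
      by_cases huS : u ∈ S'
      · refine tu.ne (ht t htS' u huS (fun z hz zt zu => ?_))
        have hzS := (mem_filter.1 (hS' hz)).1
        by_cases xz : X z
        · rw [fX t hx z xz, fX u xu z xz]
          have := ex z hzS xz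
          grind
        · exact ⟨fun e => absurd (h.mt t htS u hu z hzS hx xu xz tu (fT t htS hx z xz e)) zu.symm,
            fun e => absurd (h.mt u hu t htS z hzS xu hx xz tu.symm (fT u hu xu z xz e)) zt.symm⟩
      · obtain ⟨p, hp', q, hq, pq, tp, tq⟩ := hp t htS'
        have isX : ∀ p ∈ S', (flip G (fun v => (X v, Low G S X v))
            (fun p q => (¬ p.1 ∧ ¬ p.2) ∧ q.1)).Adj t p → X p := by
          intro p hp' tp
          by_contra xp
          have hpS := (mem_filter.1 (hS' hp')).1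
          exact huS (h.mt t htS u hu p hpS hx xu xp tu (fT t htS hx p xp tp) ▸ hp')
        have xp := isX p hp' tp
        have xq := isX q hq tq
        have hpS := (mem_filter.1 (hS' hp')).1
        have hqS := (mem_filter.1 (hS' hq)).1
        rw [fX t hx p xp] at tp
        rw [fX t hx q xq] at tq
        by_cases l : Low G S X t
        · exact pq (l p hpS q hqS xp xq (tp.2 l) (tq.2 l))
        · have lu : Low G S X u := by
            by_contra l'
            exact l (hl.2 l')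
          have e1 := ex p hpS xp
          have e2 := ex q hqS xq
          exact pq (lu p hpS q hqS xp xq (by grind) (by grind))
    obtain ⟨p, hp', _, _, _, e, _⟩ := hp v0 hv0
    have x1 := allX v0 hv0
    have x2 := allX p hp'
    have := h.ind v0 (mem_filter.1 (hS' hv0)).1 p (mem_filter.1 (hS' hp')).1 x1 x2
    rw [flip_adj] at e
    grind
  · refine (W_bipR hR (fun v => X v ∨ minor v) ?_).mono (by omega)
    intro a ha b hb ab
    rw [mem_sdiff] at ha hb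
    have aux : ∀ a ∈ S, ∀ b ∈ S, a ∉ A → X a → G.Adj a b → ¬ (X b ∨ minor b) := by
      rintro a ha b hb haA xa ab (xb | mb)
      · exact h.ind a ha b hb xa xb ab
      · exact haA (inA2 a ha xa b hb mb ab.symm)
    by_cases xa : X a
    · exact ⟨fun _ => aux a ha.1 b hb.1 ha.2 xa ab, fun _ => Or.inl xa⟩
    by_cases xb : X b
    · exact ⟨fun e => absurd e (aux b hb.1 a ha.1 hb.2 xb ab.symm), fun e => absurd (Or.inl xb) e⟩
    have hl := hlow a ha.1 b hb.1 xa xb ab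
    constructor
    · rintro (e | e) (e' | e')
      · exact xa e
      · exact xa e
      · exact xb e'
      · exact hl.1 e.2.2 e'.2.2
    · intro e
      exact Or.inr ⟨xa, ⟨b, hb.1, xb, ab⟩,
        hl.2 (fun l => e (Or.inr ⟨xb, ⟨a, ha.1, xa, ab.symm⟩, l⟩))⟩

/-- bound -/
def cX : ℕ := J 2 (cX1 + 2) + J 4 6

lemma tx_two {G : SimpleGraph V} {S : Finset V} {X : V → Prop} (h : TX G S X)
    {t u s r x1 x2 x3 : V} (ht : t ∈ S) (hu : u ∈ S) (hs : s ∈ S) (hr : r ∈ S)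
    (h1 : x1 ∈ S) (h2 : x2 ∈ S) (h3 : x3 ∈ S) (xt : ¬ X t) (xu : ¬ X u) (xs : ¬ X s) (xr : ¬ X r)
    (X1 : X x1) (X2 : X x2) (X3 : X x3) (tu : G.Adj t u) (sr : G.Adj s r) (su : s ≠ u) (ru : r ≠ u)
    (t1 : G.Adj t x1) (t2 : G.Adj t x2) (t3 : G.Adj t x3) (d12 : x1 ≠ x2) (d13 : x1 ≠ x3)
    (d23 : x2 ≠ x3) (lu : ¬ Low G S X u) (ls : ¬ Low G S X s) (lr : ¬ Low G S X r) : False := by
  have miss : ∀ s ∈ S, ¬ X s → s ≠ u → ∀ w ∈ S, X w → G.Adj s w → ¬ G.Adj t w →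
      ∀ p ∈ S, ∀ q ∈ S, X p → X q → G.Adj t p → G.Adj t q → ¬ G.Adj s p → ¬ G.Adj s q → p = q := by
    intro s hs xs su w hw xw sw tw p hp q hq xp xq tp tq sp sq
    by_contra pq
    exact h.f23 s hs w hw p hp t ht q hq sw tp.symm tq (h.ind p hp q hq xp xq) sp
      (fun e => su (h.mt t ht s hs u hu xt xs xu e.symm tu)) sq (h.ind w hw p hp xw xp) (ns tw)
      (h.ind w hw q hq xw xq) pq
  have main : ∀ s ∈ S, ∀ r ∈ S, ¬ X s → ¬ X r → G.Adj s r → s ≠ u → r ≠ u → ¬ Low G S X r →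
      ∀ w ∈ S, X w → G.Adj s w → ¬ G.Adj t w → False := by
    intro s hs r hr xs xr sr su ru lr w hw xw sw tw
    have ms := miss s hs xs su w hw xw sw tw
    unfold Low at lr
    push Not at lr
    obtain ⟨p, hp, q, hq, xp, xq, rp, rq, pq⟩ := lr
    have sp : ¬ G.Adj s p := fun e => h.tf s hs r hr p hp sr e rp
    have sq : ¬ G.Adj s q := fun e => h.tf s hs r hr q hq sr e rq
    obtain ⟨w', hw', xw', rw', tw'⟩ : ∃ w' ∈ S, X w' ∧ G.Adj r w' ∧ ¬ G.Adj t w' := by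
      by_cases e : G.Adj t p
      · exact ⟨q, hq, xq, rq, fun e' => pq (ms p hp q hq xp xq e e' sp sq)⟩
      · exact ⟨p, hp, xp, rp, e⟩
    have mr := miss r hr xr ru w' hw' xw' rw' tw'
    have a1 := ms x1 h1 x2 h2 X1 X2 t1 t2
    have a2 := ms x1 h1 x3 h3 X1 X3 t1 t3
    have a3 := ms x2 h2 x3 h3 X2 X3 t2 t3
    have b1 := mr x1 h1 x2 h2 X1 X2 t1 t2
    have b2 := mr x1 h1 x3 h3 X1 X3 t1 t3
    have b3 := mr x2 h2 x3 h3 X2 X3 t2 t3
    have c1 := h.tf s hs r hr x1 h1 sr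
    have c2 := h.tf s hs r hr x2 h2 sr
    have c3 := h.tf s hs r hr x3 h3 sr
    clear ms mr miss
    by_cases e1 : G.Adj s x1 <;> by_cases e2 : G.Adj s x2 <;> by_cases e3 : G.Adj s x3 <;> grind
  unfold Low at lu
  push Not at lu
  obtain ⟨w, hw, _, _, xw, _, uw, _⟩ := lu
  have tw : ¬ G.Adj t w := fun e => h.tf t ht u hu w hw tu e uw
  rcases h.one s hs r hr w hw xs xr xw sr with e | e
  · exact main s hs r hr xs xr sr su ru lr w hw xw e tw
  · exact main r hr s hs xr xs sr.symm ru su ls w hw xw e tw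

lemma W_tx {G : SimpleGraph V} (hR : RF G) {S : Finset V} {X : V → Prop} (h : TX G S X) :
    W G cX S := by
  by_cases hc : (S.filter X).card ≤ 4
  · refine (W_del (k := 2) hc (W_star (fun _ => True) (fun _ _ _ _ _ => Or.inl trivial) ?_)).mono
      (by simp [cX])
    have nx : ∀ x ∈ S \ S.filter X, x ∈ S ∧ ¬ X x := by
      intro x hx
      rw [mem_sdiff] at hx
      exact ⟨hx.1, fun e => hx.2 (mem_filter.2 ⟨hx.1, e⟩)⟩
    intro x hx y hy z hz _ xy xz
    exact h.mt x (nx x hx).1 y (nx y hy).1 z (nx z hz).1 (nx x hx).2 (nx y hy).2 (nx z hz).2 xy xz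
  have three : ∀ t ∈ S, ∀ u ∈ S, ¬ X t → ¬ X u → G.Adj t u →
      2 < ((S.filter X).filter (G.Adj t)).card ∨ 2 < ((S.filter X).filter (G.Adj u)).card := by
    intro t ht u hu xt xu tu
    have : S.filter X ⊆ (S.filter X).filter (G.Adj t) ∪ (S.filter X).filter (G.Adj u) := by
      intro x hx
      rcases h.one t ht u hu x (mem_filter.1 hx).1 xt xu (mem_filter.1 hx).2 tu with e | e
      · exact mem_union_left _ (mem_filter.2 ⟨hx, e⟩)
      · exact mem_union_right _ (mem_filter.2 ⟨hx, e⟩)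
    have := (card_le_card this).trans (card_union_le _ _)
    omega
  have notboth : ∀ t ∈ S, ∀ u ∈ S, ¬ X t → ¬ X u → G.Adj t u → Low G S X t → ¬ Low G S X u := by
    intro t ht u hu xt xu tu lt lu
    have aux : ∀ t, Low G S X t → ¬ 2 < ((S.filter X).filter (G.Adj t)).card := by
      intro t lt e
      obtain ⟨a, ha, b, hb, ab⟩ := one_lt_card.1 (by omega : 1 < ((S.filter X).filter (G.Adj t)).card)
      simp only [mem_filter] at ha hb
      exact ab (lt a ha.1.1 b hb.1.1 ha.1.2 hb.1.2 ha.2 hb.2)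
    rcases three t ht u hu xt xu tu with e | e
    · exact aux t lt e
    · exact aux u lu e
  have fin : ∀ F : Finset V, F.card ≤ 2 → (∀ x ∈ F, ¬ X x) →
      (∀ s ∈ S, ∀ r ∈ S, s ∉ F → r ∉ F → ¬ X s → ¬ X r → G.Adj s r → Low G S X s ∨ Low G S X r) →
      W G cX S := by
    intro F hF hFX hl
    refine (W_del hF (W_tx1 hR (h.mono sdiff_subset) ?_)).mono (by simp [cX])
    have el : ∀ t, Low G (S \ F) X t ↔ Low G S X t := by
      intro t
      constructor
      · intro l x hx y hy xx xy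
        exact l x (mem_sdiff.2 ⟨hx, fun e => hFX x e xx⟩) y (mem_sdiff.2 ⟨hy, fun e => hFX y e xy⟩)
          xx xy
      · intro l x hx y hy
        exact l x (mem_sdiff.1 hx).1 y (mem_sdiff.1 hy).1
    intro t ht u hu xt xu tu
    rw [mem_sdiff] at ht hu
    rw [el, el]
    exact ⟨notboth t ht.1 u hu.1 xt xu tu,
      fun e => (hl t ht.1 u hu.1 ht.2 hu.2 xt xu tu).resolve_right e⟩
  by_cases hb : ∃ t ∈ S, ∃ u ∈ S, ¬ X t ∧ ¬ X u ∧ G.Adj t u ∧ ¬ Low G S X t ∧ ¬ Low G S X u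
  · obtain ⟨t, ht, u, hu, xt, xu, tu, lt, lu⟩ := hb
    refine fin {t, u} card_le_two (by simp [xt, xu]) ?_
    intro s hs r hr sF rF xs xr sr
    simp only [mem_insert, mem_singleton, not_or] at sF rF
    by_contra hh
    push Not at hh
    rcases three t ht u hu xt xu tu with e | e
    · obtain ⟨a, ha, b, hb, c, hc, ab, ac, bc⟩ := two_lt_card.1 e
      simp only [mem_filter] at ha hb hc
      exact tx_two h ht hu hs hr ha.1.1 hb.1.1 hc.1.1 xt xu xs xr ha.1.2 hb.1.2 hc.1.2 tu sr sF.2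
        rF.2 ha.2 hb.2 hc.2 ab ac bc lu hh.1 hh.2
    · obtain ⟨a, ha, b, hb, c, hc, ab, ac, bc⟩ := two_lt_card.1 e
      simp only [mem_filter] at ha hb hc
      exact tx_two h hu ht hs hr ha.1.1 hb.1.1 hc.1.1 xu xt xs xr ha.1.2 hb.1.2 hc.1.2 tu.symm sr
        sF.1 rF.1 ha.2 hb.2 hc.2 ab ac bc lt hh.1 hh.2
  · push Not at hb
    refine fin ∅ (by simp) (by simp) ?_
    intro s hs r hr _ _ xs xr sr
    by_cases e : Low G S X s
    · exact Or.inl e
    · exact Or.inr (hb s hs r hr xs xr sr e)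

end

end Pool.Agent.MP_41f2d3_co
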