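import Pool.Agent.MP_41f2d3_co.RK3a

/-! Triangle-free graphs without induced P1 + P2 + P3. -/

namespace Pool.Agent.MP_41f2d3_co

open Finset Classical

noncomputable section

variable {V : Type}

lemma B2.sw {G : SimpleGraph V} {a b c d : V} (h : B2 G a b c d) : B2 G b a d c :=
  ⟨h.ab.symm, h.cd.symm, h.bd, h.bc, h.ad, h.ac⟩

lemma B2.s1 {G : SimpleGraph V} {a b c d : V} (h : B2 G a b c d) : B2 G b a c d :=
  ⟨h.ab.symm, h.cd, h.bc, h.bd, h.ac, h.ad⟩

lemma B2.s2 {G : SimpleGraph V} {a b c d : V} (h : B2 G a b c d) : B2 G a b d c :=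
  ⟨h.ab, h.cd.symm, h.ad, h.ac, h.bd, h.bc⟩

lemma B2.ex {G : SimpleGraph V} {a b c d : V} (h : B2 G a b c d) : B2 G c d a b :=
  ⟨h.cd, h.ab, ns h.ac, ns h.bc, ns h.ad, ns h.bd⟩

lemma T4.sw {G : SimpleGraph V} {a b c d v : V} (h : T4 G a b c d v) : T4 G b a d c v :=
  ⟨h.2.1, h.1, h.2.2.2, h.2.2.1⟩

lemma T4.s1 {G : SimpleGraph V} {a b c d v : V} (h : T4 G a b c d v) : T4 G b a c d v :=
  ⟨h.2.1, h.1, h.2.2.1, h.2.2.2⟩

lemma T4.s2 {G : SimpleGraph V} {a b c d v : V} (h : T4 G a b c d v) : T4 G a b d c v :=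
  ⟨h.1, h.2.1, h.2.2.2, h.2.2.1⟩

lemma T4.ex {G : SimpleGraph V} {a b c d v : V} (h : T4 G a b c d v) : T4 G c d a b v :=
  ⟨h.2.2.1, h.2.2.2, h.1, h.2.1⟩

lemma Tw.sw {G : SimpleGraph V} {a b v : V} (h : Tw G a b v) : Tw G b a v := ⟨h.2, h.1⟩

lemma TG.tf {G : SimpleGraph V} (h : TG G) (S : Finset V) : TF G S :=
  fun a _ b _ c _ => h a b c

lemma tx_of {G : SimpleGraph V} (hG : TG G) (hR : RF G) {a b c d : V} (h : B2 G a b c d)
    {S : Finset V} (hS : ∀ v ∈ S, T4 G a b c d v ∨ Tw G b c v) : TX G S (Tw G b c) := by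
  have na : ∀ v ∈ S, ¬ G.Adj a v := by
    intro v hv e
    rcases hS v hv with t | t
    · exact t.1 e.symm
    · exact hG a b v h.ab e t.1.symm
  refine ⟨hG.tf S, fun x _ y _ hx hy e => hG x y b e hx.1 hy.1, ?_, ?_, ?_⟩
  · intro t ht u hu v hv xt xu xv tu tv
    by_contra e
    exact k_match hG hR h ((hS t ht).resolve_right xt) ((hS u hu).resolve_right xu)
      ((hS v hv).resolve_right xv) tu tv e
  · intro t ht u hu x _ xt xu xx tu
    by_contra e
    push Not at e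
    exact k_one hG hR h ((hS t ht).resolve_right xt) ((hS u hu).resolve_right xu) xx tu (ns e.1)
      (ns e.2)
  · intro p hp q hq r hr s hs t ht h1 h2 h3 h4
    exact hR a p q r s t h1 h2 h3 h4 (na p hp) (na q hq) (na r hr) (na s hs) (na t ht)

/-- bound -/
def cTXY : ℕ := J 2 (cX + 2) + J 2 (cT + 2)

lemma W_TXY {G : SimpleGraph V} (hG : TG G) (hR : RF G) {a b c d : V} (h : B2 G a b c d)
    {S : Finset V} (hS : ∀ v ∈ S, T4 G a b c d v ∨ Tw G b c v ∨ Tw G a d v) : W G cTXY S := by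
  rcases three_or_le (S.filter (Tw G a d)) with hc | ⟨y1, hy1, y2, hy2, _, _, y12, _, _⟩
  · refine (W_del hc (W_tx hR (tx_of hG hR h ?_))).mono (by simp [cTXY])
    intro v hv
    rw [mem_sdiff] at hv
    rcases hS v hv.1 with t | t | t
    · exact Or.inl t
    · exact Or.inr t
    · exact absurd (mem_filter.2 ⟨hv.1, t⟩) hv.2
  rcases three_or_le (S.filter (Tw G b c)) with hc | ⟨x1, hx1, x2, hx2, x3, hx3, x12, x13, x23⟩
  · refine (W_del hc (W_tx hR (tx_of hG hR h.sw ?_))).mono (by simp [cTXY])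
    intro v hv
    rw [mem_sdiff] at hv
    rcases hS v hv.1 with t | t | t
    · exact Or.inl t.sw
    · exact absurd (mem_filter.2 ⟨hv.1, t⟩) hv.2
    · exact Or.inr t
  replace hy1 := (mem_filter.1 hy1).2
  replace hy2 := (mem_filter.1 hy2).2
  replace hx1 := (mem_filter.1 hx1).2
  replace hx2 := (mem_filter.1 hx2).2
  replace hx3 := (mem_filter.1 hx3).2
  have hend : ∀ t u x y, T4 G a b c d t → T4 G a b c d u → Tw G b c x → Tw G a d y → G.Adj t u →
      G.Adj t x → ¬ G.Adj t y := fun t u x y ht hu hx hy tu tx ty =>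
    k_end hG hR h hx1 hx2 hx3 hy1 hy2 ht hu hx hy tu tx ty x12 x13 x23 y12
  have oneX : ∀ t u x, T4 G a b c d t → T4 G a b c d u → Tw G b c x → G.Adj t u → ¬ G.Adj t x →
      G.Adj u x := fun t u x ht hu hx tu tx => by
    by_contra e
    exact k_one hG hR h ht hu hx tu (ns tx) (ns e)
  have oneY : ∀ t u x, T4 G a b c d t → T4 G a b c d u → Tw G a d x → G.Adj t u → ¬ G.Adj t x →
      G.Adj u x := fun t u x ht hu hx tu tx => by
    by_contra e
    exact k_one hG hR h.sw ht.sw hu.sw hx tu (ns tx) (ns e)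
  let M := S.filter (fun v => T4 G a b c d v ∧ ∃ u ∈ S, T4 G a b c d u ∧ G.Adj v u)
  refine (W_join (A := M) (t := 2) (k := cT + 2) (filter_subset _ _) ?_ ?_ ?_).mono
    (by simp [cTXY])
  · refine Ty_of_labels (fun v => G.Adj v x1) univ (by simp) (fun _ _ => Or.inr (mem_univ _)) ?_
    have char : ∀ t ∈ M, ∀ z ∈ S, z ∉ M →
        (G.Adj t z ↔ (Tw G b c z ∧ G.Adj t x1) ∨ (Tw G a d z ∧ ¬ G.Adj t x1)) := by
      intro t ht z hz hzM
      obtain ⟨htS, t4, u, hu, u4, tu⟩ := mem_filter.1 ht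
      rcases hS z hz with e | e | e
      · refine ⟨fun tz => absurd (mem_filter.2 ⟨hz, e, t, htS, t4, tz.symm⟩) hzM, ?_⟩
        rintro (⟨e', _⟩ | ⟨e', _⟩)
        · exact absurd e'.1 e.2.1
        · exact absurd e'.1 e.1
      · have ne : ¬ Tw G a d z := fun e' => hG z a b e'.1 e.1 h.ab
        constructor
        · intro tz
          refine Or.inl ⟨e, ?_⟩
          by_contra tx
          exact hend t u z y1 t4 u4 e hy1 tu tz (oneY u t y1 u4 t4 hy1 tu.symm
            (hend u t x1 y1 u4 t4 hx1 hy1 tu.symm (oneX t u x1 t4 u4 hx1 tu tx)))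
        · rintro (⟨_, tx⟩ | ⟨e', _⟩)
          · by_contra tz
            exact hend t u x1 y1 t4 u4 hx1 hy1 tu tx (oneY u t y1 u4 t4 hy1 tu.symm
              (hend u t z y1 u4 t4 e hy1 tu.symm (oneX t u z t4 u4 e tu tz)))
          · exact absurd e' ne
      · have ne : ¬ Tw G b c z := fun e' => hG z a b e.1 e'.1 h.ab
        constructor
        · intro tz
          exact Or.inr ⟨e, fun tx => hend t u x1 z t4 u4 hx1 e tu tx tz⟩
        · rintro (⟨e', _⟩ | ⟨_, tx⟩)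
          · exact absurd e' ne
          · exact oneY u t z u4 t4 e tu.symm
              (hend u t x1 z u4 t4 hx1 e tu.symm (oneX t u x1 t4 u4 hx1 tu tx))
    intro x hx y hy e z hz hzM
    rw [char x hx z hz hzM, char y hy z hz hzM, e]
  · refine (W_star (fun _ => True) (fun _ _ _ _ _ => Or.inl trivial) ?_).mono (by omega)
    intro x hx y hy z hz _ xy xz
    by_contra e
    exact k_match hG hR h (mem_filter.1 hx).2.1 (mem_filter.1 hy).2.1 (mem_filter.1 hz).2.1 xy xz e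
  let col : V → Fin 3 := fun v => if Tw G b c v then 1 else if Tw G a d v then 2 else 0
  have c0 : ∀ v ∈ S \ M, col v = 0 → T4 G a b c d v := by
    intro v hv
    simp only [col]
    split_ifs with h1 h2
    · simp
    · simp
    · exact fun _ => ((hS v (mem_sdiff.1 hv).1).resolve_right (fun e => e.elim h1 h2))
  have c1 : ∀ v, col v = 1 → Tw G b c v := by
    intro v; simp only [col]; split_ifs <;> simp [*]
  have c2 : ∀ v, col v = 2 → Tw G a d v := by
    intro v; simp only [col]; split_ifs <;> simp [*]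
  have nT : ∀ t ∈ S \ M, ∀ u ∈ S \ M, col t = 0 → col u = 0 → ¬ G.Adj t u := by
    intro t ht u hu e1 e2 tu
    exact (mem_sdiff.1 ht).2 (mem_filter.2 ⟨(mem_sdiff.1 ht).1, c0 t ht e1, u, (mem_sdiff.1 hu).1,
      c0 u hu e2, tu⟩)
  refine (W_txy hR col ?_ (hG.tf _) ?_).mono (by omega)
  · intro p hp q hq pq e
    rcases fin3_cases (col p) with e1 | e1 | e1
    · exact nT p hp q hq e1 (e ▸ e1) pq
    · exact hG p q b pq (c1 p e1).1 (c1 q (e ▸ e1)).1
    · exact hG p q a pq (c2 p e1).1 (c2 q (e ▸ e1)).1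
  · intro t ht x _ y _ ct cx cy tx ty xy
    refine ⟨fun u hu cu => ⟨fun e => ?_, fun e => ?_⟩, fun w _ cw wx => ?_, fun w _ cw wy => ?_⟩
    · by_contra e'
      exact k_r2 hG hR h (c0 u hu cu) (c0 t ht ct) (c1 x cx) (c2 y cy) e (nT u hu t ht cu ct) e'
        tx ty xy
    · by_contra e'
      exact k_r2 hG hR h.sw (c0 u hu cu).sw (c0 t ht ct).sw (c2 y cy) (c1 x cx) e
        (nT u hu t ht cu ct) e' ty tx (ns xy)
    · by_contra e
      exact k_r3 hG hR h (c0 t ht ct) (c1 x cx) (c2 y cy) (c1 w cw) tx ty xy e wx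
    · by_contra e
      exact k_r3 hG hR h.sw (c0 t ht ct).sw (c2 y cy) (c1 x cx) (c2 w cw) ty tx (ns xy) e wy

lemma W_big2 {G : SimpleGraph V} (hG : TG G) (hR : RF G) {a b c d : V} (h : B2 G a b c d)
    {S : Finset V} (hS : ∀ v ∈ S, T4 G a b c d v ∨ Tw G b c v ∨ Tw G a d v ∨ Tw G a c v ∨
      Tw G b d v) (h1 : 2 < (S.filter (Tw G b c)).card) (h2 : 2 < (S.filter (Tw G a c)).card) :
    W G 96 S := by
  obtain ⟨x1, hx1, x2, hx2, x3, hx3, x12, x13, x23⟩ := two_lt_card.1 h1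
  obtain ⟨b1, hb1, b2, hb2, b3, hb3, b12, b13, b23⟩ := two_lt_card.1 h2
  replace hb1 := (mem_filter.1 hb1).2
  replace hb2 := (mem_filter.1 hb2).2
  replace hb3 := (mem_filter.1 hb3).2
  replace hx1 := (mem_filter.1 hx1).2
  replace hx2 := (mem_filter.1 hx2).2
  replace hx3 := (mem_filter.1 hx3).2
  have tb : ∀ t x w, T4 G a b c d t → Tw G b c x → Tw G a c w → (G.Adj t x ↔ G.Adj t w) := by
    intro t x w ht hx hw
    constructor
    · intro e
      by_contra e'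
      exact k_tb hG hR h hx1 hx2 hx3 hb1 hb2 hb3 ht hx hw e e' x12 x13 x23 b12 b13 b23
    · intro e
      by_contra e'
      exact k_bt hG hR h hx1 hx2 hx3 hb1 hb2 hb3 ht hx hw e e' x12 x13 x23 b12 b13 b23
  let lab : V → Prop × Prop × Prop × Prop × Prop :=
    fun v => (G.Adj v a, G.Adj v b, G.Adj v c, G.Adj v d, G.Adj v x1)
  let φ : Prop × Prop × Prop × Prop × Prop → Prop × Prop × Prop × Prop × Prop → Prop :=
    fun p q => (¬ p.1 ∧ ¬ p.2.1 ∧ p.2.2.2.2 ∧ q.2.2.1) ∨ (p.2.1 ∧ p.2.2.1 ∧ q.1 ∧ q.2.2.2.1) ∨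
      (p.1 ∧ p.2.2.1 ∧ q.2.1 ∧ q.2.2.2.1)
  have key : ∀ u ∈ S, ∀ v ∈ S, (flip G lab φ).Adj u v →
      (T4 G a b c d u ∧ T4 G a b c d v ∧ G.Adj u v) ∨
      (Tw G b c u ∧ Tw G a d v ∧ ¬ G.Adj u v) ∨ (Tw G a d u ∧ Tw G b c v ∧ ¬ G.Adj u v) ∨
      (Tw G a c u ∧ Tw G b d v ∧ ¬ G.Adj u v) ∨ (Tw G b d u ∧ Tw G a c v ∧ ¬ G.Adj u v) := by
    have aux : ∀ u, ∀ v ∈ S, T4 G a b c d u → ¬ T4 G a b c d v →
        (G.Adj u v ↔ G.Adj u x1 ∧ G.Adj v c) := by
      intro u v hv hu nv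
      rcases hS v hv with t | t | t | t | t
      · exact absurd t nv
      · rw [tb u v b1 hu t hb1, tb u x1 b1 hu hx1 hb1]; simp [t.2]
      · exact ⟨fun e => (k_ty hG hR h hx1 hx2 hx3 hb1 hb2 hb3 hu t e x12 x13 x23 b12 b13 b23).elim,
          fun e => (hG v c d e.2 t.2 h.cd).elim⟩
      · rw [tb u x1 v hu hx1 t]; simp [t.2]
      · exact ⟨fun e => (k_td hG hR h hx1 hx2 hx3 hb1 hb2 hb3 hu t e x12 x13 x23 b12 b13 b23).elim,
          fun e => (hG v c d e.2 t.2 h.cd).elim⟩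
    intro u hu v hv e
    rw [flip_adj] at e
    have i1 := aux u v hv
    have i2 := aux v u hu
    have i3 := hS u hu
    have i4 := hS v hv
    have j1 := fun e1 e2 => hG u a b e1 e2 h.ab
    have j2 := fun e1 e2 => hG v a b e1 e2 h.ab
    have j3 := fun e1 e2 => hG u c d e1 e2 h.cd
    have j4 := fun e1 e2 => hG v c d e1 e2 h.cd
    have k1 := hG u v a
    have k2 := hG u v b
    have k3 := hG u v c
    have k4 := hG u v d
    rw [G.adj_comm v u] at i2
    simp only [lab, φ, T4, Tw] at e i1 i2 i3 i4 ⊢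
    clear aux tb hS hG hR h1 h2
    replace e := e.2
    generalize G.Adj u v = E at *
    rcases i3 with t | t | t | t | t <;> rcases i4 with s | s | s | s | s <;>
      by_cases hE : E <;> grind
  have := W_flip (G := G) lab φ (k := 2) (S := S)
    (W_star (fun _ => True) (fun _ _ _ _ _ => Or.inl trivial) ?_)
  · exact this.mono (by simp)
  intro u hu v hv w hw _ uv uw
  by_contra ne
  have j1 := fun e1 e2 => hG u a b e1 e2 h.ab
  have j3 := fun e1 e2 => hG u c d e1 e2 h.cd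
  rcases key u hu v hv uv with ⟨p1, p2, p3⟩ | ⟨p1, p2, p3⟩ | ⟨p1, p2, p3⟩ | ⟨p1, p2, p3⟩ |
      ⟨p1, p2, p3⟩ <;>
    rcases key u hu w hw uw with ⟨q1, q2, q3⟩ | ⟨q1, q2, q3⟩ | ⟨q1, q2, q3⟩ | ⟨q1, q2, q3⟩ |
      ⟨q1, q2, q3⟩ <;>
    first
    | exact k_match hG hR h p1 p2 q2 p3 q3 ne
    | exact k_xyy hG hR h hb1 p1 q2 p2 p3 q3 ne
    | exact k_xxy hG hR h hb1 p2 q2 p1 p3 q3 ne
    | exact k_xyy hG hR h.s1 hx1 p1 q2 p2 p3 q3 ne
    | exact k_xxy hG hR h.s1 hx1 p2 q2 p1 p3 q3 ne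
    | exact p1.1 q1.1
    | exact p1.2.1 q1.1
    | exact q1.1 p1.1
    | exact q1.2.1 p1.1
    | exact j1 p1.1 q1.1
    | exact j1 q1.1 p1.1
    | exact j3 p1.2 q1.2
    | exact j3 q1.2 p1.2

lemma single_card {G : SimpleGraph V} (hG : TG G) (hR : RF G) {a b c d z : V} (h : B2 G a b c d)
    (hz : T4 G a b c d z) (S : Finset V) :
    (S.filter (fun v => G.Adj v a ∧ ¬ G.Adj v c ∧ ¬ G.Adj v d)).card ≤ 2 := by
  rcases three_or_le (S.filter (fun v => G.Adj v a ∧ ¬ G.Adj v c ∧ ¬ G.Adj v d)) with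
    hc | ⟨u, hu, v, hv, w, hw, uv, uw, vw⟩
  · exact hc
  exfalso
  have key : ∀ v w, (G.Adj v a ∧ ¬ G.Adj v c ∧ ¬ G.Adj v d) →
      (G.Adj w a ∧ ¬ G.Adj w c ∧ ¬ G.Adj w d) → v ≠ w → v ≠ b → w ≠ b → False :=
    fun v w p q => k_single hG hR h hz p.1 q.1 p.2.1 p.2.2 q.2.1 q.2.2
  replace hu := (mem_filter.1 hu).2
  replace hv := (mem_filter.1 hv).2
  replace hw := (mem_filter.1 hw).2
  by_cases e1 : u = b
  · exact key v w hv hw vw (fun e => uv (e1.trans e.symm)) (fun e => uw (e1.trans e.symm))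
  by_cases e2 : v = b
  · exact key u w hu hw uw e1 (fun e => vw (e2.trans e.symm))
  · exact key u v hu hv uv e1 e2

/-- bound -/
def cK : ℕ := cP + J 8 (J 4 (cTXY + 4) + 96 + 8)

theorem W_K3G {G : SimpleGraph V} (hG : TG G) (hR : RF G) (S : Finset V) : W G cK S := by
  by_cases hQ : QF G S
  · exact (W_QF (fun a b c _ ab ac _ bc _ _ => (hG a b c ab ac bc).elim) hQ).mono (by simp [cK])
  unfold QF at hQ
  push Not at hQ
  obtain ⟨a, _, b, _, c, _, d, _, z, _, ab, cd, ac, ad, bc, bd, za, zb, zc, zd, _⟩ := hQ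
  have h : B2 G a b c d := ⟨ab, cd, ac, ad, bc, bd⟩
  have hz : T4 G a b c d z := ⟨za, zb, zc, zd⟩
  let F := (S.filter (fun v => G.Adj v a ∧ ¬ G.Adj v c ∧ ¬ G.Adj v d) ∪
    S.filter (fun v => G.Adj v b ∧ ¬ G.Adj v c ∧ ¬ G.Adj v d)) ∪
    (S.filter (fun v => G.Adj v c ∧ ¬ G.Adj v a ∧ ¬ G.Adj v b) ∪
    S.filter (fun v => G.Adj v d ∧ ¬ G.Adj v a ∧ ¬ G.Adj v b))
  have hF : F.card ≤ 8 := by
    have h1 := single_card hG hR h hz S
    have h2 := single_card hG hR h.s1 hz.s1 S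
    have h3 := single_card hG hR h.ex hz.ex S
    have h4 := single_card hG hR h.s2.ex hz.s2.ex S
    refine (card_union_le _ _).trans ?_
    exact (Nat.add_le_add (card_union_le _ _) (card_union_le _ _)).trans (by omega)
  refine (W_del (k := J 4 (cTXY + 4) + 96) hF ?_).mono (by simp [cK])
  have hS : ∀ v ∈ S \ F, T4 G a b c d v ∨ Tw G b c v ∨ Tw G a d v ∨ Tw G a c v ∨ Tw G b d v := by
    intro v hv
    rw [mem_sdiff] at hv
    have h1 := hv.1
    have h2 := hv.2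
    simp only [F, mem_union, mem_filter, h1, true_and] at h2
    simp only [T4, Tw]
    clear hv hF
    by_cases e1 : G.Adj v a <;> by_cases e2 : G.Adj v b <;> by_cases e3 : G.Adj v c <;>
      by_cases e4 : G.Adj v d <;> simp [e1, e2, e3, e4] at h2 ⊢
  generalize S \ F = S' at hS
  by_cases s1 : (S'.filter (Tw G a c)).card ≤ 2 ∧ (S'.filter (Tw G b d)).card ≤ 2
  · refine (W_del (F := S'.filter (Tw G a c) ∪ S'.filter (Tw G b d)) (t := 4)
      ((card_union_le _ _).trans (by omega)) (W_TXY hG hR h ?_)).mono (by omega)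
    intro v hv
    simp only [mem_sdiff, mem_union, mem_filter, not_or, not_and] at hv
    rcases hS v hv.1 with t | t | t | t | t
    · exact Or.inl t
    · exact Or.inr (Or.inl t)
    · exact Or.inr (Or.inr t)
    · exact absurd t (hv.2.1 hv.1)
    · exact absurd t (hv.2.2 hv.1)
  by_cases s2 : (S'.filter (Tw G b c)).card ≤ 2 ∧ (S'.filter (Tw G a d)).card ≤ 2
  · refine (W_del (F := S'.filter (Tw G b c) ∪ S'.filter (Tw G a d)) (t := 4)
      ((card_union_le _ _).trans (by omega)) (W_TXY hG hR h.s1 ?_)).mono (by omega)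
    intro v hv
    simp only [mem_sdiff, mem_union, mem_filter, not_or, not_and] at hv
    rcases hS v hv.1 with t | t | t | t | t
    · exact Or.inl t.s1
    · exact absurd t (hv.2.1 hv.1)
    · exact absurd t (hv.2.2 hv.1)
    · exact Or.inr (Or.inl t)
    · exact Or.inr (Or.inr t)
  have sw : ∀ p q, S'.filter (Tw G p q) = S'.filter (Tw G q p) :=
    fun p q => filter_congr (fun _ _ => ⟨Tw.sw, Tw.sw⟩)
  rw [not_and_or, not_le, not_le] at s1 s2
  refine W.mono (k := 96) ?_ (by omega)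
  rcases s1 with s1 | s1 <;> rcases s2 with s2 | s2
  · exact W_big2 hG hR h hS s2 s1
  · refine W_big2 hG hR h.ex ?_ (sw a d ▸ s2) (sw a c ▸ s1)
    intro v hv
    rcases hS v hv with t | t | t | t | t
    · exact Or.inl t.ex
    · exact Or.inr (Or.inr (Or.inl t.sw))
    · exact Or.inr (Or.inl t.sw)
    · exact Or.inr (Or.inr (Or.inr (Or.inl t.sw)))
    · exact Or.inr (Or.inr (Or.inr (Or.inr t.sw)))
  · refine W_big2 hG hR h.s1.ex ?_ (sw b d ▸ s1) (sw b c ▸ s2)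
    intro v hv
    rcases hS v hv with t | t | t | t | t
    · exact Or.inl t.s1.ex
    · exact Or.inr (Or.inr (Or.inr (Or.inl t.sw)))
    · exact Or.inr (Or.inr (Or.inr (Or.inr t.sw)))
    · exact Or.inr (Or.inr (Or.inl t.sw))
    · exact Or.inr (Or.inl t.sw)
  · refine W_big2 hG hR h.s2 ?_ s1 s2
    intro v hv
    rcases hS v hv with t | t | t | t | t
    · exact Or.inl t.s2
    · exact Or.inr (Or.inr (Or.inr (Or.inr t)))
    · exact Or.inr (Or.inr (Or.inr (Or.inl t)))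
    · exact Or.inr (Or.inr (Or.inl t))
    · exact Or.inr (Or.inl t)

theorem W_K3R {G : SimpleGraph V} (hR : RF G) {S : Finset V} (hT : TF G S) : W G cK S := by
  have h := W_K3G (G := G.comap (Function.Embedding.subtype (fun x => x ∈ S)))
    (fun a b c => hT a a.2 b b.2 c c.2)
    (fun z a b c d e h1 h2 h3 h4 h5 h6 h7 h8 h9 h10 h11 h12 h13 h14 h15 h16 =>
      hR z a b c d e h1 h2 h3 h4 h5 h6 h7 h8 h9 h10 h11 h12 h13 h14 h15
        (fun e => h16 (Subtype.ext e))) S.attach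
  have h2 := W_of_comap _ h
  rw [attach_map_val] at h2
  exact h2

end

end Pool.Agent.MP_41f2d3_co
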