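import Pool.Agent.MP_41f2d3_co.RAB

/-! Bounded clique number, for the pair (diamond, P1 + P2 + P3). -/

namespace Pool.Agent.MP_41f2d3_co

open Finset Classical

noncomputable section

variable {V : Type}

lemma three_cliquesR {G : SimpleGraph V} (hR : RF G) {S K1 K2 K3 : Finset V}
    (h1 : MC G S K1) (h2 : MC G S K2) (h3 : MC G S K3) (c1 : 3 ≤ K1.card) (c2 : 3 ≤ K2.card)
    (c3 : 3 ≤ K3.card) (a12 : ∀ x ∈ K1, ∀ y ∈ K2, ¬ G.Adj x y)
    (a13 : ∀ x ∈ K1, ∀ y ∈ K3, ¬ G.Adj x y) (a23 : ∀ x ∈ K2, ∀ y ∈ K3, ¬ G.Adj x y)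
    (hc : Conn G S) : False := by
  have hsub : S ⊆ K1 := by
    refine hc K1 h1.sub (card_pos.1 (by omega)) (fun x hx v hv xv => ?_)
    by_contra v1
    have v2 : v ∉ K2 := fun h => a12 x hx v h xv
    have v3 : v ∉ K3 := fun h => a13 x hx v h xv
    obtain ⟨x', hx', p1⟩ := h1.avoid {x, v} (by
      intro z hz; simp only [mem_insert, mem_singleton] at hz
      rcases hz with rfl | rfl; exacts [h1.sub hx, hv]) (lt_of_le_of_lt card_le_two c1)
    obtain ⟨y, hy, p2⟩ := h2.avoid {v} (by simpa using hv) (by simp; omega)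
    obtain ⟨y', hy', p3⟩ := h2.avoid {y, v} (by
      intro z hz; simp only [mem_insert, mem_singleton] at hz
      rcases hz with rfl | rfl; exacts [h2.sub hy, hv]) (lt_of_le_of_lt card_le_two c2)
    obtain ⟨z, hz, p4⟩ := h3.avoid {v} (by simpa using hv) (by simp; omega)
    exact hR z y y' v x x' (h2.cl _ hy _ hy' ((p3 y (by simp)).1 hy).symm) xv.symm
      (h1.cl _ hx _ hx' ((p1 x (by simp)).1 hx).symm) ((p1 v (by simp)).2 v1)
      (ns (a23 _ hy _ hz)) (ns (a23 _ hy' _ hz)) (ns ((p4 v (by simp)).2 v3))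
      (ns (a13 _ hx _ hz)) (ns (a13 _ hx' _ hz)) (ns ((p2 v (by simp)).2 v2))
      (ns (a12 _ hx _ hy)) (ns (a12 _ hx' _ hy)) (ns ((p3 v (by simp)).2 v2))
      (ns (a12 _ hx _ hy')) (ns (a12 _ hx' _ hy')) (fun e => v1 (e ▸ hx'))
  obtain ⟨y, hy, y', hy', hne⟩ := one_lt_card.1 (by omega : 1 < K2.card)
  exact a12 y (hsub (h2.sub hy)) y' hy' (h2.cl _ hy _ hy' hne)

lemma exclR {G : SimpleGraph V} (hR : RF G) (a b c : Fin 6 → V) (pba pbc pca : Prop)
    (t1 : ∀ i, G.Adj (a i) (b i)) (t2 : ∀ i, G.Adj (b i) (c i)) (t3 : ∀ i, G.Adj (c i) (a i))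
    (aa : ∀ i j, ¬ G.Adj (a i) (a j)) (bb : ∀ i j, ¬ G.Adj (b i) (b j))
    (cc : ∀ i j, ¬ G.Adj (c i) (c j))
    (ab : ∀ i j, i < j → G.Adj (a i) (b j)) (ac : ∀ i j, i < j → ¬ G.Adj (a i) (c j))
    (cb : ∀ i j, i < j → ¬ G.Adj (c i) (b j))
    (ba : ∀ i j, i < j → (G.Adj (b i) (a j) ↔ pba))
    (bc : ∀ i j, i < j → (G.Adj (b i) (c j) ↔ pbc))
    (ca : ∀ i j, i < j → (G.Adj (c i) (a j) ↔ pca))
    (i1 : pba → ¬ pbc) (i2 : pba → ¬ pca) :
    TC6 G a b c ∨ AB4 G (fun i => a i.castSucc.castSucc) (fun i => b i.castSucc.castSucc)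
      (fun i => c i.castSucc.castSucc) := by
  by_cases h3 : pba
  · right
    have m : ∀ i j : Fin 4, i < j → i.castSucc.castSucc < j.castSucc.castSucc := fun _ _ h => h
    refine ⟨?_, ?_, ?_, fun _ _ => aa _ _, fun _ _ => bb _ _, fun _ _ => cc _ _⟩
    · intro i j
      rcases lt_trichotomy i j with h | rfl | h
      · exact ab _ _ (m i j h)
      · exact t1 _
      · exact ((ba _ _ (m j i h)).2 h3).symm
    · intro i j
      rcases lt_trichotomy i j with h | rfl | h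
      · exact iff_of_false (ac _ _ (m i j h)) h.ne
      · exact iff_of_true (t3 _).symm rfl
      · exact iff_of_false (fun e => i2 h3 ((ca _ _ (m j i h)).1 e.symm)) h.ne'
    · intro i j
      rcases lt_trichotomy i j with h | rfl | h
      · exact iff_of_false (fun e => i1 h3 ((bc _ _ (m i j h)).1 e)) h.ne
      · exact iff_of_true (t2 _) rfl
      · exact iff_of_false (ns (cb _ _ (m j i h))) h.ne'
  have ba' : ∀ i j, i < j → ¬ G.Adj (b i) (a j) := fun i j h e => h3 ((ba i j h).1 e)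
  by_cases h1 : pbc <;> by_cases h2 : pca
  · left
    refine ⟨?_, ?_, ?_, aa, bb, cc⟩
    · intro i j
      rcases lt_trichotomy i j with h | rfl | h
      · exact ⟨fun _ => h.le, fun _ => ab i j h⟩
      · exact ⟨fun _ => le_rfl, fun _ => t1 i⟩
      · exact ⟨fun e => absurd ((ba j i h).1 e.symm) h3, fun e => absurd e (not_le.2 h)⟩
    · intro i j
      rcases lt_trichotomy i j with h | rfl | h
      · exact ⟨fun _ => h.le, fun _ => (bc i j h).2 h1⟩
      · exact ⟨fun _ => le_rfl, fun _ => t2 i⟩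
      · exact ⟨fun e => absurd e.symm (cb j i h), fun e => absurd e (not_le.2 h)⟩
    · intro i j
      rcases lt_trichotomy i j with h | rfl | h
      · exact ⟨fun _ => h.le, fun _ => (ca i j h).2 h2⟩
      · exact ⟨fun _ => le_rfl, fun _ => t3 i⟩
      · exact ⟨fun e => absurd e.symm (ac j i h), fun e => absurd e (not_le.2 h)⟩
  · exfalso
    have ca' : ∀ i j, i < j → ¬ G.Adj (c i) (a j) := fun i j h e => h2 ((ca i j h).1 e)
    exact hR (c 0) (b 1) (c 1) (a 2) (b 3) (a 3) (t2 1) (ab 2 3 (by decide)) (t1 3).symm (aa 2 3)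
      (cb 0 1 (by decide)) (cc 0 1) (ca' 0 2 (by decide)) (cb 0 3 (by decide))
      (ca' 0 3 (by decide)) (ba' 1 2 (by decide)) (bb 1 3) (ba' 1 3 (by decide))
      (ca' 1 2 (by decide)) (cb 1 3 (by decide)) (ca' 1 3 (by decide))
      (fun e => eqa e (t1 2) (ns (ba' 2 3 (by decide))))
  · exfalso
    have bc' : ∀ i j, i < j → ¬ G.Adj (b i) (c j) := fun i j h e => h1 ((bc i j h).1 e)
    have ca' : ∀ i j, i < j → G.Adj (c i) (a j) := fun i j h => (ca i j h).2 h2
    exact hR (b 0) (a 1) (b 1) (a 2) (c 2) (a 3) (t1 1) (t3 2).symm (ca' 2 3 (by decide)) (aa 2 3)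
      (ba' 0 1 (by decide)) (bb 0 1) (ba' 0 2 (by decide)) (bc' 0 2 (by decide))
      (ba' 0 3 (by decide)) (aa 1 2) (ac 1 2 (by decide)) (aa 1 3) (ba' 1 2 (by decide))
      (bc' 1 2 (by decide)) (ba' 1 3 (by decide))
      (fun e => eqa e (t1 2) (ns (ba' 2 3 (by decide))))
  · exfalso
    have bc' : ∀ i j, i < j → ¬ G.Adj (b i) (c j) := fun i j h e => h1 ((bc i j h).1 e)
    have ca' : ∀ i j, i < j → ¬ G.Adj (c i) (a j) := fun i j h e => h2 ((ca i j h).1 e)
    exact hR (b 0) (b 1) (c 1) (a 2) (b 3) (a 3) (t2 1) (ab 2 3 (by decide)) (t1 3).symm (aa 2 3)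
      (bb 0 1) (bc' 0 1 (by decide)) (ba' 0 2 (by decide)) (bb 0 3) (ba' 0 3 (by decide))
      (ba' 1 2 (by decide)) (bb 1 3) (ba' 1 3 (by decide)) (ca' 1 2 (by decide))
      (cb 1 3 (by decide)) (ca' 1 3 (by decide))
      (fun e => eqa e (t1 2) (ns (ba' 2 3 (by decide))))

theorem W_omegaR (s : ℕ) : ∃ k, ∀ (V : Type) (G : SimpleGraph V) (S : Finset V), DF G → RF G →
    NoCl G S (s + 3) → W G k S := by
  induction s with
  | zero =>
    refine ⟨cK, fun V G S _ hP hn => W_K3R hP ?_⟩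
    intro a ha b hb c hc ab ac bc
    refine hn ![a, b, c] ⟨?_, ?_⟩
    · intro x; fin_cases x <;> simpa
    · intro x y
      fin_cases x <;> fin_cases y <;> simp [ab, ac, bc, ab.symm, ac.symm, bc.symm]
  | succ s ih =>
    obtain ⟨k, hk⟩ := ih
    obtain ⟨N, hN⟩ := ramsey (Fin (s + 3) → Fin (s + 3) → Prop) (s + 6)
    obtain ⟨k1, hk1⟩ := W_TCR
    obtain ⟨k2, hk2⟩ := W_ABR
    refine ⟨J ((s + 3) * N) (k + (s + 3) * N) + k1 + k2 + 2, fun V G S0 hD hP hn0 => ?_⟩
    refine W_of_prime (by omega) S0 (fun S hS ⟨v0, _⟩ hc _ _ => ?_)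
    have hn : NoCl G S (s + 3 + 1) := hn0.mono hS
    rcases hit (G := G) (S := S) v0 (s + 3) N with ⟨F, hF, h⟩ | ⟨t, h1, h2⟩
    · exact (W_del hF (hk V G _ hD hP h)).mono (by omega)
    obtain ⟨f, hf, hmono, π, hπ⟩ := hN (fun i j x y => G.Adj (t i x) (t j y))
    let T : Fin (s + 6) → Fin (s + 3) → V := fun i => t (f i)
    have hT : ∀ i, IsCl G S (T i) := fun i => h1 _ (hf i)
    have hne : ∀ i j, i < j → ∀ x y, T i x ≠ T j y :=
      fun i j h => h2 _ (hf i) _ (hf j) (hmono i j h).ne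
    have hadj : ∀ i j, i < j → ∀ x y, (G.Adj (T i x) (T j y) ↔ π x y) := by
      intro i j h x y
      rw [← hπ i j h]
    have hmc := fun i => (hT i).mc hD hn
    have nofix : ∀ x, ¬ π x x := by
      intro x hx
      refine hn (fun i => T (Fin.castLE (by omega) i) x)
        ⟨fun i => (hT _).1 x, fun i j hij => ?_⟩
      rcases lt_or_gt_of_ne hij with h | h
      · exact (hadj _ _ h x x).2 hx
      · exact ((hadj _ _ h x x).2 hx).symm
    have l01 : (0 : Fin (s + 6)) < 1 := by simp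
    have inj1 : ∀ x y y', π x y → π x y' → y = y' := by
      intro x y y' p1 p2
      have := (hmc 1).1.one (T 0 x) ((hT 0).1 x) (fun h => by
        obtain ⟨z, _, e⟩ := mem_image.1 h
        exact hne 0 1 l01 x z e.symm) (T 1 y) (mem_image_of_mem _ (mem_univ _)) (T 1 y')
        (mem_image_of_mem _ (mem_univ _)) ((hadj 0 1 l01 x y).2 p1) ((hadj 0 1 l01 x y').2 p2)
      by_contra hh
      exact ((hT 1).2 y y' hh).ne this
    have inj2 : ∀ x x' y, π x y → π x' y → x = x' := by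
      intro x x' y p1 p2
      have := (hmc 0).1.one (T 1 y) ((hT 1).1 y) (fun h => by
        obtain ⟨z, _, e⟩ := mem_image.1 h
        exact hne 0 1 l01 z y e) (T 0 x) (mem_image_of_mem _ (mem_univ _)) (T 0 x')
        (mem_image_of_mem _ (mem_univ _)) ((hadj 0 1 l01 x y).2 p1).symm
        ((hadj 0 1 l01 x' y).2 p2).symm
      by_contra hh
      exact ((hT 0).2 x x' hh).ne this
    by_cases hemp : ∃ α β, π α β
    swap
    · exfalso
      push Not at hemp
      have anti : ∀ i j, i < j → ∀ x ∈ univ.image (T i), ∀ y ∈ univ.image (T j), ¬ G.Adj x y := by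
        intro i j h x hx y hy
        obtain ⟨x, _, rfl⟩ := mem_image.1 hx
        obtain ⟨y, _, rfl⟩ := mem_image.1 hy
        exact fun e => hemp x y ((hadj i j h x y).1 e)
      let i0 : Fin (s + 6) := ⟨0, by omega⟩
      let i1 : Fin (s + 6) := ⟨1, by omega⟩
      let i2 : Fin (s + 6) := ⟨2, by omega⟩
      exact three_cliquesR hP (hmc i0).1 (hmc i1).1 (hmc i2).1 (by rw [(hmc i0).2]; omega)
        (by rw [(hmc i1).2]; omega) (by rw [(hmc i2).2]; omega)
        (anti i0 i1 (by simp [i0, i1])) (anti i0 i2 (by simp [i0, i2, Fin.lt_def]))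
        (anti i1 i2 (by simp [i1, i2, Fin.lt_def])) hc
    obtain ⟨α, β, hαβ⟩ := hemp
    have hab : α ≠ β := fun e => nofix β (e ▸ hαβ)
    obtain ⟨γ, g1, g2⟩ : ∃ γ : Fin (s + 3), γ ≠ α ∧ γ ≠ β := by
      have : ({α, β} : Finset (Fin (s + 3))).card < (univ : Finset (Fin (s + 3))).card :=
        lt_of_le_of_lt card_le_two (by simp)
      obtain ⟨γ, _, h⟩ := exists_mem_notMem_of_card_lt_card this
      simp only [mem_insert, mem_singleton, not_or] at h
      exact ⟨γ, h⟩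
    let e : Fin 6 → Fin (s + 6) := Fin.castLE (by omega)
    have he : ∀ i j, i < j → e i < e j := fun i j h => h
    have same : ∀ x i j, ¬ G.Adj (T (e i) x) (T (e j) x) := by
      intro x i j
      rcases lt_trichotomy i j with h | rfl | h
      · exact fun a => nofix x ((hadj _ _ (he i j h) x x).1 a)
      · exact fun a => a.ne rfl
      · exact fun a => nofix x ((hadj _ _ (he j i h) x x).1 a.symm)
    have := exclR hP (fun i => T (e i) α) (fun i => T (e i) β) (fun i => T (e i) γ)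
      (π β α) (π β γ) (π γ α) (fun i => (hT _).2 _ _ hab) (fun i => (hT _).2 _ _ g2.symm)
      (fun i => (hT _).2 _ _ g1) (same α) (same β) (same γ)
      (fun i j h => (hadj _ _ (he i j h) _ _).2 hαβ)
      (fun i j h a => g2 (inj1 _ _ _ ((hadj _ _ (he i j h) _ _).1 a) hαβ))
      (fun i j h a => g1 (inj2 _ _ _ ((hadj _ _ (he i j h) _ _).1 a) hαβ))
      (fun i j h => hadj _ _ (he i j h) _ _) (fun i j h => hadj _ _ (he i j h) _ _)
      (fun i j h => hadj _ _ (he i j h) _ _)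
      (fun p1 p2 => g1 (inj1 _ _ _ p2 p1)) (fun p1 p2 => g2 (inj2 _ _ _ p2 p1))
    rcases this with h | h
    · exact (hk1 V G _ _ _ S hD hP h).mono (by omega)
    · exact (hk2 V G _ _ _ S hD hP h).mono (by omega)

end

end Pool.Agent.MP_41f2d3_co
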