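import Pool.Agent.MP_41f2d3_co.RTCLocal

/-! Graphs containing a cyclic chain of six triangles. -/

namespace Pool.Agent.MP_41f2d3_co

open Finset Classical

noncomputable section

variable {V : Type} {G : SimpleGraph V}

lemma P23_of_P1 (hR : RF G) {P Q : V → Prop} (z : V) (iP : ∀ {x y}, P x → P y → ¬ G.Adj x y)
    (iQ : ∀ {x y}, Q x → Q y → ¬ G.Adj x y) (hP : ∀ {x}, P x → ¬ G.Adj x z)
    (hQ : ∀ {x}, Q x → ¬ G.Adj x z) : P23 G P Q := by
  intro x x' y y' y'' hx hx' hy hy' hy'' e1 e2 e3 n1 n2 n3 ne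
  exact hR z x' y'' y x y' e3 e1.symm e2 (iQ hy hy') (ns (hP hx')) (ns (hQ hy'')) (ns (hQ hy))
    (ns (hP hx)) (ns (hQ hy')) n1 (iP hx' hx) n2 (iQ hy'' hy) (ns n3) (iQ hy'' hy') ne

lemma P23.mono {P Q P' Q' : V → Prop} (h : P23 G P Q) (hP : ∀ v, P' v → P v)
    (hQ : ∀ v, Q' v → Q v) : P23 G P' Q' :=
  fun _ _ _ _ _ h1 h2 h3 h4 h5 => h (hP _ h1) (hP _ h2) (hQ _ h3) (hQ _ h4) (hQ _ h5)

lemma Tri3.mono {D A B D' A' B' : V → Prop} (h : Tri3 G D A B) (hD : ∀ v, D' v → D v)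
    (hA : ∀ v, A' v → A v) (hB : ∀ v, B' v → B v) : Tri3 G D' A' B' :=
  ⟨fun h1 h2 => h.iD (hD _ h1) (hD _ h2), fun h1 h2 => h.iA (hA _ h1) (hA _ h2),
    fun h1 h2 => h.iB (hB _ h1) (hB _ h2), fun h1 h2 => h.nDA (hD _ h1) (hA _ h2),
    fun h1 h2 => h.nAB (hA _ h1) (hB _ h2), fun h1 h2 => h.nBD (hB _ h1) (hD _ h2),
    fun h1 h2 h3 => h.rb (hD _ h1) (hA _ h2) (hB _ h3), h.pDA.mono hD hA, h.pAD.mono hA hD,
    h.pAB.mono hA hB, h.pBA.mono hB hA, h.pBD.mono hB hD, h.pDB.mono hD hB⟩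

theorem W_core' (hD : DF G) (hR : RF G) {D A B : V → Prop} (h : Tri3 G D A B) {S : Finset V}
    (hS : ∀ v ∈ S, D v ∨ A v ∨ B v) : W G cC S := by
  refine W_core hD hR (h.mono (D' := fun v => v ∈ S ∧ D v) (A' := fun v => v ∈ S ∧ A v)
    (B' := fun v => v ∈ S ∧ B v) (fun _ h => h.2) (fun _ h => h.2) (fun _ h => h.2)) ?_
  intro v
  constructor
  · intro hv
    rcases hS v hv with c | c | c
    · exact Or.inl ⟨hv, c⟩
    · exact Or.inr (Or.inl ⟨hv, c⟩)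
    · exact Or.inr (Or.inr ⟨hv, c⟩)
  · rintro (c | c | c) <;> exact c.1

lemma U1_cls {D A B : V → Prop} {d a b v : V} (h : Tri3 G D A B) (u : U1 G D A B d a b v)
    (hv : D v) : ¬ G.Adj v b := by
  rcases u with (u | u) | (u | u) | (u | u)
  · exact u.2.2.1
  · exact absurd rfl (h.nBD u.1 hv)
  · exact absurd rfl (h.nDA hv u.1)
  · exact u.2.2.1
  · exact absurd rfl (h.nBD u.1 hv)
  · exact absurd rfl (h.nDA hv u.1)

lemma Ty_two : ∃ t, ∀ (V : Type) (G : SimpleGraph V) (S U L : Finset V), Ty G 32 S U →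
    Ty G 32 S L → Ty G t S ((S \ U) \ L) :=
  ⟨_, fun _ G S _ _ h1 h2 =>
    Ty_sdiff sdiff_subset (Ty_sdiff Subset.rfl (Ty_self G 0 S) h1) h2⟩

variable {a b c : Fin 6 → V}

lemma TC6.rot (h : TC6 G a b c) : TC6 G b c a := ⟨h.bc, h.ca, h.ab, h.bb, h.cc, h.aa⟩

/-- reversal -/
def rv (a : Fin 6 → V) : Fin 6 → V := fun i => a i.rev

lemma TC6.rev (h : TC6 G a b c) : TC6 G (rv a) (rv c) (rv b) :=
  ⟨fun i j => by rw [G.adj_comm]; exact (h.ca _ _).trans Fin.rev_le_rev,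
    fun i j => by rw [G.adj_comm]; exact (h.bc _ _).trans Fin.rev_le_rev,
    fun i j => by rw [G.adj_comm]; exact (h.ab _ _).trans Fin.rev_le_rev,
    fun _ _ => h.aa _ _, fun _ _ => h.cc _ _, fun _ _ => h.bb _ _⟩

/-- cyclic shift -/
def sh (a b : Fin 6 → V) : Fin 6 → V := ![a 3, a 4, a 5, b 0, b 1, b 2]

lemma TC6.sh_ab (h : TC6 G a b c) (i j : Fin 6) : G.Adj (sh a b i) (sh b c j) ↔ i ≤ j := by
  have ac : ∀ i j, G.Adj (a i) (c j) ↔ j ≤ i := fun i j => by rw [G.adj_comm]; exact h.ca j i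
  fin_cases i <;> fin_cases j <;> simp [sh, h.ab, h.bc, h.bb, ac]

lemma TC6.sh_aa (h : TC6 G a b c) (i j : Fin 6) : ¬ G.Adj (sh a b i) (sh a b j) := by
  have ba : ∀ i j, G.Adj (b i) (a j) ↔ j ≤ i := fun i j => by rw [G.adj_comm]; exact h.ab j i
  fin_cases i <;> fin_cases j <;> simp [sh, h.ab, h.aa, h.bb, ba]

lemma TC6.shift (h : TC6 G a b c) : TC6 G (sh a b) (sh b c) (sh c a) :=
  ⟨h.sh_ab, h.rot.sh_ab, h.rot.rot.sh_ab, h.sh_aa, h.rot.sh_aa, h.rot.rot.sh_aa⟩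

lemma Off6.rot {u : V} (h : Off6 a b c u) : Off6 b c a u :=
  fun i => ⟨(h i).2.1, (h i).2.2, (h i).1⟩

lemma Off6.sh1 {u : V} (h : Off6 a b c u) (i : Fin 6) : u ≠ sh a b i := by
  fin_cases i
  exacts [(h 3).1, (h 4).1, (h 5).1, (h 0).2.1, (h 1).2.1, (h 2).2.1]

lemma Off6.shift {u : V} (h : Off6 a b c u) : Off6 (sh a b) (sh b c) (sh c a) u :=
  fun i => ⟨h.sh1 i, h.rot.sh1 i, h.rot.rot.sh1 i⟩

lemma WA.rev {v : V} (h : WA G a b c v) : WA G (rv a) (rv c) (rv b) v :=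
  ⟨fun _ => h.na _, fun _ _ l e1 e2 => h.m1 _ _ (Fin.rev_lt_rev.2 l) e2 e1,
    fun _ _ l e1 e2 => h.m2 _ _ (Fin.rev_lt_rev.2 l) e2 e1,
    fun _ _ l e1 e2 => h.m4 _ _ (Fin.rev_lt_rev.2 l) e1 e2,
    fun _ _ l e1 e2 => h.m3 _ _ (Fin.rev_lt_rev.2 l) e1 e2⟩

lemma LA.rev {v : V} (h : LA G a b c v) : LA G (rv a) (rv c) (rv b) v :=
  ⟨h.1.rev, h.2.2, h.2.1⟩

lemma TC6.cls (hD : DF G) (hR : RF G) (h : TC6 G a b c) {v : V} (o : Off6 a b c v) :
    WA G a b c v ∨ WA G b c a v ∨ WA G c a b v := by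
  by_contra hh
  rw [not_or, not_or] at hh
  exact tc_cls hD hR h o hh.1 hh.2.1 hh.2.2

lemma LA.disj {v : V} (h1 : LA G a b c v) (h2 : LA G b c a v) : False :=
  h1.1.m2 0 1 (by decide) h2.2.1 (h2.1.na 1)

lemma TC6.p1 (hD : DF G) (hR : RF G) (h : TC6 G a b c) : P23 G (LA G a b c) (LA G b c a) :=
  P23_of_P1 hR (b 0) (fun h1 h2 => l_ind hD hR h h1 h2) (fun h1 h2 => l_ind hD hR h.rot h1 h2)
    (fun h1 => h1.2.1) (fun h1 => h1.1.na 0)

lemma TC6.p2 (hD : DF G) (hR : RF G) (h : TC6 G a b c) : P23 G (LA G b c a) (LA G a b c) :=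
  P23_of_P1 hR (b 0) (fun h1 h2 => l_ind hD hR h.rot h1 h2) (fun h1 h2 => l_ind hD hR h h1 h2)
    (fun h1 => h1.1.na 0) (fun h1 => h1.2.1)

lemma TC6.tri (hD : DF G) (hR : RF G) (h : TC6 G a b c) :
    Tri3 G (LA G a b c) (LA G b c a) (LA G c a b) :=
  ⟨fun h1 h2 => l_ind hD hR h h1 h2, fun h1 h2 => l_ind hD hR h.rot h1 h2,
    fun h1 h2 => l_ind hD hR h.rot.rot h1 h2, fun h1 h2 e => h1.disj (e ▸ h2),
    fun h1 h2 e => h1.disj (e ▸ h2), fun h1 h2 e => h1.disj (e ▸ h2),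
    fun h1 h2 h3 => l_rb hD hR h h1 h2 h3, h.p1 hD hR, h.p2 hD hR, h.rot.p1 hD hR,
    h.rot.p2 hD hR, h.rot.rot.p1 hD hR, h.rot.rot.p2 hD hR⟩

lemma TC6.la2 (h : TC6 G a b c) : LA G a b c (a 2) := by
  have ac : ∀ i j, G.Adj (a i) (c j) ↔ j ≤ i := fun i j => by rw [G.adj_comm]; exact h.ca j i
  refine ⟨⟨h.aa 2, ?_, ?_, ?_, ?_⟩, mt (h.ab 2 0).1 (by decide), mt (ac 2 5).1 (by decide)⟩ <;>
    intro i j hij <;> simp only [h.ab, ac] <;> omega

lemma TC6.tr (h : TC6 G a b c) :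
    Tr G (LA G a b c) (LA G b c a) (LA G c a b) (a 2) (b 2) (c 2) :=
  ⟨h.la2, h.rot.la2, h.rot.rot.la2, (h.ab 2 2).2 le_rfl, (h.bc 2 2).2 le_rfl,
    ((h.ca 2 2).2 le_rfl).symm⟩

lemma TC6.far (hD : DF G) (hR : RF G) (h : TC6 G a b c) {v : V} (hv : LA G a b c v)
    (n : ¬ G.Adj v (c 1)) :
    U1 G (LA G a b c) (LA G b c a) (LA G c a b) (a 2) (b 2) (c 2) v :=
  Or.inl (Or.inl ⟨hv, Classical.byContradiction fun e => hv.1.m2 1 2 (by decide) n e,
    fun e => hv.1.m3 1 2 (by decide) e n, fun _ hy xy yd => (l_far hD hR h hv hy xy n yd).elim⟩)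

lemma TC6.cut (hD : DF G) (hR : RF G) (h : TC6 G a b c) {S : Finset V}
    (hS : ∀ v ∈ S, LA G a b c v ∨ LA G b c a v ∨ LA G c a b v) :
    ∃ U : Finset V, Ty G 32 S U ∧
      (∀ v ∈ S, v ∉ U → (LA G a b c v → G.Adj v (c 1)) ∧ (LA G b c a v → G.Adj v (a 1)) ∧
        (LA G c a b v → G.Adj v (b 1))) ∧
      ∀ v ∈ U, (LA G a b c v → ¬ G.Adj v (c 2)) ∧ (LA G b c a v → ¬ G.Adj v (a 2)) ∧
        (LA G c a b v → ¬ G.Adj v (b 2)) := by
  have t := h.tri hD hR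
  refine ⟨S.filter (U1 G (LA G a b c) (LA G b c a) (LA G c a b) (a 2) (b 2) (c 2)),
    UC_Ty t (U1_UC hD t h.tr) hS (fun v hv => by simp [hv]) (filter_subset _ _), ?_, ?_⟩
  · intro v hv n
    have n' : ¬ U1 G (LA G a b c) (LA G b c a) (LA G c a b) (a 2) (b 2) (c 2) v :=
      fun u => n (mem_filter.2 ⟨hv, u⟩)
    exact ⟨fun l => Classical.byContradiction fun e => n' (h.far hD hR l e),
      fun l => Classical.byContradiction fun e => n' (h.rot.far hD hR l e).rot.rot,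
      fun l => Classical.byContradiction fun e => n' (h.rot.rot.far hD hR l e).rot⟩
  · intro v hv
    have u := (mem_filter.1 hv).2
    exact ⟨U1_cls t u, U1_cls t.rot u.rot, U1_cls t.rot.rot u.rot.rot⟩

lemma TC6.unif (hD : DF G) (hR : RF G) (h : TC6 G a b c) {x y z : V} (hx : LA G a b c x)
    (hy : LA G a b c y) (x1 : G.Adj x (c 1)) (x2 : G.Adj x (b 4)) (y1 : G.Adj y (c 1))
    (y2 : G.Adj y (b 4)) (o : Off6 a b c z)
    (n : ¬ (LA G a b c z ∨ LA G b c a z ∨ LA G c a b z)) (e : G.Adj x z) : G.Adj y z := by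
  by_contra e'
  rcases h.cls hD hR o with w | w | w
  · exact l_ua hD hR h w hx hy x1 x2 y1 y2 e e' (fun p q => n (Or.inl ⟨w, p, q⟩))
  · exact l_ub hD hR h w hx hy x1 x2 y1 y2 e e' (fun p q => n (Or.inr (Or.inl ⟨w, p, q⟩)))
  · exact l_uc hD hR h w hx hy x1 x2 y1 y2 e e' (fun p q => n (Or.inr (Or.inr ⟨w, p, q⟩)))

/-- first class, in the middle gap -/
def Gap (G : SimpleGraph V) (a b c : Fin 6 → V) (v : V) : Prop :=
  LA G a b c v ∧ G.Adj v (c 2) ∧ G.Adj v (b 3)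

lemma TC6.gap (hD : DF G) (hR : RF G) (h : TC6 G a b c) {v : V} (o : Off6 a b c v)
    (e1 : G.Adj v (c 2)) (e2 : G.Adj v (b 3)) : Gap G a b c v := by
  rcases h.cls hD hR o with w | w | w
  · exact ⟨⟨w, fun e => w.m1 0 2 (by decide) e e1, fun e => w.m1 3 5 (by decide) e2 e⟩, e1, e2⟩
  · exact absurd e2 (w.na 3)
  · exact absurd e1 (w.na 2)

lemma TC6.wrap (hD : DF G) (hR : RF G) (h : TC6 G a b c) {v : V} (o : Off6 a b c v)
    (w : WA G (sh a b) (sh b c) (sh c a) v) (n : ¬ LA G (sh a b) (sh b c) (sh c a) v) :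
    Gap G a b c v ∨ Gap G b c a v := by
  by_cases e1 : G.Adj v (sh b c 0)
  · exact Or.inl (h.gap hD hR o
      (Classical.byContradiction fun e => w.m4 0 5 (by decide) e1 e) e1)
  by_cases e2 : G.Adj v (sh c a 5)
  · exact Or.inr (h.rot.gap hD hR o.rot e2
      (Classical.byContradiction fun e => w.m3 0 5 (by decide) e2 e))
  exact absurd ⟨w, e1, e2⟩ n

theorem W_TCR : ∃ k, ∀ (V : Type) (G : SimpleGraph V) (a b c : Fin 6 → V) (S : Finset V),
    DF G → RF G → TC6 G a b c → W G k S := by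
  obtain ⟨t, ht⟩ := Ty_two
  refine ⟨J 18 (J (4 * (t + 1)) cC + 18), fun V G a b c S hD hR h => ?_⟩
  let F : Finset V := univ.image a ∪ (univ.image b ∪ univ.image c)
  have hF : F.card ≤ 18 := by
    have h1 : (univ.image a).card ≤ 6 := card_image_le.trans (by simp)
    have h2 : (univ.image b).card ≤ 6 := card_image_le.trans (by simp)
    have h3 : (univ.image c).card ≤ 6 := card_image_le.trans (by simp)
    have h4 := card_union_le (univ.image b) (univ.image c)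
    have h5 := card_union_le (univ.image a) (univ.image b ∪ univ.image c)
    simp only [F]
    omega
  refine W_del hF ?_
  have hoff : ∀ x ∈ S \ F, Off6 a b c x := by
    intro x hx i
    have := (mem_sdiff.1 hx).2
    simp only [F, mem_union, mem_image, mem_univ, true_and, not_or, not_exists] at this
    exact ⟨fun e => this.1 i e.symm, fun e => this.2.1 i e.symm, fun e => this.2.2 i e.symm⟩
  generalize S \ F = S' at hoff
  obtain ⟨M, hM⟩ : ∃ M : Finset V, ∀ v, v ∈ M ↔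
      v ∈ S' ∧ (LA G a b c v ∨ LA G b c a v ∨ LA G c a b v) :=
    ⟨S'.filter _, fun v => mem_filter⟩
  obtain ⟨U, tU, u1, u2⟩ := h.cut hD hR (S := M) (fun v hv => ((hM v).1 hv).2)
  obtain ⟨L, tL, l1, l2⟩ := h.rev.cut hD hR (S := M) (fun v hv => by
    rcases ((hM v).1 hv).2 with w | w | w
    · exact Or.inl w.rev
    · exact Or.inr (Or.inr w.rev)
    · exact Or.inr (Or.inl w.rev))
  have hX : ∀ v ∈ (M \ U) \ L, v ∈ M ∧ v ∉ U ∧ v ∉ L := by
    intro v hv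
    simp only [mem_sdiff] at hv
    exact ⟨hv.1.1, hv.1.2, hv.2⟩
  refine W_join (A := (M \ U) \ L) (fun v hv => ((hM v).1 (hX v hv).1).1) ?_
    (W_core' hD hR (h.tri hD hR) (fun v hv => ((hM v).1 (hX v hv).1).2))
    (W_core' hD hR (h.shift.tri hD hR) ?_)
  · refine Ty_transfer (fun v => (LA G a b c v, LA G b c a v)) univ (by simp)
      (fun _ _ => mem_univ _) ?_ (ht V G M U L tU tL)
    intro x hx y hy e hh z hz hzX
    by_cases zM : z ∈ M
    · exact hh z zM hzX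
    have nz : ¬ (LA G a b c z ∨ LA G b c a z ∨ LA G c a b z) := fun k => zM ((hM z).2 ⟨hz, k⟩)
    have o := hoff z hz
    simp only [Prod.mk.injEq, eq_iff_iff] at e
    obtain ⟨x0, xU, xL⟩ := hX x hx
    obtain ⟨y0, yU, yL⟩ := hX y hy
    have p1 := u1 x x0 xU
    have p2 := u1 y y0 yU
    have q1 := l1 x x0 xL
    have q2 := l1 y y0 yL
    rcases ((hM x).1 x0).2 with w | w | w
    · have w' := e.1.1 w
      exact ⟨h.unif hD hR w w' (p1.1 w) (q1.1 w.rev) (p2.1 w') (q2.1 w'.rev) o nz,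
        h.unif hD hR w' w (p2.1 w') (q2.1 w'.rev) (p1.1 w) (q1.1 w.rev) o nz⟩
    · have w' := e.2.1 w
      have nz' := mt or_rotate.2 nz
      exact ⟨h.rot.unif hD hR w w' (p1.2.1 w) (q1.2.2 w.rev) (p2.2.1 w') (q2.2.2 w'.rev) o.rot nz',
        h.rot.unif hD hR w' w (p2.2.1 w') (q2.2.2 w'.rev) (p1.2.1 w) (q1.2.2 w.rev) o.rot nz'⟩
    · have w' : LA G c a b y := by
        rcases ((hM y).1 y0).2 with w' | w' | w'
        · exact (w.disj (e.1.2 w')).elim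
        · exact ((e.2.2 w').disj w).elim
        · exact w'
      have nz' := mt or_rotate.2 (mt or_rotate.2 nz)
      exact ⟨h.rot.rot.unif hD hR w w' (p1.2.2 w) (q1.2.1 w.rev) (p2.2.2 w') (q2.2.1 w'.rev)
          o.rot.rot nz',
        h.rot.rot.unif hD hR w' w (p2.2.2 w') (q2.2.1 w'.rev) (p1.2.2 w) (q1.2.1 w.rev)
          o.rot.rot nz'⟩
  · intro v hv
    obtain ⟨hv, nX⟩ := mem_sdiff.1 hv
    have o := hoff v hv
    have inX : (LA G a b c v ∨ LA G b c a v ∨ LA G c a b v) → v ∉ U → v ∉ L → False :=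
      fun k n1 n2 => nX (mem_sdiff.2 ⟨mem_sdiff.2 ⟨(hM v).2 ⟨hv, k⟩, n1⟩, n2⟩)
    have gA : ¬ Gap G a b c v := fun g => inX (Or.inl g.1) (fun k => (u2 v k).1 g.1 g.2.1)
      (fun k => (l2 v k).1 g.1.rev g.2.2)
    have gB : ¬ Gap G b c a v := fun g => inX (Or.inr (Or.inl g.1))
      (fun k => (u2 v k).2.1 g.1 g.2.1) (fun k => (l2 v k).2.2 g.1.rev g.2.2)
    have gC : ¬ Gap G c a b v := fun g => inX (Or.inr (Or.inr g.1))
      (fun k => (u2 v k).2.2 g.1 g.2.1) (fun k => (l2 v k).2.1 g.1.rev g.2.2)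
    rcases h.shift.cls hD hR o.shift with w | w | w
    · exact Or.inl (Classical.byContradiction fun n => (h.wrap hD hR o w n).elim gA gB)
    · exact Or.inr (Or.inl
        (Classical.byContradiction fun n => (h.rot.wrap hD hR o.rot w n).elim gB gC))
    · exact Or.inr (Or.inr
        (Classical.byContradiction fun n => (h.rot.rot.wrap hD hR o.rot.rot w n).elim gC gA))

end

end Pool.Agent.MP_41f2d3_co
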