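import Pool.Agent.MP_41f2d3_co.RCore

/-! Local lemmas for cyclic chains of six triangles. -/

namespace Pool.Agent.MP_41f2d3_co

variable {V : Type}

/-- six triangles in cyclic chain position -/
structure TC6 (G : SimpleGraph V) (a b c : Fin 6 → V) : Prop where
  ab : ∀ i j, G.Adj (a i) (b j) ↔ i ≤ j
  bc : ∀ i j, G.Adj (b i) (c j) ↔ i ≤ j
  ca : ∀ i j, G.Adj (c i) (a j) ↔ i ≤ j
  aa : ∀ i j, ¬ G.Adj (a i) (a j)
  bb : ∀ i j, ¬ G.Adj (b i) (b j)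
  cc : ∀ i j, ¬ G.Adj (c i) (c j)

/-- not one of the eighteen vertices -/
def Off6 (a b c : Fin 6 → V) (u : V) : Prop := ∀ i, u ≠ a i ∧ u ≠ b i ∧ u ≠ c i

/-- behaves like a vertex of the first class -/
structure WA (G : SimpleGraph V) (a b c : Fin 6 → V) (v : V) : Prop where
  na : ∀ i, ¬ G.Adj v (a i)
  m1 : ∀ i j, i < j → G.Adj v (b i) → G.Adj v (c j) → False
  m2 : ∀ i j, i < j → ¬ G.Adj v (c i) → ¬ G.Adj v (b j) → False
  m3 : ∀ i j, i < j → G.Adj v (c j) → ¬ G.Adj v (c i) → False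
  m4 : ∀ i j, i < j → G.Adj v (b i) → ¬ G.Adj v (b j) → False

/-- first class, between the ends of the chain -/
def LA (G : SimpleGraph V) (a b c : Fin 6 → V) (v : V) : Prop :=
  WA G a b c v ∧ ¬ G.Adj v (b 0) ∧ ¬ G.Adj v (c 5)

lemma all6 {P : Fin 6 → Prop} (h0 : P 0) (h1 : P 1) (h2 : P 2) (h3 : P 3) (h4 : P 4)
    (h5 : P 5) : ∀ i, P i := by
  intro i
  fin_cases i
  exacts [h0, h1, h2, h3, h4, h5]

lemma WA_of_pos {G : SimpleGraph V} {a b c : Fin 6 → V} {v : V} (p : ℕ)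
    (h1 : ∀ i, ¬ G.Adj v (a i)) (h2 : ∀ i, G.Adj v (b i) ↔ p < 2 * i.val)
    (h3 : ∀ i, G.Adj v (c i) ↔ 2 * i.val < p) : WA G a b c v := by
  refine ⟨h1, ?_, ?_, ?_, ?_⟩ <;> intro i j hij <;> rw [Fin.lt_def] at hij <;>
    simp only [h2, h3] <;> omega

set_option linter.unusedVariables false

lemma tc_cls {G : SimpleGraph V} (hD : DF G) (hR : RF G) {a b c : Fin 6 → V} (h : TC6 G a b c)
    {v : V}
    (ov : Off6 a b c v) (nA : ¬ WA G a b c v) (nB : ¬ WA G b c a v)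
    (nC : ¬ WA G c a b v)
    : False := by
  have fa0b0 : G.Adj (a 0) (b 0) := (h.ab 0 0).2 (by decide)
  have fc0a0 : G.Adj (c 0) (a 0) := (h.ca 0 0).2 (by decide)
  have fa0a1 : ¬ G.Adj (a 0) (a 1) := h.aa 0 1
  have fa0b1 : G.Adj (a 0) (b 1) := (h.ab 0 1).2 (by decide)
  have fc1a0 : ¬ G.Adj (c 1) (a 0) := mt (h.ca 1 0).1 (by decide)
  have fa0a2 : ¬ G.Adj (a 0) (a 2) := h.aa 0 2
  have fa0b2 : G.Adj (a 0) (b 2) := (h.ab 0 2).2 (by decide)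
  have fc2a0 : ¬ G.Adj (c 2) (a 0) := mt (h.ca 2 0).1 (by decide)
  have fa0a3 : ¬ G.Adj (a 0) (a 3) := h.aa 0 3
  have fa0b3 : G.Adj (a 0) (b 3) := (h.ab 0 3).2 (by decide)
  have fc3a0 : ¬ G.Adj (c 3) (a 0) := mt (h.ca 3 0).1 (by decide)
  have fa0a4 : ¬ G.Adj (a 0) (a 4) := h.aa 0 4
  have fa0b4 : G.Adj (a 0) (b 4) := (h.ab 0 4).2 (by decide)
  have fc4a0 : ¬ G.Adj (c 4) (a 0) := mt (h.ca 4 0).1 (by decide)
  have fa0a5 : ¬ G.Adj (a 0) (a 5) := h.aa 0 5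
  have fa0b5 : G.Adj (a 0) (b 5) := (h.ab 0 5).2 (by decide)
  have fc5a0 : ¬ G.Adj (c 5) (a 0) := mt (h.ca 5 0).1 (by decide)
  have fb0c0 : G.Adj (b 0) (c 0) := (h.bc 0 0).2 (by decide)
  have fa1b0 : ¬ G.Adj (a 1) (b 0) := mt (h.ab 1 0).1 (by decide)
  have fb0b1 : ¬ G.Adj (b 0) (b 1) := h.bb 0 1
  have fb0c1 : G.Adj (b 0) (c 1) := (h.bc 0 1).2 (by decide)
  have fa2b0 : ¬ G.Adj (a 2) (b 0) := mt (h.ab 2 0).1 (by decide)
  have fb0b2 : ¬ G.Adj (b 0) (b 2) := h.bb 0 2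
  have fb0c2 : G.Adj (b 0) (c 2) := (h.bc 0 2).2 (by decide)
  have fa3b0 : ¬ G.Adj (a 3) (b 0) := mt (h.ab 3 0).1 (by decide)
  have fb0b3 : ¬ G.Adj (b 0) (b 3) := h.bb 0 3
  have fb0c3 : G.Adj (b 0) (c 3) := (h.bc 0 3).2 (by decide)
  have fa4b0 : ¬ G.Adj (a 4) (b 0) := mt (h.ab 4 0).1 (by decide)
  have fb0b4 : ¬ G.Adj (b 0) (b 4) := h.bb 0 4
  have fb0c4 : G.Adj (b 0) (c 4) := (h.bc 0 4).2 (by decide)
  have fa5b0 : ¬ G.Adj (a 5) (b 0) := mt (h.ab 5 0).1 (by decide)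
  have fb0b5 : ¬ G.Adj (b 0) (b 5) := h.bb 0 5
  have fb0c5 : G.Adj (b 0) (c 5) := (h.bc 0 5).2 (by decide)
  have fc0a1 : G.Adj (c 0) (a 1) := (h.ca 0 1).2 (by decide)
  have fb1c0 : ¬ G.Adj (b 1) (c 0) := mt (h.bc 1 0).1 (by decide)
  have fc0c1 : ¬ G.Adj (c 0) (c 1) := h.cc 0 1
  have fc0a2 : G.Adj (c 0) (a 2) := (h.ca 0 2).2 (by decide)
  have fb2c0 : ¬ G.Adj (b 2) (c 0) := mt (h.bc 2 0).1 (by decide)
  have fc0c2 : ¬ G.Adj (c 0) (c 2) := h.cc 0 2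
  have fc0a3 : G.Adj (c 0) (a 3) := (h.ca 0 3).2 (by decide)
  have fb3c0 : ¬ G.Adj (b 3) (c 0) := mt (h.bc 3 0).1 (by decide)
  have fc0c3 : ¬ G.Adj (c 0) (c 3) := h.cc 0 3
  have fc0a4 : G.Adj (c 0) (a 4) := (h.ca 0 4).2 (by decide)
  have fb4c0 : ¬ G.Adj (b 4) (c 0) := mt (h.bc 4 0).1 (by decide)
  have fc0c4 : ¬ G.Adj (c 0) (c 4) := h.cc 0 4
  have fc0a5 : G.Adj (c 0) (a 5) := (h.ca 0 5).2 (by decide)
  have fb5c0 : ¬ G.Adj (b 5) (c 0) := mt (h.bc 5 0).1 (by decide)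
  have fc0c5 : ¬ G.Adj (c 0) (c 5) := h.cc 0 5
  have fa1b1 : G.Adj (a 1) (b 1) := (h.ab 1 1).2 (by decide)
  have fc1a1 : G.Adj (c 1) (a 1) := (h.ca 1 1).2 (by decide)
  have fa1a2 : ¬ G.Adj (a 1) (a 2) := h.aa 1 2
  have fa1b2 : G.Adj (a 1) (b 2) := (h.ab 1 2).2 (by decide)
  have fc2a1 : ¬ G.Adj (c 2) (a 1) := mt (h.ca 2 1).1 (by decide)
  have fa1a3 : ¬ G.Adj (a 1) (a 3) := h.aa 1 3
  have fa1b3 : G.Adj (a 1) (b 3) := (h.ab 1 3).2 (by decide)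
  have fc3a1 : ¬ G.Adj (c 3) (a 1) := mt (h.ca 3 1).1 (by decide)
  have fa1a4 : ¬ G.Adj (a 1) (a 4) := h.aa 1 4
  have fc4a1 : ¬ G.Adj (c 4) (a 1) := mt (h.ca 4 1).1 (by decide)
  have fa1a5 : ¬ G.Adj (a 1) (a 5) := h.aa 1 5
  have fa1b5 : G.Adj (a 1) (b 5) := (h.ab 1 5).2 (by decide)
  have fc5a1 : ¬ G.Adj (c 5) (a 1) := mt (h.ca 5 1).1 (by decide)
  have fb1c1 : G.Adj (b 1) (c 1) := (h.bc 1 1).2 (by decide)
  have fa2b1 : ¬ G.Adj (a 2) (b 1) := mt (h.ab 2 1).1 (by decide)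
  have fb1b2 : ¬ G.Adj (b 1) (b 2) := h.bb 1 2
  have fb1c2 : G.Adj (b 1) (c 2) := (h.bc 1 2).2 (by decide)
  have fa3b1 : ¬ G.Adj (a 3) (b 1) := mt (h.ab 3 1).1 (by decide)
  have fb1b3 : ¬ G.Adj (b 1) (b 3) := h.bb 1 3
  have fb1c3 : G.Adj (b 1) (c 3) := (h.bc 1 3).2 (by decide)
  have fa4b1 : ¬ G.Adj (a 4) (b 1) := mt (h.ab 4 1).1 (by decide)
  have fb1b4 : ¬ G.Adj (b 1) (b 4) := h.bb 1 4
  have fb1c4 : G.Adj (b 1) (c 4) := (h.bc 1 4).2 (by decide)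
  have fa5b1 : ¬ G.Adj (a 5) (b 1) := mt (h.ab 5 1).1 (by decide)
  have fb1b5 : ¬ G.Adj (b 1) (b 5) := h.bb 1 5
  have fb1c5 : G.Adj (b 1) (c 5) := (h.bc 1 5).2 (by decide)
  have fc1a2 : G.Adj (c 1) (a 2) := (h.ca 1 2).2 (by decide)
  have fb2c1 : ¬ G.Adj (b 2) (c 1) := mt (h.bc 2 1).1 (by decide)
  have fc1c2 : ¬ G.Adj (c 1) (c 2) := h.cc 1 2
  have fc1a3 : G.Adj (c 1) (a 3) := (h.ca 1 3).2 (by decide)
  have fb3c1 : ¬ G.Adj (b 3) (c 1) := mt (h.bc 3 1).1 (by decide)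
  have fc1c3 : ¬ G.Adj (c 1) (c 3) := h.cc 1 3
  have fc1a4 : G.Adj (c 1) (a 4) := (h.ca 1 4).2 (by decide)
  have fb4c1 : ¬ G.Adj (b 4) (c 1) := mt (h.bc 4 1).1 (by decide)
  have fc1c4 : ¬ G.Adj (c 1) (c 4) := h.cc 1 4
  have fc1a5 : G.Adj (c 1) (a 5) := (h.ca 1 5).2 (by decide)
  have fb5c1 : ¬ G.Adj (b 5) (c 1) := mt (h.bc 5 1).1 (by decide)
  have fc1c5 : ¬ G.Adj (c 1) (c 5) := h.cc 1 5
  have fa2b2 : G.Adj (a 2) (b 2) := (h.ab 2 2).2 (by decide)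
  have fc2a2 : G.Adj (c 2) (a 2) := (h.ca 2 2).2 (by decide)
  have fa2a3 : ¬ G.Adj (a 2) (a 3) := h.aa 2 3
  have fa2b3 : G.Adj (a 2) (b 3) := (h.ab 2 3).2 (by decide)
  have fc3a2 : ¬ G.Adj (c 3) (a 2) := mt (h.ca 3 2).1 (by decide)
  have fa2a4 : ¬ G.Adj (a 2) (a 4) := h.aa 2 4
  have fa2b4 : G.Adj (a 2) (b 4) := (h.ab 2 4).2 (by decide)
  have fc4a2 : ¬ G.Adj (c 4) (a 2) := mt (h.ca 4 2).1 (by decide)
  have fa2a5 : ¬ G.Adj (a 2) (a 5) := h.aa 2 5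
  have fa2b5 : G.Adj (a 2) (b 5) := (h.ab 2 5).2 (by decide)
  have fc5a2 : ¬ G.Adj (c 5) (a 2) := mt (h.ca 5 2).1 (by decide)
  have fb2c2 : G.Adj (b 2) (c 2) := (h.bc 2 2).2 (by decide)
  have fa3b2 : ¬ G.Adj (a 3) (b 2) := mt (h.ab 3 2).1 (by decide)
  have fb2b3 : ¬ G.Adj (b 2) (b 3) := h.bb 2 3
  have fb2c3 : G.Adj (b 2) (c 3) := (h.bc 2 3).2 (by decide)
  have fa4b2 : ¬ G.Adj (a 4) (b 2) := mt (h.ab 4 2).1 (by decide)
  have fb2b4 : ¬ G.Adj (b 2) (b 4) := h.bb 2 4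
  have fb2c4 : G.Adj (b 2) (c 4) := (h.bc 2 4).2 (by decide)
  have fa5b2 : ¬ G.Adj (a 5) (b 2) := mt (h.ab 5 2).1 (by decide)
  have fb2b5 : ¬ G.Adj (b 2) (b 5) := h.bb 2 5
  have fb2c5 : G.Adj (b 2) (c 5) := (h.bc 2 5).2 (by decide)
  have fc2a3 : G.Adj (c 2) (a 3) := (h.ca 2 3).2 (by decide)
  have fb3c2 : ¬ G.Adj (b 3) (c 2) := mt (h.bc 3 2).1 (by decide)
  have fc2c3 : ¬ G.Adj (c 2) (c 3) := h.cc 2 3
  have fc2a4 : G.Adj (c 2) (a 4) := (h.ca 2 4).2 (by decide)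
  have fb4c2 : ¬ G.Adj (b 4) (c 2) := mt (h.bc 4 2).1 (by decide)
  have fc2c4 : ¬ G.Adj (c 2) (c 4) := h.cc 2 4
  have fc2a5 : G.Adj (c 2) (a 5) := (h.ca 2 5).2 (by decide)
  have fb5c2 : ¬ G.Adj (b 5) (c 2) := mt (h.bc 5 2).1 (by decide)
  have fc2c5 : ¬ G.Adj (c 2) (c 5) := h.cc 2 5
  have fa3b3 : G.Adj (a 3) (b 3) := (h.ab 3 3).2 (by decide)
  have fc3a3 : G.Adj (c 3) (a 3) := (h.ca 3 3).2 (by decide)
  have fa3a4 : ¬ G.Adj (a 3) (a 4) := h.aa 3 4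
  have fa3b4 : G.Adj (a 3) (b 4) := (h.ab 3 4).2 (by decide)
  have fc4a3 : ¬ G.Adj (c 4) (a 3) := mt (h.ca 4 3).1 (by decide)
  have fa3a5 : ¬ G.Adj (a 3) (a 5) := h.aa 3 5
  have fa3b5 : G.Adj (a 3) (b 5) := (h.ab 3 5).2 (by decide)
  have fc5a3 : ¬ G.Adj (c 5) (a 3) := mt (h.ca 5 3).1 (by decide)
  have fb3c3 : G.Adj (b 3) (c 3) := (h.bc 3 3).2 (by decide)
  have fa4b3 : ¬ G.Adj (a 4) (b 3) := mt (h.ab 4 3).1 (by decide)
  have fb3b4 : ¬ G.Adj (b 3) (b 4) := h.bb 3 4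
  have fb3c4 : G.Adj (b 3) (c 4) := (h.bc 3 4).2 (by decide)
  have fa5b3 : ¬ G.Adj (a 5) (b 3) := mt (h.ab 5 3).1 (by decide)
  have fb3b5 : ¬ G.Adj (b 3) (b 5) := h.bb 3 5
  have fb3c5 : G.Adj (b 3) (c 5) := (h.bc 3 5).2 (by decide)
  have fc3a4 : G.Adj (c 3) (a 4) := (h.ca 3 4).2 (by decide)
  have fb4c3 : ¬ G.Adj (b 4) (c 3) := mt (h.bc 4 3).1 (by decide)
  have fc3c4 : ¬ G.Adj (c 3) (c 4) := h.cc 3 4
  have fc3a5 : G.Adj (c 3) (a 5) := (h.ca 3 5).2 (by decide)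
  have fb5c3 : ¬ G.Adj (b 5) (c 3) := mt (h.bc 5 3).1 (by decide)
  have fc3c5 : ¬ G.Adj (c 3) (c 5) := h.cc 3 5
  have fa4b4 : G.Adj (a 4) (b 4) := (h.ab 4 4).2 (by decide)
  have fc4a4 : G.Adj (c 4) (a 4) := (h.ca 4 4).2 (by decide)
  have fa4a5 : ¬ G.Adj (a 4) (a 5) := h.aa 4 5
  have fa4b5 : G.Adj (a 4) (b 5) := (h.ab 4 5).2 (by decide)
  have fc5a4 : ¬ G.Adj (c 5) (a 4) := mt (h.ca 5 4).1 (by decide)
  have fb4c4 : G.Adj (b 4) (c 4) := (h.bc 4 4).2 (by decide)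
  have fa5b4 : ¬ G.Adj (a 5) (b 4) := mt (h.ab 5 4).1 (by decide)
  have fb4b5 : ¬ G.Adj (b 4) (b 5) := h.bb 4 5
  have fb4c5 : G.Adj (b 4) (c 5) := (h.bc 4 5).2 (by decide)
  have fc4a5 : G.Adj (c 4) (a 5) := (h.ca 4 5).2 (by decide)
  have fb5c4 : ¬ G.Adj (b 5) (c 4) := mt (h.bc 5 4).1 (by decide)
  have fc4c5 : ¬ G.Adj (c 4) (c 5) := h.cc 4 5
  have fa5b5 : G.Adj (a 5) (b 5) := (h.ab 5 5).2 (by decide)
  have fc5a5 : G.Adj (c 5) (a 5) := (h.ca 5 5).2 (by decide)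
  have fb5c5 : G.Adj (b 5) (c 5) := (h.bc 5 5).2 (by decide)
  have qva0 := (ov 0).1
  have qvb0 := (ov 0).2.1
  have qvc0 := (ov 0).2.2
  have qva1 := (ov 1).1
  have qvb1 := (ov 1).2.1
  have qvc1 := (ov 1).2.2
  have qva2 := (ov 2).1
  have qvb2 := (ov 2).2.1
  have qvc2 := (ov 2).2.2
  have qva3 := (ov 3).1
  have qvb3 := (ov 3).2.1
  have qvc3 := (ov 3).2.2
  have qva4 := (ov 4).1
  have qvb4 := (ov 4).2.1
  have qvc4 := (ov 4).2.2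
  have qva5 := (ov 5).1
  have qvb5 := (ov 5).2.1
  have qvc5 := (ov 5).2.2
  have k0 : ¬ G.Adj v (a 0) → ¬ G.Adj v (a 1) → ¬ G.Adj v (a 2) → ¬ G.Adj v (a 3) → ¬ G.Adj v (a 4) → ¬ G.Adj v (a 5) → ¬ G.Adj v (b 0) → G.Adj v (b 1) → G.Adj v (b 2) → G.Adj v (b 3) → G.Adj v (b 4) → G.Adj v (b 5) → ¬ G.Adj v (c 0) → ¬ G.Adj v (c 1) → ¬ G.Adj v (c 2) → ¬ G.Adj v (c 3) → ¬ G.Adj v (c 4) → ¬ G.Adj v (c 5) → False :=
    fun x0 x1 x2 x3 x4 x5 y0 y1 y2 y3 y4 y5 z0 z1 z2 z3 z4 z5 => nA (WA_of_pos 0 (all6 x0 x1 x2 x3 x4 x5)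
      (all6 (iff_of_false y0 (by decide)) (iff_of_true y1 (by decide)) (iff_of_true y2 (by decide)) (iff_of_true y3 (by decide)) (iff_of_true y4 (by decide)) (iff_of_true y5 (by decide)))
      (all6 (iff_of_false z0 (by decide)) (iff_of_false z1 (by decide)) (iff_of_false z2 (by decide)) (iff_of_false z3 (by decide)) (iff_of_false z4 (by decide)) (iff_of_false z5 (by decide))))
  have k1 : ¬ G.Adj v (a 0) → ¬ G.Adj v (a 1) → ¬ G.Adj v (a 2) → ¬ G.Adj v (a 3) → ¬ G.Adj v (a 4) → ¬ G.Adj v (a 5) → ¬ G.Adj v (b 0) → G.Adj v (b 1) → G.Adj v (b 2) → G.Adj v (b 3) → G.Adj v (b 4) → G.Adj v (b 5) → G.Adj v (c 0) → ¬ G.Adj v (c 1) → ¬ G.Adj v (c 2) → ¬ G.Adj v (c 3) → ¬ G.Adj v (c 4) → ¬ G.Adj v (c 5) → False :=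
    fun x0 x1 x2 x3 x4 x5 y0 y1 y2 y3 y4 y5 z0 z1 z2 z3 z4 z5 => nA (WA_of_pos 1 (all6 x0 x1 x2 x3 x4 x5)
      (all6 (iff_of_false y0 (by decide)) (iff_of_true y1 (by decide)) (iff_of_true y2 (by decide)) (iff_of_true y3 (by decide)) (iff_of_true y4 (by decide)) (iff_of_true y5 (by decide)))
      (all6 (iff_of_true z0 (by decide)) (iff_of_false z1 (by decide)) (iff_of_false z2 (by decide)) (iff_of_false z3 (by decide)) (iff_of_false z4 (by decide)) (iff_of_false z5 (by decide))))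
  have k2 : ¬ G.Adj v (a 0) → ¬ G.Adj v (a 1) → ¬ G.Adj v (a 2) → ¬ G.Adj v (a 3) → ¬ G.Adj v (a 4) → ¬ G.Adj v (a 5) → ¬ G.Adj v (b 0) → ¬ G.Adj v (b 1) → G.Adj v (b 2) → G.Adj v (b 3) → G.Adj v (b 4) → G.Adj v (b 5) → G.Adj v (c 0) → ¬ G.Adj v (c 1) → ¬ G.Adj v (c 2) → ¬ G.Adj v (c 3) → ¬ G.Adj v (c 4) → ¬ G.Adj v (c 5) → False :=
    fun x0 x1 x2 x3 x4 x5 y0 y1 y2 y3 y4 y5 z0 z1 z2 z3 z4 z5 => nA (WA_of_pos 2 (all6 x0 x1 x2 x3 x4 x5)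
      (all6 (iff_of_false y0 (by decide)) (iff_of_false y1 (by decide)) (iff_of_true y2 (by decide)) (iff_of_true y3 (by decide)) (iff_of_true y4 (by decide)) (iff_of_true y5 (by decide)))
      (all6 (iff_of_true z0 (by decide)) (iff_of_false z1 (by decide)) (iff_of_false z2 (by decide)) (iff_of_false z3 (by decide)) (iff_of_false z4 (by decide)) (iff_of_false z5 (by decide))))
  have k3 : ¬ G.Adj v (a 0) → ¬ G.Adj v (a 1) → ¬ G.Adj v (a 2) → ¬ G.Adj v (a 3) → ¬ G.Adj v (a 4) → ¬ G.Adj v (a 5) → ¬ G.Adj v (b 0) → ¬ G.Adj v (b 1) → G.Adj v (b 2) → G.Adj v (b 3) → G.Adj v (b 4) → G.Adj v (b 5) → G.Adj v (c 0) → G.Adj v (c 1) → ¬ G.Adj v (c 2) → ¬ G.Adj v (c 3) → ¬ G.Adj v (c 4) → ¬ G.Adj v (c 5) → False :=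
    fun x0 x1 x2 x3 x4 x5 y0 y1 y2 y3 y4 y5 z0 z1 z2 z3 z4 z5 => nA (WA_of_pos 3 (all6 x0 x1 x2 x3 x4 x5)
      (all6 (iff_of_false y0 (by decide)) (iff_of_false y1 (by decide)) (iff_of_true y2 (by decide)) (iff_of_true y3 (by decide)) (iff_of_true y4 (by decide)) (iff_of_true y5 (by decide)))
      (all6 (iff_of_true z0 (by decide)) (iff_of_true z1 (by decide)) (iff_of_false z2 (by decide)) (iff_of_false z3 (by decide)) (iff_of_false z4 (by decide)) (iff_of_false z5 (by decide))))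
  have k4 : ¬ G.Adj v (a 0) → ¬ G.Adj v (a 1) → ¬ G.Adj v (a 2) → ¬ G.Adj v (a 3) → ¬ G.Adj v (a 4) → ¬ G.Adj v (a 5) → ¬ G.Adj v (b 0) → ¬ G.Adj v (b 1) → ¬ G.Adj v (b 2) → G.Adj v (b 3) → G.Adj v (b 4) → G.Adj v (b 5) → G.Adj v (c 0) → G.Adj v (c 1) → ¬ G.Adj v (c 2) → ¬ G.Adj v (c 3) → ¬ G.Adj v (c 4) → ¬ G.Adj v (c 5) → False :=
    fun x0 x1 x2 x3 x4 x5 y0 y1 y2 y3 y4 y5 z0 z1 z2 z3 z4 z5 => nA (WA_of_pos 4 (all6 x0 x1 x2 x3 x4 x5)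
      (all6 (iff_of_false y0 (by decide)) (iff_of_false y1 (by decide)) (iff_of_false y2 (by decide)) (iff_of_true y3 (by decide)) (iff_of_true y4 (by decide)) (iff_of_true y5 (by decide)))
      (all6 (iff_of_true z0 (by decide)) (iff_of_true z1 (by decide)) (iff_of_false z2 (by decide)) (iff_of_false z3 (by decide)) (iff_of_false z4 (by decide)) (iff_of_false z5 (by decide))))
  have k5 : ¬ G.Adj v (a 0) → ¬ G.Adj v (a 1) → ¬ G.Adj v (a 2) → ¬ G.Adj v (a 3) → ¬ G.Adj v (a 4) → ¬ G.Adj v (a 5) → ¬ G.Adj v (b 0) → ¬ G.Adj v (b 1) → ¬ G.Adj v (b 2) → G.Adj v (b 3) → G.Adj v (b 4) → G.Adj v (b 5) → G.Adj v (c 0) → G.Adj v (c 1) → G.Adj v (c 2) → ¬ G.Adj v (c 3) → ¬ G.Adj v (c 4) → ¬ G.Adj v (c 5) → False :=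
    fun x0 x1 x2 x3 x4 x5 y0 y1 y2 y3 y4 y5 z0 z1 z2 z3 z4 z5 => nA (WA_of_pos 5 (all6 x0 x1 x2 x3 x4 x5)
      (all6 (iff_of_false y0 (by decide)) (iff_of_false y1 (by decide)) (iff_of_false y2 (by decide)) (iff_of_true y3 (by decide)) (iff_of_true y4 (by decide)) (iff_of_true y5 (by decide)))
      (all6 (iff_of_true z0 (by decide)) (iff_of_true z1 (by decide)) (iff_of_true z2 (by decide)) (iff_of_false z3 (by decide)) (iff_of_false z4 (by decide)) (iff_of_false z5 (by decide))))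
  have k6 : ¬ G.Adj v (a 0) → ¬ G.Adj v (a 1) → ¬ G.Adj v (a 2) → ¬ G.Adj v (a 3) → ¬ G.Adj v (a 4) → ¬ G.Adj v (a 5) → ¬ G.Adj v (b 0) → ¬ G.Adj v (b 1) → ¬ G.Adj v (b 2) → ¬ G.Adj v (b 3) → G.Adj v (b 4) → G.Adj v (b 5) → G.Adj v (c 0) → G.Adj v (c 1) → G.Adj v (c 2) → ¬ G.Adj v (c 3) → ¬ G.Adj v (c 4) → ¬ G.Adj v (c 5) → False :=
    fun x0 x1 x2 x3 x4 x5 y0 y1 y2 y3 y4 y5 z0 z1 z2 z3 z4 z5 => nA (WA_of_pos 6 (all6 x0 x1 x2 x3 x4 x5)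
      (all6 (iff_of_false y0 (by decide)) (iff_of_false y1 (by decide)) (iff_of_false y2 (by decide)) (iff_of_false y3 (by decide)) (iff_of_true y4 (by decide)) (iff_of_true y5 (by decide)))
      (all6 (iff_of_true z0 (by decide)) (iff_of_true z1 (by decide)) (iff_of_true z2 (by decide)) (iff_of_false z3 (by decide)) (iff_of_false z4 (by decide)) (iff_of_false z5 (by decide))))
  have k7 : ¬ G.Adj v (a 0) → ¬ G.Adj v (a 1) → ¬ G.Adj v (a 2) → ¬ G.Adj v (a 3) → ¬ G.Adj v (a 4) → ¬ G.Adj v (a 5) → ¬ G.Adj v (b 0) → ¬ G.Adj v (b 1) → ¬ G.Adj v (b 2) → ¬ G.Adj v (b 3) → G.Adj v (b 4) → G.Adj v (b 5) → G.Adj v (c 0) → G.Adj v (c 1) → G.Adj v (c 2) → G.Adj v (c 3) → ¬ G.Adj v (c 4) → ¬ G.Adj v (c 5) → False :=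
    fun x0 x1 x2 x3 x4 x5 y0 y1 y2 y3 y4 y5 z0 z1 z2 z3 z4 z5 => nA (WA_of_pos 7 (all6 x0 x1 x2 x3 x4 x5)
      (all6 (iff_of_false y0 (by decide)) (iff_of_false y1 (by decide)) (iff_of_false y2 (by decide)) (iff_of_false y3 (by decide)) (iff_of_true y4 (by decide)) (iff_of_true y5 (by decide)))
      (all6 (iff_of_true z0 (by decide)) (iff_of_true z1 (by decide)) (iff_of_true z2 (by decide)) (iff_of_true z3 (by decide)) (iff_of_false z4 (by decide)) (iff_of_false z5 (by decide))))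
  have k8 : ¬ G.Adj v (a 0) → ¬ G.Adj v (a 1) → ¬ G.Adj v (a 2) → ¬ G.Adj v (a 3) → ¬ G.Adj v (a 4) → ¬ G.Adj v (a 5) → ¬ G.Adj v (b 0) → ¬ G.Adj v (b 1) → ¬ G.Adj v (b 2) → ¬ G.Adj v (b 3) → ¬ G.Adj v (b 4) → G.Adj v (b 5) → G.Adj v (c 0) → G.Adj v (c 1) → G.Adj v (c 2) → G.Adj v (c 3) → ¬ G.Adj v (c 4) → ¬ G.Adj v (c 5) → False :=
    fun x0 x1 x2 x3 x4 x5 y0 y1 y2 y3 y4 y5 z0 z1 z2 z3 z4 z5 => nA (WA_of_pos 8 (all6 x0 x1 x2 x3 x4 x5)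
      (all6 (iff_of_false y0 (by decide)) (iff_of_false y1 (by decide)) (iff_of_false y2 (by decide)) (iff_of_false y3 (by decide)) (iff_of_false y4 (by decide)) (iff_of_true y5 (by decide)))
      (all6 (iff_of_true z0 (by decide)) (iff_of_true z1 (by decide)) (iff_of_true z2 (by decide)) (iff_of_true z3 (by decide)) (iff_of_false z4 (by decide)) (iff_of_false z5 (by decide))))
  have k9 : ¬ G.Adj v (a 0) → ¬ G.Adj v (a 1) → ¬ G.Adj v (a 2) → ¬ G.Adj v (a 3) → ¬ G.Adj v (a 4) → ¬ G.Adj v (a 5) → ¬ G.Adj v (b 0) → ¬ G.Adj v (b 1) → ¬ G.Adj v (b 2) → ¬ G.Adj v (b 3) → ¬ G.Adj v (b 4) → G.Adj v (b 5) → G.Adj v (c 0) → G.Adj v (c 1) → G.Adj v (c 2) → G.Adj v (c 3) → G.Adj v (c 4) → ¬ G.Adj v (c 5) → False :=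
    fun x0 x1 x2 x3 x4 x5 y0 y1 y2 y3 y4 y5 z0 z1 z2 z3 z4 z5 => nA (WA_of_pos 9 (all6 x0 x1 x2 x3 x4 x5)
      (all6 (iff_of_false y0 (by decide)) (iff_of_false y1 (by decide)) (iff_of_false y2 (by decide)) (iff_of_false y3 (by decide)) (iff_of_false y4 (by decide)) (iff_of_true y5 (by decide)))
      (all6 (iff_of_true z0 (by decide)) (iff_of_true z1 (by decide)) (iff_of_true z2 (by decide)) (iff_of_true z3 (by decide)) (iff_of_true z4 (by decide)) (iff_of_false z5 (by decide))))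
  have k10 : ¬ G.Adj v (a 0) → ¬ G.Adj v (a 1) → ¬ G.Adj v (a 2) → ¬ G.Adj v (a 3) → ¬ G.Adj v (a 4) → ¬ G.Adj v (a 5) → ¬ G.Adj v (b 0) → ¬ G.Adj v (b 1) → ¬ G.Adj v (b 2) → ¬ G.Adj v (b 3) → ¬ G.Adj v (b 4) → ¬ G.Adj v (b 5) → G.Adj v (c 0) → G.Adj v (c 1) → G.Adj v (c 2) → G.Adj v (c 3) → G.Adj v (c 4) → ¬ G.Adj v (c 5) → False :=
    fun x0 x1 x2 x3 x4 x5 y0 y1 y2 y3 y4 y5 z0 z1 z2 z3 z4 z5 => nA (WA_of_pos 10 (all6 x0 x1 x2 x3 x4 x5)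
      (all6 (iff_of_false y0 (by decide)) (iff_of_false y1 (by decide)) (iff_of_false y2 (by decide)) (iff_of_false y3 (by decide)) (iff_of_false y4 (by decide)) (iff_of_false y5 (by decide)))
      (all6 (iff_of_true z0 (by decide)) (iff_of_true z1 (by decide)) (iff_of_true z2 (by decide)) (iff_of_true z3 (by decide)) (iff_of_true z4 (by decide)) (iff_of_false z5 (by decide))))
  have k11 : ¬ G.Adj v (a 0) → ¬ G.Adj v (a 1) → ¬ G.Adj v (a 2) → ¬ G.Adj v (a 3) → ¬ G.Adj v (a 4) → ¬ G.Adj v (a 5) → ¬ G.Adj v (b 0) → ¬ G.Adj v (b 1) → ¬ G.Adj v (b 2) → ¬ G.Adj v (b 3) → ¬ G.Adj v (b 4) → ¬ G.Adj v (b 5) → G.Adj v (c 0) → G.Adj v (c 1) → G.Adj v (c 2) → G.Adj v (c 3) → G.Adj v (c 4) → G.Adj v (c 5) → False :=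
    fun x0 x1 x2 x3 x4 x5 y0 y1 y2 y3 y4 y5 z0 z1 z2 z3 z4 z5 => nA (WA_of_pos 11 (all6 x0 x1 x2 x3 x4 x5)
      (all6 (iff_of_false y0 (by decide)) (iff_of_false y1 (by decide)) (iff_of_false y2 (by decide)) (iff_of_false y3 (by decide)) (iff_of_false y4 (by decide)) (iff_of_false y5 (by decide)))
      (all6 (iff_of_true z0 (by decide)) (iff_of_true z1 (by decide)) (iff_of_true z2 (by decide)) (iff_of_true z3 (by decide)) (iff_of_true z4 (by decide)) (iff_of_true z5 (by decide))))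
  have k12 : ¬ G.Adj v (b 0) → ¬ G.Adj v (b 1) → ¬ G.Adj v (b 2) → ¬ G.Adj v (b 3) → ¬ G.Adj v (b 4) → ¬ G.Adj v (b 5) → ¬ G.Adj v (c 0) → G.Adj v (c 1) → G.Adj v (c 2) → G.Adj v (c 3) → G.Adj v (c 4) → G.Adj v (c 5) → ¬ G.Adj v (a 0) → ¬ G.Adj v (a 1) → ¬ G.Adj v (a 2) → ¬ G.Adj v (a 3) → ¬ G.Adj v (a 4) → ¬ G.Adj v (a 5) → False :=
    fun x0 x1 x2 x3 x4 x5 y0 y1 y2 y3 y4 y5 z0 z1 z2 z3 z4 z5 => nB (WA_of_pos 0 (all6 x0 x1 x2 x3 x4 x5)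
      (all6 (iff_of_false y0 (by decide)) (iff_of_true y1 (by decide)) (iff_of_true y2 (by decide)) (iff_of_true y3 (by decide)) (iff_of_true y4 (by decide)) (iff_of_true y5 (by decide)))
      (all6 (iff_of_false z0 (by decide)) (iff_of_false z1 (by decide)) (iff_of_false z2 (by decide)) (iff_of_false z3 (by decide)) (iff_of_false z4 (by decide)) (iff_of_false z5 (by decide))))
  have k13 : ¬ G.Adj v (b 0) → ¬ G.Adj v (b 1) → ¬ G.Adj v (b 2) → ¬ G.Adj v (b 3) → ¬ G.Adj v (b 4) → ¬ G.Adj v (b 5) → ¬ G.Adj v (c 0) → G.Adj v (c 1) → G.Adj v (c 2) → G.Adj v (c 3) → G.Adj v (c 4) → G.Adj v (c 5) → G.Adj v (a 0) → ¬ G.Adj v (a 1) → ¬ G.Adj v (a 2) → ¬ G.Adj v (a 3) → ¬ G.Adj v (a 4) → ¬ G.Adj v (a 5) → False :=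
    fun x0 x1 x2 x3 x4 x5 y0 y1 y2 y3 y4 y5 z0 z1 z2 z3 z4 z5 => nB (WA_of_pos 1 (all6 x0 x1 x2 x3 x4 x5)
      (all6 (iff_of_false y0 (by decide)) (iff_of_true y1 (by decide)) (iff_of_true y2 (by decide)) (iff_of_true y3 (by decide)) (iff_of_true y4 (by decide)) (iff_of_true y5 (by decide)))
      (all6 (iff_of_true z0 (by decide)) (iff_of_false z1 (by decide)) (iff_of_false z2 (by decide)) (iff_of_false z3 (by decide)) (iff_of_false z4 (by decide)) (iff_of_false z5 (by decide))))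
  have k14 : ¬ G.Adj v (b 0) → ¬ G.Adj v (b 1) → ¬ G.Adj v (b 2) → ¬ G.Adj v (b 3) → ¬ G.Adj v (b 4) → ¬ G.Adj v (b 5) → ¬ G.Adj v (c 0) → ¬ G.Adj v (c 1) → G.Adj v (c 2) → G.Adj v (c 3) → G.Adj v (c 4) → G.Adj v (c 5) → G.Adj v (a 0) → ¬ G.Adj v (a 1) → ¬ G.Adj v (a 2) → ¬ G.Adj v (a 3) → ¬ G.Adj v (a 4) → ¬ G.Adj v (a 5) → False :=
    fun x0 x1 x2 x3 x4 x5 y0 y1 y2 y3 y4 y5 z0 z1 z2 z3 z4 z5 => nB (WA_of_pos 2 (all6 x0 x1 x2 x3 x4 x5)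
      (all6 (iff_of_false y0 (by decide)) (iff_of_false y1 (by decide)) (iff_of_true y2 (by decide)) (iff_of_true y3 (by decide)) (iff_of_true y4 (by decide)) (iff_of_true y5 (by decide)))
      (all6 (iff_of_true z0 (by decide)) (iff_of_false z1 (by decide)) (iff_of_false z2 (by decide)) (iff_of_false z3 (by decide)) (iff_of_false z4 (by decide)) (iff_of_false z5 (by decide))))
  have k15 : ¬ G.Adj v (b 0) → ¬ G.Adj v (b 1) → ¬ G.Adj v (b 2) → ¬ G.Adj v (b 3) → ¬ G.Adj v (b 4) → ¬ G.Adj v (b 5) → ¬ G.Adj v (c 0) → ¬ G.Adj v (c 1) → G.Adj v (c 2) → G.Adj v (c 3) → G.Adj v (c 4) → G.Adj v (c 5) → G.Adj v (a 0) → G.Adj v (a 1) → ¬ G.Adj v (a 2) → ¬ G.Adj v (a 3) → ¬ G.Adj v (a 4) → ¬ G.Adj v (a 5) → False :=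
    fun x0 x1 x2 x3 x4 x5 y0 y1 y2 y3 y4 y5 z0 z1 z2 z3 z4 z5 => nB (WA_of_pos 3 (all6 x0 x1 x2 x3 x4 x5)
      (all6 (iff_of_false y0 (by decide)) (iff_of_false y1 (by decide)) (iff_of_true y2 (by decide)) (iff_of_true y3 (by decide)) (iff_of_true y4 (by decide)) (iff_of_true y5 (by decide)))
      (all6 (iff_of_true z0 (by decide)) (iff_of_true z1 (by decide)) (iff_of_false z2 (by decide)) (iff_of_false z3 (by decide)) (iff_of_false z4 (by decide)) (iff_of_false z5 (by decide))))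
  have k16 : ¬ G.Adj v (b 0) → ¬ G.Adj v (b 1) → ¬ G.Adj v (b 2) → ¬ G.Adj v (b 3) → ¬ G.Adj v (b 4) → ¬ G.Adj v (b 5) → ¬ G.Adj v (c 0) → ¬ G.Adj v (c 1) → ¬ G.Adj v (c 2) → G.Adj v (c 3) → G.Adj v (c 4) → G.Adj v (c 5) → G.Adj v (a 0) → G.Adj v (a 1) → ¬ G.Adj v (a 2) → ¬ G.Adj v (a 3) → ¬ G.Adj v (a 4) → ¬ G.Adj v (a 5) → False :=
    fun x0 x1 x2 x3 x4 x5 y0 y1 y2 y3 y4 y5 z0 z1 z2 z3 z4 z5 => nB (WA_of_pos 4 (all6 x0 x1 x2 x3 x4 x5)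
      (all6 (iff_of_false y0 (by decide)) (iff_of_false y1 (by decide)) (iff_of_false y2 (by decide)) (iff_of_true y3 (by decide)) (iff_of_true y4 (by decide)) (iff_of_true y5 (by decide)))
      (all6 (iff_of_true z0 (by decide)) (iff_of_true z1 (by decide)) (iff_of_false z2 (by decide)) (iff_of_false z3 (by decide)) (iff_of_false z4 (by decide)) (iff_of_false z5 (by decide))))
  have k17 : ¬ G.Adj v (b 0) → ¬ G.Adj v (b 1) → ¬ G.Adj v (b 2) → ¬ G.Adj v (b 3) → ¬ G.Adj v (b 4) → ¬ G.Adj v (b 5) → ¬ G.Adj v (c 0) → ¬ G.Adj v (c 1) → ¬ G.Adj v (c 2) → G.Adj v (c 3) → G.Adj v (c 4) → G.Adj v (c 5) → G.Adj v (a 0) → G.Adj v (a 1) → G.Adj v (a 2) → ¬ G.Adj v (a 3) → ¬ G.Adj v (a 4) → ¬ G.Adj v (a 5) → False :=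
    fun x0 x1 x2 x3 x4 x5 y0 y1 y2 y3 y4 y5 z0 z1 z2 z3 z4 z5 => nB (WA_of_pos 5 (all6 x0 x1 x2 x3 x4 x5)
      (all6 (iff_of_false y0 (by decide)) (iff_of_false y1 (by decide)) (iff_of_false y2 (by decide)) (iff_of_true y3 (by decide)) (iff_of_true y4 (by decide)) (iff_of_true y5 (by decide)))
      (all6 (iff_of_true z0 (by decide)) (iff_of_true z1 (by decide)) (iff_of_true z2 (by decide)) (iff_of_false z3 (by decide)) (iff_of_false z4 (by decide)) (iff_of_false z5 (by decide))))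
  have k18 : ¬ G.Adj v (b 0) → ¬ G.Adj v (b 1) → ¬ G.Adj v (b 2) → ¬ G.Adj v (b 3) → ¬ G.Adj v (b 4) → ¬ G.Adj v (b 5) → ¬ G.Adj v (c 0) → ¬ G.Adj v (c 1) → ¬ G.Adj v (c 2) → ¬ G.Adj v (c 3) → G.Adj v (c 4) → G.Adj v (c 5) → G.Adj v (a 0) → G.Adj v (a 1) → G.Adj v (a 2) → ¬ G.Adj v (a 3) → ¬ G.Adj v (a 4) → ¬ G.Adj v (a 5) → False :=
    fun x0 x1 x2 x3 x4 x5 y0 y1 y2 y3 y4 y5 z0 z1 z2 z3 z4 z5 => nB (WA_of_pos 6 (all6 x0 x1 x2 x3 x4 x5)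
      (all6 (iff_of_false y0 (by decide)) (iff_of_false y1 (by decide)) (iff_of_false y2 (by decide)) (iff_of_false y3 (by decide)) (iff_of_true y4 (by decide)) (iff_of_true y5 (by decide)))
      (all6 (iff_of_true z0 (by decide)) (iff_of_true z1 (by decide)) (iff_of_true z2 (by decide)) (iff_of_false z3 (by decide)) (iff_of_false z4 (by decide)) (iff_of_false z5 (by decide))))
  have k19 : ¬ G.Adj v (b 0) → ¬ G.Adj v (b 1) → ¬ G.Adj v (b 2) → ¬ G.Adj v (b 3) → ¬ G.Adj v (b 4) → ¬ G.Adj v (b 5) → ¬ G.Adj v (c 0) → ¬ G.Adj v (c 1) → ¬ G.Adj v (c 2) → ¬ G.Adj v (c 3) → G.Adj v (c 4) → G.Adj v (c 5) → G.Adj v (a 0) → G.Adj v (a 1) → G.Adj v (a 2) → G.Adj v (a 3) → ¬ G.Adj v (a 4) → ¬ G.Adj v (a 5) → False :=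
    fun x0 x1 x2 x3 x4 x5 y0 y1 y2 y3 y4 y5 z0 z1 z2 z3 z4 z5 => nB (WA_of_pos 7 (all6 x0 x1 x2 x3 x4 x5)
      (all6 (iff_of_false y0 (by decide)) (iff_of_false y1 (by decide)) (iff_of_false y2 (by decide)) (iff_of_false y3 (by decide)) (iff_of_true y4 (by decide)) (iff_of_true y5 (by decide)))
      (all6 (iff_of_true z0 (by decide)) (iff_of_true z1 (by decide)) (iff_of_true z2 (by decide)) (iff_of_true z3 (by decide)) (iff_of_false z4 (by decide)) (iff_of_false z5 (by decide))))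
  have k20 : ¬ G.Adj v (b 0) → ¬ G.Adj v (b 1) → ¬ G.Adj v (b 2) → ¬ G.Adj v (b 3) → ¬ G.Adj v (b 4) → ¬ G.Adj v (b 5) → ¬ G.Adj v (c 0) → ¬ G.Adj v (c 1) → ¬ G.Adj v (c 2) → ¬ G.Adj v (c 3) → ¬ G.Adj v (c 4) → G.Adj v (c 5) → G.Adj v (a 0) → G.Adj v (a 1) → G.Adj v (a 2) → G.Adj v (a 3) → ¬ G.Adj v (a 4) → ¬ G.Adj v (a 5) → False :=
    fun x0 x1 x2 x3 x4 x5 y0 y1 y2 y3 y4 y5 z0 z1 z2 z3 z4 z5 => nB (WA_of_pos 8 (all6 x0 x1 x2 x3 x4 x5)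
      (all6 (iff_of_false y0 (by decide)) (iff_of_false y1 (by decide)) (iff_of_false y2 (by decide)) (iff_of_false y3 (by decide)) (iff_of_false y4 (by decide)) (iff_of_true y5 (by decide)))
      (all6 (iff_of_true z0 (by decide)) (iff_of_true z1 (by decide)) (iff_of_true z2 (by decide)) (iff_of_true z3 (by decide)) (iff_of_false z4 (by decide)) (iff_of_false z5 (by decide))))
  have k21 : ¬ G.Adj v (b 0) → ¬ G.Adj v (b 1) → ¬ G.Adj v (b 2) → ¬ G.Adj v (b 3) → ¬ G.Adj v (b 4) → ¬ G.Adj v (b 5) → ¬ G.Adj v (c 0) → ¬ G.Adj v (c 1) → ¬ G.Adj v (c 2) → ¬ G.Adj v (c 3) → ¬ G.Adj v (c 4) → G.Adj v (c 5) → G.Adj v (a 0) → G.Adj v (a 1) → G.Adj v (a 2) → G.Adj v (a 3) → G.Adj v (a 4) → ¬ G.Adj v (a 5) → False :=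
    fun x0 x1 x2 x3 x4 x5 y0 y1 y2 y3 y4 y5 z0 z1 z2 z3 z4 z5 => nB (WA_of_pos 9 (all6 x0 x1 x2 x3 x4 x5)
      (all6 (iff_of_false y0 (by decide)) (iff_of_false y1 (by decide)) (iff_of_false y2 (by decide)) (iff_of_false y3 (by decide)) (iff_of_false y4 (by decide)) (iff_of_true y5 (by decide)))
      (all6 (iff_of_true z0 (by decide)) (iff_of_true z1 (by decide)) (iff_of_true z2 (by decide)) (iff_of_true z3 (by decide)) (iff_of_true z4 (by decide)) (iff_of_false z5 (by decide))))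
  have k22 : ¬ G.Adj v (b 0) → ¬ G.Adj v (b 1) → ¬ G.Adj v (b 2) → ¬ G.Adj v (b 3) → ¬ G.Adj v (b 4) → ¬ G.Adj v (b 5) → ¬ G.Adj v (c 0) → ¬ G.Adj v (c 1) → ¬ G.Adj v (c 2) → ¬ G.Adj v (c 3) → ¬ G.Adj v (c 4) → ¬ G.Adj v (c 5) → G.Adj v (a 0) → G.Adj v (a 1) → G.Adj v (a 2) → G.Adj v (a 3) → G.Adj v (a 4) → ¬ G.Adj v (a 5) → False :=
    fun x0 x1 x2 x3 x4 x5 y0 y1 y2 y3 y4 y5 z0 z1 z2 z3 z4 z5 => nB (WA_of_pos 10 (all6 x0 x1 x2 x3 x4 x5)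
      (all6 (iff_of_false y0 (by decide)) (iff_of_false y1 (by decide)) (iff_of_false y2 (by decide)) (iff_of_false y3 (by decide)) (iff_of_false y4 (by decide)) (iff_of_false y5 (by decide)))
      (all6 (iff_of_true z0 (by decide)) (iff_of_true z1 (by decide)) (iff_of_true z2 (by decide)) (iff_of_true z3 (by decide)) (iff_of_true z4 (by decide)) (iff_of_false z5 (by decide))))
  have k23 : ¬ G.Adj v (b 0) → ¬ G.Adj v (b 1) → ¬ G.Adj v (b 2) → ¬ G.Adj v (b 3) → ¬ G.Adj v (b 4) → ¬ G.Adj v (b 5) → ¬ G.Adj v (c 0) → ¬ G.Adj v (c 1) → ¬ G.Adj v (c 2) → ¬ G.Adj v (c 3) → ¬ G.Adj v (c 4) → ¬ G.Adj v (c 5) → G.Adj v (a 0) → G.Adj v (a 1) → G.Adj v (a 2) → G.Adj v (a 3) → G.Adj v (a 4) → G.Adj v (a 5) → False :=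
    fun x0 x1 x2 x3 x4 x5 y0 y1 y2 y3 y4 y5 z0 z1 z2 z3 z4 z5 => nB (WA_of_pos 11 (all6 x0 x1 x2 x3 x4 x5)
      (all6 (iff_of_false y0 (by decide)) (iff_of_false y1 (by decide)) (iff_of_false y2 (by decide)) (iff_of_false y3 (by decide)) (iff_of_false y4 (by decide)) (iff_of_false y5 (by decide)))
      (all6 (iff_of_true z0 (by decide)) (iff_of_true z1 (by decide)) (iff_of_true z2 (by decide)) (iff_of_true z3 (by decide)) (iff_of_true z4 (by decide)) (iff_of_true z5 (by decide))))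
  have k24 : ¬ G.Adj v (c 0) → ¬ G.Adj v (c 1) → ¬ G.Adj v (c 2) → ¬ G.Adj v (c 3) → ¬ G.Adj v (c 4) → ¬ G.Adj v (c 5) → ¬ G.Adj v (a 0) → G.Adj v (a 1) → G.Adj v (a 2) → G.Adj v (a 3) → G.Adj v (a 4) → G.Adj v (a 5) → ¬ G.Adj v (b 0) → ¬ G.Adj v (b 1) → ¬ G.Adj v (b 2) → ¬ G.Adj v (b 3) → ¬ G.Adj v (b 4) → ¬ G.Adj v (b 5) → False :=
    fun x0 x1 x2 x3 x4 x5 y0 y1 y2 y3 y4 y5 z0 z1 z2 z3 z4 z5 => nC (WA_of_pos 0 (all6 x0 x1 x2 x3 x4 x5)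
      (all6 (iff_of_false y0 (by decide)) (iff_of_true y1 (by decide)) (iff_of_true y2 (by decide)) (iff_of_true y3 (by decide)) (iff_of_true y4 (by decide)) (iff_of_true y5 (by decide)))
      (all6 (iff_of_false z0 (by decide)) (iff_of_false z1 (by decide)) (iff_of_false z2 (by decide)) (iff_of_false z3 (by decide)) (iff_of_false z4 (by decide)) (iff_of_false z5 (by decide))))
  have k25 : ¬ G.Adj v (c 0) → ¬ G.Adj v (c 1) → ¬ G.Adj v (c 2) → ¬ G.Adj v (c 3) → ¬ G.Adj v (c 4) → ¬ G.Adj v (c 5) → ¬ G.Adj v (a 0) → G.Adj v (a 1) → G.Adj v (a 2) → G.Adj v (a 3) → G.Adj v (a 4) → G.Adj v (a 5) → G.Adj v (b 0) → ¬ G.Adj v (b 1) → ¬ G.Adj v (b 2) → ¬ G.Adj v (b 3) → ¬ G.Adj v (b 4) → ¬ G.Adj v (b 5) → False :=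
    fun x0 x1 x2 x3 x4 x5 y0 y1 y2 y3 y4 y5 z0 z1 z2 z3 z4 z5 => nC (WA_of_pos 1 (all6 x0 x1 x2 x3 x4 x5)
      (all6 (iff_of_false y0 (by decide)) (iff_of_true y1 (by decide)) (iff_of_true y2 (by decide)) (iff_of_true y3 (by decide)) (iff_of_true y4 (by decide)) (iff_of_true y5 (by decide)))
      (all6 (iff_of_true z0 (by decide)) (iff_of_false z1 (by decide)) (iff_of_false z2 (by decide)) (iff_of_false z3 (by decide)) (iff_of_false z4 (by decide)) (iff_of_false z5 (by decide))))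
  have k26 : ¬ G.Adj v (c 0) → ¬ G.Adj v (c 1) → ¬ G.Adj v (c 2) → ¬ G.Adj v (c 3) → ¬ G.Adj v (c 4) → ¬ G.Adj v (c 5) → ¬ G.Adj v (a 0) → ¬ G.Adj v (a 1) → G.Adj v (a 2) → G.Adj v (a 3) → G.Adj v (a 4) → G.Adj v (a 5) → G.Adj v (b 0) → ¬ G.Adj v (b 1) → ¬ G.Adj v (b 2) → ¬ G.Adj v (b 3) → ¬ G.Adj v (b 4) → ¬ G.Adj v (b 5) → False :=
    fun x0 x1 x2 x3 x4 x5 y0 y1 y2 y3 y4 y5 z0 z1 z2 z3 z4 z5 => nC (WA_of_pos 2 (all6 x0 x1 x2 x3 x4 x5)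
      (all6 (iff_of_false y0 (by decide)) (iff_of_false y1 (by decide)) (iff_of_true y2 (by decide)) (iff_of_true y3 (by decide)) (iff_of_true y4 (by decide)) (iff_of_true y5 (by decide)))
      (all6 (iff_of_true z0 (by decide)) (iff_of_false z1 (by decide)) (iff_of_false z2 (by decide)) (iff_of_false z3 (by decide)) (iff_of_false z4 (by decide)) (iff_of_false z5 (by decide))))
  have k27 : ¬ G.Adj v (c 0) → ¬ G.Adj v (c 1) → ¬ G.Adj v (c 2) → ¬ G.Adj v (c 3) → ¬ G.Adj v (c 4) → ¬ G.Adj v (c 5) → ¬ G.Adj v (a 0) → ¬ G.Adj v (a 1) → G.Adj v (a 2) → G.Adj v (a 3) → G.Adj v (a 4) → G.Adj v (a 5) → G.Adj v (b 0) → G.Adj v (b 1) → ¬ G.Adj v (b 2) → ¬ G.Adj v (b 3) → ¬ G.Adj v (b 4) → ¬ G.Adj v (b 5) → False :=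
    fun x0 x1 x2 x3 x4 x5 y0 y1 y2 y3 y4 y5 z0 z1 z2 z3 z4 z5 => nC (WA_of_pos 3 (all6 x0 x1 x2 x3 x4 x5)
      (all6 (iff_of_false y0 (by decide)) (iff_of_false y1 (by decide)) (iff_of_true y2 (by decide)) (iff_of_true y3 (by decide)) (iff_of_true y4 (by decide)) (iff_of_true y5 (by decide)))
      (all6 (iff_of_true z0 (by decide)) (iff_of_true z1 (by decide)) (iff_of_false z2 (by decide)) (iff_of_false z3 (by decide)) (iff_of_false z4 (by decide)) (iff_of_false z5 (by decide))))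
  have k28 : ¬ G.Adj v (c 0) → ¬ G.Adj v (c 1) → ¬ G.Adj v (c 2) → ¬ G.Adj v (c 3) → ¬ G.Adj v (c 4) → ¬ G.Adj v (c 5) → ¬ G.Adj v (a 0) → ¬ G.Adj v (a 1) → ¬ G.Adj v (a 2) → G.Adj v (a 3) → G.Adj v (a 4) → G.Adj v (a 5) → G.Adj v (b 0) → G.Adj v (b 1) → ¬ G.Adj v (b 2) → ¬ G.Adj v (b 3) → ¬ G.Adj v (b 4) → ¬ G.Adj v (b 5) → False :=
    fun x0 x1 x2 x3 x4 x5 y0 y1 y2 y3 y4 y5 z0 z1 z2 z3 z4 z5 => nC (WA_of_pos 4 (all6 x0 x1 x2 x3 x4 x5)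
      (all6 (iff_of_false y0 (by decide)) (iff_of_false y1 (by decide)) (iff_of_false y2 (by decide)) (iff_of_true y3 (by decide)) (iff_of_true y4 (by decide)) (iff_of_true y5 (by decide)))
      (all6 (iff_of_true z0 (by decide)) (iff_of_true z1 (by decide)) (iff_of_false z2 (by decide)) (iff_of_false z3 (by decide)) (iff_of_false z4 (by decide)) (iff_of_false z5 (by decide))))
  have k29 : ¬ G.Adj v (c 0) → ¬ G.Adj v (c 1) → ¬ G.Adj v (c 2) → ¬ G.Adj v (c 3) → ¬ G.Adj v (c 4) → ¬ G.Adj v (c 5) → ¬ G.Adj v (a 0) → ¬ G.Adj v (a 1) → ¬ G.Adj v (a 2) → G.Adj v (a 3) → G.Adj v (a 4) → G.Adj v (a 5) → G.Adj v (b 0) → G.Adj v (b 1) → G.Adj v (b 2) → ¬ G.Adj v (b 3) → ¬ G.Adj v (b 4) → ¬ G.Adj v (b 5) → False :=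
    fun x0 x1 x2 x3 x4 x5 y0 y1 y2 y3 y4 y5 z0 z1 z2 z3 z4 z5 => nC (WA_of_pos 5 (all6 x0 x1 x2 x3 x4 x5)
      (all6 (iff_of_false y0 (by decide)) (iff_of_false y1 (by decide)) (iff_of_false y2 (by decide)) (iff_of_true y3 (by decide)) (iff_of_true y4 (by decide)) (iff_of_true y5 (by decide)))
      (all6 (iff_of_true z0 (by decide)) (iff_of_true z1 (by decide)) (iff_of_true z2 (by decide)) (iff_of_false z3 (by decide)) (iff_of_false z4 (by decide)) (iff_of_false z5 (by decide))))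
  have k30 : ¬ G.Adj v (c 0) → ¬ G.Adj v (c 1) → ¬ G.Adj v (c 2) → ¬ G.Adj v (c 3) → ¬ G.Adj v (c 4) → ¬ G.Adj v (c 5) → ¬ G.Adj v (a 0) → ¬ G.Adj v (a 1) → ¬ G.Adj v (a 2) → ¬ G.Adj v (a 3) → G.Adj v (a 4) → G.Adj v (a 5) → G.Adj v (b 0) → G.Adj v (b 1) → G.Adj v (b 2) → ¬ G.Adj v (b 3) → ¬ G.Adj v (b 4) → ¬ G.Adj v (b 5) → False :=
    fun x0 x1 x2 x3 x4 x5 y0 y1 y2 y3 y4 y5 z0 z1 z2 z3 z4 z5 => nC (WA_of_pos 6 (all6 x0 x1 x2 x3 x4 x5)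
      (all6 (iff_of_false y0 (by decide)) (iff_of_false y1 (by decide)) (iff_of_false y2 (by decide)) (iff_of_false y3 (by decide)) (iff_of_true y4 (by decide)) (iff_of_true y5 (by decide)))
      (all6 (iff_of_true z0 (by decide)) (iff_of_true z1 (by decide)) (iff_of_true z2 (by decide)) (iff_of_false z3 (by decide)) (iff_of_false z4 (by decide)) (iff_of_false z5 (by decide))))
  have k31 : ¬ G.Adj v (c 0) → ¬ G.Adj v (c 1) → ¬ G.Adj v (c 2) → ¬ G.Adj v (c 3) → ¬ G.Adj v (c 4) → ¬ G.Adj v (c 5) → ¬ G.Adj v (a 0) → ¬ G.Adj v (a 1) → ¬ G.Adj v (a 2) → ¬ G.Adj v (a 3) → G.Adj v (a 4) → G.Adj v (a 5) → G.Adj v (b 0) → G.Adj v (b 1) → G.Adj v (b 2) → G.Adj v (b 3) → ¬ G.Adj v (b 4) → ¬ G.Adj v (b 5) → False :=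
    fun x0 x1 x2 x3 x4 x5 y0 y1 y2 y3 y4 y5 z0 z1 z2 z3 z4 z5 => nC (WA_of_pos 7 (all6 x0 x1 x2 x3 x4 x5)
      (all6 (iff_of_false y0 (by decide)) (iff_of_false y1 (by decide)) (iff_of_false y2 (by decide)) (iff_of_false y3 (by decide)) (iff_of_true y4 (by decide)) (iff_of_true y5 (by decide)))
      (all6 (iff_of_true z0 (by decide)) (iff_of_true z1 (by decide)) (iff_of_true z2 (by decide)) (iff_of_true z3 (by decide)) (iff_of_false z4 (by decide)) (iff_of_false z5 (by decide))))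
  have k32 : ¬ G.Adj v (c 0) → ¬ G.Adj v (c 1) → ¬ G.Adj v (c 2) → ¬ G.Adj v (c 3) → ¬ G.Adj v (c 4) → ¬ G.Adj v (c 5) → ¬ G.Adj v (a 0) → ¬ G.Adj v (a 1) → ¬ G.Adj v (a 2) → ¬ G.Adj v (a 3) → ¬ G.Adj v (a 4) → G.Adj v (a 5) → G.Adj v (b 0) → G.Adj v (b 1) → G.Adj v (b 2) → G.Adj v (b 3) → ¬ G.Adj v (b 4) → ¬ G.Adj v (b 5) → False :=
    fun x0 x1 x2 x3 x4 x5 y0 y1 y2 y3 y4 y5 z0 z1 z2 z3 z4 z5 => nC (WA_of_pos 8 (all6 x0 x1 x2 x3 x4 x5)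
      (all6 (iff_of_false y0 (by decide)) (iff_of_false y1 (by decide)) (iff_of_false y2 (by decide)) (iff_of_false y3 (by decide)) (iff_of_false y4 (by decide)) (iff_of_true y5 (by decide)))
      (all6 (iff_of_true z0 (by decide)) (iff_of_true z1 (by decide)) (iff_of_true z2 (by decide)) (iff_of_true z3 (by decide)) (iff_of_false z4 (by decide)) (iff_of_false z5 (by decide))))
  have k33 : ¬ G.Adj v (c 0) → ¬ G.Adj v (c 1) → ¬ G.Adj v (c 2) → ¬ G.Adj v (c 3) → ¬ G.Adj v (c 4) → ¬ G.Adj v (c 5) → ¬ G.Adj v (a 0) → ¬ G.Adj v (a 1) → ¬ G.Adj v (a 2) → ¬ G.Adj v (a 3) → ¬ G.Adj v (a 4) → G.Adj v (a 5) → G.Adj v (b 0) → G.Adj v (b 1) → G.Adj v (b 2) → G.Adj v (b 3) → G.Adj v (b 4) → ¬ G.Adj v (b 5) → False :=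
    fun x0 x1 x2 x3 x4 x5 y0 y1 y2 y3 y4 y5 z0 z1 z2 z3 z4 z5 => nC (WA_of_pos 9 (all6 x0 x1 x2 x3 x4 x5)
      (all6 (iff_of_false y0 (by decide)) (iff_of_false y1 (by decide)) (iff_of_false y2 (by decide)) (iff_of_false y3 (by decide)) (iff_of_false y4 (by decide)) (iff_of_true y5 (by decide)))
      (all6 (iff_of_true z0 (by decide)) (iff_of_true z1 (by decide)) (iff_of_true z2 (by decide)) (iff_of_true z3 (by decide)) (iff_of_true z4 (by decide)) (iff_of_false z5 (by decide))))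
  have k34 : ¬ G.Adj v (c 0) → ¬ G.Adj v (c 1) → ¬ G.Adj v (c 2) → ¬ G.Adj v (c 3) → ¬ G.Adj v (c 4) → ¬ G.Adj v (c 5) → ¬ G.Adj v (a 0) → ¬ G.Adj v (a 1) → ¬ G.Adj v (a 2) → ¬ G.Adj v (a 3) → ¬ G.Adj v (a 4) → ¬ G.Adj v (a 5) → G.Adj v (b 0) → G.Adj v (b 1) → G.Adj v (b 2) → G.Adj v (b 3) → G.Adj v (b 4) → ¬ G.Adj v (b 5) → False :=
    fun x0 x1 x2 x3 x4 x5 y0 y1 y2 y3 y4 y5 z0 z1 z2 z3 z4 z5 => nC (WA_of_pos 10 (all6 x0 x1 x2 x3 x4 x5)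
      (all6 (iff_of_false y0 (by decide)) (iff_of_false y1 (by decide)) (iff_of_false y2 (by decide)) (iff_of_false y3 (by decide)) (iff_of_false y4 (by decide)) (iff_of_false y5 (by decide)))
      (all6 (iff_of_true z0 (by decide)) (iff_of_true z1 (by decide)) (iff_of_true z2 (by decide)) (iff_of_true z3 (by decide)) (iff_of_true z4 (by decide)) (iff_of_false z5 (by decide))))
  have k35 : ¬ G.Adj v (c 0) → ¬ G.Adj v (c 1) → ¬ G.Adj v (c 2) → ¬ G.Adj v (c 3) → ¬ G.Adj v (c 4) → ¬ G.Adj v (c 5) → ¬ G.Adj v (a 0) → ¬ G.Adj v (a 1) → ¬ G.Adj v (a 2) → ¬ G.Adj v (a 3) → ¬ G.Adj v (a 4) → ¬ G.Adj v (a 5) → G.Adj v (b 0) → G.Adj v (b 1) → G.Adj v (b 2) → G.Adj v (b 3) → G.Adj v (b 4) → G.Adj v (b 5) → False :=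
    fun x0 x1 x2 x3 x4 x5 y0 y1 y2 y3 y4 y5 z0 z1 z2 z3 z4 z5 => nC (WA_of_pos 11 (all6 x0 x1 x2 x3 x4 x5)
      (all6 (iff_of_false y0 (by decide)) (iff_of_false y1 (by decide)) (iff_of_false y2 (by decide)) (iff_of_false y3 (by decide)) (iff_of_false y4 (by decide)) (iff_of_false y5 (by decide)))
      (all6 (iff_of_true z0 (by decide)) (iff_of_true z1 (by decide)) (iff_of_true z2 (by decide)) (iff_of_true z3 (by decide)) (iff_of_true z4 (by decide)) (iff_of_true z5 (by decide))))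
  have t1 : (a 0) ≠ (a 1) := fun hc => eqa hc fa0b0 fa1b0
  have t2 : (a 0) ≠ (a 4) := fun hc => eqa hc fa0b0 fa4b0
  have t3 : (a 0) ≠ (c 4) := fun hc => eqa hc fc0a0.symm (ns fc0c4)
  have t4 : (a 0) ≠ (a 5) := fun hc => eqa hc fa0b0 fa5b0
  have t5 : (a 0) ≠ (c 5) := fun hc => eqa hc fc0a0.symm (ns fc0c5)
  have t6 : (b 0) ≠ (a 1) := fun hc => eqa hc fa0b0.symm (ns fa0a1)
  have t7 : (b 0) ≠ (b 1) := fun hc => eqa hc fb0c0 fb1c0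
  have t8 : (b 0) ≠ (a 2) := fun hc => eqa hc fa0b0.symm (ns fa0a2)
  have t9 : (b 0) ≠ (b 2) := fun hc => eqa hc fb0c0 fb2c0
  have t10 : (b 0) ≠ (a 3) := fun hc => eqa hc fa0b0.symm (ns fa0a3)
  have t11 : (b 0) ≠ (b 3) := fun hc => eqa hc fb0c0 fb3c0
  have t12 : (b 0) ≠ (a 5) := fun hc => eqa hc fa0b0.symm (ns fa0a5)
  have t13 : (c 0) ≠ (c 1) := fun hc => eqa hc fc0a0 fc1a0
  have t14 : (c 0) ≠ (b 4) := fun hc => eqa hc fb0c0.symm (ns fb0b4)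
  have t15 : (c 0) ≠ (b 5) := fun hc => eqa hc fb0c0.symm (ns fb0b5)
  have t16 : (a 1) ≠ (a 2) := fun hc => eqa hc fa1b1 fa2b1
  have t17 : (a 1) ≠ (a 3) := fun hc => eqa hc fa1b1 fa3b1
  have t18 : (b 1) ≠ (b 2) := fun hc => eqa hc fb1c1 fb2c1
  have t19 : (b 1) ≠ (b 3) := fun hc => eqa hc fb1c1 fb3c1
  have t20 : (c 1) ≠ (c 2) := fun hc => eqa hc fc1a1 fc2a1
  have t21 : (c 1) ≠ (c 3) := fun hc => eqa hc fc1a1 fc3a1
  have t22 : (a 2) ≠ (a 3) := fun hc => eqa hc fa2b2 fa3b2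
  have t23 : (b 2) ≠ (b 3) := fun hc => eqa hc fb2c2 fb3c2
  have t24 : (b 2) ≠ (b 4) := fun hc => eqa hc fb2c2 fb4c2
  have t25 : (c 2) ≠ (c 3) := fun hc => eqa hc fc2a2 fc3a2
  have t26 : (a 3) ≠ (a 4) := fun hc => eqa hc fa3b3 fa4b3
  have t27 : (a 3) ≠ (a 5) := fun hc => eqa hc fa3b3 fa5b3
  have t28 : (b 3) ≠ (b 4) := fun hc => eqa hc fb3c3 fb4c3
  have t29 : (b 3) ≠ (b 5) := fun hc => eqa hc fb3c3 fb5c3
  have t30 : (c 3) ≠ (c 4) := fun hc => eqa hc fc3a3 fc4a3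
  have t31 : (c 3) ≠ (c 5) := fun hc => eqa hc fc3a3 fc5a3
  have t32 : (a 4) ≠ (a 5) := fun hc => eqa hc fa4b4 fa5b4
  have t33 : (b 4) ≠ (b 5) := fun hc => eqa hc fb4c4 fb5c4
  have t34 : (c 4) ≠ (c 5) := fun hc => eqa hc fc4a4 fc5a4
  rcases Classical.em (G.Adj (a 0) v) with t35 | t35
  · rcases Classical.em (G.Adj (b 0) v) with t36 | t36
    · have t37 : G.Adj (c 0) v := Classical.byContradiction fun hc => hc (hD (a 0) (b 0) (c 0) v fa0b0 fc0a0.symm t35 fb0c0 t36 (Ne.symm qvc0))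
      have t38 : ¬ G.Adj (b 1) v := fun hc => fb0b1 (hD (a 0) v (b 0) (b 1) t35 fa0b0 fa0b1 t36.symm hc.symm t7)
      have t39 : ¬ G.Adj (b 3) v := fun hc => fb0b3 (hD (a 0) v (b 0) (b 3) t35 fa0b0 fa0b3 t36.symm hc.symm t11)
      have t40 : ¬ G.Adj (a 2) v := fun hc => (ns fa2b0) (hD (c 0) v (b 0) (a 2) t37 fb0c0.symm fc0a2 t36.symm hc.symm t8)
      have t41 : ¬ G.Adj (a 3) v := fun hc => (ns fa3b0) (hD (c 0) v (b 0) (a 3) t37 fb0c0.symm fc0a3 t36.symm hc.symm t10)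
      exact hR (b 1) (b 0) v (a 2) (b 3) (a 3) t36 fa2b3 fa3b3.symm fa2a3 (ns fb0b1) t38 (ns fa2b1) fb1b3 (ns fa3b1) (ns fa2b0) fb0b3 (ns fa3b0) (ns t40) (ns t39) (ns t41) t22
    · have t42 : ¬ G.Adj (c 0) v := fun hc => t36 (hD (a 0) (c 0) (b 0) v fc0a0.symm fa0b0 t35 fb0c0.symm hc (Ne.symm qvb0))
      rcases Classical.em (G.Adj (b 3) v) with t43 | t43
      · have t44 : ¬ G.Adj (b 1) v := fun hc => fb1b3 (hD (a 0) v (b 1) (b 3) t35 fa0b1 fa0b3 hc.symm t43.symm t19)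
        have t45 : ¬ G.Adj (b 4) v := fun hc => fb3b4 (hD (a 0) v (b 3) (b 4) t35 fa0b3 fa0b4 t43.symm hc.symm t28)
        have t46 : ¬ G.Adj (b 5) v := fun hc => fb3b5 (hD (a 0) v (b 3) (b 5) t35 fa0b3 fa0b5 t43.symm hc.symm t29)
        have t47 : ¬ G.Adj (a 1) v := fun hc => fa0a1 (hD (b 3) v (a 0) (a 1) t43 fa0b3.symm fa1b3.symm t35.symm hc.symm t1)
        have t48 : G.Adj (a 4) v := Classical.byContradiction fun hc => hR (b 0) (b 3) v (b 4) (a 4) (b 5) t43 fa4b4.symm fa4b5 fb4b5 fb0b3 t36 fb0b4 (ns fa4b0) fb0b5 fb3b4 (ns fa4b3) fb3b5 (ns t45) (ns hc) (ns t46) t33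
        have t49 : G.Adj (a 5) v := Classical.byContradiction fun hc => hR (b 1) (b 3) v (b 0) (c 0) (a 5) t43 fb0c0 fc0a5 (ns fa5b0) fb1b3 t44 (ns fb0b1) fb1c0 (ns fa5b1) (ns fb0b3) fb3c0 (ns fa5b3) (ns t36) (ns t42) (ns hc) t12
        exact hR (b 0) (a 1) (b 1) (a 4) v (a 5) fa1b1 t48 t49.symm fa4a5 (ns fa1b0) fb0b1 (ns fa4b0) t36 (ns fa5b0) fa1a4 t47 fa1a5 (ns fa4b1) t44 (ns fa5b1) t32
      · rcases Classical.em (G.Adj (a 5) v) with t50 | t50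
        · have t51 : ¬ G.Adj (b 5) v := fun hc => fa0a5 (hD (b 5) v (a 0) (a 5) hc fa0b5.symm fa5b5.symm t35.symm t50.symm t4)
          have t52 : ¬ G.Adj (c 5) v := fun hc => t51 (hD (a 5) (c 5) (b 5) v fc5a5.symm fa5b5 t50 fb5c5.symm hc (Ne.symm qvb5))
          have t53 : ¬ G.Adj (c 1) v := fun hc => hR (c 0) (c 1) v (b 3) (c 5) (b 5) hc fb3c5 fb5c5.symm fb3b5 fc0c1 t42 (ns fb3c0) fc0c5 (ns fb5c0) (ns fb3c1) fc1c5 (ns fb5c1) (ns t43) (ns t52) (ns t51) t29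
          have t54 : ¬ G.Adj (c 2) v := fun hc => hR (c 0) (c 2) v (b 3) (c 5) (b 5) hc fb3c5 fb5c5.symm fb3b5 fc0c2 t42 (ns fb3c0) fc0c5 (ns fb5c0) (ns fb3c2) fc2c5 (ns fb5c2) (ns t43) (ns t52) (ns t51) t29
          have t55 : ¬ G.Adj (b 2) v := fun hc => hR (b 5) (b 2) v (c 0) (b 0) (c 1) hc fb0c0.symm fb0c1 fc0c1 (ns fb2b5) t51 fb5c0 (ns fb0b5) fb5c1 fb2c0 (ns fb0b2) fb2c1 (ns t42) (ns t36) (ns t53) t13
          have t56 : ¬ G.Adj (b 4) v := fun hc => hR (b 5) (b 4) v (b 0) (c 2) (b 2) hc fb0c2 fb2c2.symm fb0b2 (ns fb4b5) t51 (ns fb0b5) fb5c2 (ns fb2b5) (ns fb0b4) fb4c2 (ns fb2b4) (ns t36) (ns t54) (ns t55) t9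
          have t57 : G.Adj (a 1) v := Classical.byContradiction fun hc => hR v (b 0) (c 2) (b 3) (a 1) (b 5) fb0c2 fa1b3.symm fa1b5 fb3b5 (ns t36) (ns t54) (ns t43) (ns hc) (ns t51) fb0b3 (ns fa1b0) fb0b5 (ns fb3c2) fc2a1 (ns fb5c2) t29
          have t58 : ¬ G.Adj (c 3) v := fun hc => hR (c 0) (c 3) v (b 4) (c 5) (b 5) hc fb4c5 fb5c5.symm fb4b5 fc0c3 t42 (ns fb4c0) fc0c5 (ns fb5c0) (ns fb4c3) fc3c5 (ns fb5c3) (ns t56) (ns t52) (ns t51) t33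
          have t59 : G.Adj (a 2) v := Classical.byContradiction fun hc => hR (a 2) (a 1) v (c 3) (b 0) (c 5) t57 fb0c3.symm fb0c5 fc3c5 (ns fa1a2) hc (ns fc3a2) fa2b0 (ns fc5a2) (ns fc3a1) fa1b0 (ns fc5a1) (ns t58) (ns t36) (ns t52) t31
          have t60 : G.Adj (a 3) v := Classical.byContradiction fun hc => hR (a 3) (b 0) (c 5) (a 1) v (a 2) fb0c5 t57 t59.symm fa1a2 fa3b0 (ns fc5a3) (ns fa1a3) hc (ns fa2a3) (ns fa1b0) t36 (ns fa2b0) fc5a1 t52 fc5a2 t16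
          have t61 : G.Adj (a 4) v := Classical.byContradiction fun hc => hR (a 4) (b 0) (c 5) (a 1) v (a 2) fb0c5 t57 t59.symm fa1a2 fa4b0 (ns fc5a4) (ns fa1a4) hc (ns fa2a4) (ns fa1b0) t36 (ns fa2b0) fc5a1 t52 fc5a2 t16
          have t62 : ¬ G.Adj (b 1) v := fun hc => t53 (hD (a 1) (b 1) (c 1) v fa1b1 fc1a1.symm t57 fb1c1 hc (Ne.symm qvc1))
          have t63 : G.Adj (c 4) v := Classical.byContradiction fun hc => k23 (ns t36) (ns t62) (ns t55) (ns t43) (ns t56) (ns t51) (ns t42) (ns t53) (ns t54) (ns t58) (ns hc) (ns t52) t35.symm t57.symm t59.symm t60.symm t61.symm t50.symm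
          exact t56 (hD (a 4) (c 4) (b 4) v fc4a4.symm fa4b4 t61 fb4c4.symm t63 (Ne.symm qvb4))
        · have t64 : ¬ G.Adj (b 1) v := fun hc => hR (b 3) (b 1) v (b 0) (c 0) (a 5) hc fb0c0 fc0a5 (ns fa5b0) (ns fb1b3) t43 (ns fb0b3) fb3c0 (ns fa5b3) (ns fb0b1) fb1c0 (ns fa5b1) (ns t36) (ns t42) (ns t50) t12
          have t65 : ¬ G.Adj (b 2) v := fun hc => hR (b 3) (b 2) v (b 0) (c 0) (a 5) hc fb0c0 fc0a5 (ns fa5b0) (ns fb2b3) t43 (ns fb0b3) fb3c0 (ns fa5b3) (ns fb0b2) fb2c0 (ns fa5b2) (ns t36) (ns t42) (ns t50) t12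
          have t66 : ¬ G.Adj (b 4) v := fun hc => hR (b 3) (b 4) v (b 0) (c 0) (a 5) hc fb0c0 fc0a5 (ns fa5b0) fb3b4 t43 (ns fb0b3) fb3c0 (ns fa5b3) (ns fb0b4) fb4c0 (ns fa5b4) (ns t36) (ns t42) (ns t50) t12
          rcases Classical.em (G.Adj (a 4) v) with t67 | t67
          · have t68 : ¬ G.Adj (c 4) v := fun hc => t66 (hD (a 4) (c 4) (b 4) v fc4a4.symm fa4b4 t67 fb4c4.symm hc (Ne.symm qvb4))
            have t69 : ¬ G.Adj (b 5) v := fun hc => fa0a4 (hD (b 5) v (a 0) (a 4) hc fa0b5.symm fa4b5.symm t35.symm t67.symm t2)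
            have t70 : G.Adj (a 1) v := Classical.byContradiction fun hc => hR (b 0) (a 4) v (b 1) (a 1) (b 2) t67 fa1b1.symm fa1b2 fb1b2 (ns fa4b0) t36 fb0b1 (ns fa1b0) fb0b2 fa4b1 (ns fa1a4) fa4b2 (ns t64) (ns hc) (ns t65) t18
            have t71 : G.Adj (a 2) v := Classical.byContradiction fun hc => hR (b 0) (a 4) v (b 2) (a 2) (b 3) t67 fa2b2.symm fa2b3 fb2b3 (ns fa4b0) t36 fb0b2 (ns fa2b0) fb0b3 fa4b2 (ns fa2a4) fa4b3 (ns t65) (ns hc) (ns t43) t23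
            have t72 : ¬ G.Adj (c 1) v := fun hc => hR (c 0) (c 1) v (b 2) (c 4) (b 3) hc fb2c4 fb3c4.symm fb2b3 fc0c1 t42 (ns fb2c0) fc0c4 (ns fb3c0) (ns fb2c1) fc1c4 (ns fb3c1) (ns t65) (ns t68) (ns t43) t23
            have t73 : ¬ G.Adj (c 2) v := fun hc => hR (c 0) (c 2) v (b 3) (c 4) (b 4) hc fb3c4 fb4c4.symm fb3b4 fc0c2 t42 (ns fb3c0) fc0c4 (ns fb4c0) (ns fb3c2) fc2c4 (ns fb4c2) (ns t43) (ns t68) (ns t66) t28
            have t74 : G.Adj (a 3) v := Classical.byContradiction fun hc => hR (a 3) (b 0) (c 4) (a 1) v (a 2) fb0c4 t70 t71.symm fa1a2 fa3b0 (ns fc4a3) (ns fa1a3) hc (ns fa2a3) (ns fa1b0) t36 (ns fa2b0) fc4a1 t68 fc4a2 t16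
            have t75 : ¬ G.Adj (c 3) v := fun hc => t43 (hD (a 3) (c 3) (b 3) v fc3a3.symm fa3b3 t74 fb3c3.symm hc (Ne.symm qvb3))
            have t76 : ¬ G.Adj (c 5) v := fun hc => k21 (ns t36) (ns t64) (ns t65) (ns t43) (ns t66) (ns t69) (ns t42) (ns t72) (ns t73) (ns t75) (ns t68) hc.symm t35.symm t70.symm t71.symm t74.symm t67.symm (ns t50)
            exact k22 (ns t36) (ns t64) (ns t65) (ns t43) (ns t66) (ns t69) (ns t42) (ns t72) (ns t73) (ns t75) (ns t68) (ns t76) t35.symm t70.symm t71.symm t74.symm t67.symm (ns t50)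
          · have t77 : G.Adj (c 5) v := Classical.byContradiction fun hc => hR v (c 0) (a 4) (b 1) (c 5) (b 2) fc0a4 fb1c5 fb2c5.symm fb1b2 (ns t42) (ns t67) (ns t64) (ns hc) (ns t65) (ns fb1c0) fc0c5 (ns fb2c0) fa4b1 (ns fc5a4) fa4b2 t18
            have t78 : ¬ G.Adj (b 5) v := fun hc => t50 (hD (b 5) (c 5) (a 5) v fb5c5 fa5b5.symm hc fc5a5 t77 (Ne.symm qva5))
            rcases Classical.em (G.Adj (a 1) v) with t79 | t79
            · have t80 : ¬ G.Adj (c 1) v := fun hc => t64 (hD (a 1) (c 1) (b 1) v fc1a1.symm fa1b1 t79 fb1c1.symm hc (Ne.symm qvb1))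
              rcases Classical.em (G.Adj (a 2) v) with t81 | t81
              · have t82 : ¬ G.Adj (c 2) v := fun hc => t65 (hD (a 2) (c 2) (b 2) v fc2a2.symm fa2b2 t81 fb2c2.symm hc (Ne.symm qvb2))
                rcases Classical.em (G.Adj (a 3) v) with t83 | t83
                · have t84 : ¬ G.Adj (c 3) v := fun hc => t43 (hD (a 3) (c 3) (b 3) v fc3a3.symm fa3b3 t83 fb3c3.symm hc (Ne.symm qvb3))
                  have t85 : ¬ G.Adj (c 4) v := fun hc => k19 (ns t36) (ns t64) (ns t65) (ns t43) (ns t66) (ns t78) (ns t42) (ns t80) (ns t82) (ns t84) hc.symm t77.symm t35.symm t79.symm t81.symm t83.symm (ns t67) (ns t50)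
                  exact k20 (ns t36) (ns t64) (ns t65) (ns t43) (ns t66) (ns t78) (ns t42) (ns t80) (ns t82) (ns t84) (ns t85) t77.symm t35.symm t79.symm t81.symm t83.symm (ns t67) (ns t50)
                · have t86 : G.Adj (c 4) v := Classical.byContradiction fun hc => hR (a 3) (a 0) v (a 4) (c 4) (a 5) t35 fc4a4.symm fc4a5 fa4a5 (ns fa0a3) t83 fa3a4 (ns fc4a3) fa3a5 fa0a4 (ns fc4a0) fa0a5 (ns t67) (ns hc) (ns t50) t32
                  have t87 : ¬ G.Adj (c 3) v := fun hc => k17 (ns t36) (ns t64) (ns t65) (ns t43) (ns t66) (ns t78) (ns t42) (ns t80) (ns t82) hc.symm t86.symm t77.symm t35.symm t79.symm t81.symm (ns t83) (ns t67) (ns t50)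
                  exact k18 (ns t36) (ns t64) (ns t65) (ns t43) (ns t66) (ns t78) (ns t42) (ns t80) (ns t82) (ns t87) t86.symm t77.symm t35.symm t79.symm t81.symm (ns t83) (ns t67) (ns t50)
              · have t88 : G.Adj (c 3) v := Classical.byContradiction fun hc => hR (a 2) (a 0) v (a 4) (c 3) (a 5) t35 fc3a4.symm fc3a5 fa4a5 (ns fa0a2) t81 fa2a4 (ns fc3a2) fa2a5 fa0a4 (ns fc3a0) fa0a5 (ns t67) (ns hc) (ns t50) t32
                have t89 : G.Adj (c 4) v := Classical.byContradiction fun hc => hR (a 2) (a 0) v (a 4) (c 4) (a 5) t35 fc4a4.symm fc4a5 fa4a5 (ns fa0a2) t81 fa2a4 (ns fc4a2) fa2a5 fa0a4 (ns fc4a0) fa0a5 (ns t67) (ns hc) (ns t50) t32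
                have t90 : ¬ G.Adj (a 3) v := fun hc => t43 (hD (a 3) (c 3) (b 3) v fc3a3.symm fa3b3 hc fb3c3.symm t88 (Ne.symm qvb3))
                have t91 : ¬ G.Adj (c 2) v := fun hc => k15 (ns t36) (ns t64) (ns t65) (ns t43) (ns t66) (ns t78) (ns t42) (ns t80) hc.symm t88.symm t89.symm t77.symm t35.symm t79.symm (ns t81) (ns t90) (ns t67) (ns t50)
                exact k16 (ns t36) (ns t64) (ns t65) (ns t43) (ns t66) (ns t78) (ns t42) (ns t80) (ns t91) t88.symm t89.symm t77.symm t35.symm t79.symm (ns t81) (ns t90) (ns t67) (ns t50)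
            · have t92 : ¬ G.Adj (a 3) v := fun hc => hR (b 0) (a 3) v (b 1) (a 1) (b 2) hc fa1b1.symm fa1b2 fb1b2 (ns fa3b0) t36 fb0b1 (ns fa1b0) fb0b2 fa3b1 (ns fa1a3) fa3b2 (ns t64) (ns t79) (ns t65) t18
              have t93 : G.Adj (c 2) v := Classical.byContradiction fun hc => hR (a 1) (a 0) v (a 3) (c 2) (a 4) t35 fc2a3.symm fc2a4 fa3a4 (ns fa0a1) t79 fa1a3 (ns fc2a1) fa1a4 fa0a3 (ns fc2a0) fa0a4 (ns t92) (ns hc) (ns t67) t26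
              have t94 : G.Adj (c 3) v := Classical.byContradiction fun hc => hR (a 1) (a 0) v (a 3) (c 3) (a 4) t35 fc3a3.symm fc3a4 fa3a4 (ns fa0a1) t79 fa1a3 (ns fc3a1) fa1a4 fa0a3 (ns fc3a0) fa0a4 (ns t92) (ns hc) (ns t67) t26
              have t95 : G.Adj (c 4) v := Classical.byContradiction fun hc => hR (a 1) (a 0) v (a 4) (c 4) (a 5) t35 fc4a4.symm fc4a5 fa4a5 (ns fa0a1) t79 fa1a4 (ns fc4a1) fa1a5 fa0a4 (ns fc4a0) fa0a5 (ns t67) (ns hc) (ns t50) t32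
              have t96 : ¬ G.Adj (a 2) v := fun hc => t65 (hD (a 2) (c 2) (b 2) v fc2a2.symm fa2b2 hc fb2c2.symm t93 (Ne.symm qvb2))
              have t97 : ¬ G.Adj (c 1) v := fun hc => k13 (ns t36) (ns t64) (ns t65) (ns t43) (ns t66) (ns t78) (ns t42) hc.symm t93.symm t94.symm t95.symm t77.symm t35.symm (ns t79) (ns t96) (ns t92) (ns t67) (ns t50)
              exact k14 (ns t36) (ns t64) (ns t65) (ns t43) (ns t66) (ns t78) (ns t42) (ns t97) t93.symm t94.symm t95.symm t77.symm t35.symm (ns t79) (ns t96) (ns t92) (ns t67) (ns t50)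
  · rcases Classical.em (G.Adj (b 0) v) with t98 | t98
    · have t99 : ¬ G.Adj (c 0) v := fun hc => t35 (hD (b 0) (c 0) (a 0) v fb0c0 fa0b0.symm t98 fc0a0 hc (Ne.symm qva0))
      rcases Classical.em (G.Adj (c 3) v) with t100 | t100
      · have t101 : ¬ G.Adj (c 1) v := fun hc => fc1c3 (hD (b 0) v (c 1) (c 3) t98 fb0c1 fb0c3 hc.symm t100.symm t21)
        have t102 : ¬ G.Adj (c 4) v := fun hc => fc3c4 (hD (b 0) v (c 3) (c 4) t98 fb0c3 fb0c4 t100.symm hc.symm t30)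
        have t103 : ¬ G.Adj (c 5) v := fun hc => fc3c5 (hD (b 0) v (c 3) (c 5) t98 fb0c3 fb0c5 t100.symm hc.symm t31)
        have t104 : ¬ G.Adj (b 1) v := fun hc => fb0b1 (hD (c 3) v (b 0) (b 1) t100 fb0c3.symm fb1c3.symm t98.symm hc.symm t7)
        have t105 : G.Adj (b 4) v := Classical.byContradiction fun hc => hR (c 0) (c 3) v (c 4) (b 4) (c 5) t100 fb4c4.symm fb4c5 fc4c5 fc0c3 t99 fc0c4 (ns fb4c0) fc0c5 fc3c4 (ns fb4c3) fc3c5 (ns t102) (ns hc) (ns t103) t34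
        have t106 : G.Adj (b 5) v := Classical.byContradiction fun hc => hR (c 1) (c 3) v (a 0) (b 5) (c 5) t100 fa0b5 fb5c5 (ns fc5a0) fc1c3 t101 fc1a0 (ns fb5c1) fc1c5 fc3a0 (ns fb5c3) fc3c5 (ns t35) (ns hc) (ns t103) t5
        exact hR (c 0) (b 1) (c 1) (b 4) v (b 5) fb1c1 t105 t106.symm fb4b5 (ns fb1c0) fc0c1 (ns fb4c0) t99 (ns fb5c0) fb1b4 t104 fb1b5 (ns fb4c1) t101 (ns fb5c1) t33
      · rcases Classical.em (G.Adj (a 1) v) with t107 | t107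
        · have t108 : ¬ G.Adj (c 1) v := fun hc => (ns fa1b0) (hD (c 1) v (b 0) (a 1) hc fb0c1.symm fc1a1 t98.symm t107.symm t6)
          have t109 : ¬ G.Adj (b 1) v := fun hc => t108 (hD (a 1) (b 1) (c 1) v fa1b1 fc1a1.symm t107 fb1c1 hc (Ne.symm qvc1))
          have t110 : ¬ G.Adj (b 4) v := fun hc => hR (c 0) (b 4) v (c 1) (b 1) (c 3) hc fb1c1.symm fb1c3 fc1c3 (ns fb4c0) t99 fc0c1 (ns fb1c0) fc0c3 fb4c1 (ns fb1b4) fb4c3 (ns t108) (ns t109) (ns t100) t21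
          have t111 : ¬ G.Adj (b 5) v := fun hc => hR (c 0) (b 5) v (c 1) (b 1) (c 3) hc fb1c1.symm fb1c3 fc1c3 (ns fb5c0) t99 fc0c1 (ns fb1c0) fc0c3 fb5c1 (ns fb1b5) fb5c3 (ns t108) (ns t109) (ns t100) t21
          have t112 : ¬ G.Adj (c 2) v := fun hc => hR (c 1) (c 2) v (c 0) (a 0) (b 4) hc fc0a0 fa0b4 (ns fb4c0) fc1c2 t108 (ns fc0c1) fc1a0 (ns fb4c1) (ns fc0c2) fc2a0 (ns fb4c2) (ns t99) (ns t35) (ns t110) t14
          have t113 : ¬ G.Adj (c 4) v := fun hc => hR (c 1) (c 4) v (c 0) (a 0) (b 5) hc fc0a0 fa0b5 (ns fb5c0) fc1c4 t108 (ns fc0c1) fc1a0 (ns fb5c1) (ns fc0c4) fc4a0 (ns fb5c4) (ns t99) (ns t35) (ns t111) t15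
          have t114 : ¬ G.Adj (b 3) v := fun hc => hR (b 4) (b 3) v (c 1) (b 1) (c 2) hc fb1c1.symm fb1c2 fc1c2 (ns fb3b4) t110 fb4c1 (ns fb1b4) fb4c2 fb3c1 (ns fb1b3) fb3c2 (ns t108) (ns t109) (ns t112) t20
          have t115 : G.Adj (a 4) v := Classical.byContradiction fun hc => hR v (a 0) (b 3) (c 1) (a 4) (c 2) fa0b3 fc1a4 fc2a4.symm fc1c2 (ns t35) (ns t114) (ns t108) (ns hc) (ns t112) (ns fc1a0) fa0a4 (ns fc2a0) fb3c1 (ns fa4b3) fb3c2 t20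
          have t116 : G.Adj (a 5) v := Classical.byContradiction fun hc => hR v (a 0) (b 3) (c 1) (a 5) (c 2) fa0b3 fc1a5 fc2a5.symm fc1c2 (ns t35) (ns t114) (ns t108) (ns hc) (ns t112) (ns fc1a0) fa0a5 (ns fc2a0) fb3c1 (ns fa5b3) fb3c2 t20
          have t117 : G.Adj (a 2) v := Classical.byContradiction fun hc => hR (b 1) (b 0) v (b 3) (a 2) (b 4) t98 fa2b3.symm fa2b4 fb3b4 (ns fb0b1) t109 fb1b3 (ns fa2b1) fb1b4 fb0b3 (ns fa2b0) fb0b4 (ns t114) (ns hc) (ns t110) t28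
          have t118 : G.Adj (a 3) v := Classical.byContradiction fun hc => hR (b 1) (b 0) v (b 3) (a 3) (b 4) t98 fa3b3.symm fa3b4 fb3b4 (ns fb0b1) t109 fb1b3 (ns fa3b1) fb1b4 fb0b3 (ns fa3b0) fb0b4 (ns t114) (ns hc) (ns t110) t28
          have t119 : ¬ G.Adj (c 5) v := fun hc => t111 (hD (a 5) (c 5) (b 5) v fc5a5.symm fa5b5 t116 fb5c5.symm hc (Ne.symm qvb5))
          have t120 : G.Adj (b 2) v := Classical.byContradiction fun hc => k25 (ns t99) (ns t108) (ns t112) (ns t100) (ns t113) (ns t119) (ns t35) t107.symm t117.symm t118.symm t115.symm t116.symm t98.symm (ns t109) (ns hc) (ns t114) (ns t110) (ns t111)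
          exact t112 (hD (a 2) (b 2) (c 2) v fa2b2 fc2a2.symm t117 fb2c2 t120 (Ne.symm qvc2))
        · have t121 : ¬ G.Adj (c 2) v := fun hc => hR (c 3) (c 2) v (a 0) (c 0) (a 1) hc fc0a0.symm fc0a1 fa0a1 (ns fc2c3) t100 fc3a0 (ns fc0c3) fc3a1 fc2a0 (ns fc0c2) fc2a1 (ns t35) (ns t99) (ns t107) t1
          have t122 : ¬ G.Adj (c 4) v := fun hc => hR (c 3) (c 4) v (a 0) (c 0) (a 1) hc fc0a0.symm fc0a1 fa0a1 fc3c4 t100 fc3a0 (ns fc0c3) fc3a1 fc4a0 (ns fc0c4) fc4a1 (ns t35) (ns t99) (ns t107) t1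
          have t123 : ¬ G.Adj (c 5) v := fun hc => hR (c 3) (c 5) v (a 0) (c 0) (a 1) hc fc0a0.symm fc0a1 fa0a1 fc3c5 t100 fc3a0 (ns fc0c3) fc3a1 fc5a0 (ns fc0c5) fc5a1 (ns t35) (ns t99) (ns t107) t1
          rcases Classical.em (G.Adj (a 2) v) with t124 | t124
          · have t125 : ¬ G.Adj (b 2) v := fun hc => t121 (hD (a 2) (b 2) (c 2) v fa2b2 fc2a2.symm t124 fb2c2 hc (Ne.symm qvc2))
            have t126 : ¬ G.Adj (c 1) v := fun hc => (ns fa2b0) (hD (c 1) v (b 0) (a 2) hc fb0c1.symm fc1a2 t98.symm t124.symm t8)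
            have t127 : G.Adj (a 4) v := Classical.byContradiction fun hc => hR (a 0) (a 2) v (c 3) (a 4) (c 4) t124 fc3a4 fc4a4.symm fc3c4 fa0a2 t35 (ns fc3a0) fa0a4 (ns fc4a0) (ns fc3a2) fa2a4 (ns fc4a2) (ns t100) (ns hc) (ns t122) t30
            have t128 : G.Adj (a 5) v := Classical.byContradiction fun hc => hR (a 0) (a 2) v (c 3) (a 5) (c 4) t124 fc3a5 fc4a5.symm fc3c4 fa0a2 t35 (ns fc3a0) fa0a5 (ns fc4a0) (ns fc3a2) fa2a5 (ns fc4a2) (ns t100) (ns hc) (ns t122) t30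
            have t129 : ¬ G.Adj (b 4) v := fun hc => hR (c 0) (b 4) v (c 2) (b 2) (c 3) hc fb2c2.symm fb2c3 fc2c3 (ns fb4c0) t99 fc0c2 (ns fb2c0) fc0c3 fb4c2 (ns fb2b4) fb4c3 (ns t121) (ns t125) (ns t100) t25
            have t130 : ¬ G.Adj (b 5) v := fun hc => hR (c 0) (b 5) v (b 2) (c 4) (b 4) hc fb2c4 fb4c4.symm fb2b4 (ns fb5c0) t99 (ns fb2c0) fc0c4 (ns fb4c0) (ns fb2b5) fb5c4 (ns fb4b5) (ns t125) (ns t122) (ns t129) t24
            have t131 : G.Adj (a 3) v := Classical.byContradiction fun hc => hR (b 2) (b 0) v (b 4) (a 3) (b 5) t98 fa3b4.symm fa3b5 fb4b5 (ns fb0b2) t125 fb2b4 (ns fa3b2) fb2b5 fb0b4 (ns fa3b0) fb0b5 (ns t129) (ns hc) (ns t130) t33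
            have t132 : ¬ G.Adj (b 3) v := fun hc => t100 (hD (a 3) (b 3) (c 3) v fa3b3 fc3a3.symm t131 fb3c3 hc (Ne.symm qvc3))
            have t133 : G.Adj (b 1) v := Classical.byContradiction fun hc => k26 (ns t99) (ns t126) (ns t121) (ns t100) (ns t122) (ns t123) (ns t35) (ns t107) t124.symm t131.symm t127.symm t128.symm t98.symm (ns hc) (ns t125) (ns t132) (ns t129) (ns t130)
            exact k27 (ns t99) (ns t126) (ns t121) (ns t100) (ns t122) (ns t123) (ns t35) (ns t107) t124.symm t131.symm t127.symm t128.symm t98.symm t133.symm (ns t125) (ns t132) (ns t129) (ns t130)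
          · have t134 : G.Adj (b 1) v := Classical.byContradiction fun hc => hR v (c 0) (a 2) (c 3) (b 1) (c 4) fc0a2 fb1c3.symm fb1c4 fc3c4 (ns t99) (ns t124) (ns t100) (ns hc) (ns t122) fc0c3 (ns fb1c0) fc0c4 (ns fc3a2) fa2b1 (ns fc4a2) t30
            have t135 : ¬ G.Adj (c 1) v := fun hc => t107 (hD (b 1) (c 1) (a 1) v fb1c1 fa1b1.symm t134 fc1a1 hc (Ne.symm qva1))
            rcases Classical.em (G.Adj (a 5) v) with t136 | t136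
            · have t137 : ¬ G.Adj (b 5) v := fun hc => t123 (hD (a 5) (b 5) (c 5) v fa5b5 fc5a5.symm t136 fb5c5 hc (Ne.symm qvc5))
              rcases Classical.em (G.Adj (a 4) v) with t138 | t138
              · have t139 : ¬ G.Adj (b 4) v := fun hc => t122 (hD (a 4) (b 4) (c 4) v fa4b4 fc4a4.symm t138 fb4c4 hc (Ne.symm qvc4))
                rcases Classical.em (G.Adj (a 3) v) with t140 | t140
                · have t141 : ¬ G.Adj (b 3) v := fun hc => t100 (hD (a 3) (b 3) (c 3) v fa3b3 fc3a3.symm t140 fb3c3 hc (Ne.symm qvc3))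
                  have t142 : G.Adj (b 2) v := Classical.byContradiction fun hc => k28 (ns t99) (ns t135) (ns t121) (ns t100) (ns t122) (ns t123) (ns t35) (ns t107) (ns t124) t140.symm t138.symm t136.symm t98.symm t134.symm (ns hc) (ns t141) (ns t139) (ns t137)
                  exact k29 (ns t99) (ns t135) (ns t121) (ns t100) (ns t122) (ns t123) (ns t35) (ns t107) (ns t124) t140.symm t138.symm t136.symm t98.symm t134.symm t142.symm (ns t141) (ns t139) (ns t137)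
                · have t143 : G.Adj (b 2) v := Classical.byContradiction fun hc => hR (b 2) (b 0) v (b 4) (a 3) (b 5) t98 fa3b4.symm fa3b5 fb4b5 (ns fb0b2) hc fb2b4 (ns fa3b2) fb2b5 fb0b4 (ns fa3b0) fb0b5 (ns t139) (ns t140) (ns t137) t33
                  have t144 : G.Adj (b 3) v := Classical.byContradiction fun hc => k30 (ns t99) (ns t135) (ns t121) (ns t100) (ns t122) (ns t123) (ns t35) (ns t107) (ns t124) (ns t140) t138.symm t136.symm t98.symm t134.symm t143.symm (ns hc) (ns t139) (ns t137)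
                  exact k31 (ns t99) (ns t135) (ns t121) (ns t100) (ns t122) (ns t123) (ns t35) (ns t107) (ns t124) (ns t140) t138.symm t136.symm t98.symm t134.symm t143.symm t144.symm (ns t139) (ns t137)
              · have t145 : G.Adj (b 2) v := Classical.byContradiction fun hc => hR (b 2) (b 1) v (c 0) (a 4) (b 5) t134 fc0a4 fa4b5 (ns fb5c0) (ns fb1b2) hc fb2c0 (ns fa4b2) fb2b5 fb1c0 (ns fa4b1) fb1b5 (ns t99) (ns t138) (ns t137) t15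
                have t146 : G.Adj (b 3) v := Classical.byContradiction fun hc => hR (b 3) (c 0) (a 4) (b 1) v (b 2) fc0a4 t134 t145.symm fb1b2 fb3c0 (ns fa4b3) (ns fb1b3) hc (ns fb2b3) (ns fb1c0) t99 (ns fb2c0) fa4b1 t138 fa4b2 t18
                have t147 : ¬ G.Adj (a 3) v := fun hc => t100 (hD (a 3) (b 3) (c 3) v fa3b3 fc3a3.symm hc fb3c3 t146 (Ne.symm qvc3))
                have t148 : G.Adj (b 4) v := Classical.byContradiction fun hc => k32 (ns t99) (ns t135) (ns t121) (ns t100) (ns t122) (ns t123) (ns t35) (ns t107) (ns t124) (ns t147) (ns t138) t136.symm t98.symm t134.symm t145.symm t146.symm (ns hc) (ns t137)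
                exact k33 (ns t99) (ns t135) (ns t121) (ns t100) (ns t122) (ns t123) (ns t35) (ns t107) (ns t124) (ns t147) (ns t138) t136.symm t98.symm t134.symm t145.symm t146.symm t148.symm (ns t137)
            · have t149 : ¬ G.Adj (a 3) v := fun hc => hR (a 0) (a 3) v (c 4) (a 5) (c 5) hc fc4a5 fc5a5.symm fc4c5 fa0a3 t35 (ns fc4a0) fa0a5 (ns fc5a0) (ns fc4a3) fa3a5 (ns fc5a3) (ns t122) (ns t136) (ns t123) t34
              have t150 : G.Adj (b 2) v := Classical.byContradiction fun hc => hR (b 2) (b 1) v (a 3) (c 0) (a 5) t134 fc0a3.symm fc0a5 fa3a5 (ns fb1b2) hc (ns fa3b2) fb2c0 (ns fa5b2) (ns fa3b1) fb1c0 (ns fa5b1) (ns t149) (ns t99) (ns t136) t27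
              have t151 : G.Adj (b 3) v := Classical.byContradiction fun hc => hR (b 3) (c 0) (a 5) (b 1) v (b 2) fc0a5 t134 t150.symm fb1b2 fb3c0 (ns fa5b3) (ns fb1b3) hc (ns fb2b3) (ns fb1c0) t99 (ns fb2c0) fa5b1 t136 fa5b2 t18
              have t152 : G.Adj (b 4) v := Classical.byContradiction fun hc => hR (b 4) (c 0) (a 5) (b 1) v (b 2) fc0a5 t134 t150.symm fb1b2 fb4c0 (ns fa5b4) (ns fb1b4) hc (ns fb2b4) (ns fb1c0) t99 (ns fb2c0) fa5b1 t136 fa5b2 t18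
              have t153 : ¬ G.Adj (a 4) v := fun hc => t122 (hD (a 4) (b 4) (c 4) v fa4b4 fc4a4.symm hc fb4c4 t152 (Ne.symm qvc4))
              have t154 : G.Adj (b 5) v := Classical.byContradiction fun hc => k34 (ns t99) (ns t135) (ns t121) (ns t100) (ns t122) (ns t123) (ns t35) (ns t107) (ns t124) (ns t149) (ns t153) (ns t136) t98.symm t134.symm t150.symm t151.symm t152.symm (ns hc)
              exact k35 (ns t99) (ns t135) (ns t121) (ns t100) (ns t122) (ns t123) (ns t35) (ns t107) (ns t124) (ns t149) (ns t153) (ns t136) t98.symm t134.symm t150.symm t151.symm t152.symm t154.symm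
    · rcases Classical.em (G.Adj (a 3) v) with t155 | t155
      · rcases Classical.em (G.Adj (a 2) v) with t156 | t156
        · have t157 : ¬ G.Adj (c 0) v := fun hc => fa2a3 (hD (c 0) v (a 2) (a 3) hc fc0a2 fc0a3 t156.symm t155.symm t22)
          have t158 : ¬ G.Adj (c 1) v := fun hc => fa2a3 (hD (c 1) v (a 2) (a 3) hc fc1a2 fc1a3 t156.symm t155.symm t22)
          have t159 : ¬ G.Adj (c 2) v := fun hc => fa2a3 (hD (c 2) v (a 2) (a 3) hc fc2a2 fc2a3 t156.symm t155.symm t22)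
          have t160 : ¬ G.Adj (b 3) v := fun hc => fa2a3 (hD (b 3) v (a 2) (a 3) hc fa2b3.symm fa3b3.symm t156.symm t155.symm t22)
          have t161 : ¬ G.Adj (b 4) v := fun hc => fa2a3 (hD (b 4) v (a 2) (a 3) hc fa2b4.symm fa3b4.symm t156.symm t155.symm t22)
          have t162 : ¬ G.Adj (b 5) v := fun hc => fa2a3 (hD (b 5) v (a 2) (a 3) hc fa2b5.symm fa3b5.symm t156.symm t155.symm t22)
          have t163 : G.Adj (a 1) v := Classical.byContradiction fun hc => hR (a 1) (a 0) (b 0) (a 2) v (a 3) fa0b0 t156 t155.symm fa2a3 (ns fa0a1) fa1b0 fa1a2 hc fa1a3 fa0a2 t35 fa0a3 (ns fa2b0) t98 (ns fa3b0) t22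
          have t164 : G.Adj (a 4) v := Classical.byContradiction fun hc => hR (a 4) (a 0) (b 0) (a 1) v (a 2) fa0b0 t163 t156.symm fa1a2 (ns fa0a4) fa4b0 (ns fa1a4) hc (ns fa2a4) fa0a1 t35 fa0a2 (ns fa1b0) t98 (ns fa2b0) t16
          have t165 : G.Adj (a 5) v := Classical.byContradiction fun hc => hR (a 5) (a 0) (b 0) (a 1) v (a 2) fa0b0 t163 t156.symm fa1a2 (ns fa0a5) fa5b0 (ns fa1a5) hc (ns fa2a5) fa0a1 t35 fa0a2 (ns fa1b0) t98 (ns fa2b0) t16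
          have t166 : ¬ G.Adj (c 3) v := fun hc => hR (c 1) (c 3) v (c 0) (a 0) (b 4) hc fc0a0 fa0b4 (ns fb4c0) fc1c3 t158 (ns fc0c1) fc1a0 (ns fb4c1) (ns fc0c3) fc3a0 (ns fb4c3) (ns t157) (ns t35) (ns t161) t14
          have t167 : ¬ G.Adj (c 4) v := fun hc => hR (c 1) (c 4) v (c 0) (a 0) (b 5) hc fc0a0 fa0b5 (ns fb5c0) fc1c4 t158 (ns fc0c1) fc1a0 (ns fb5c1) (ns fc0c4) fc4a0 (ns fb5c4) (ns t157) (ns t35) (ns t162) t15
          have t168 : ¬ G.Adj (b 2) v := fun hc => hR (b 3) (b 2) v (c 0) (b 0) (c 1) hc fb0c0.symm fb0c1 fc0c1 (ns fb2b3) t160 fb3c0 (ns fb0b3) fb3c1 fb2c0 (ns fb0b2) fb2c1 (ns t157) (ns t98) (ns t158) t13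
          have t169 : ¬ G.Adj (b 1) v := fun hc => t158 (hD (a 1) (b 1) (c 1) v fa1b1 fc1a1.symm t163 fb1c1 hc (Ne.symm qvc1))
          have t170 : G.Adj (c 5) v := Classical.byContradiction fun hc => k24 (ns t157) (ns t158) (ns t159) (ns t166) (ns t167) (ns hc) (ns t35) t163.symm t156.symm t155.symm t164.symm t165.symm (ns t98) (ns t169) (ns t168) (ns t160) (ns t161) (ns t162)
          exact t162 (hD (a 5) (c 5) (b 5) v fc5a5.symm fa5b5 t165 fb5c5.symm t170 (Ne.symm qvb5))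
        · have t171 : ¬ G.Adj (a 1) v := fun hc => hR (a 2) (a 0) (b 0) (a 1) v (a 3) fa0b0 hc t155.symm fa1a3 (ns fa0a2) fa2b0 (ns fa1a2) t156 fa2a3 fa0a1 t35 fa0a3 (ns fa1b0) t98 (ns fa3b0) t17
          have t172 : G.Adj (c 4) v := Classical.byContradiction fun hc => hR (a 2) (a 3) v (a 0) (b 0) (c 4) t155 fa0b0 fb0c4 (ns fc4a0) fa2a3 t156 (ns fa0a2) fa2b0 (ns fc4a2) (ns fa0a3) fa3b0 (ns fc4a3) (ns t35) (ns t98) (ns hc) t3
          have t173 : G.Adj (c 5) v := Classical.byContradiction fun hc => hR (a 2) (a 3) v (a 0) (b 0) (c 5) t155 fa0b0 fb0c5 (ns fc5a0) fa2a3 t156 (ns fa0a2) fa2b0 (ns fc5a2) (ns fa0a3) fa3b0 (ns fc5a3) (ns t35) (ns t98) (ns hc) t5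
          have t174 : G.Adj (b 1) v := Classical.byContradiction fun hc => hR (a 2) (a 3) v (a 0) (b 1) (a 1) t155 fa0b1 fa1b1.symm fa0a1 fa2a3 t156 (ns fa0a2) fa2b1 (ns fa1a2) (ns fa0a3) fa3b1 (ns fa1a3) (ns t35) (ns hc) (ns t171) t1
          have t175 : ¬ G.Adj (c 1) v := fun hc => t171 (hD (b 1) (c 1) (a 1) v fb1c1 fa1b1.symm t174 fc1a1 hc (Ne.symm qva1))
          exact hR (a 0) (a 1) (c 1) (c 4) v (c 5) fc1a1.symm t172 t173.symm fc4c5 fa0a1 (ns fc1a0) (ns fc4a0) t35 (ns fc5a0) (ns fc4a1) t171 (ns fc5a1) fc1c4 t175 fc1c5 t34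
      · rcases Classical.em (G.Adj (a 2) v) with t176 | t176
        · have t177 : ¬ G.Adj (a 1) v := fun hc => hR (a 3) (a 0) (b 0) (a 1) v (a 2) fa0b0 hc t176.symm fa1a2 (ns fa0a3) fa3b0 (ns fa1a3) t155 (ns fa2a3) fa0a1 t35 fa0a2 (ns fa1b0) t98 (ns fa2b0) t16
          have t178 : G.Adj (c 4) v := Classical.byContradiction fun hc => hR (a 3) (a 2) v (a 0) (b 0) (c 4) t176 fa0b0 fb0c4 (ns fc4a0) (ns fa2a3) t155 (ns fa0a3) fa3b0 (ns fc4a3) (ns fa0a2) fa2b0 (ns fc4a2) (ns t35) (ns t98) (ns hc) t3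
          have t179 : G.Adj (c 5) v := Classical.byContradiction fun hc => hR (a 3) (a 2) v (a 0) (b 0) (c 5) t176 fa0b0 fb0c5 (ns fc5a0) (ns fa2a3) t155 (ns fa0a3) fa3b0 (ns fc5a3) (ns fa0a2) fa2b0 (ns fc5a2) (ns t35) (ns t98) (ns hc) t5
          have t180 : G.Adj (b 1) v := Classical.byContradiction fun hc => hR (a 3) (a 2) v (a 0) (b 1) (a 1) t176 fa0b1 fa1b1.symm fa0a1 (ns fa2a3) t155 (ns fa0a3) fa3b1 (ns fa1a3) (ns fa0a2) fa2b1 (ns fa1a2) (ns t35) (ns hc) (ns t177) t1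
          have t181 : ¬ G.Adj (c 1) v := fun hc => t177 (hD (b 1) (c 1) (a 1) v fb1c1 fa1b1.symm t180 fc1a1 hc (Ne.symm qva1))
          exact hR (a 0) (a 1) (c 1) (c 4) v (c 5) fc1a1.symm t178 t179.symm fc4c5 fa0a1 (ns fc1a0) (ns fc4a0) t35 (ns fc5a0) (ns fc4a1) t177 (ns fc5a1) fc1c4 t181 fc1c5 t34
        · rcases Classical.em (G.Adj (b 1) v) with t182 | t182
          · have t183 : G.Adj (b 3) v := Classical.byContradiction fun hc => hR (b 0) (b 1) v (a 2) (b 3) (a 3) t182 fa2b3 fa3b3.symm fa2a3 fb0b1 t98 (ns fa2b0) fb0b3 (ns fa3b0) (ns fa2b1) fb1b3 (ns fa3b1) (ns t176) (ns hc) (ns t155) t22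
            have t184 : G.Adj (b 4) v := Classical.byContradiction fun hc => hR (b 0) (b 1) v (a 2) (b 4) (a 3) t182 fa2b4 fa3b4.symm fa2a3 fb0b1 t98 (ns fa2b0) fb0b4 (ns fa3b0) (ns fa2b1) fb1b4 (ns fa3b1) (ns t176) (ns hc) (ns t155) t22
            have t185 : G.Adj (b 5) v := Classical.byContradiction fun hc => hR (b 0) (b 1) v (a 2) (b 5) (a 3) t182 fa2b5 fa3b5.symm fa2a3 fb0b1 t98 (ns fa2b0) fb0b5 (ns fa3b0) (ns fa2b1) fb1b5 (ns fa3b1) (ns t176) (ns hc) (ns t155) t22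
            have t186 : ¬ G.Adj (c 3) v := fun hc => t155 (hD (b 3) (c 3) (a 3) v fb3c3 fa3b3.symm t183 fc3a3 hc (Ne.symm qva3))
            have t187 : ¬ G.Adj (a 1) v := fun hc => fb1b3 (hD (a 1) v (b 1) (b 3) hc fa1b1 fa1b3 t182.symm t183.symm t19)
            have t188 : ¬ G.Adj (c 4) v := fun hc => fb1b3 (hD (c 4) v (b 1) (b 3) hc fb1c4.symm fb3c4.symm t182.symm t183.symm t19)
            have t189 : ¬ G.Adj (c 5) v := fun hc => fb1b3 (hD (c 5) v (b 1) (b 3) hc fb1c5.symm fb3c5.symm t182.symm t183.symm t19)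
            have t190 : ¬ G.Adj (a 4) v := fun hc => t188 (hD (a 4) (b 4) (c 4) v fa4b4 fc4a4.symm hc fb4c4 t184 (Ne.symm qvc4))
            have t191 : ¬ G.Adj (a 5) v := fun hc => t189 (hD (a 5) (b 5) (c 5) v fa5b5 fc5a5.symm hc fb5c5 t185 (Ne.symm qvc5))
            have t192 : ¬ G.Adj (c 1) v := fun hc => t187 (hD (b 1) (c 1) (a 1) v fb1c1 fa1b1.symm t182 fc1a1 hc (Ne.symm qva1))
            have t193 : G.Adj (b 2) v := Classical.byContradiction fun hc => hR (c 1) (b 5) v (c 3) (b 2) (c 4) t185 fb2c3.symm fb2c4 fc3c4 (ns fb5c1) t192 fc1c3 (ns fb2c1) fc1c4 fb5c3 (ns fb2b5) fb5c4 (ns t186) (ns hc) (ns t188) t30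
            have t194 : ¬ G.Adj (c 2) v := fun hc => t176 (hD (b 2) (c 2) (a 2) v fb2c2 fa2b2.symm t193 fc2a2 hc (Ne.symm qva2))
            have t195 : G.Adj (c 0) v := Classical.byContradiction fun hc => k0 (ns t35) (ns t187) (ns t176) (ns t155) (ns t190) (ns t191) (ns t98) t182.symm t193.symm t183.symm t184.symm t185.symm (ns hc) (ns t192) (ns t194) (ns t186) (ns t188) (ns t189)
            exact k1 (ns t35) (ns t187) (ns t176) (ns t155) (ns t190) (ns t191) (ns t98) t182.symm t193.symm t183.symm t184.symm t185.symm t195.symm (ns t192) (ns t194) (ns t186) (ns t188) (ns t189)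
          · have t196 : ¬ G.Adj (a 4) v := fun hc => hR (a 2) (a 4) v (b 0) (a 0) (b 1) hc fa0b0.symm fa0b1 fb0b1 fa2a4 t176 fa2b0 (ns fa0a2) fa2b1 fa4b0 (ns fa0a4) fa4b1 (ns t98) (ns t35) (ns t182) t7
            have t197 : ¬ G.Adj (a 5) v := fun hc => hR (a 2) (a 5) v (b 0) (a 0) (b 1) hc fa0b0.symm fa0b1 fb0b1 fa2a5 t176 fa2b0 (ns fa0a2) fa2b1 fa5b0 (ns fa0a5) fa5b1 (ns t98) (ns t35) (ns t182) t7
            rcases Classical.em (G.Adj (c 5) v) with t198 | t198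
            · have t199 : ¬ G.Adj (b 5) v := fun hc => t197 (hD (b 5) (c 5) (a 5) v fb5c5 fa5b5.symm hc fc5a5 t198 (Ne.symm qva5))
              have t200 : G.Adj (c 1) v := Classical.byContradiction fun hc => hR (a 0) (c 5) v (a 2) (c 1) (a 3) t198 fc1a2.symm fc1a3 fa2a3 (ns fc5a0) t35 fa0a2 (ns fc1a0) fa0a3 fc5a2 (ns fc1c5) fc5a3 (ns t176) (ns hc) (ns t155) t22
              have t201 : G.Adj (c 2) v := Classical.byContradiction fun hc => hR (a 0) (c 5) v (a 2) (c 2) (a 3) t198 fc2a2.symm fc2a3 fa2a3 (ns fc5a0) t35 fa0a2 (ns fc2a0) fa0a3 fc5a2 (ns fc2c5) fc5a3 (ns t176) (ns hc) (ns t155) t22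
              have t202 : G.Adj (c 3) v := Classical.byContradiction fun hc => hR (a 0) (c 5) v (a 3) (c 3) (a 4) t198 fc3a3.symm fc3a4 fa3a4 (ns fc5a0) t35 fa0a3 (ns fc3a0) fa0a4 fc5a3 (ns fc3c5) fc5a4 (ns t155) (ns hc) (ns t196) t26
              have t203 : ¬ G.Adj (b 2) v := fun hc => hR (b 0) (b 2) v (a 3) (b 5) (a 4) hc fa3b5 fa4b5.symm fa3a4 fb0b2 t98 (ns fa3b0) fb0b5 (ns fa4b0) (ns fa3b2) fb2b5 (ns fa4b2) (ns t155) (ns t199) (ns t196) t26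
              have t204 : ¬ G.Adj (b 3) v := fun hc => hR (b 0) (b 3) v (a 4) (b 5) (a 5) hc fa4b5 fa5b5.symm fa4a5 fb0b3 t98 (ns fa4b0) fb0b5 (ns fa5b0) (ns fa4b3) fb3b5 (ns fa5b3) (ns t196) (ns t199) (ns t197) t32
              have t205 : G.Adj (c 4) v := Classical.byContradiction fun hc => hR (c 4) (a 0) (b 5) (c 1) v (c 2) fa0b5 t200 t201.symm fc1c2 fc4a0 (ns fb5c4) (ns fc1c4) hc (ns fc2c4) (ns fc1a0) t35 (ns fc2a0) fb5c1 t199 fb5c2 t20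
              have t206 : ¬ G.Adj (a 1) v := fun hc => t182 (hD (a 1) (c 1) (b 1) v fc1a1.symm fa1b1 hc fb1c1.symm t200 (Ne.symm qvb1))
              have t207 : ¬ G.Adj (b 4) v := fun hc => t196 (hD (b 4) (c 4) (a 4) v fb4c4 fa4b4.symm hc fc4a4 t205 (Ne.symm qva4))
              have t208 : ¬ G.Adj (c 0) v := fun hc => k11 (ns t35) (ns t206) (ns t176) (ns t155) (ns t196) (ns t197) (ns t98) (ns t182) (ns t203) (ns t204) (ns t207) (ns t199) hc.symm t200.symm t201.symm t202.symm t205.symm t198.symm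
              exact k12 (ns t98) (ns t182) (ns t203) (ns t204) (ns t207) (ns t199) (ns t208) t200.symm t201.symm t202.symm t205.symm t198.symm (ns t35) (ns t206) (ns t176) (ns t155) (ns t196) (ns t197)
            · have t209 : ¬ G.Adj (a 1) v := fun hc => hR (a 2) (a 1) v (a 0) (b 0) (c 5) hc fa0b0 fb0c5 (ns fc5a0) (ns fa1a2) t176 (ns fa0a2) fa2b0 (ns fc5a2) (ns fa0a1) fa1b0 (ns fc5a1) (ns t35) (ns t98) (ns t198) t5
              have t210 : G.Adj (c 0) v := Classical.byContradiction fun hc => hR v (b 1) (c 5) (a 2) (c 0) (a 3) fb1c5 fc0a2.symm fc0a3 fa2a3 (ns t182) (ns t198) (ns t176) (ns hc) (ns t155) (ns fa2b1) fb1c0 (ns fa3b1) fc5a2 (ns fc0c5) fc5a3 t22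
              rcases Classical.em (G.Adj (b 2) v) with t211 | t211
              · have t212 : ¬ G.Adj (c 2) v := fun hc => t176 (hD (b 2) (c 2) (a 2) v fb2c2 fa2b2.symm t211 fc2a2 hc (Ne.symm qva2))
                have t213 : G.Adj (b 4) v := Classical.byContradiction fun hc => hR (b 0) (b 2) v (a 3) (b 4) (a 4) t211 fa3b4 fa4b4.symm fa3a4 fb0b2 t98 (ns fa3b0) fb0b4 (ns fa4b0) (ns fa3b2) fb2b4 (ns fa4b2) (ns t155) (ns hc) (ns t196) t26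
                have t214 : G.Adj (b 5) v := Classical.byContradiction fun hc => hR (b 0) (b 2) v (a 3) (b 5) (a 4) t211 fa3b5 fa4b5.symm fa3a4 fb0b2 t98 (ns fa3b0) fb0b5 (ns fa4b0) (ns fa3b2) fb2b5 (ns fa4b2) (ns t155) (ns hc) (ns t196) t26
                have t215 : ¬ G.Adj (c 4) v := fun hc => hR (a 0) (c 4) v (a 2) (c 2) (a 3) hc fc2a2.symm fc2a3 fa2a3 (ns fc4a0) t35 fa0a2 (ns fc2a0) fa0a3 fc4a2 (ns fc2c4) fc4a3 (ns t176) (ns t212) (ns t155) t22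
                have t216 : G.Adj (b 3) v := Classical.byContradiction fun hc => hR (c 2) (c 0) v (c 4) (b 3) (c 5) t210 fb3c4.symm fb3c5 fc4c5 (ns fc0c2) t212 fc2c4 (ns fb3c2) fc2c5 fc0c4 (ns fb3c0) fc0c5 (ns t215) (ns hc) (ns t198) t34
                have t217 : ¬ G.Adj (c 3) v := fun hc => t155 (hD (b 3) (c 3) (a 3) v fb3c3 fa3b3.symm t216 fc3a3 hc (Ne.symm qva3))
                have t218 : G.Adj (c 1) v := Classical.byContradiction fun hc => k2 (ns t35) (ns t209) (ns t176) (ns t155) (ns t196) (ns t197) (ns t98) (ns t182) t211.symm t216.symm t213.symm t214.symm t210.symm (ns hc) (ns t212) (ns t217) (ns t215) (ns t198)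
                exact k3 (ns t35) (ns t209) (ns t176) (ns t155) (ns t196) (ns t197) (ns t98) (ns t182) t211.symm t216.symm t213.symm t214.symm t210.symm t218.symm (ns t212) (ns t217) (ns t215) (ns t198)
              · have t219 : G.Adj (c 1) v := Classical.byContradiction fun hc => hR v (a 0) (b 2) (a 3) (c 1) (a 4) fa0b2 fc1a3.symm fc1a4 fa3a4 (ns t35) (ns t211) (ns t155) (ns hc) (ns t196) fa0a3 (ns fc1a0) fa0a4 (ns fa3b2) fb2c1 (ns fa4b2) t26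
                rcases Classical.em (G.Adj (b 3) v) with t220 | t220
                · have t221 : ¬ G.Adj (c 3) v := fun hc => t155 (hD (b 3) (c 3) (a 3) v fb3c3 fa3b3.symm t220 fc3a3 hc (Ne.symm qva3))
                  have t222 : G.Adj (b 5) v := Classical.byContradiction fun hc => hR (b 0) (b 3) v (a 4) (b 5) (a 5) t220 fa4b5 fa5b5.symm fa4a5 fb0b3 t98 (ns fa4b0) fb0b5 (ns fa5b0) (ns fa4b3) fb3b5 (ns fa5b3) (ns t196) (ns hc) (ns t197) t32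
                  have t223 : G.Adj (b 4) v := Classical.byContradiction fun hc => hR (c 3) (c 1) v (a 0) (b 4) (c 5) t219 fa0b4 fb4c5 (ns fc5a0) (ns fc1c3) t221 fc3a0 (ns fb4c3) fc3c5 fc1a0 (ns fb4c1) fc1c5 (ns t35) (ns hc) (ns t198) t5
                  have t224 : ¬ G.Adj (c 4) v := fun hc => t196 (hD (b 4) (c 4) (a 4) v fb4c4 fa4b4.symm t223 fc4a4 hc (Ne.symm qva4))
                  have t225 : G.Adj (c 2) v := Classical.byContradiction fun hc => k4 (ns t35) (ns t209) (ns t176) (ns t155) (ns t196) (ns t197) (ns t98) (ns t182) (ns t211) t220.symm t223.symm t222.symm t210.symm t219.symm (ns hc) (ns t221) (ns t224) (ns t198)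
                  exact k5 (ns t35) (ns t209) (ns t176) (ns t155) (ns t196) (ns t197) (ns t98) (ns t182) (ns t211) t220.symm t223.symm t222.symm t210.symm t219.symm t225.symm (ns t221) (ns t224) (ns t198)
                · have t226 : G.Adj (c 2) v := Classical.byContradiction fun hc => hR (c 2) (c 1) v (a 0) (b 3) (c 5) t219 fa0b3 fb3c5 (ns fc5a0) (ns fc1c2) hc fc2a0 (ns fb3c2) fc2c5 fc1a0 (ns fb3c1) fc1c5 (ns t35) (ns t220) (ns t198) t5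
                  rcases Classical.em (G.Adj (c 4) v) with t227 | t227
                  · have t228 : ¬ G.Adj (b 4) v := fun hc => t196 (hD (b 4) (c 4) (a 4) v fb4c4 fa4b4.symm hc fc4a4 t227 (Ne.symm qva4))
                    have t229 : G.Adj (c 3) v := Classical.byContradiction fun hc => hR (c 3) (a 0) (b 4) (c 1) v (c 2) fa0b4 t219 t226.symm fc1c2 fc3a0 (ns fb4c3) (ns fc1c3) hc (ns fc2c3) (ns fc1a0) t35 (ns fc2a0) fb4c1 t228 fb4c2 t20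
                    have t230 : ¬ G.Adj (b 5) v := fun hc => k9 (ns t35) (ns t209) (ns t176) (ns t155) (ns t196) (ns t197) (ns t98) (ns t182) (ns t211) (ns t220) (ns t228) hc.symm t210.symm t219.symm t226.symm t229.symm t227.symm (ns t198)
                    exact k10 (ns t35) (ns t209) (ns t176) (ns t155) (ns t196) (ns t197) (ns t98) (ns t182) (ns t211) (ns t220) (ns t228) (ns t230) t210.symm t219.symm t226.symm t229.symm t227.symm (ns t198)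
                  · have t231 : G.Adj (b 5) v := Classical.byContradiction fun hc => hR (c 4) (a 0) (b 5) (c 1) v (c 2) fa0b5 t219 t226.symm fc1c2 fc4a0 (ns fb5c4) (ns fc1c4) t227 (ns fc2c4) (ns fc1a0) t35 (ns fc2a0) fb5c1 hc fb5c2 t20
                    rcases Classical.em (G.Adj (c 3) v) with t232 | t232
                    · have t233 : ¬ G.Adj (b 4) v := fun hc => k7 (ns t35) (ns t209) (ns t176) (ns t155) (ns t196) (ns t197) (ns t98) (ns t182) (ns t211) (ns t220) hc.symm t231.symm t210.symm t219.symm t226.symm t232.symm (ns t227) (ns t198)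
                      exact k8 (ns t35) (ns t209) (ns t176) (ns t155) (ns t196) (ns t197) (ns t98) (ns t182) (ns t211) (ns t220) (ns t233) t231.symm t210.symm t219.symm t226.symm t232.symm (ns t227) (ns t198)
                    · have t234 : G.Adj (b 4) v := Classical.byContradiction fun hc => hR (c 3) (a 0) (b 4) (c 1) v (c 2) fa0b4 t219 t226.symm fc1c2 fc3a0 (ns fb4c3) (ns fc1c3) t232 (ns fc2c3) (ns fc1a0) t35 (ns fc2a0) fb4c1 hc fb4c2 t20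
                      exact k6 (ns t35) (ns t209) (ns t176) (ns t155) (ns t196) (ns t197) (ns t98) (ns t182) (ns t211) (ns t220) t234.symm t231.symm t210.symm t219.symm t226.symm (ns t232) (ns t227) (ns t198)

lemma l_ind {G : SimpleGraph V} (hD : DF G) (hR : RF G) {a b c : Fin 6 → V} (h : TC6 G a b c)
    {x y : V}
    (wx : LA G a b c x) (wy : LA G a b c y) (a0 : G.Adj x y)
    : False := by
  have fa0b0 : G.Adj (a 0) (b 0) := (h.ab 0 0).2 (by decide)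
  have fc0a0 : G.Adj (c 0) (a 0) := (h.ca 0 0).2 (by decide)
  have fa0a1 : ¬ G.Adj (a 0) (a 1) := h.aa 0 1
  have fc5a0 : ¬ G.Adj (c 5) (a 0) := mt (h.ca 5 0).1 (by decide)
  have fa1b0 : ¬ G.Adj (a 1) (b 0) := mt (h.ab 1 0).1 (by decide)
  have fb0c5 : G.Adj (b 0) (c 5) := (h.bc 0 5).2 (by decide)
  have fc0c5 : ¬ G.Adj (c 0) (c 5) := h.cc 0 5
  have fc5a1 : ¬ G.Adj (c 5) (a 1) := mt (h.ca 5 1).1 (by decide)
  have t1 : (a 0) ≠ (c 5) := fun hc => eqa hc fc0a0.symm (ns fc0c5)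
  exact hR (a 1) x y (a 0) (b 0) (c 5) a0 fa0b0 fb0c5 (ns fc5a0) (ns (wx.1.na 1)) (ns (wy.1.na 1)) (ns fa0a1) fa1b0 (ns fc5a1) (wx.1.na 0) wx.2.1 wx.2.2 (wy.1.na 0) wy.2.1 wy.2.2 t1

lemma l_rb {G : SimpleGraph V} (hD : DF G) (hR : RF G) {a b c : Fin 6 → V} (h : TC6 G a b c)
    {x y z : V}
    (wx : LA G a b c x) (wy : LA G b c a y) (wz : LA G c a b z)
    (n0 : ¬ G.Adj x y) (n1 : ¬ G.Adj x z) (n2 : ¬ G.Adj y z)
    : False := by
  have fa0b0 : G.Adj (a 0) (b 0) := (h.ab 0 0).2 (by decide)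
  have fc0a0 : G.Adj (c 0) (a 0) := (h.ca 0 0).2 (by decide)
  have fc1a0 : ¬ G.Adj (c 1) (a 0) := mt (h.ca 1 0).1 (by decide)
  have fa0b2 : G.Adj (a 0) (b 2) := (h.ab 0 2).2 (by decide)
  have fa0a5 : ¬ G.Adj (a 0) (a 5) := h.aa 0 5
  have fc5a0 : ¬ G.Adj (c 5) (a 0) := mt (h.ca 5 0).1 (by decide)
  have fb0c0 : G.Adj (b 0) (c 0) := (h.bc 0 0).2 (by decide)
  have fb0b2 : ¬ G.Adj (b 0) (b 2) := h.bb 0 2
  have fb0c3 : G.Adj (b 0) (c 3) := (h.bc 0 3).2 (by decide)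
  have fb0b4 : ¬ G.Adj (b 0) (b 4) := h.bb 0 4
  have fa5b0 : ¬ G.Adj (a 5) (b 0) := mt (h.ab 5 0).1 (by decide)
  have fb0b5 : ¬ G.Adj (b 0) (b 5) := h.bb 0 5
  have fc0c1 : ¬ G.Adj (c 0) (c 1) := h.cc 0 1
  have fb2c0 : ¬ G.Adj (b 2) (c 0) := mt (h.bc 2 0).1 (by decide)
  have fc0c3 : ¬ G.Adj (c 0) (c 3) := h.cc 0 3
  have fc0a5 : G.Adj (c 0) (a 5) := (h.ca 0 5).2 (by decide)
  have fb5c0 : ¬ G.Adj (b 5) (c 0) := mt (h.bc 5 0).1 (by decide)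
  have fc0c5 : ¬ G.Adj (c 0) (c 5) := h.cc 0 5
  have fb2c1 : ¬ G.Adj (b 2) (c 1) := mt (h.bc 2 1).1 (by decide)
  have fb5c1 : ¬ G.Adj (b 5) (c 1) := mt (h.bc 5 1).1 (by decide)
  have fc1c5 : ¬ G.Adj (c 1) (c 5) := h.cc 1 5
  have fa5b2 : ¬ G.Adj (a 5) (b 2) := mt (h.ab 5 2).1 (by decide)
  have fb2b5 : ¬ G.Adj (b 2) (b 5) := h.bb 2 5
  have fb2c5 : G.Adj (b 2) (c 5) := (h.bc 2 5).2 (by decide)
  have fb4c3 : ¬ G.Adj (b 4) (c 3) := mt (h.bc 4 3).1 (by decide)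
  have fc3a5 : G.Adj (c 3) (a 5) := (h.ca 3 5).2 (by decide)
  have fb5c3 : ¬ G.Adj (b 5) (c 3) := mt (h.bc 5 3).1 (by decide)
  have fa5b4 : ¬ G.Adj (a 5) (b 4) := mt (h.ab 5 4).1 (by decide)
  have t1 : (a 0) ≠ (c 5) := fun hc => eqa hc fc0a0.symm (ns fc0c5)
  have t2 : (b 0) ≠ (a 5) := fun hc => eqa hc fa0b0.symm (ns fa0a5)
  have t3 : (c 0) ≠ (c 1) := fun hc => eqa hc fc0a0 fc1a0
  have t4 : (c 0) ≠ (b 5) := fun hc => eqa hc fb0c0.symm (ns fb0b5)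
  rcases Classical.em (G.Adj (b 2) x) with t5 | t5
  · have t6 : ¬ G.Adj (c 3) x := fun hc => wx.1.m1 2 3 (by decide) t5.symm hc.symm
    have t7 : G.Adj (b 4) x := Classical.byContradiction fun hc => wx.1.m4 2 4 (by decide) t5.symm (ns hc)
    have t8 : G.Adj (b 5) x := Classical.byContradiction fun hc => wx.1.m4 2 5 (by decide) t5.symm (ns hc)
    have t9 : G.Adj (c 0) x := Classical.byContradiction fun hc => hR y (b 2) x (b 0) (c 0) (a 5) t5 fb0c0 fc0a5 (ns fa5b0) (wy.1.na 2) (ns n0) (wy.1.na 0) wy.2.1 wy.2.2 (ns fb0b2) fb2c0 (ns fa5b2) wx.2.1 (ns hc) (wx.1.na 5) t2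
    have t10 : G.Adj (c 3) y := Classical.byContradiction fun hc => hR y (b 4) x (b 0) (c 3) (a 5) t7 fb0c3 fc3a5 (ns fa5b0) (wy.1.na 4) (ns n0) (wy.1.na 0) (ns hc) wy.2.2 (ns fb0b4) fb4c3 (ns fa5b4) wx.2.1 (ns t6) (wx.1.na 5) t2
    exact hR z (c 3) y (c 0) x (b 5) t10 t9 t8.symm (ns fb5c0) (wz.1.na 3) (ns n2) (wz.1.na 0) (ns n1) wz.2.2 (ns fc0c3) t6 (ns fb5c3) wy.2.1 (ns n0) (wy.1.na 5) t4
  · have t11 : G.Adj (c 0) x := Classical.byContradiction fun hc => wx.1.m2 0 2 (by decide) (ns hc) (ns t5)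
    have t12 : G.Adj (c 1) x := Classical.byContradiction fun hc => wx.1.m2 1 2 (by decide) (ns hc) (ns t5)
    have t13 : G.Adj (b 2) z := Classical.byContradiction fun hc => hR z (c 1) x (a 0) (b 2) (c 5) t12 fa0b2 fb2c5 (ns fc5a0) (wz.1.na 1) (ns n1) wz.2.1 (ns hc) (wz.1.na 5) fc1a0 (ns fb2c1) fc1c5 (wx.1.na 0) (ns t5) wx.2.2 t1
    have t14 : ¬ G.Adj (b 5) x := fun hc => hR y (b 2) z (c 0) x (b 5) t13 t11 hc.symm (ns fb5c0) (wy.1.na 2) n2 wy.2.1 (ns n0) (wy.1.na 5) fb2c0 t5 fb2b5 (wz.1.na 0) (ns n1) wz.2.2 t4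
    exact hR (b 5) (b 2) z (c 0) x (c 1) t13 t11 t12.symm fc0c1 (ns fb2b5) (ns wz.2.2) fb5c0 t14 fb5c1 fb2c0 t5 fb2c1 (wz.1.na 0) (ns n1) (wz.1.na 1) t3

lemma l_far {G : SimpleGraph V} (hD : DF G) (hR : RF G) {a b c : Fin 6 → V} (h : TC6 G a b c)
    {x y : V}
    (wx : LA G a b c x) (wy : LA G c a b y) (a0 : G.Adj x y)
    (n0 : ¬ G.Adj x (c 1)) (n1 : ¬ G.Adj y (a 2))
    : False := by
  have fa0a1 : ¬ G.Adj (a 0) (a 1) := h.aa 0 1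
  have fc1a0 : ¬ G.Adj (c 1) (a 0) := mt (h.ca 1 0).1 (by decide)
  have fa0a2 : ¬ G.Adj (a 0) (a 2) := h.aa 0 2
  have fa1b1 : G.Adj (a 1) (b 1) := (h.ab 1 1).2 (by decide)
  have fc1a1 : G.Adj (c 1) (a 1) := (h.ca 1 1).2 (by decide)
  have fa1a2 : ¬ G.Adj (a 1) (a 2) := h.aa 1 2
  have fa2b1 : ¬ G.Adj (a 2) (b 1) := mt (h.ab 2 1).1 (by decide)
  have fc1a2 : G.Adj (c 1) (a 2) := (h.ca 1 2).2 (by decide)
  have t1 : ¬ G.Adj (a 1) y := fun hc => wy.1.m4 1 2 (by decide) hc.symm n1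
  have t2 : (a 1) ≠ (a 2) := fun hc => eqa hc fa1b1 fa2b1
  exact hR (a 0) x y (a 1) (c 1) (a 2) a0 fc1a1.symm fc1a2 fa1a2 (ns (wx.1.na 0)) (ns wy.2.1) fa0a1 (ns fc1a0) fa0a2 (wx.1.na 1) n0 (wx.1.na 2) (ns t1) (wy.1.na 1) n1 t2

lemma l_ua {G : SimpleGraph V} (hD : DF G) (hR : RF G) {a b c : Fin 6 → V} (h : TC6 G a b c)
    {x y z : V}
    (wz : WA G a b c z) (wx : LA G a b c x) (wy : LA G a b c y)
    (a0 : G.Adj x (c 1)) (a1 : G.Adj x (b 4)) (a2 : G.Adj y (c 1))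
    (a3 : G.Adj y (b 4)) (a4 : G.Adj x z) (n0 : ¬ G.Adj y z)
    (k0 : ¬ G.Adj z (b 0) → ¬ G.Adj z (c 5) → False)
    : False := by
  have fa0b0 : G.Adj (a 0) (b 0) := (h.ab 0 0).2 (by decide)
  have fa0a1 : ¬ G.Adj (a 0) (a 1) := h.aa 0 1
  have fa0b1 : G.Adj (a 0) (b 1) := (h.ab 0 1).2 (by decide)
  have fa0a2 : ¬ G.Adj (a 0) (a 2) := h.aa 0 2
  have fa0a4 : ¬ G.Adj (a 0) (a 4) := h.aa 0 4
  have fc4a0 : ¬ G.Adj (c 4) (a 0) := mt (h.ca 4 0).1 (by decide)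
  have fa0a5 : ¬ G.Adj (a 0) (a 5) := h.aa 0 5
  have fa1b0 : ¬ G.Adj (a 1) (b 0) := mt (h.ab 1 0).1 (by decide)
  have fb0c4 : G.Adj (b 0) (c 4) := (h.bc 0 4).2 (by decide)
  have fa1b1 : G.Adj (a 1) (b 1) := (h.ab 1 1).2 (by decide)
  have fc1a1 : G.Adj (c 1) (a 1) := (h.ca 1 1).2 (by decide)
  have fa1a2 : ¬ G.Adj (a 1) (a 2) := h.aa 1 2
  have fb1c1 : G.Adj (b 1) (c 1) := (h.bc 1 1).2 (by decide)
  have fa2b1 : ¬ G.Adj (a 2) (b 1) := mt (h.ab 2 1).1 (by decide)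
  have fa3b1 : ¬ G.Adj (a 3) (b 1) := mt (h.ab 3 1).1 (by decide)
  have fb1b4 : ¬ G.Adj (b 1) (b 4) := h.bb 1 4
  have fa5b1 : ¬ G.Adj (a 5) (b 1) := mt (h.ab 5 1).1 (by decide)
  have fa2b2 : G.Adj (a 2) (b 2) := (h.ab 2 2).2 (by decide)
  have fa2a3 : ¬ G.Adj (a 2) (a 3) := h.aa 2 3
  have fa2b4 : G.Adj (a 2) (b 4) := (h.ab 2 4).2 (by decide)
  have fa2a5 : ¬ G.Adj (a 2) (a 5) := h.aa 2 5
  have fa3b2 : ¬ G.Adj (a 3) (b 2) := mt (h.ab 3 2).1 (by decide)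
  have fa3b4 : G.Adj (a 3) (b 4) := (h.ab 3 4).2 (by decide)
  have fa3a5 : ¬ G.Adj (a 3) (a 5) := h.aa 3 5
  have fa4b4 : G.Adj (a 4) (b 4) := (h.ab 4 4).2 (by decide)
  have fc4a4 : G.Adj (c 4) (a 4) := (h.ca 4 4).2 (by decide)
  have fa4a5 : ¬ G.Adj (a 4) (a 5) := h.aa 4 5
  have fb4c4 : G.Adj (b 4) (c 4) := (h.bc 4 4).2 (by decide)
  have fa5b4 : ¬ G.Adj (a 5) (b 4) := mt (h.ab 5 4).1 (by decide)
  have fc4a5 : G.Adj (c 4) (a 5) := (h.ca 4 5).2 (by decide)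
  have t1 : (a 0) ≠ (a 1) := fun hc => eqa hc fa0b0 fa1b0
  have t2 : (a 1) ≠ x := fun hc => eqa hc.symm a4 (ns (wz.na 1))
  have t3 : (a 2) ≠ (a 3) := fun hc => eqa hc fa2b2 fa3b2
  have t4 : (a 4) ≠ (a 5) := fun hc => eqa hc fa4b4 fa5b4
  have t5 : (a 4) ≠ x := fun hc => eqa hc.symm a4 (ns (wz.na 4))
  have t6 : (c 4) ≠ x := fun hc => eqa hc fb0c4.symm wx.2.1
  have t7 : ¬ G.Adj (b 1) x := fun hc => (ns (wx.1.na 1)) (hD (b 1) (c 1) (a 1) x fb1c1 fa1b1.symm hc fc1a1 a0.symm t2)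
  have t8 : ¬ G.Adj (c 4) x := fun hc => (ns (wx.1.na 4)) (hD (b 4) (c 4) (a 4) x fb4c4 fa4b4.symm a1.symm fc4a4 hc t5)
  have t9 : G.Adj (c 4) z := Classical.byContradiction fun hc => hR (a 0) x z (a 4) (c 4) (a 5) a4 fc4a4.symm fc4a5 fa4a5 (ns (wx.1.na 0)) (ns (wz.na 0)) fa0a4 (ns fc4a0) fa0a5 (wx.1.na 4) (ns t8) (wx.1.na 5) (wz.na 4) (ns hc) (wz.na 5) t4
  have t10 : G.Adj (b 1) z := Classical.byContradiction fun hc => hR (a 2) x z (a 0) (b 1) (a 1) a4 fa0b1 fa1b1.symm fa0a1 (ns (wx.1.na 2)) (ns (wz.na 2)) (ns fa0a2) fa2b1 (ns fa1a2) (wx.1.na 0) (ns t7) (wx.1.na 1) (wz.na 0) (ns hc) (wz.na 1) t1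
  have t11 : G.Adj (b 4) z := Classical.byContradiction fun hc => hR (a 5) (b 1) z (a 2) (b 4) (a 3) t10 fa2b4 fa3b4.symm fa2a3 fa5b1 (ns (wz.na 5)) (ns fa2a5) fa5b4 (ns fa3a5) (ns fa2b1) fb1b4 (ns fa3b1) (wz.na 2) (ns hc) (wz.na 3) t3
  exact t8 (hD (b 4) z (c 4) x t11 fb4c4 a1.symm t9.symm a4.symm t6)

lemma l_ub {G : SimpleGraph V} (hD : DF G) (hR : RF G) {a b c : Fin 6 → V} (h : TC6 G a b c)
    {x y z : V}
    (wz : WA G b c a z) (wx : LA G a b c x) (wy : LA G a b c y)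
    (a0 : G.Adj x (c 1)) (a1 : G.Adj x (b 4)) (a2 : G.Adj y (c 1))
    (a3 : G.Adj y (b 4)) (a4 : G.Adj x z) (n0 : ¬ G.Adj y z)
    (k0 : ¬ G.Adj z (c 0) → ¬ G.Adj z (a 5) → False)
    : False := by
  have fc0a0 : G.Adj (c 0) (a 0) := (h.ca 0 0).2 (by decide)
  have fc1a0 : ¬ G.Adj (c 1) (a 0) := mt (h.ca 1 0).1 (by decide)
  have fb0b1 : ¬ G.Adj (b 0) (b 1) := h.bb 0 1
  have fb0b2 : ¬ G.Adj (b 0) (b 2) := h.bb 0 2
  have fb0b4 : ¬ G.Adj (b 0) (b 4) := h.bb 0 4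
  have fa5b0 : ¬ G.Adj (a 5) (b 0) := mt (h.ab 5 0).1 (by decide)
  have fb1c0 : ¬ G.Adj (b 1) (c 0) := mt (h.bc 1 0).1 (by decide)
  have fc0c1 : ¬ G.Adj (c 0) (c 1) := h.cc 0 1
  have fb2c0 : ¬ G.Adj (b 2) (c 0) := mt (h.bc 2 0).1 (by decide)
  have fc0c5 : ¬ G.Adj (c 0) (c 5) := h.cc 0 5
  have fb1c1 : G.Adj (b 1) (c 1) := (h.bc 1 1).2 (by decide)
  have fb1b2 : ¬ G.Adj (b 1) (b 2) := h.bb 1 2
  have fb1b4 : ¬ G.Adj (b 1) (b 4) := h.bb 1 4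
  have fa5b1 : ¬ G.Adj (a 5) (b 1) := mt (h.ab 5 1).1 (by decide)
  have fb1c5 : G.Adj (b 1) (c 5) := (h.bc 1 5).2 (by decide)
  have fb2c1 : ¬ G.Adj (b 2) (c 1) := mt (h.bc 2 1).1 (by decide)
  have fb4c1 : ¬ G.Adj (b 4) (c 1) := mt (h.bc 4 1).1 (by decide)
  have fb2c2 : G.Adj (b 2) (c 2) := (h.bc 2 2).2 (by decide)
  have fb2b4 : ¬ G.Adj (b 2) (b 4) := h.bb 2 4
  have fa5b2 : ¬ G.Adj (a 5) (b 2) := mt (h.ab 5 2).1 (by decide)
  have fb2c5 : G.Adj (b 2) (c 5) := (h.bc 2 5).2 (by decide)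
  have fb4c2 : ¬ G.Adj (b 4) (c 2) := mt (h.bc 4 2).1 (by decide)
  have fa5b4 : ¬ G.Adj (a 5) (b 4) := mt (h.ab 5 4).1 (by decide)
  have fa5b5 : G.Adj (a 5) (b 5) := (h.ab 5 5).2 (by decide)
  have fc5a5 : G.Adj (c 5) (a 5) := (h.ca 5 5).2 (by decide)
  have fb5c5 : G.Adj (b 5) (c 5) := (h.bc 5 5).2 (by decide)
  have t1 : G.Adj (c 0) x := Classical.byContradiction fun hc => wx.1.m3 0 1 (by decide) a0 (ns hc)
  have t2 : G.Adj (c 0) y := Classical.byContradiction fun hc => wy.1.m3 0 1 (by decide) a2 (ns hc)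
  have t3 : G.Adj (b 5) y := Classical.byContradiction fun hc => wy.1.m4 4 5 (by decide) a3 (ns hc)
  have t4 : (c 0) ≠ (c 1) := fun hc => eqa hc fc0a0 fc1a0
  have t5 : (b 1) ≠ (b 2) := fun hc => eqa hc fb1c1 fb2c1
  have t6 : (b 1) ≠ (b 4) := fun hc => eqa hc fb1c1 fb4c1
  have t7 : (b 2) ≠ (b 4) := fun hc => eqa hc fb2c2 fb4c2
  have t8 : (b 5) ≠ z := fun hc => eqa hc t3 (ns n0)
  rcases Classical.em (G.Adj (a 5) z) with t9 | t9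
  · have t10 : ¬ G.Adj (c 0) z := fun hc => wz.m1 0 5 (by decide) hc.symm t9.symm
    have t11 : ¬ G.Adj (c 5) z := fun hc => (ns (wz.na 5)) (hD (a 5) (c 5) (b 5) z fc5a5.symm fa5b5 t9 fb5c5.symm hc t8)
    have t12 : ¬ G.Adj (b 1) y := fun hc => hR (b 0) (a 5) z (b 1) y (b 4) t9 hc a3 fb1b4 (ns fa5b0) (ns (wz.na 0)) fb0b1 (ns wy.2.1) fb0b4 fa5b1 (ns (wy.1.na 5)) fa5b4 (wz.na 1) (ns n0) (wz.na 4) t6
    have t13 : ¬ G.Adj (b 2) y := fun hc => hR (b 0) (a 5) z (b 2) y (b 4) t9 hc a3 fb2b4 (ns fa5b0) (ns (wz.na 0)) fb0b2 (ns wy.2.1) fb0b4 fa5b2 (ns (wy.1.na 5)) fa5b4 (wz.na 2) (ns n0) (wz.na 4) t7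
    exact hR z (c 0) y (b 1) (c 5) (b 2) t2 fb1c5 fb2c5.symm fb1b2 (ns t10) (ns n0) (wz.na 1) (ns t11) (wz.na 2) (ns fb1c0) fc0c5 (ns fb2c0) (ns t12) wy.2.2 (ns t13) t5
  · have t14 : G.Adj (c 0) z := Classical.byContradiction fun hc => k0 (ns hc) (ns t9)
    have t15 : G.Adj (c 1) z := Classical.byContradiction fun hc => wz.m4 0 1 (by decide) t14.symm (ns hc)
    exact fc0c1 (hD x z (c 0) (c 1) a4 t1.symm a0 t14.symm t15.symm t4)

lemma l_uc {G : SimpleGraph V} (hD : DF G) (hR : RF G) {a b c : Fin 6 → V} (h : TC6 G a b c)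
    {x y z : V}
    (wz : WA G c a b z) (wx : LA G a b c x) (wy : LA G a b c y)
    (a0 : G.Adj x (c 1)) (a1 : G.Adj x (b 4)) (a2 : G.Adj y (c 1))
    (a3 : G.Adj y (b 4)) (a4 : G.Adj x z) (n0 : ¬ G.Adj y z)
    (k0 : ¬ G.Adj z (a 0) → ¬ G.Adj z (b 5) → False)
    : False := by
  have fa0b0 : G.Adj (a 0) (b 0) := (h.ab 0 0).2 (by decide)
  have fc0a0 : G.Adj (c 0) (a 0) := (h.ca 0 0).2 (by decide)
  have fb0c0 : G.Adj (b 0) (c 0) := (h.bc 0 0).2 (by decide)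
  have fb0b1 : ¬ G.Adj (b 0) (b 1) := h.bb 0 1
  have fa2b0 : ¬ G.Adj (a 2) (b 0) := mt (h.ab 2 0).1 (by decide)
  have fa3b0 : ¬ G.Adj (a 3) (b 0) := mt (h.ab 3 0).1 (by decide)
  have fa2b1 : ¬ G.Adj (a 2) (b 1) := mt (h.ab 2 1).1 (by decide)
  have fa3b1 : ¬ G.Adj (a 3) (b 1) := mt (h.ab 3 1).1 (by decide)
  have fb1c5 : G.Adj (b 1) (c 5) := (h.bc 1 5).2 (by decide)
  have fa2b2 : G.Adj (a 2) (b 2) := (h.ab 2 2).2 (by decide)
  have fa2a3 : ¬ G.Adj (a 2) (a 3) := h.aa 2 3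
  have fc5a2 : ¬ G.Adj (c 5) (a 2) := mt (h.ca 5 2).1 (by decide)
  have fa3b2 : ¬ G.Adj (a 3) (b 2) := mt (h.ab 3 2).1 (by decide)
  have fc5a3 : ¬ G.Adj (c 5) (a 3) := mt (h.ca 5 3).1 (by decide)
  have fb4c4 : G.Adj (b 4) (c 4) := (h.bc 4 4).2 (by decide)
  have fb4b5 : ¬ G.Adj (b 4) (b 5) := h.bb 4 5
  have fb5c4 : ¬ G.Adj (b 5) (c 4) := mt (h.bc 5 4).1 (by decide)
  have t1 : G.Adj (b 5) x := Classical.byContradiction fun hc => wx.1.m4 4 5 (by decide) a1 (ns hc)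
  have t2 : G.Adj (c 0) y := Classical.byContradiction fun hc => wy.1.m3 0 1 (by decide) a2 (ns hc)
  have t3 : (a 2) ≠ (a 3) := fun hc => eqa hc fa2b2 fa3b2
  have t4 : (b 4) ≠ (b 5) := fun hc => eqa hc fb4c4 fb5c4
  have t5 : (c 0) ≠ z := fun hc => eqa hc t2 (ns n0)
  rcases Classical.em (G.Adj (a 0) z) with t6 | t6
  · have t7 : ¬ G.Adj (b 1) z := fun hc => wz.m1 0 1 (by decide) t6.symm hc.symm
    have t8 : G.Adj (a 2) z := Classical.byContradiction fun hc => wz.m4 0 2 (by decide) t6.symm (ns hc)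
    have t9 : G.Adj (a 3) z := Classical.byContradiction fun hc => wz.m4 0 3 (by decide) t6.symm (ns hc)
    have t10 : ¬ G.Adj (b 0) z := fun hc => (ns (wz.na 0)) (hD (a 0) (b 0) (c 0) z fa0b0 fc0a0.symm t6 fb0c0 hc t5)
    have t11 : G.Adj (b 1) y := Classical.byContradiction fun hc => hR y (b 1) (c 5) (a 2) z (a 3) fb1c5 t8 t9.symm fa2a3 (ns hc) wy.2.2 (wy.1.na 2) n0 (wy.1.na 3) (ns fa2b1) t7 (ns fa3b1) fc5a2 (ns (wz.na 5)) fc5a3 t3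
    exact hR (b 0) (b 1) y (a 2) z (a 3) t11 t8 t9.symm fa2a3 fb0b1 (ns wy.2.1) (ns fa2b0) t10 (ns fa3b0) (ns fa2b1) t7 (ns fa3b1) (wy.1.na 2) n0 (wy.1.na 3) t3
  · have t12 : G.Adj (b 5) z := Classical.byContradiction fun hc => k0 (ns t6) (ns hc)
    have t13 : G.Adj (b 4) z := Classical.byContradiction fun hc => wz.m3 4 5 (by decide) t12.symm (ns hc)
    exact fb4b5 (hD x z (b 4) (b 5) a4 a1 t1.symm t13.symm t12.symm t4)

end Pool.Agent.MP_41f2d3_co
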