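import Pool.Agent.MP_41f2d3_co.Bip

/-! Three-partite graphs without rainbow independent triples. -/

namespace Pool.Agent.MP_41f2d3_co

lemma fin3_third' : ∀ i j l d : Fin 3, i ≠ j → i ≠ l → j ≠ l → d ≠ i → d ≠ l → j = d := by
  intro i j l d; omega

lemma fin3_side : ∀ i x y : Fin 3, x ≠ y → x ≠ i → y ≠ i → (x = i + 1 ↔ ¬y = i + 1) := by decide

open Finset Classical

noncomputable section

variable {V : Type}

lemma W_cut {G : SimpleGraph V} {k : ℕ} {S : Finset V} (col : V → Fin 3)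
    (h : ∀ P ⊆ S, W G k P ∨ ∃ A ⊆ P, A.Nonempty ∧ ¬ P ⊆ A ∧
      ∀ a ∈ A, ∀ b ∈ P, b ∉ A → (G.Adj a b ↔ col b = col a + 1)) :
    W G (3 * (k + 1)) S := by
  have key : ∀ n, ∀ P ⊆ S, P.card = n →
      (∀ x ∈ P, ∀ y ∈ P, col x = col y → ∀ z ∈ S, z ∉ P → (G.Adj x z ↔ G.Adj y z)) →
      Dec G (3 * (k + 1)) S P := by
    intro n
    induction n using Nat.strong_induction_on with
    | _ n ih =>
      intro P hP hn hu
      rcases h P hP with hW | ⟨A, hA, hAne, hnot, hc⟩
      · refine Dec.transfer hW (fun Z hZ hT => ?_)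
        refine Ty_transfer col univ (by simp) (fun _ _ => mem_univ _) ?_ hT
        intro x hx y hy hxy hh z hz hzZ
        by_cases hzP : z ∈ P
        · exact hh z hzP hzZ
        · exact hu x (hZ hx) y (hZ hy) hxy z hz hzP
      · have hlt : A.card < P.card := card_lt_card ⟨hA, hnot⟩
        have e : A ∪ (P \ A) = P := union_sdiff_of_subset hA
        have d1 : Dec G (3 * (k + 1)) S A := by
          refine ih _ (by omega) A (hA.trans hP) rfl ?_
          intro x hx y hy hxy z hz hzA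
          by_cases hzP : z ∈ P
          · rw [hc x hx z hzP hzA, hc y hy z hzP hzA, hxy]
          · exact hu x (hA hx) y (hA hy) hxy z hz hzP
        have d2 : Dec G (3 * (k + 1)) S (P \ A) := by
          refine ih _ ?_ (P \ A) (sdiff_subset.trans hP) rfl ?_
          · rw [card_sdiff_of_subset hA]
            have := card_pos.2 hAne
            omega
          · intro x hx y hy hxy z hz hzA
            rw [mem_sdiff] at hx hy
            by_cases hzP : z ∈ P
            · have hzA' : z ∈ A := by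
                by_contra hh
                exact hzA (mem_sdiff.2 ⟨hzP, hh⟩)
              rw [G.adj_comm x z, G.adj_comm y z, hc z hzA' x hx.1 hx.2, hc z hzA' y hy.1 hy.2, hxy]
            · exact hu x hx.1 y hy.1 hxy z hz hzP
        have := Dec.union A (P \ A) d1 d2 disjoint_sdiff (by
          rw [e]
          exact Ty_of_labels col univ (by simp) (fun _ _ => Or.inr (mem_univ _)) hu)
        rw [e] at this
        exact this
  exact key _ S Subset.rfl rfl (fun _ _ _ _ _ z hz hz' => absurd hz hz')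

lemma fin3_cases (i : Fin 3) : i = 0 ∨ i = 1 ∨ i = 2 := by
  revert i; decide

lemma cut_notri {G : SimpleGraph V} {P : Finset V} (col : V → Fin 3)
    (hind : ∀ a ∈ P, ∀ b ∈ P, G.Adj a b → col a ≠ col b)
    (h3 : ∀ a ∈ P, ∀ b ∈ P, ∀ c ∈ P, col a ≠ col b → col a ≠ col c → col b ≠ col c →
      G.Adj a b ∨ G.Adj a c ∨ G.Adj b c)
    (hnt : ∀ a ∈ P, ∀ b ∈ P, ∀ c ∈ P, G.Adj a b → G.Adj a c → G.Adj b c → False)
    {a b c : V} (ha : a ∈ P) (hb : b ∈ P) (hc : c ∈ P) (hab : col a ≠ col b)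
    (hac : col a ≠ col c) (hbc : col b ≠ col c) :
    ∃ A ⊆ P, A.Nonempty ∧ ¬ P ⊆ A ∧
      ∀ a ∈ A, ∀ b ∈ P, b ∉ A → (G.Adj a b ↔ col b = col a + 1) := by
  let arc : V → V → Prop := fun x y => col x ≠ col y ∧ (G.Adj x y ↔ col y = col x + 1)
  have tot : ∀ x y, col x ≠ col y → arc x y ∨ arc y x := by
    intro x y h
    simp only [arc]
    rw [G.adj_comm y x]
    rcases fin3_cases (col x) with e1 | e1 | e1 <;> rcases fin3_cases (col y) with e2 | e2 | e2 <;>
      simp [e1, e2] at h ⊢ <;> tauto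
  have asym : ∀ x y, arc x y → arc y x → False := by
    intro x y h1 h2
    simp only [arc] at h1 h2
    rw [G.adj_comm y x] at h2
    rcases fin3_cases (col x) with e1 | e1 | e1 <;> rcases fin3_cases (col y) with e2 | e2 | e2 <;>
      simp [e1, e2] at h1 h2 <;> tauto
  have trans : ∀ x ∈ P, ∀ y ∈ P, ∀ z ∈ P, arc x y → arc y z → col x ≠ col z → arc x z := by
    intro x hx y hy z hz h1 h2 h
    have a1 := h3 x hx y hy z hz h1.1 h h2.1
    have a2 := hnt x hx y hy z hz
    simp only [arc] at h1 h2 ⊢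
    rcases fin3_cases (col x) with e1 | e1 | e1 <;> rcases fin3_cases (col y) with e2 | e2 | e2 <;>
      rcases fin3_cases (col z) with e3 | e3 | e3 <;>
      simp [e1, e2, e3] at h1 h2 h ⊢ <;> tauto
  have main : ∀ p ∈ P, ∀ z ∈ P, ∀ v ∈ P, arc p z → arc z v → col p ≠ col v →
      ∃ A ⊆ P, A.Nonempty ∧ ¬ P ⊆ A ∧
      ∀ a ∈ A, ∀ b ∈ P, b ∉ A → (G.Adj a b ↔ col b = col a + 1) := by
    intro p hp z hz v hv h1 h2 hpv
    let Q : V → Prop := fun v => ∀ δ, δ ≠ col p → δ ≠ col v →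
      ∃ z ∈ P, col z = δ ∧ arc p z ∧ arc z v
    have third : ∀ i j : Fin 3, ∃ d, d ≠ i ∧ d ≠ j := by decide
    have third' := fin3_third'
    have hcl : ∀ x ∈ P, ∀ y ∈ P, Q x → arc x y → Q y := by
      intro x hx y hy hQ hxy δ d1 d2
      by_cases e : col x = δ
      · obtain ⟨d, d3, d4⟩ := third (col p) (col x)
        obtain ⟨w, hw, _, w1, w2⟩ := hQ d d3 d4
        exact ⟨x, hx, e, trans p hp w hw x hx w1 w2 (fun h => d1 (e ▸ h.symm)), hxy⟩
      · obtain ⟨w, hw, e', w1, w2⟩ := hQ δ d1 (fun h => e h.symm)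
        exact ⟨w, hw, e', w1, trans w hw x hx y hy w2 hxy (e' ▸ d2)⟩
    refine ⟨P.filter (fun x => ¬ Q x), filter_subset _ _, ⟨p, mem_filter.2 ⟨hp, ?_⟩⟩, ?_, ?_⟩
    · intro hQ
      obtain ⟨d, d3, _⟩ := third (col p) (col p)
      obtain ⟨w, _, _, w1, w2⟩ := hQ d d3 d3
      exact asym _ _ w1 w2
    · intro h
      refine (mem_filter.1 (h hv)).2 (fun δ d1 d2 => ⟨z, hz, ?_, h1, h2⟩)
      exact third' _ _ _ _ h1.1 hpv h2.1 d1 d2
    · intro x hx y hy hyn
      rw [mem_filter] at hx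
      have hQy : Q y := by
        by_contra hh
        exact hyn (mem_filter.2 ⟨hy, hh⟩)
      by_cases e : col x = col y
      · constructor
        · intro h; exact absurd e (hind x hx.1 y hy h)
        · intro h
          rw [e] at h
          exfalso
          revert h
          generalize col y = i
          revert i
          decide
      · rcases tot x y e with h | h
        · exact h.2
        · exact absurd (hcl y hy x hx.1 hQy h) hx.2
  rcases tot a b hab with h1 | h1 <;> rcases tot a c hac with h2 | h2 <;>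
    rcases tot b c hbc with h3 | h3
  · exact main a ha b hb c hc h1 h3 hac
  · exact main a ha c hc b hb h2 h3 hab
  · exact main a ha b hb c hc h1 h3 hac
  · exact main c hc a ha b hb h2 h1 hbc.symm
  · exact main b hb a ha c hc h1 h2 hbc
  · exact main b hb a ha c hc h1 h2 hbc
  · exact main b hb c hc a ha h3 h2 hab.symm
  · exact main c hc b hb a ha h3 h1 hac.symm

lemma cut_tri {G : SimpleGraph V} (hD : DF G) {P : Finset V} (col : V → Fin 3)
    (hind : ∀ a ∈ P, ∀ b ∈ P, G.Adj a b → col a ≠ col b)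
    (h3 : ∀ a ∈ P, ∀ b ∈ P, ∀ c ∈ P, col a ≠ col b → col a ≠ col c → col b ≠ col c →
      G.Adj a b ∨ G.Adj a c ∨ G.Adj b c)
    (h2 : ∀ a ∈ P, ∀ b ∈ P, ∀ c ∈ P, ∀ d ∈ P, col a = col c → col b = col d → G.Adj a b →
      G.Adj c d → G.Adj a d ∨ G.Adj c b)
    {a b c : V} (ha : a ∈ P) (hb : b ∈ P) (hc : c ∈ P) (ca : col a = 0) (cb : col b = 1)
    (cc : col c = 2) (hab : G.Adj a b) (hac : G.Adj a c) (hbc : G.Adj b c) :
    W G (J 3 5) P ∨ ∃ A ⊆ P, A.Nonempty ∧ ¬ P ⊆ A ∧
      ∀ a ∈ A, ∀ b ∈ P, b ∉ A → (G.Adj a b ↔ col b = col a + 1) := by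
  let T : V → Prop := fun v => v = a ∨ v = b ∨ v = c
  let B : V → Prop := fun v => ¬ T v ∧
    ((col v = 0 ∧ G.Adj v b) ∨ (col v = 1 ∧ G.Adj v c) ∨ (col v = 2 ∧ G.Adj v a))
  let A : V → Prop := fun v => ¬ T v ∧
    ((col v = 0 ∧ G.Adj v c) ∨ (col v = 1 ∧ G.Adj v a) ∨ (col v = 2 ∧ G.Adj v b))
  have one : ∀ v ∈ P, ¬ T v → (col v = 0 → ¬ G.Adj v a ∧ ¬ (G.Adj v b ∧ G.Adj v c)) ∧
      (col v = 1 → ¬ G.Adj v b ∧ ¬ (G.Adj v a ∧ G.Adj v c)) ∧
      (col v = 2 → ¬ G.Adj v c ∧ ¬ (G.Adj v a ∧ G.Adj v b)) := by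
    intro v hv hT
    simp only [T, not_or] at hT
    refine ⟨fun e => ?_, fun e => ?_, fun e => ?_⟩
    · have n : ¬ G.Adj v a := fun h => hind v hv a ha h (by rw [e, ca])
      exact ⟨n, fun h => n (hD b c v a hbc h.1.symm hab.symm h.2.symm hac.symm hT.1)⟩
    · have n : ¬ G.Adj v b := fun h => hind v hv b hb h (by rw [e, cb])
      exact ⟨n, fun h => n (hD a c v b hac h.1.symm hab h.2.symm hbc.symm hT.2.1)⟩
    · have n : ¬ G.Adj v c := fun h => hind v hv c hc h (by rw [e, cc])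
      exact ⟨n, fun h => n (hD a b v c hab h.1.symm hac h.2.symm hbc hT.2.2)⟩
  have pair : ∀ v ∈ P, ∀ w ∈ P, ¬ T v → ¬ T w → (B v ∧ ¬ B w) ∨ (A w ∧ ¬ A v) →
      (G.Adj v w ↔ col w = col v + 1) := by
    intro v hv w hw tv tw h
    have o1 := one v hv tv
    have o2 := one w hw tw
    have i1 := hind v hv w hw
    have s1 := h3 v hv w hw a ha
    have s2 := h3 v hv w hw b hb
    have s3 := h3 v hv w hw c hc
    have k1 := h2 v hv w hw a ha b hb
    have k2 := h2 v hv w hw a ha c hc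
    have k3 := h2 v hv w hw b hb a ha
    have k4 := h2 v hv w hw b hb c hc
    have k5 := h2 v hv w hw c hc a ha
    have k6 := h2 v hv w hw c hc b hb
    simp only [B, A, tv, tw, not_false_eq_true, true_and] at h
    rw [G.adj_comm a w] at k1 k2
    rw [G.adj_comm b w] at k3 k4
    rw [G.adj_comm c w] at k5 k6
    have hba := hab.symm
    have hca := hac.symm
    have hcb := hbc.symm
    rcases fin3_cases (col v) with e1 | e1 | e1 <;> rcases fin3_cases (col w) with e2 | e2 | e2 <;>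
      simp [e1, e2, ca, cb, cc, hab, hac, hbc, hba, hca, hcb] at h o1 o2 i1 s1 s2 s3 k1 k2 k3 k4 k5 k6 ⊢ <;>
      grind
  by_cases hB : ∃ v ∈ P, B v
  · right
    obtain ⟨v, hv, hBv⟩ := hB
    refine ⟨P.filter B, filter_subset _ _, ⟨v, mem_filter.2 ⟨hv, hBv⟩⟩, ?_, ?_⟩
    · intro h
      exact (mem_filter.1 (h ha)).2.1 (Or.inl rfl)
    · intro x hx y hy hyn
      rw [mem_filter] at hx
      have hy' : ¬ B y := fun h => hyn (mem_filter.2 ⟨hy, h⟩)
      by_cases ty : T y
      · have o := one x hx.1 hx.2.1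
        have hb := hx.2.2
        rcases ty with rfl | rfl | rfl <;> rcases fin3_cases (col x) with e1 | e1 | e1 <;>
          simp [e1, ca, cb, cc] at o hb ⊢ <;> grind
      · exact pair x hx.1 y hy hx.2.1 ty (Or.inl ⟨hx.2, hy'⟩)
  by_cases hA : ∃ v ∈ P, A v
  · right
    obtain ⟨v, hv, hAv⟩ := hA
    refine ⟨P.filter (fun x => ¬ A x), filter_subset _ _,
      ⟨a, mem_filter.2 ⟨ha, fun h => h.1 (Or.inl rfl)⟩⟩, ?_, ?_⟩
    · intro h
      exact (mem_filter.1 (h hv)).2 hAv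
    · intro x hx y hy hyn
      rw [mem_filter] at hx
      have hy' : A y := by
        by_contra h
        exact hyn (mem_filter.2 ⟨hy, h⟩)
      by_cases tx : T x
      · have o := one y hy hy'.1
        have hb := hy'.2
        rw [G.adj_comm x y]
        rcases tx with rfl | rfl | rfl <;> rcases fin3_cases (col y) with e1 | e1 | e1 <;>
          simp [e1, ca, cb, cc] at o hb ⊢ <;> grind
      · exact pair x hx.1 y hy tx hy'.1 (Or.inr ⟨hy', hx.2⟩)
  left
  push Not at hA hB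
  refine W_del (k := 2) (t := 3) (F := {a, b, c}) card_le_three (W_indep ?_)
  intro v hv w hw hvw
  simp only [mem_sdiff, mem_insert, mem_singleton] at hv hw
  have b1 := hB v hv.1
  have b2 := hB w hw.1
  have a1 := hA v hv.1
  have a2 := hA w hw.1
  have i1 := hind v hv.1 w hw.1
  have k1 := h2 v hv.1 w hw.1 a ha b hb
  have k2 := h2 v hv.1 w hw.1 a ha c hc
  have k3 := h2 v hv.1 w hw.1 b hb a ha
  have k4 := h2 v hv.1 w hw.1 b hb c hc
  have k5 := h2 v hv.1 w hw.1 c hc a ha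
  have k6 := h2 v hv.1 w hw.1 c hc b hb
  have tv : ¬ T v := hv.2
  have tw : ¬ T w := hw.2
  simp only [B, A, tv, tw, not_false_eq_true, true_and] at a1 a2 b1 b2
  rw [G.adj_comm a w] at k1 k2
  rw [G.adj_comm b w] at k3 k4
  rw [G.adj_comm c w] at k5 k6
  have hba := hab.symm
  have hca := hac.symm
  have hcb := hbc.symm
  rcases fin3_cases (col v) with e1 | e1 | e1 <;> rcases fin3_cases (col w) with e2 | e2 | e2 <;>
    simp [e1, e2, ca, cb, cc, hab, hac, hbc, hba, hca, hcb, hvw] at a1 a2 b1 b2 i1 k1 k2 k3 k4 k5 k6 <;>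
    grind

/-- the bound for three-partite graphs -/
def cTri : ℕ := 3 * (J 3 5 + 12 + 1)

lemma W_tri {G : SimpleGraph V} (hD : DF G) (hP : PF G) {S : Finset V} (col : V → Fin 3)
    (hind : ∀ a ∈ S, ∀ b ∈ S, G.Adj a b → col a ≠ col b)
    (h3 : ∀ a ∈ S, ∀ b ∈ S, ∀ c ∈ S, col a ≠ col b → col a ≠ col c → col b ≠ col c →
      G.Adj a b ∨ G.Adj a c ∨ G.Adj b c)
    (h2 : (∀ a ∈ S, ∀ b ∈ S, ∀ c ∈ S, G.Adj a b → G.Adj a c → G.Adj b c → False) ∨
      ∀ a ∈ S, ∀ b ∈ S, ∀ c ∈ S, ∀ d ∈ S, col a = col c → col b = col d → G.Adj a b →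
      G.Adj c d → G.Adj a d ∨ G.Adj c b) : W G cTri S := by
  refine W_cut col (fun P hPS => ?_)
  have hind' : ∀ a ∈ P, ∀ b ∈ P, G.Adj a b → col a ≠ col b :=
    fun a ha b hb => hind a (hPS ha) b (hPS hb)
  have h3' : ∀ a ∈ P, ∀ b ∈ P, ∀ c ∈ P, col a ≠ col b → col a ≠ col c → col b ≠ col c →
      G.Adj a b ∨ G.Adj a c ∨ G.Adj b c :=
    fun a ha b hb c hc => h3 a (hPS ha) b (hPS hb) c (hPS hc)
  by_cases hnt : ∀ a ∈ P, ∀ b ∈ P, ∀ c ∈ P, G.Adj a b → G.Adj a c → G.Adj b c → False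
  · by_cases hall : ∃ a ∈ P, ∃ b ∈ P, ∃ c ∈ P, col a = 0 ∧ col b = 1 ∧ col c = 2
    · obtain ⟨a, ha, b, hb, c, hc, ca, cb, cc⟩ := hall
      right
      exact cut_notri col hind' h3' hnt ha hb hc (by rw [ca, cb]; decide) (by rw [ca, cc]; decide)
        (by rw [cb, cc]; decide)
    · left
      have : ∃ i : Fin 3, ∀ a ∈ P, col a ≠ i := by
        by_contra hh
        push Not at hh
        obtain ⟨a, ha, ca⟩ := hh 0
        obtain ⟨b, hb, cb⟩ := hh 1
        obtain ⟨c, hc, cc⟩ := hh 2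
        exact hall ⟨a, ha, b, hb, c, hc, ca, cb, cc⟩
      obtain ⟨i, hi⟩ := this
      refine (W_bip hP (fun v => col v = i + 1) ?_).mono (by omega)
      intro a ha b hb hab
      exact fin3_side i _ _ (hind' a ha b hb hab) (hi a ha) (hi b hb)
  · have h2' : ∀ a ∈ P, ∀ b ∈ P, ∀ c ∈ P, ∀ d ∈ P, col a = col c → col b = col d → G.Adj a b →
        G.Adj c d → G.Adj a d ∨ G.Adj c b := by
      rcases h2 with h2 | h2
      · exact absurd (fun a ha b hb c hc => h2 a (hPS ha) b (hPS hb) c (hPS hc)) hnt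
      · exact fun a ha b hb c hc d hd => h2 a (hPS ha) b (hPS hb) c (hPS hc) d (hPS hd)
    push Not at hnt
    obtain ⟨a, ha, b, hb, c, hc, hab, hac, hbc, _⟩ := hnt
    have n1 := hind' a ha b hb hab
    have n2 := hind' a ha c hc hac
    have n3 := hind' b hb c hc hbc
    have fin : W G (J 3 5) P ∨ ∃ A ⊆ P, A.Nonempty ∧ ¬ P ⊆ A ∧
        ∀ a ∈ A, ∀ b ∈ P, b ∉ A → (G.Adj a b ↔ col b = col a + 1) := by
      rcases fin3_cases (col a) with e1 | e1 | e1 <;>
        rcases fin3_cases (col b) with e2 | e2 | e2 <;>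
        rcases fin3_cases (col c) with e3 | e3 | e3 <;>
        first
        | exact absurd (e1.trans e2.symm) n1
        | exact absurd (e1.trans e3.symm) n2
        | exact absurd (e2.trans e3.symm) n3
        | exact cut_tri hD col hind' h3' h2' ha hb hc e1 e2 e3 hab hac hbc
        | exact cut_tri hD col hind' h3' h2' ha hc hb e1 e3 e2 hac hab hbc.symm
        | exact cut_tri hD col hind' h3' h2' hb ha hc e2 e1 e3 hab.symm hbc hac
        | exact cut_tri hD col hind' h3' h2' hb hc ha e2 e3 e1 hbc hab.symm hac.symm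
        | exact cut_tri hD col hind' h3' h2' hc ha hb e3 e1 e2 hac.symm hbc.symm hab
        | exact cut_tri hD col hind' h3' h2' hc hb ha e3 e2 e1 hbc.symm hac.symm hab.symm
    rcases fin with h | h
    · exact Or.inl (h.mono (by omega))
    · exact Or.inr h

end

end Pool.Agent.MP_41f2d3_co
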